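import Pool.Agent.Helper76.RL.Gst
import Pool.Agent.Helper85.OA.Lf

/-! GEO (ii): NEW LEAVES. Over a label with a form in which the point is full there is a finer label (entropy `o(n)` over
the old one, no leak at the old label and the point) over which the point is on an algebraic leaf with full parameters. -/

set_option autoImplicit false

namespace Pool.Agent.Helper76.RL

open Metric Filter Topology
open Pool.Agent.Helper69.RK Pool.Agent.Helper31.EC Pool.Agent.Helper40.EL Pool.Agent.Helper89.LX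
open Pool.Agent.Helper95.LF Pool.Agent.Helper3.LF Pool.Agent.Helper84.MT Pool.Agent.Helper14.MC
open Pool.Agent.Helper31.EC.Sp (cell cl io)
open Pool.Agent.Helper85.OA

variable {m D : ℕ}

/-- the polynomials of the chart -/
noncomputable def qA (L : ℕ) (r : ℝ) (G : (Fin m → ℂ) → ℂ) : Polynomial (MvPolynomial (Fin m) ℂ) :=
  open Classical in if h : AlgR L r G then h.choose else 0

lemma ball_sub {Y : Fin m → ℝ} (hY : ∀ i, 0 ≤ Y i ∧ Y i ≤ 1) {R : ℝ} (hR : 5 ≤ R) :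
    ball (fun i => (Y i : ℂ)) 4 ⊆ ball (0 : Fin m → ℂ) R := by
  intro x hx
  rw [mem_ball, dist_eq_norm] at hx ⊢
  have h1 : ‖(fun i => (Y i : ℂ))‖ ≤ 1 := by
    rw [pi_norm_le_iff_of_nonneg zero_le_one]
    intro i
    rw [Complex.norm_real, Real.norm_eq_abs, abs_le]
    constructor <;> linarith [(hY i).1, (hY i).2]
  have h2 : ‖x - 0‖ ≤ ‖x - fun i => (Y i : ℂ)‖ + ‖(fun i => (Y i : ℂ))‖ := by
    have := norm_add_le (x - fun i => (Y i : ℂ)) (fun i => (Y i : ℂ))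
    rw [sub_add_cancel] at this
    rw [sub_zero]
    exact this
  linarith

lemma qA_ach {L : ℕ} {r : ℝ} {G : Fin m → (Fin m → ℂ) → ℂ} {Y : Fin m → ℝ} (hY : ∀ i, 0 ≤ Y i ∧ Y i ≤ 1) (hr : 5 ≤ r)
    (hd : ∀ j, DifferentiableOn ℂ (G j) (ball 0 r)) (ha : ∀ j, AlgR L r (G j)) :
    ACh L Y G (fun j => qA L r (G j)) := by
  have hb := ball_sub hY hr
  have h1 : ∀ j, qA L r (G j) = (ha j).choose := fun j => dif_pos (ha j)
  refine ⟨fun j => (hd j).mono hb, fun j => ?_, fun j => ?_, fun j x hx => ?_, fun j x hx => ?_⟩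
  · rw [h1]
    exact (ha j).choose_spec.1
  · rw [h1]
    exact (ha j).choose_spec.2.1
  · rw [h1]
    exact ((ha j).choose_spec.2.2 x (hb hx)).1
  · rw [h1]
    exact ((ha j).choose_spec.2.2 x (hb hx)).2

namespace GSeq

variable {W : Sp} {V : ∀ k, Setoid (W.F k).Ω} {Q : W.VV m} {L : ℕ} {C : ℝ} {a : ℕ → ℝ}
  {d : ∀ k, GD (W.F k) m} {K : ℕ → ℝ} {N : ℕ → ℕ}

lemma full_Y (x : GSeq V Q L C a d K N) :
    Tendsto (fun k => h (fc (Setoid.ker (x.Y.cellv 1 k))) (fc ((gl d).V k)) / ((gl d).sp.F k).n) UF (𝓝 m) := by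
  have h1 : (fun k => h (fc (Setoid.ker (x.Y.cellv 1 k))) (fc ((gl d).V k)) / ((gl d).sp.F k).n) =
      (gl d).sp.rt (x.Y.bdd 1).toInf.1 (gl d).V := by
    funext k
    rw [h_fc]
    rfl
  have h2 := ul_tendsto (Sp.UB_rt (x.Y.bdd 1).toInf (gl d).V)
  have h4 : ul ((gl d).sp.rt (x.Y.bdd 1).toInf.1 (gl d).V) ≤ m := by
    have h5 := x.Y.H_dg_le zero_le_one
    rw [mul_one] at h5
    refine le_trans ?_ h5
    have h6 : H (x.Y.dg 1) = ul ((gl d).sp.rt (x.Y.bdd 1).toInf.1 (gl d).sp.tr) := by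
      unfold Sp.VV.dg
      rw [Sp.io_eq (x.Y.bdd 1)]
      exact Sp.H_cl _
    rw [h6]
    refine le_of_tendsto_of_tendsto h2 (ul_tendsto (Sp.UB_rt _ _)) (Eventually.of_forall fun k => ?_)
    have h7 : h (fc ((x.Y.bdd 1).toInf.1 k)) (fc ((gl d).V k)) ≤ h (fc ((x.Y.bdd 1).toInf.1 k)) (fc ((gl d).sp.tr k)) := by
      have h8 : (fc ((gl d).sp.tr k) : FL ((gl d).sp.F k)) = ⊥ := rfl
      rw [h8, h_bot]
      exact h_le_H _ _
    rw [h_fc, h_fc] at h7
    exact div_le_div_of_nonneg_right h7 ((gl d).sp.F k).pos.le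
  have h5 : (m : ℝ) ≤ ul ((gl d).sp.rt (x.Y.bdd 1).toInf.1 (gl d).V) := by
    apply le_of_forall_pos_le_add
    intro ε hε
    rw [← sub_le_iff_le_add]
    apply const_le_ul (Sp.UB_rt (x.Y.bdd 1).toInf _)
    filter_upwards [x.q _ hε] with k hk
    have hn : 0 < (W.F k).n := (W.F k).pos
    have hnn : ((gl d).sp.F k).n = (W.F k).n := (d k).l.hn
    unfold Sp.rt
    rw [hnn, le_div_iff₀ hn]
    refine hk.ful.trans (le_of_eq ?_)
    have h1 : x.Y.cellv 1 k = fun w => cell (2 ^ (-(W.F k).n)) ((d k).Y w) := by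
      funext w
      show cell ((gl d).sp.dl 1 k) ((d k).Y w) = _
      rw [dl_one, hnn]
    show _ = (d k).l.T.e (Setoid.ker (x.Y.cellv 1 k)) ((d k).l.V ⊓ (d k).l.T.Z)
    rw [h1]
  rw [h1]
  rw [le_antisymm h4 h5] at h2
  exact h2

/-- THE LEAF -/
noncomputable def leaf (x : GSeq V Q L C a d K N) (hC : 0 < C) :
    Leaf (gl d).sp ((gl d).pj.vv Q) (Pool.Agent.Helper84.MT.lin (1 * cA m (m + m) L)) :=
  Leaf.ofAlgRe m L m le_rfl (gl d).V x.Y (fun k ω => (d k).G ω)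
    (by
      filter_upwards [x.q 1 one_pos] with k hk w w' h1 h2 h3 h4
      exact hk.geo.fn w w' h1 h2 h3 h4)
    (by
      refine ⟨fun k => C * K k, (gl d).sp.Sub_const hC.le |>.mul ((sp_Sub (gl d)).mpr x.subK), ?_⟩
      filter_upwards [x.q (1 / 5) (by norm_num)] with k hk w hw y hy j
      refine (Complex.abs_re_le_norm _).trans (hk.geo.bG w hw j _ ?_)
      have h5 : 5 ≤ √(N k : ℝ) / C := by
        have := hk.rad
        norm_num at this
        exact this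
      apply ball_sub (hk.geo.uY w) h5
      rw [mem_ball, dist_eq_norm]
      refine lt_of_le_of_lt (b := 1) ?_ (by norm_num)
      rw [pi_norm_le_iff_of_nonneg zero_le_one]
      intro i
      rw [Pi.sub_apply, ← Complex.ofReal_sub, Complex.norm_real, Real.norm_eq_abs]
      exact hy i)
    (fun k ω j => qA L (√(N k : ℝ) / C) ((d k).G ω j))
    (by
      filter_upwards [x.q (1 / 5) (by norm_num)] with k hk w hw
      have h5 : 5 ≤ √(N k : ℝ) / C := by
        have := hk.rad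
        norm_num at this
        exact this
      exact qA_ach (hk.geo.uY w) h5 (hk.geo.dG w) (hk.geo.aG w))
    (by
      refine ⟨fun k => C * K k, (gl d).sp.Sub_const hC.le |>.mul ((sp_Sub (gl d)).mpr x.subK), ?_⟩
      filter_upwards [x.q 1 one_pos] with k hk w hw j
      have h1 := hk.geo.pt w hw j
      have h2 : ((gl d).sp.F k).n = (W.F k).n := (d k).l.hn
      rw [dl_one, h2]
      refine le_trans ?_ h1
      have h3 := Complex.abs_re_le_norm (((Q.v k ((d k).l.p.π w) j : ℝ) : ℂ) - (d k).G w j (rc ((d k).Y w)))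
      rw [Complex.sub_re, Complex.ofReal_re] at h3
      exact h3)
    x.full_Y

end GSeq

/-- NEW LEAF over a partition which knows a form in which the point is full: `l` is a finer label of entropy `o(n)` over
`V` which does not leak at `V` and the point -/
structure NLeaf {W : Sp} (V : ∀ k, Setoid (W.F k).Ω) (Q : W.VV m) (g : ℕ) (l : Lab W)
    (f : Leaf l.sp (l.pj.vv Q) (Pool.Agent.Helper84.MT.lin g)) : Prop where
  e : f.e = m
  La : f.La = l.V
  vb : W.VB V → l.sp.VB l.V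
  le : ∀ᶠ k in UF, ∀ w w', (l k).V w w' → V k ((l k).p.π w) ((l k).p.π w')
  ent : Tendsto (fun k => h (l k).v ((l k).p.map (fc (V k))) / (W.F k).n) UF (𝓝 0)
  leak : ∀ᶠ k in UF, (l k).leak (fc (V k ⊓ Setoid.ker (Q.cellv 1 k))) = 0

/-- GEO (ii): NEW LEAVES exist -/
theorem geo_leaf (m D : ℕ) (hD : 1 ≤ D) : ∃ g : ℕ, ∀ {W : Sp} {V : ∀ k, Setoid (W.F k).Ω} {Q : W.VV m}
    {G : ∀ k, (W.F k).Ω → Matrix (Mon m D) (Mon m D) ℝ}, FIn V Q G →
    ∃ (l : Lab W) (f : Leaf l.sp (l.pj.vv Q) (Pool.Agent.Helper84.MT.lin g)), NLeaf V Q g l f := by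
  obtain ⟨L, C, hL, hC, hsq⟩ := exists_seq m D hD
  refine ⟨1 * cA m (m + m) L, ?_⟩
  intro W V Q G x
  have h1 : ∀ i : ℕ, 0 < 1 / ((i : ℝ) + 1) ∧ 1 / ((i : ℝ) + 1) ≤ 1 := by
    intro i
    refine ⟨by positivity, ?_⟩
    rw [div_le_one (by positivity)]
    have : (0 : ℝ) ≤ i := Nat.cast_nonneg i
    linarith
  obtain ⟨d, K, N, j, hj, s⟩ := hsq x (fun i => 1 / ((i : ℝ) + 1)) h1
  refine ⟨gl d, s.leaf (by linarith), ⟨rfl, rfl, fun hV => s.vb hV fun k => (h1 _).2, ?_, ?_, ?_⟩⟩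
  · filter_upwards [s.q 1 one_pos] with k hk
    exact hk.geo.le
  · rw [Metric.tendsto_nhds]
    intro ε hε
    have hη : 0 < ε / (4 * (m + 1)) := by positivity
    have h0 : Tendsto (fun k => 1 / ((j k : ℝ) + 1)) UF (𝓝 0) :=
      tendsto_one_div_add_atTop_nhds_zero_nat.comp hj
    filter_upwards [s.q _ hη, h0.eventually (gt_mem_nhds hη)] with k hk h2
    have hn : 0 < (W.F k).n := (W.F k).pos
    rw [Real.dist_eq, sub_zero, abs_of_nonneg (div_nonneg (h_nonneg _ _) hn.le), div_lt_iff₀ hn]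
    have e1 : h ((gl d) k).v (((gl d) k).p.map (fc (V k))) =
        (d k).l.T.e (d k).l.V (Setoid.comap (d k).l.p.π (V k) ⊓ (d k).l.T.Z) := by
      show h (fc (d k).l.V) ((d k).l.p.map (fc (V k))) = _
      rw [FPj.map_fc, h_fc]
    rw [e1]
    refine lt_of_le_of_lt hk.La ?_
    apply mul_lt_mul_of_pos_right _ hn
    have h3 : (m : ℝ) * (1 / ((j k : ℝ) + 1)) ≤ m * (ε / (4 * (m + 1))) :=
      mul_le_mul_of_nonneg_left h2.le (Nat.cast_nonneg _)
    have h4 : (m : ℝ) * (ε / (4 * (m + 1))) + ε / (4 * (m + 1)) = ε / 4 := by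
      field_simp
    linarith
  · filter_upwards [s.q 1 one_pos] with k hk
    rw [cellv_one]
    exact hk.geo.leak

/-- GEO (ii) for a label with an admissible form in which the point is full -/
theorem geo_leaf_adf (m D : ℕ) (hD : 1 ≤ D) : ∃ g : ℕ, ∀ {S : Sp} {κ : Type} {A : κ → Part S} (Q : S.VV m)
    (x : ∀ k, FD (S.F k) (Mon m D)), (gaq Q D).Adf A x → vol Q D x ≤ H (up1 (lb x) (Q.dg 1)) →
    ∃ (l : Lab (lb x).sp) (f : Leaf l.sp (l.pj.vv ((lb x).pj.vv Q)) (Pool.Agent.Helper84.MT.lin g)),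
      NLeaf (lb x).V ((lb x).pj.vv Q) g l f := by
  obtain ⟨g, h⟩ := geo_leaf m D hD
  exact ⟨g, fun Q x hx hf => h (FIn.of_adf Q x hx hf)⟩

end Pool.Agent.Helper76.RL
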