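import Pool.Agent.Helper31.EC.Fin

/-! Gibbs inequality for conditional entropies; extension of a finite space by a kernel. -/

set_option autoImplicit false

namespace Pool.Agent.Helper76.RL

open Finset Pool.Agent.Helper69.RK Pool.Agent.Helper31.EC

/-- GIBBS: the entropy of `f` given `g` is at most the expected `log 1 / Q` for every subprobability kernel `Q` -/
theorem gibbs_CH {Ω α γ : Type} [Fintype Ω] (μ : Ω → ℝ) (f : Ω → α) (g : Ω → γ) (hμ : ∀ ω, 0 ≤ μ ω)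
    (Q : γ → α → ℝ) (hQ0 : ∀ c b, 0 ≤ Q c b) (hQ : ∀ c (S : Finset α), ∑ b ∈ S, Q c b ≤ 1)
    (hp : ∀ ω, μ ω ≠ 0 → 0 < Q (g ω) (f ω)) : CH μ f g ≤ -∑ ω, μ ω * Real.logb 2 (Q (g ω) (f ω)) := by
  classical
  have key : ∑ ω, μ ω * Real.logb 2 (Q (g ω) (f ω) * (pr μ g ω / pr μ (fun ω' => (f ω', g ω')) ω)) ≤ 0 := by
    refine e3_gibbs μ _ hμ ?_ ?_
    · intro ω h0
      exact mul_pos (hp ω h0) (div_pos (e3_pr_pos μ g hμ ω h0) (e3_pr_pos μ _ hμ ω h0))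
    · have e1 : ∀ ω, μ ω * (Q (g ω) (f ω) * (pr μ g ω / pr μ (fun ω' => (f ω', g ω')) ω)) =
          ∑ ω1, (if g ω1 = g ω then μ ω1 else 0) * (μ ω / pr μ (fun ω' => (f ω', g ω')) ω * Q (g ω) (f ω)) := by
        intro ω
        rw [← Finset.sum_mul]
        have : pr μ g ω = ∑ ω1, (if g ω1 = g ω then μ ω1 else 0) := rfl
        rw [← this]
        ring
      rw [Finset.sum_congr rfl (fun ω _ => e1 ω), Finset.sum_comm]
      refine Finset.sum_le_sum fun ω1 _ => ?_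
      set S := (univ : Finset Ω).filter (fun ω' => μ ω' ≠ 0 ∧ g ω' = g ω1) with hS
      have e2 : ∑ ω, (if g ω1 = g ω then μ ω1 else 0) * (μ ω / pr μ (fun ω' => (f ω', g ω')) ω * Q (g ω) (f ω)) =
          μ ω1 * ∑ ω ∈ S, (μ ω / pr μ (fun ω' => (f ω', g ω')) ω * Q (g ω1) (f ω)) := by
        rw [Finset.mul_sum, ← Finset.sum_subset (Finset.subset_univ S)]
        · refine Finset.sum_congr rfl fun ω hω => ?_
          simp only [hS, Finset.mem_filter, Finset.mem_univ, true_and] at hω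
          rw [if_pos hω.2.symm, hω.2]
        · intro ω _ hω
          simp only [hS, Finset.mem_filter, Finset.mem_univ, true_and, not_and_or, not_not] at hω
          rcases hω with hω | hω
          · rw [hω, zero_div, zero_mul, mul_zero]
          · rw [if_neg (fun hh => hω hh.symm), zero_mul]
      rw [e2]
      have e3 : ∑ ω ∈ S, (μ ω / pr μ (fun ω' => (f ω', g ω')) ω * Q (g ω1) (f ω)) ≤ 1 := by
        rw [← Finset.sum_fiberwise_of_maps_to (s := S) (t := S.image f) (g := f)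
          (fun ω hω => Finset.mem_image_of_mem f hω)]
        refine le_trans ?_ (hQ (g ω1) (S.image f))
        refine Finset.sum_le_sum fun v hv => ?_
        obtain ⟨ω0, hω0, hv0⟩ := Finset.mem_image.1 hv
        have hg0 : g ω0 = g ω1 := by
          simp only [hS, Finset.mem_filter] at hω0
          exact hω0.2.2
        have h2 : ∀ ω ∈ S.filter (fun ω => f ω = v), (f ω, g ω) = (f ω0, g ω0) := by
          intro ω hω
          simp only [hS, Finset.mem_filter, Finset.mem_univ, true_and] at hω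
          exact Prod.ext (hω.2.trans hv0.symm) (hω.1.2.trans hg0.symm)
        have h3 : ∀ ω ∈ S.filter (fun ω => f ω = v), μ ω / pr μ (fun ω' => (f ω', g ω')) ω * Q (g ω1) (f ω) =
            μ ω * (Q (g ω1) v / pr μ (fun ω' => (f ω', g ω')) ω0) := by
          intro ω hω
          rw [e3_pr_atom μ (fun ω' => (f ω', g ω')) ω ω0 (h2 ω hω), (Finset.mem_filter.mp hω).2]
          ring
        rw [Finset.sum_congr rfl h3, ← Finset.sum_mul]
        have h4 := e3_sum_le_pr μ (fun ω' => (f ω', g ω')) hμ ω0 _ h2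
        have h5 := e3_pr_nonneg μ (fun ω' => (f ω', g ω')) hμ ω0
        rcases h5.lt_or_eq with h6 | h6
        · rw [mul_div_assoc', div_le_iff₀ h6, mul_comm]
          exact mul_le_mul_of_nonneg_left h4 (hQ0 _ _)
        · rw [← h6, div_zero, mul_zero]
          exact hQ0 _ _
      calc μ ω1 * ∑ ω ∈ S, (μ ω / pr μ (fun ω' => (f ω', g ω')) ω * Q (g ω1) (f ω)) ≤ μ ω1 * 1 :=
            mul_le_mul_of_nonneg_left e3 (hμ ω1)
        _ = μ ω1 := mul_one _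
  unfold CH
  rw [← sub_nonpos, sub_neg_eq_add, ← Finset.sum_add_distrib]
  refine le_trans (le_of_eq (Finset.sum_congr rfl fun ω _ => ?_)) key
  by_cases h0 : μ ω = 0
  · rw [h0]
    ring
  · have a1 := e3_pr_pos μ g hμ ω h0
    have a2 := e3_pr_pos μ (fun ω' => (f ω', g ω')) hμ ω h0
    have a3 := hp ω h0
    rw [Real.logb_mul a3.ne' (div_pos a1 a2).ne', Real.logb_div a1.ne' a2.ne']
    ring

/-! ### kernels -/

/-- extension of the weights by a kernel -/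
def kμ {Ω A : Type} (μ : Ω → ℝ) (k : Ω → A → ℝ) : Ω × A → ℝ := fun w => μ w.1 * k w.1 w.2

variable {Ω A α γ : Type} [Fintype Ω] [Fintype A]

lemma sum_kμ (μ : Ω → ℝ) (k : Ω → A → ℝ) (F : Ω × A → ℝ) :
    ∑ w, kμ μ k w * F w = ∑ ω, μ ω * ∑ a, k ω a * F (ω, a) := by
  rw [Fintype.sum_prod_type]
  refine Finset.sum_congr rfl fun ω _ => ?_
  rw [Finset.mul_sum]
  refine Finset.sum_congr rfl fun a _ => ?_
  unfold kμ
  ring

lemma sum_kμ_fst (μ : Ω → ℝ) (k : Ω → A → ℝ) (h1 : ∀ ω, ∑ a, k ω a = 1) (F : Ω → ℝ) :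
    ∑ w, kμ μ k w * F w.1 = ∑ ω, μ ω * F ω := by
  rw [sum_kμ]
  refine Finset.sum_congr rfl fun ω _ => ?_
  simp only
  rw [← Finset.sum_mul, h1, one_mul]

lemma pr_kμ_fst (μ : Ω → ℝ) (k : Ω → A → ℝ) (h1 : ∀ ω, ∑ a, k ω a = 1) (g : Ω → γ) (w : Ω × A) :
    pr (kμ μ k) (fun w => g w.1) w = pr μ g w.1 := by
  classical
  rw [e1_pr_eq, e1_pr_eq]
  have h2 := sum_kμ_fst μ k h1 (fun ω => if g ω = g w.1 then (1 : ℝ) else 0)
  refine (Finset.sum_congr rfl fun w' _ => ?_).trans (h2.trans (Finset.sum_congr rfl fun ω _ => ?_))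
  · split_ifs <;> simp
  · split_ifs <;> simp

lemma CH_kμ_fst (μ : Ω → ℝ) (k : Ω → A → ℝ) (h1 : ∀ ω, ∑ a, k ω a = 1) (f : Ω → α) (g : Ω → γ) :
    CH (kμ μ k) (fun w => f w.1) (fun w => g w.1) = CH μ f g := by
  unfold CH
  rw [← sum_kμ_fst μ k h1 (fun ω => Real.logb 2 (pr μ g ω) - Real.logb 2 (pr μ (fun ω' => (f ω', g ω')) ω))]
  refine Finset.sum_congr rfl fun w _ => ?_
  rw [pr_kμ_fst μ k h1 g w, pr_kμ_fst μ k h1 (fun ω => (f ω, g ω)) w]

/-- the kernel is a function of `g` -/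
lemma pr_kμ_snd (μ : Ω → ℝ) (k : Ω → A → ℝ) (g : Ω → γ)
    (hk : ∀ ω ω', μ ω ≠ 0 → μ ω' ≠ 0 → g ω = g ω' → k ω = k ω') (w : Ω × A) (hw : μ w.1 ≠ 0) :
    pr (kμ μ k) (fun w => (w.2, g w.1)) w = pr μ g w.1 * k w.1 w.2 := by
  classical
  rw [e1_pr_eq, e1_pr_eq, Fintype.sum_prod_type, Finset.sum_mul]
  refine Finset.sum_congr rfl fun ω _ => ?_
  rw [Finset.sum_eq_single w.2]
  · by_cases h : g ω = g w.1
    · rw [if_pos (by rw [h]), if_pos h]
      unfold kμ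
      by_cases h0 : μ ω = 0
      · simp [h0]
      · simp only
        rw [hk ω w.1 h0 hw h]
    · rw [if_neg (fun h' => h (Prod.mk.inj h').2), if_neg h, zero_mul]
  · intro a _ ha
    rw [if_neg (fun h' => ha (Prod.mk.inj h').1)]
  · intro h
    exact absurd (Finset.mem_univ _) h

/-- exact formula for the entropy of a kernel -/
lemma CH_kμ_snd (μ : Ω → ℝ) (hμ : ∀ ω, 0 ≤ μ ω) (k : Ω → A → ℝ) (h1 : ∀ ω, ∑ a, k ω a = 1) (g : Ω → γ)
    (hk : ∀ ω ω', μ ω ≠ 0 → μ ω' ≠ 0 → g ω = g ω' → k ω = k ω') :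
    CH (kμ μ k) (fun w => w.2) (fun w => g w.1) = -∑ w, kμ μ k w * Real.logb 2 (k w.1 w.2) := by
  unfold CH
  rw [← Finset.sum_neg_distrib]
  refine Finset.sum_congr rfl fun w _ => ?_
  by_cases h0 : kμ μ k w = 0
  · rw [h0]
    ring
  have h2 : μ w.1 ≠ 0 := left_ne_zero_of_mul h0
  have h3 : k w.1 w.2 ≠ 0 := right_ne_zero_of_mul h0
  rw [pr_kμ_fst μ k h1 g w, pr_kμ_snd μ k g hk w h2]
  have h4 := e3_pr_pos μ g hμ w.1 h2
  rw [Real.logb_mul h4.ne' h3]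
  ring

/-- THE KERNEL LEMMA -/
theorem ker_ent {β α' : Type} (μ : Ω → ℝ) (hμ : ∀ ω, 0 ≤ μ ω) (v : Ω → γ) (z : Ω → β) (k : γ → β → A → ℝ)
    (h0 : ∀ c b a, 0 ≤ k c b a) (h1 : ∀ c b, ∑ a, k c b a = 1) (f : A → β → α') (hf : ∀ b a a', f a b = f a' b → a = a')
    (Q : γ → α' → β → ℝ) (hQ0 : ∀ c a b, 0 ≤ Q c a b) (hQ : ∀ c a (S : Finset β), ∑ b ∈ S, Q c a b ≤ 1)
    (hp : ∀ ω a, μ ω ≠ 0 → k (v ω) (z ω) a ≠ 0 → 0 < Q (v ω) (f a (z ω)) (z ω)) :
    CH μ z v + ∑ ω, μ ω * ∑ a, k (v ω) (z ω) a *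
      Real.logb 2 (Q (v ω) (f a (z ω)) (z ω) / k (v ω) (z ω) a) ≤
    CH (kμ μ fun ω => k (v ω) (z ω)) (fun w => f w.2 (z w.1)) (fun w => v w.1) := by
  set κ : Ω → A → ℝ := fun ω => k (v ω) (z ω) with hκ
  have hκ1 : ∀ ω, ∑ a, κ ω a = 1 := fun ω => h1 _ _
  have hν : ∀ w, 0 ≤ kμ μ κ w := fun w => mul_nonneg (hμ _) (h0 _ _ _)
  -- chain rules
  have c1 := e1_chain (kμ μ κ) (fun w => z w.1) (fun w => f w.2 (z w.1)) (fun w => v w.1)
  have c2 := e1_chain (kμ μ κ) (fun w => f w.2 (z w.1)) (fun w => z w.1) (fun w => v w.1)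
  have c3 := e4_swap (kμ μ κ) (fun w => z w.1) (fun w => f w.2 (z w.1)) (fun w => v w.1)
  have c4 := CH_kμ_fst μ κ hκ1 z v
  -- the entropy of the kernel
  have c5 : CH (kμ μ κ) (fun w => f w.2 (z w.1)) (fun w => (z w.1, v w.1)) =
      -∑ w, kμ μ κ w * Real.logb 2 (κ w.1 w.2) := by
    rw [← CH_kμ_snd μ hμ κ hκ1 (fun ω => (z ω, v ω)) (fun ω ω' _ _ h => by
      rw [Prod.mk.injEq] at h
      rw [hκ]
      simp only
      rw [h.1, h.2])]
    apply e2_CH_congr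
    · intro ω ω' _ _
      exact Iff.rfl
    · intro w w' _ _
      rw [Prod.mk.injEq, Prod.mk.injEq (fst := w'.2)]
      refine and_congr_left fun h => ?_
      rw [Prod.mk.injEq] at h
      rw [h.1]
      exact ⟨fun h' => hf _ _ _ h', fun h' => by rw [h']⟩
  -- Gibbs
  have c6 := gibbs_CH (kμ μ κ) (fun w => z w.1) (fun w => (f w.2 (z w.1), v w.1)) hν (fun c b => Q c.2 c.1 b)
    (fun c b => hQ0 _ _ _) (fun c S => hQ _ _ S) (fun w hw => hp w.1 w.2 (left_ne_zero_of_mul hw) (right_ne_zero_of_mul hw))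
  have c7 : ∑ ω, μ ω * ∑ a, κ ω a * Real.logb 2 (Q (v ω) (f a (z ω)) (z ω) / κ ω a) =
      ∑ w, kμ μ κ w * Real.logb 2 (Q (v w.1) (f w.2 (z w.1)) (z w.1)) - ∑ w, kμ μ κ w * Real.logb 2 (κ w.1 w.2) := by
    rw [← Finset.sum_sub_distrib, ← sum_kμ μ κ (fun w => Real.logb 2 (Q (v w.1) (f w.2 (z w.1)) (z w.1) / κ w.1 w.2))]
    refine Finset.sum_congr rfl fun w _ => ?_
    by_cases h : kμ μ κ w = 0
    · rw [h]
      ring
    · have h2 : κ w.1 w.2 ≠ 0 := right_ne_zero_of_mul h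
      rw [Real.logb_div (hp w.1 w.2 (left_ne_zero_of_mul h) h2).ne' h2]
      ring
  have c8 : ∑ ω, μ ω * ∑ a, k (v ω) (z ω) a * Real.logb 2 (Q (v ω) (f a (z ω)) (z ω) / k (v ω) (z ω) a) =
      ∑ ω, μ ω * ∑ a, κ ω a * Real.logb 2 (Q (v ω) (f a (z ω)) (z ω) / κ ω a) := rfl
  rw [c8, c7]
  simp only at c6
  linarith

end Pool.Agent.Helper76.RL
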