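import Mathlib

/-! POLYNOMIAL APPROXIMATION of holomorphic functions of several variables on a small cube: interpolation in each
variable. -/

set_option autoImplicit false

namespace Pool.Agent.Helper76.RL

open Metric Polynomial

/-- Taylor polynomials with an explicit error -/
lemma taylor1 {φ : ℂ → ℂ} {S : ℝ} (hS : 2 ≤ S) (hφ : DifferentiableOn ℂ φ (closedBall 0 S)) {M : ℝ}
    (hM : ∀ t ∈ closedBall (0 : ℂ) S, ‖φ t‖ ≤ M) (K : ℕ) :
    ∃ T : ℂ[X], T.natDegree ≤ K ∧ ∀ t : ℂ, ‖t‖ ≤ 1 → ‖φ t - T.eval t‖ ≤ 2 * M * S⁻¹ ^ (K + 1) := by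
  have hS0 : 0 < S := by linarith
  have hM0 : 0 ≤ M := (norm_nonneg _).trans (hM 0 (mem_closedBall_self hS0.le))
  set R : NNReal := ⟨S, hS0.le⟩ with hR
  have hp : HasFPowerSeriesOnBall φ (cauchyPowerSeries φ 0 R) 0 R :=
    DifferentiableOn.hasFPowerSeriesOnBall (R := R) hφ (by exact_mod_cast hS0)
  set p := cauchyPowerSeries φ 0 R with hpdef
  have hb : ∀ n, ‖p.coeff n‖ ≤ M * S⁻¹ ^ n := by
    intro n
    have h1 : ‖p.coeff n‖ ≤ ‖p n‖ := by
      rw [FormalMultilinearSeries.norm_apply_eq_norm_coef]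
    refine h1.trans ((norm_cauchyPowerSeries_le φ 0 R n).trans ?_)
    have h2 : |(R : ℝ)|⁻¹ = S⁻¹ := by
      rw [abs_of_nonneg (NNReal.coe_nonneg R)]
      rfl
    rw [h2]
    refine mul_le_mul_of_nonneg_right ?_ (by positivity)
    have h3 : ∫ θ : ℝ in (0)..(2 * Real.pi), ‖φ (circleMap 0 R θ)‖ ≤ ∫ θ : ℝ in (0)..(2 * Real.pi), M := by
      refine intervalIntegral.integral_mono_on (by positivity) ?_ intervalIntegrable_const ?_
      · apply Continuous.intervalIntegrable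
        refine continuous_norm.comp ?_
        refine hφ.continuousOn.comp_continuous (continuous_circleMap 0 R) ?_
        intro θ
        exact circleMap_mem_closedBall 0 R.2 θ
      · intro θ _
        exact hM _ (circleMap_mem_closedBall 0 R.2 θ)
    rw [intervalIntegral.integral_const, smul_eq_mul, sub_zero] at h3
    calc (2 * Real.pi)⁻¹ * ∫ θ : ℝ in (0)..(2 * Real.pi), ‖φ (circleMap 0 R θ)‖
        ≤ (2 * Real.pi)⁻¹ * (2 * Real.pi * M) := mul_le_mul_of_nonneg_left h3 (by positivity)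
      _ = M := by
          have := Real.pi_pos
          field_simp
  refine ⟨∑ n ∈ Finset.range (K + 1), C (p.coeff n) * X ^ n, ?_, ?_⟩
  · refine (Polynomial.natDegree_sum_le _ _).trans ?_
    rw [Finset.fold_max_le]
    refine ⟨Nat.zero_le _, fun n hn => ?_⟩
    exact (Polynomial.natDegree_C_mul_X_pow_le _ _).trans (Nat.lt_succ_iff.mp (Finset.mem_range.mp hn))
  · intro t ht
    have h4 : HasSum (fun n => t ^ n • p.coeff n) (φ t) := by
      have h5 := hp.hasSum (y := t) (by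
        simp only [Metric.mem_eball, edist_zero_right]
        have h6 : ‖t‖ < S := by linarith
        rw [enorm_eq_nnnorm]
        exact_mod_cast (show ‖t‖₊ < R from h6))
      rw [zero_add] at h5
      simpa only [FormalMultilinearSeries.apply_eq_pow_smul_coeff] using h5
    have h7 : (∑ n ∈ Finset.range (K + 1), C (p.coeff n) * X ^ n).eval t =
        ∑ n ∈ Finset.range (K + 1), t ^ n • p.coeff n := by
      rw [Polynomial.eval_finsetSum]
      refine Finset.sum_congr rfl fun n _ => ?_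
      rw [eval_mul, eval_C, eval_pow, eval_X, smul_eq_mul, mul_comm]
    rw [h7]
    have h8 : HasSum (fun n => t ^ (n + (K + 1)) • p.coeff (n + (K + 1)))
        (φ t - ∑ n ∈ Finset.range (K + 1), t ^ n • p.coeff n) := (hasSum_nat_add_iff' (K + 1)).mpr h4
    have hSi : S⁻¹ ≤ 1 / 2 := by
      rw [inv_le_comm₀ hS0 (by norm_num)]
      simpa using hS
    have hSi0 : 0 ≤ S⁻¹ := by positivity
    have h9 : HasSum (fun n : ℕ => M * S⁻¹ ^ (K + 1) * S⁻¹ ^ n) (M * S⁻¹ ^ (K + 1) * (1 - S⁻¹)⁻¹) :=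
      (hasSum_geometric_of_lt_one hSi0 (by linarith)).mul_left _
    have h10 : ‖φ t - ∑ n ∈ Finset.range (K + 1), t ^ n • p.coeff n‖ ≤ M * S⁻¹ ^ (K + 1) * (1 - S⁻¹)⁻¹ := by
      rw [← h8.tsum_eq, ← h9.tsum_eq]
      refine tsum_of_norm_bounded h9.summable.hasSum ?_ |>.trans (le_of_eq rfl)
      intro n
      rw [norm_smul, norm_pow]
      calc ‖t‖ ^ (n + (K + 1)) * ‖p.coeff (n + (K + 1))‖ ≤ 1 * (M * S⁻¹ ^ (n + (K + 1))) :=
            mul_le_mul (pow_le_one₀ (norm_nonneg _) ht) (hb _) (norm_nonneg _) zero_le_one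
        _ = M * S⁻¹ ^ (K + 1) * S⁻¹ ^ n := by rw [pow_add]; ring
    refine h10.trans ?_
    have h11 : (1 - S⁻¹)⁻¹ ≤ 2 := by
      rw [inv_le_comm₀ (by linarith) (by norm_num)]
      linarith
    calc M * S⁻¹ ^ (K + 1) * (1 - S⁻¹)⁻¹ ≤ M * S⁻¹ ^ (K + 1) * 2 := mul_le_mul_of_nonneg_left h11 (by positivity)
      _ = _ := by ring

/-- the nodes -/
noncomputable def nd (K : ℕ) (j : Fin (K + 1)) : ℂ := ((j : ℕ) : ℂ) / ((K : ℂ) + 1)

lemma nd_eq (K : ℕ) (j : Fin (K + 1)) : nd K j = (((((j : ℕ) : ℝ) / ((K : ℝ) + 1)) : ℝ) : ℂ) := by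
  simp [nd]

lemma nd_inj (K : ℕ) : Set.InjOn (nd K) (Finset.univ : Finset (Fin (K + 1))) := by
  intro a _ b _ hab
  have hK : ((K : ℂ) + 1) ≠ 0 := by exact_mod_cast Nat.succ_ne_zero K
  have h1 : ((a : ℕ) : ℂ) / ((K : ℂ) + 1) = ((b : ℕ) : ℂ) / ((K : ℂ) + 1) := hab
  rw [div_left_inj' hK] at h1
  exact Fin.ext (by exact_mod_cast h1)

lemma nd_mem (K : ℕ) (j : Fin (K + 1)) : 0 ≤ ((j : ℕ) : ℝ) / ((K : ℝ) + 1) ∧ ((j : ℕ) : ℝ) / ((K : ℝ) + 1) ≤ 1 := by
  refine ⟨by positivity, ?_⟩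
  rw [div_le_one (by positivity)]
  have : ((j : ℕ) : ℝ) ≤ K := by exact_mod_cast Nat.lt_succ_iff.mp j.2
  linarith

lemma nd_norm (K : ℕ) (j : Fin (K + 1)) : ‖nd K j‖ ≤ 1 := by
  rw [nd_eq, Complex.norm_real, Real.norm_eq_abs, abs_of_nonneg (nd_mem K j).1]
  exact (nd_mem K j).2

/-- the Lagrange basis -/
noncomputable def lg (K : ℕ) (j : Fin (K + 1)) : ℂ[X] := Lagrange.basis Finset.univ (nd K) j

lemma lg_natDegree (K : ℕ) (j : Fin (K + 1)) : (lg K j).natDegree ≤ K := by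
  unfold lg
  rw [Lagrange.natDegree_basis (nd_inj K) (Finset.mem_univ j)]
  simp

/-- a bound for the values and the coefficients of the Lagrange basis -/
lemma exists_lg_bound (K : ℕ) : ∃ L : ℝ, 1 ≤ L ∧ (∀ j, ∀ t : ℝ, 0 ≤ t → t ≤ 1 → ‖(lg K j).eval (t : ℂ)‖ ≤ L) ∧
    ∀ j i, ‖(lg K j).coeff i‖ ≤ L := by
  have h1 : ∀ j, ∃ L : ℝ, (∀ t : ℝ, 0 ≤ t → t ≤ 1 → ‖(lg K j).eval (t : ℂ)‖ ≤ L) ∧ ∀ i, ‖(lg K j).coeff i‖ ≤ L := by
    intro j
    have h2 : ContinuousOn (fun t : ℝ => ‖(lg K j).eval (t : ℂ)‖) (Set.Icc 0 1) := by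
      apply Continuous.continuousOn
      exact continuous_norm.comp ((lg K j).continuous.comp Complex.continuous_ofReal)
    obtain ⟨L1, hL1⟩ := isCompact_Icc.bddAbove_image h2
    refine ⟨max L1 (∑ i ∈ Finset.range (K + 1), ‖(lg K j).coeff i‖), ?_, ?_⟩
    · intro t ht0 ht1
      exact (hL1 (Set.mem_image_of_mem _ ⟨ht0, ht1⟩)).trans (le_max_left _ _)
    · intro i
      refine le_trans ?_ (le_max_right _ _)
      by_cases hi : i < K + 1
      · exact Finset.single_le_sum (f := fun i => ‖(lg K j).coeff i‖) (fun _ _ => norm_nonneg _) (Finset.mem_range.mpr hi)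
      · rw [Polynomial.coeff_eq_zero_of_natDegree_lt (by have := lg_natDegree K j; omega), norm_zero]
        exact Finset.sum_nonneg fun _ _ => norm_nonneg _
  choose L hL1 hL2 using h1
  refine ⟨1 + ∑ j, |L j|, ?_, ?_, ?_⟩
  · have : 0 ≤ ∑ j, |L j| := Finset.sum_nonneg fun _ _ => abs_nonneg _
    linarith
  · intro j t ht0 ht1
    have h3 : |L j| ≤ ∑ j, |L j| := Finset.single_le_sum (f := fun j => |L j|) (fun _ _ => abs_nonneg _) (Finset.mem_univ j)
    have h4 := hL1 j t ht0 ht1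
    have h5 := le_abs_self (L j)
    linarith
  · intro j i
    have h3 : |L j| ≤ ∑ j, |L j| := Finset.single_le_sum (f := fun j => |L j|) (fun _ _ => abs_nonneg _) (Finset.mem_univ j)
    have h4 := hL2 j i
    have h5 := le_abs_self (L j)
    linarith

/-- INTERPOLATION in one variable -/
lemma interp1 (K : ℕ) {L : ℝ} (hL : ∀ j, ∀ t : ℝ, 0 ≤ t → t ≤ 1 → ‖(lg K j).eval (t : ℂ)‖ ≤ L)
    {φ : ℂ → ℂ} {S : ℝ} (hS : 2 ≤ S) (hφ : DifferentiableOn ℂ φ (closedBall 0 S)) {M : ℝ}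
    (hM : ∀ t ∈ closedBall (0 : ℂ) S, ‖φ t‖ ≤ M) (t : ℝ) (ht0 : 0 ≤ t) (ht1 : t ≤ 1) :
    ‖φ t - ∑ j, (lg K j).eval (t : ℂ) * φ (nd K j)‖ ≤ (1 + ((K : ℝ) + 1) * L) * (2 * M * S⁻¹ ^ (K + 1)) := by
  obtain ⟨T, hT1, hT2⟩ := taylor1 hS hφ hM K
  have hTdeg : T.degree < (Finset.univ : Finset (Fin (K + 1))).card := by
    rw [Finset.card_univ, Fintype.card_fin]
    exact (Polynomial.degree_le_natDegree).trans_lt (by exact_mod_cast Nat.lt_succ_of_le hT1)
  have h1 : T.eval (t : ℂ) = ∑ j, (lg K j).eval (t : ℂ) * T.eval (nd K j) := by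
    have h2 := Lagrange.eq_interpolate (v := nd K) (nd_inj K) hTdeg
    conv_lhs => rw [h2]
    rw [Lagrange.interpolate_apply, Polynomial.eval_finsetSum]
    refine Finset.sum_congr rfl fun j _ => ?_
    rw [eval_mul, eval_C, mul_comm]
    rfl
  have ht : ‖(t : ℂ)‖ ≤ 1 := by
    rw [Complex.norm_real, Real.norm_eq_abs, abs_of_nonneg ht0]
    exact ht1
  have h3 : φ t - ∑ j, (lg K j).eval (t : ℂ) * φ (nd K j) =
      (φ t - T.eval (t : ℂ)) - ∑ j, (lg K j).eval (t : ℂ) * (φ (nd K j) - T.eval (nd K j)) := by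
    simp only [mul_sub, Finset.sum_sub_distrib]
    rw [← h1]
    ring
  rw [h3]
  have h4 : ‖∑ j, (lg K j).eval (t : ℂ) * (φ (nd K j) - T.eval (nd K j))‖ ≤
      ((K : ℝ) + 1) * L * (2 * M * S⁻¹ ^ (K + 1)) := by
    refine (norm_sum_le _ _).trans ?_
    have h5 : ∀ j ∈ (Finset.univ : Finset (Fin (K + 1))),
        ‖(lg K j).eval (t : ℂ) * (φ (nd K j) - T.eval (nd K j))‖ ≤ L * (2 * M * S⁻¹ ^ (K + 1)) := by
      intro j _
      rw [norm_mul]
      exact mul_le_mul (hL j t ht0 ht1) (hT2 _ (nd_norm K j)) (norm_nonneg _)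
        ((norm_nonneg _).trans (hL j t ht0 ht1))
    refine (Finset.sum_le_sum h5).trans (le_of_eq ?_)
    rw [Finset.sum_const, Finset.card_univ, Fintype.card_fin, nsmul_eq_mul]
    push_cast
    ring
  refine (norm_sub_le _ _).trans ?_
  have h6 := hT2 t ht
  calc ‖φ t - T.eval (t : ℂ)‖ + ‖∑ j, (lg K j).eval (t : ℂ) * (φ (nd K j) - T.eval (nd K j))‖
      ≤ 2 * M * S⁻¹ ^ (K + 1) + ((K : ℝ) + 1) * L * (2 * M * S⁻¹ ^ (K + 1)) := add_le_add h6 h4
    _ = _ := by ring

lemma diff_cons_left {m : ℕ} (Y : Fin m → ℂ) : Differentiable ℂ (fun t : ℂ => (Fin.cons t Y : Fin (m + 1) → ℂ)) := by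
  rw [differentiable_pi]
  intro i
  refine Fin.cases ?_ (fun j => ?_) i
  · simp
  · simp

lemma diff_cons_right {m : ℕ} (t : ℂ) : Differentiable ℂ (fun Y : Fin m → ℂ => (Fin.cons t Y : Fin (m + 1) → ℂ)) := by
  rw [differentiable_pi]
  intro i
  refine Fin.cases ?_ (fun j => ?_) i
  · simp
  · simpa using differentiable_apply j

lemma cons_mem {m : ℕ} {t : ℂ} {Y : Fin m → ℂ} {S : ℝ} (hS : 0 ≤ S) (ht : ‖t‖ ≤ S) (hY : ‖Y‖ ≤ S) :
    (Fin.cons t Y : Fin (m + 1) → ℂ) ∈ closedBall (0 : Fin (m + 1) → ℂ) S := by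
  rw [mem_closedBall_zero_iff, pi_norm_le_iff_of_nonneg hS]
  intro i
  refine Fin.cases ?_ (fun j => ?_) i
  · simpa using ht
  · simpa using (norm_le_pi_norm Y j).trans hY

/-- POLYNOMIAL APPROXIMATION in several variables -/
theorem approx (m K : ℕ) : ∃ C : ℝ, 0 < C ∧ ∀ (S : ℝ), 2 ≤ S → ∀ (M : ℝ), 0 ≤ M → ∀ (F : (Fin m → ℂ) → ℂ),
    DifferentiableOn ℂ F (closedBall 0 S) → (∀ x ∈ closedBall (0 : Fin m → ℂ) S, ‖F x‖ ≤ M) →
    ∃ P : MvPolynomial (Fin m) ℂ, P.totalDegree ≤ m * K ∧ (∀ a, ‖P.coeff a‖ ≤ C * M) ∧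
      ∀ Y : Fin m → ℝ, (∀ i, 0 ≤ Y i) → (∀ i, Y i ≤ 1) →
        ‖F (fun i => (Y i : ℂ)) - MvPolynomial.eval (fun i => (Y i : ℂ)) P‖ ≤ C * M * S⁻¹ ^ (K + 1) := by
  obtain ⟨L, hL1, hL2, hL3⟩ := exists_lg_bound K
  induction m with
  | zero =>
    refine ⟨1, one_pos, fun S hS M hM F _ hFM => ⟨MvPolynomial.C (F 0), ?_, ?_, ?_⟩⟩
    · simp
    · intro a
      rw [one_mul]
      have h1 : ‖F 0‖ ≤ M := hFM 0 (mem_closedBall_self (by linarith))
      rw [MvPolynomial.coeff_C]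
      split_ifs
      · exact h1
      · simpa using hM
    · intro Y _ _
      have h2 : (fun i => (Y i : ℂ)) = (0 : Fin 0 → ℂ) := by
        funext i
        exact i.elim0
      rw [h2, MvPolynomial.eval_C, sub_self, norm_zero]
      positivity
  | succ m ih =>
    obtain ⟨C, hC, ih⟩ := ih
    refine ⟨(1 + ((K : ℝ) + 1) * L) * 2 + ((K : ℝ) + 1) * L * C, by positivity, fun S hS M hM F hF hFM => ?_⟩
    have hS0 : 0 ≤ S := by linarith
    have h1 : ∀ j : Fin (K + 1), ∃ P : MvPolynomial (Fin m) ℂ, P.totalDegree ≤ m * K ∧ (∀ a, ‖P.coeff a‖ ≤ C * M) ∧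
        ∀ Y : Fin m → ℝ, (∀ i, 0 ≤ Y i) → (∀ i, Y i ≤ 1) →
          ‖F (Fin.cons (nd K j) (fun i => (Y i : ℂ))) - MvPolynomial.eval (fun i => (Y i : ℂ)) P‖ ≤
            C * M * S⁻¹ ^ (K + 1) := by
      intro j
      refine ih S hS M hM (fun Y => F (Fin.cons (nd K j) Y)) ?_ ?_
      · refine hF.comp (diff_cons_right (nd K j)).differentiableOn ?_
        intro Y hY
        exact cons_mem hS0 ((nd_norm K j).trans (by linarith)) (mem_closedBall_zero_iff.mp hY)
      · intro Y hY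
        exact hFM _ (cons_mem hS0 ((nd_norm K j).trans (by linarith)) (mem_closedBall_zero_iff.mp hY))
    choose P hP1 hP2 hP3 using h1
    set Q : Polynomial (MvPolynomial (Fin m) ℂ) :=
      ∑ j, (lg K j).map MvPolynomial.C * Polynomial.C (P j) with hQ
    have hQc : ∀ i, Q.coeff i = ∑ j, MvPolynomial.C ((lg K j).coeff i) * P j := by
      intro i
      rw [hQ, Polynomial.finsetSum_coeff]
      refine Finset.sum_congr rfl fun j _ => ?_
      rw [Polynomial.coeff_mul_C, Polynomial.coeff_map]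
    refine ⟨(MvPolynomial.finSuccEquiv ℂ m).symm Q, ?_, ?_, ?_⟩
    · rw [MvPolynomial.totalDegree, Finset.sup_le_iff]
      intro a ha
      rw [MvPolynomial.mem_support_iff] at ha
      have h2 : a = Finsupp.cons (a 0) (Finsupp.tail a) := (Finsupp.cons_tail a).symm
      have h3 : MvPolynomial.coeff (Finsupp.tail a) (Q.coeff (a 0)) ≠ 0 := by
        have h4 := MvPolynomial.finSuccEquiv_coeff_coeff (Finsupp.tail a) ((MvPolynomial.finSuccEquiv ℂ m).symm Q) (a 0)
        rw [AlgEquiv.apply_symm_apply, Finsupp.cons_tail] at h4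
        rw [h4]
        exact ha
      rw [hQc, MvPolynomial.coeff_sum] at h3
      obtain ⟨j, -, hj⟩ := Finset.exists_ne_zero_of_sum_ne_zero h3
      rw [MvPolynomial.coeff_C_mul] at hj
      have h5 : a 0 ≤ K := by
        by_contra hlt
        apply hj
        rw [Polynomial.coeff_eq_zero_of_natDegree_lt (by have := lg_natDegree K j; omega), zero_mul]
      have h6 : (Finsupp.tail a).sum (fun _ e => e) ≤ m * K := by
        refine le_trans ?_ (hP1 j)
        exact MvPolynomial.le_totalDegree (MvPolynomial.mem_support_iff.mpr (right_ne_zero_of_mul hj))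
      have h7 : a.sum (fun _ e => e) = a 0 + (Finsupp.tail a).sum (fun _ e => e) := by
        conv_lhs => rw [h2]
        exact Finsupp.sum_cons _ _ _ |>.trans rfl
      rw [h7]
      calc a 0 + (Finsupp.tail a).sum (fun _ e => e) ≤ K + m * K := add_le_add h5 h6
        _ = (m + 1) * K := by ring
    · intro a
      have h4 := MvPolynomial.finSuccEquiv_coeff_coeff (Finsupp.tail a) ((MvPolynomial.finSuccEquiv ℂ m).symm Q) (a 0)
      rw [AlgEquiv.apply_symm_apply, Finsupp.cons_tail] at h4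
      rw [← h4, hQc, MvPolynomial.coeff_sum]
      refine (norm_sum_le _ _).trans ?_
      have h5 : ∀ j ∈ (Finset.univ : Finset (Fin (K + 1))),
          ‖MvPolynomial.coeff (Finsupp.tail a) (MvPolynomial.C ((lg K j).coeff (a 0)) * P j)‖ ≤ L * (C * M) := by
        intro j _
        rw [MvPolynomial.coeff_C_mul, norm_mul]
        exact mul_le_mul (hL3 j _) (hP2 j _) (norm_nonneg _) (by linarith)
      refine (Finset.sum_le_sum h5).trans ?_
      rw [Finset.sum_const, Finset.card_univ, Fintype.card_fin, nsmul_eq_mul]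
      push_cast
      have h6 : 0 ≤ (1 + ((K : ℝ) + 1) * L) * 2 * M := by positivity
      nlinarith
    · intro Y hY0 hY1
      have h8 : (fun i => (Y i : ℂ)) = Fin.cons ((Y 0 : ℝ) : ℂ) (fun i : Fin m => (Y i.succ : ℂ)) := by
        funext i
        refine Fin.cases ?_ (fun j => ?_) i
        · simp
        · simp
      rw [h8, MvPolynomial.eval_eq_eval_mv_eval', AlgEquiv.apply_symm_apply]
      have h9 : (Q.map (MvPolynomial.eval fun i : Fin m => (Y i.succ : ℂ))).eval ((Y 0 : ℝ) : ℂ) =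
          ∑ j, (lg K j).eval ((Y 0 : ℝ) : ℂ) * MvPolynomial.eval (fun i : Fin m => (Y i.succ : ℂ)) (P j) := by
        rw [hQ, Polynomial.map_sum, Polynomial.eval_finsetSum]
        refine Finset.sum_congr rfl fun j _ => ?_
        rw [Polynomial.map_mul, Polynomial.map_C, eval_mul, eval_C, Polynomial.map_map]
        congr 2
        have h10 : (MvPolynomial.eval fun i : Fin m => (Y i.succ : ℂ)).comp (MvPolynomial.C) = RingHom.id ℂ := by
          ext x
          · simp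
        rw [h10, Polynomial.map_id]
      rw [h9]
      have h11 := interp1 K hL2 (φ := fun t => F (Fin.cons t (fun i : Fin m => (Y i.succ : ℂ)))) hS (M := M) ?_ ?_
        (Y 0) (hY0 0) (hY1 0)
      · have h12 : ‖∑ j, (lg K j).eval ((Y 0 : ℝ) : ℂ) * F (Fin.cons (nd K j) (fun i : Fin m => (Y i.succ : ℂ))) -
            ∑ j, (lg K j).eval ((Y 0 : ℝ) : ℂ) * MvPolynomial.eval (fun i : Fin m => (Y i.succ : ℂ)) (P j)‖ ≤
            ((K : ℝ) + 1) * L * (C * M * S⁻¹ ^ (K + 1)) := by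
          rw [← Finset.sum_sub_distrib]
          refine (norm_sum_le _ _).trans ?_
          have h13 : ∀ j ∈ (Finset.univ : Finset (Fin (K + 1))),
              ‖(lg K j).eval ((Y 0 : ℝ) : ℂ) * F (Fin.cons (nd K j) (fun i : Fin m => (Y i.succ : ℂ))) -
              (lg K j).eval ((Y 0 : ℝ) : ℂ) * MvPolynomial.eval (fun i : Fin m => (Y i.succ : ℂ)) (P j)‖ ≤
              L * (C * M * S⁻¹ ^ (K + 1)) := by
            intro j _
            rw [← mul_sub, norm_mul]
            exact mul_le_mul (hL2 j _ (hY0 0) (hY1 0)) (hP3 j _ (fun i => hY0 _) (fun i => hY1 _)) (norm_nonneg _)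
              (by linarith)
          refine (Finset.sum_le_sum h13).trans (le_of_eq ?_)
          rw [Finset.sum_const, Finset.card_univ, Fintype.card_fin, nsmul_eq_mul]
          push_cast
          ring
        refine (norm_sub_le_norm_sub_add_norm_sub _ _ _).trans ((add_le_add h11 h12).trans (le_of_eq ?_))
        ring
      · have hYn : ‖(fun i : Fin m => (Y i.succ : ℂ))‖ ≤ S := by
          rw [pi_norm_le_iff_of_nonneg hS0]
          intro i
          rw [Complex.norm_real, Real.norm_eq_abs, abs_of_nonneg (hY0 _)]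
          exact (hY1 _).trans (by linarith)
        refine hF.comp (diff_cons_left _).differentiableOn ?_
        intro t ht
        exact cons_mem hS0 (mem_closedBall_zero_iff.mp ht) hYn
      · have hYn : ‖(fun i : Fin m => (Y i.succ : ℂ))‖ ≤ S := by
          rw [pi_norm_le_iff_of_nonneg hS0]
          intro i
          rw [Complex.norm_real, Real.norm_eq_abs, abs_of_nonneg (hY0 _)]
          exact (hY1 _).trans (by linarith)
        intro t ht
        exact hFM _ (cons_mem hS0 (mem_closedBall_zero_iff.mp ht) hYn)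

end Pool.Agent.Helper76.RL
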