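import Pool.Agent.Helper76.RL.Gss
import Pool.Agent.Helper56.STL.Can

/-! GEO for labels which carry an admissible form in which the point is full (literal labels and labels of
Helper84/MT): the input of the local graph. -/

set_option autoImplicit false

namespace Pool.Agent.Helper76.RL

open Metric Filter Topology
open Pool.Agent.Helper69.RK Pool.Agent.Helper31.EC Pool.Agent.Helper40.EL Pool.Agent.Helper89.LX
open Pool.Agent.Helper95.LF Pool.Agent.Helper3.LF Pool.Agent.Helper84.MT Pool.Agent.Helper14.MC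
open Pool.Agent.Helper31.EC.Sp (cell cl io)
open Pool.Agent.Helper56.STL (LForm litFD litL)
open Pool.Agent.Helper95.RIG (ALeaf)

variable {m D : ℕ}

lemma cellv_one {W : Sp} (Q : W.VV m) (k : ℕ) : Q.cellv 1 k = fun ω => cell (2 ^ (-(W.F k).n)) (Q.v k ω) := by
  funext ω
  show cell (W.dl 1 k) (Q.v k ω) = _
  rw [dl_one]

/-- from the rates -/
theorem FIn.of_rate {W : Sp} {V : ∀ k, Setoid (W.F k).Ω} {Q : W.VV m}
    {g : ∀ k, (W.F k).Ω → Matrix (Mon m D) (Mon m D) ℝ} (C : ℝ) (hC : 0 ≤ C)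
    (hA : ∀ᶠ k in UF, ∀ ω, (W.F k).μ ω ≠ 0 → Cpd (2 ^ (C * (W.F k).n)) (g k ω))
    (ms : ∀ᶠ k in UF, ∀ ω ω', (W.F k).μ ω ≠ 0 → (W.F k).μ ω' ≠ 0 → (W.F k).Z ω ω' → V k ω ω' → g k ω = g k ω')
    (sm : ∀ η : ℝ, 0 < η → ∀ᶠ k in UF, (W.F k).pb (fun ω =>
      ¬ phi (W.dl 1 k) (g k ω) (Q.v k ω) ≤ 2 ^ (η * (W.F k).n)) ≤ η)
    (hv : m - ul (fun k => ∑ ω, (W.F k).μ ω * gexq Q g k ω) ≤ ul (W.rt (fun k => Setoid.ker (Q.cellv 1 k)) V)) :
    FIn V Q g where
  pd := by
    filter_upwards [hA] with k hk ω hω using (hk ω hω).pdM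
  ms := ms
  sm := by
    intro η hη
    rw [Metric.tendsto_nhds]
    intro ε hε
    filter_upwards [sm (min η (ε / 2)) (lt_min hη (by linarith))] with k hk
    rw [Real.dist_eq, sub_zero, abs_of_nonneg ((W.F k).pb_nonneg _)]
    have h2 : min η (ε / 2) ≤ ε / 2 := min_le_right _ _
    refine lt_of_le_of_lt (le_trans (FSp.pb_mono _ ?_) hk) (by linarith)
    intro ω _ h3 h4
    apply h3
    rw [dl_one] at h4
    refine h4.trans ?_
    apply Real.rpow_le_rpow_of_exponent_le (by norm_num)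
    exact mul_le_mul_of_nonneg_right (min_le_left _ _) (W.F k).pos.le
  cap := by
    refine ⟨(C + 3) * m, ?_⟩
    filter_upwards [gexq_bd Q g C hC hA] with k hk ω hω
    have h1 := hk ω hω
    have hn := (W.F k).pos
    unfold gexq at h1
    rw [dl_one, div_le_iff₀ (by positivity)] at h1
    linarith
  full := by
    intro η hη
    have t1 := ul_tendsto (gexq_UB Q g C hC hA)
    have t2 := ul_tendsto (Sp.UB_rt (Q.bdd 1).toInf V)
    have e1 : ((Q.bdd 1).toInf : W.Inf).1 = fun k => Setoid.ker (Q.cellv 1 k) := rfl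
    rw [e1] at t2
    have hη2 : 0 < η / 2 := by linarith
    filter_upwards [t1.eventually (lt_mem_nhds (sub_lt_self _ hη2)), t2.eventually (lt_mem_nhds (sub_lt_self _ hη2))]
      with k h1 h2
    have hn := (W.F k).pos
    have h3 : (m : ℝ) ≤ W.rt (fun k => Setoid.ker (Q.cellv 1 k)) V k + ∑ ω, (W.F k).μ ω * gexq Q g k ω + η := by
      linarith
    have h4 := mul_le_mul_of_nonneg_right h3 hn.le
    have e2 : W.rt (fun k => Setoid.ker (Q.cellv 1 k)) V k * (W.F k).n =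
        (W.F k).e (Setoid.ker fun ω => cell (2 ^ (-(W.F k).n)) (Q.v k ω)) (V k ⊓ (W.F k).Z) := by
      rw [← cellv_one]
      exact div_mul_cancel₀ _ hn.ne'
    have e3 : (∑ ω, (W.F k).μ ω * gexq Q g k ω) * (W.F k).n =
        ∑ ω, (W.F k).μ ω * (1 / 2 * Real.logb 2 (GQ (2 ^ (-(W.F k).n)) (g k ω) (Q.v k ω))) := by
      rw [Finset.sum_mul]
      refine Finset.sum_congr rfl fun ω _ => ?_
      unfold gexq
      rw [dl_one]
      field_simp
    rw [add_mul, add_mul, e2, e3] at h4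
    exact h4

/-- the digits of the point over a label -/
lemma ul_rt_lb {S : Sp} (Q : S.VV m) (l : Lab S) :
    ul (l.sp.rt (fun k => Setoid.ker ((l.pj.vv Q).cellv 1 k)) l.V) = H (up1 l (Q.dg 1)) := by
  have e1 : Q.dg 1 = cl (Q.bdd 1).toInf := Sp.io_eq (Q.bdd 1)
  have e2 : l.sp.rt (fun k => Setoid.ker ((l.pj.vv Q).cellv 1 k)) l.V =
      fun k => h ((l k).p.map (rpI (Q.bdd 1).toInf k)) (l k).v / (S.F k).n := by
    funext k
    have e3 : h ((l k).p.map (rpI (Q.bdd 1).toInf k)) (l k).v =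
        (l k).T.e (Setoid.comap (l k).p.π (Setoid.ker (Q.cellv 1 k))) ((l k).V ⊓ (l k).T.Z) := by
      have e4 : (l k).v = fc (l k).V := rfl
      have e5 : (rpI (Q.bdd 1).toInf k) = fc (Setoid.ker (Q.cellv 1 k)) := rfl
      rw [e4, e5, FPj.map_fc, h_fc]
    rw [e3, ← cellv_pj, ← (l k).hn]
    rfl
  rw [e1, H_up1_cl, e2]

lemma gexq_sp {S : Sp} (Q : S.VV m) (x : ∀ k, FD (S.F k) (Mon m D)) :
    (fun k => ∑ ω, ((lb x).sp.F k).μ ω * gexq ((lb x).pj.vv Q) (fun k (ω : (x k).l.T.Ω) => (x k).g ω) k ω) =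
    fun k => ∑ ω, (x k).l.T.μ ω *
      (Real.logb 2 (GQ (S.dl 1 k) ((x k).g ω) (Q.v k ((x k).l.p.π ω))) / (2 * (S.F k).n)) := by
  funext k
  refine Finset.sum_congr rfl fun ω _ => ?_
  have hn : ((lb x).sp.F k).n = (S.F k).n := (x k).l.hn
  have hdl : (lb x).sp.dl 1 k = S.dl 1 k := by rw [dl_one, dl_one, hn]
  unfold gexq
  rw [hdl, hn]
  rfl

lemma vol_lb {S : Sp} (Q : S.VV m) (x : ∀ k, FD (S.F k) (Mon m D)) :
    m - ul (fun k => ∑ ω, ((lb x).sp.F k).μ ω * gexq ((lb x).pj.vv Q) (fun k (ω : (x k).l.T.Ω) => (x k).g ω) k ω) =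
      vol Q D x := by
  unfold vol
  rw [gexq_sp]

/-- the input of the local graph from a label with an admissible form in which the point is full -/
theorem FIn.of_adf {S : Sp} {κ : Type} {A : κ → Part S} (Q : S.VV m) (x : ∀ k, FD (S.F k) (Mon m D))
    (hx : (gaq Q D).Adf A x) (hf : vol Q D x ≤ H (up1 (lb x) (Q.dg 1))) :
    FIn (W := (lb x).sp) (lb x).V ((lb x).pj.vv Q) (fun k (ω : (x k).l.T.Ω) => (x k).g ω) := by
  have hn : ∀ k, ((lb x).sp.F k).n = (S.F k).n := fun k => (x k).l.hn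
  have hdl : ∀ k, (lb x).sp.dl 1 k = S.dl 1 k := fun k => by rw [dl_one, dl_one, hn]
  refine FIn.of_rate ((gaq Q D).C + 1) (by linarith [(gaq Q D).C0]) ?_ ?_ ?_ ?_
  · filter_upwards [hx 1 one_pos] with k hk ω hω
    have h1 := (hk.2.1 ω hω).1
    rw [hn]
    exact h1
  · refine Eventually.of_forall fun k ω ω' a a' h1 h2 => ?_
    exact ((x k).meas ω ω' a a' h2 h1).1
  · intro η hη
    filter_upwards [hx η hη] with k hk
    rw [hdl, hn]
    exact hk.2.2.1
  · rw [vol_lb, ul_rt_lb]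
    exact hf

/-- GEO for LITERAL FORMS: the point is full in a literal form which is small at it => it is on leaves over its label -/
theorem _root_.Pool.Agent.Helper56.STL.LForm.fin {S : Sp} {Q : S.VV m} (F : LForm Q D)
    (hfull : F.v ≤ h (Q.dg 1) F.K) : FIn (fun k => Setoid.ker (F.G k)) Q F.G := by
  refine FIn.of_rate ((gaq Q D).C + 1) (by linarith [(gaq Q D).C0]) ?_ ?_ ?_ ?_
  · filter_upwards [F.ad 1 one_pos] with k hk ω hω
    exact (hk.2.1 ω hω).1
  · exact Eventually.of_forall fun k ω ω' _ _ _ h2 => h2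
  · intro η hη
    filter_upwards [F.ad η hη] with k hk
    exact hk.2.2.1
  · have e1 : Q.dg 1 = cl (Q.bdd 1).toInf := Sp.io_eq (Q.bdd 1)
    have e2 : F.K = cl F.inf := rfl
    rw [e1, e2, Sp.h_cl] at hfull
    exact hfull

theorem _root_.Pool.Agent.Helper56.STL.LForm.aleaf {S : Sp} {Q : S.VV m} (hD : 1 ≤ D) (F : LForm Q D)
    (hfull : F.v ≤ h (Q.dg 1) F.K) : ALeaf F.K (fun j => QS.mk (TR.cor Q j)) :=
  aleaf_of_form hD F.vb (F.fin hfull)

end Pool.Agent.Helper76.RL
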