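import Pool.Agent.Helper76.RL.Cht
import Pool.Agent.Helper84.MT.Vol

/-! The family of polynomials of a form: rows at the nodes of the cell, and the coordinates. -/

set_option autoImplicit false

namespace Pool.Agent.Helper76.RL

open MvPolynomial Matrix MeasureTheory Set Metric
open Pool.Agent.Helper95.LF Pool.Agent.Helper3.LF Pool.Agent.Helper84.MT

variable {m D : ℕ}

/-- rows -/
abbrev Rw (m D : ℕ) : Type := (Mon m D × (Fin m → Fin (D + 1))) ⊕ Fin m

/-- translation to a node -/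
noncomputable def trp (D : ℕ) (r : ℝ) (j : Fin m → Fin (D + 1)) (q : MvPolynomial (Fin m) ℝ) :
    MvPolynomial (Fin m) ℝ := aeval (fun i => (X i + C (r * nod D (j i)) : MvPolynomial (Fin m) ℝ)) q

lemma eval_trp (r : ℝ) (j : Fin m → Fin (D + 1)) (q : MvPolynomial (Fin m) ℝ) (x : Fin m → ℝ) :
    eval x (trp D r j q) = eval (nodp D x r j) q := by
  unfold trp
  rw [map_aeval]
  have h1 : (eval x).comp (algebraMap ℝ (MvPolynomial (Fin m) ℝ)) = RingHom.id ℝ := by
    ext a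
    simp
  rw [h1]
  have h2 : (fun i => eval x (X i + C (r * nod D (j i)) : MvPolynomial (Fin m) ℝ)) = nodp D x r j := by
    funext i
    simp [nodp]
  rw [h2]
  rfl

lemma pderiv_trp (r : ℝ) (j : Fin m → Fin (D + 1)) (q : MvPolynomial (Fin m) ℝ) (a : Fin m) :
    pderiv a (trp D r j q) = trp D r j (pderiv a q) := by
  unfold trp
  set φ : MvPolynomial (Fin m) ℝ →ₐ[ℝ] MvPolynomial (Fin m) ℝ :=
    aeval (fun i => (X i + C (r * nod D (j i)) : MvPolynomial (Fin m) ℝ)) with hφ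
  have hX : ∀ i, φ (X i) = X i + C (r * nod D (j i)) := fun i => aeval_X _ _
  induction q using MvPolynomial.induction_on with
  | C c => simp [hφ]
  | add p q hp hq => simp only [map_add, hp, hq]
  | mul_X p i hp =>
    have h1 : pderiv a (X i + C (r * nod D (j i)) : MvPolynomial (Fin m) ℝ) = pderiv a (X i) := by
      rw [map_add, pderiv_C, add_zero]
    have h2 : φ (pderiv a (X i)) = (pderiv a (X i) : MvPolynomial (Fin m) ℝ) := by
      rw [pderiv_X]
      by_cases h : i = a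
      · subst h
        simp
      · simp [Pi.single_eq_of_ne h]
    rw [map_mul, hX, pderiv_mul, hp, pderiv_mul, map_add φ, map_mul φ, hX, map_mul φ, h1, h2]

lemma trp_deg (r : ℝ) (j : Fin m → Fin (D + 1)) (q : MvPolynomial (Fin m) ℝ) :
    (trp D r j q).totalDegree ≤ q.totalDegree := by
  classical
  unfold trp
  rw [aeval_def, eval₂_eq']
  refine (totalDegree_finsetSum _ _).trans (Finset.sup_le fun e he => ?_)
  have h1 : (∏ i, (X i + C (r * nod D (j i)) : MvPolynomial (Fin m) ℝ) ^ e i).totalDegree ≤ ∑ i, e i := by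
    refine (totalDegree_finsetProd _ _).trans (Finset.sum_le_sum fun i _ => ?_)
    refine (totalDegree_pow _ _).trans ?_
    have h4 : (X i + C (r * nod D (j i)) : MvPolynomial (Fin m) ℝ).totalDegree ≤ 1 := by
      refine (totalDegree_add _ _).trans (max_le ?_ ?_)
      · rw [totalDegree_X]
      · rw [totalDegree_C]
        exact Nat.zero_le _
    calc e i * (X i + C (r * nod D (j i)) : MvPolynomial (Fin m) ℝ).totalDegree ≤ e i * 1 := Nat.mul_le_mul_left _ h4
      _ = e i := mul_one _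
  have h2 : ∑ i, e i ≤ q.totalDegree := by
    have := le_totalDegree he
    rwa [Finsupp.sum_fintype _ _ (fun _ => rfl)] at this
  refine (totalDegree_mul _ _).trans ?_
  have h3 : (algebraMap ℝ (MvPolynomial (Fin m) ℝ) (coeff e q)).totalDegree = 0 := totalDegree_C _
  rw [h3, zero_add]
  exact h1.trans h2

/-- the family of a form with rows `C` -/
noncomputable def fam (C : Matrix (Mon m D) (Mon m D) ℝ) (r : ℝ) : Rw m D → MvPolynomial (Fin m) ℝ :=
  Sum.elim (fun k => trp D r k.2 (pol (C k.1))) X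

lemma fam_deg (hD : 1 ≤ D) (C : Matrix (Mon m D) (Mon m D) ℝ) (r : ℝ) (ρ : Rw m D) : (fam C r ρ).totalDegree ≤ D := by
  rcases ρ with k | a
  · exact (trp_deg _ _ _).trans (pol_deg _)
  · show (X a : MvPolynomial (Fin m) ℝ).totalDegree ≤ D
    rw [totalDegree_X]
    exact hD

lemma gd_fam (C : Matrix (Mon m D) (Mon m D) ℝ) (r : ℝ) (x : Fin m → ℝ) :
    gd (fam C r) x = GQ r (C.transpose * C) x := by
  unfold gd GQ
  congr 1
  ext a b
  rw [Matrix.add_apply, Jq_apply, Matrix.mul_apply, Fintype.sum_sum_type, add_comm]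
  congr 1
  · rw [Matrix.one_apply]
    have h1 : ∀ c : Fin m, (jac (fam C r) x).transpose a (Sum.inr c) * jac (fam C r) x (Sum.inr c) b =
        (if c = a then 1 else 0) * (if c = b then 1 else 0) := by
      intro c
      have h2 : ∀ d : Fin m, jac (fam C r) x (Sum.inr c) d = if c = d then 1 else 0 := by
        intro d
        show eval x (pderiv d (X c)) = _
        rw [pderiv_X]
        by_cases h : c = d
        · subst h
          simp
        · rw [if_neg h, Pi.single_eq_of_ne h, map_zero]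
      rw [Matrix.transpose_apply, h2, h2]
    rw [Finset.sum_congr rfl (fun c _ => h1 c)]
    simp [eq_comm]
  · rw [Fintype.sum_prod_type, Finset.sum_comm]
    refine Finset.sum_congr rfl fun j _ => ?_
    rw [← Matrix.mulVec_mulVec, Matrix.dotProduct_mulVec, Matrix.vecMul_transpose]
    unfold dotProduct
    refine Finset.sum_congr rfl fun k _ => ?_
    have h3 : ∀ d : Fin m, jac (fam C r) x (Sum.inl (k, j)) d = (C *ᵥ Pool.Agent.Helper3.LF.dd d (nodp D x r j)) k := by
      intro d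
      show eval x (pderiv d (trp D r j (pol (C k)))) = _
      rw [pderiv_trp, eval_trp, eval_pderiv_pol]
      rfl
    rw [Matrix.transpose_apply, h3, h3]

/-- constant of the region -/
noncomputable def cP (m D : ℕ) : ℝ := nn m D * (Cu D * Cm m D * 2 ^ D) ^ 2

lemma cP_one (m D : ℕ) : 1 ≤ cP m D := by
  unfold cP
  have h1 := nn_one m D
  have h2 := Cm_one m D
  have h3 := Cu_one D
  have h4 : (1 : ℝ) ≤ 2 ^ D := one_le_pow₀ (by norm_num)
  have h5 : 1 ≤ Cu D * Cm m D := one_le_mul_of_one_le_of_one_le h3 h2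
  exact one_le_mul_of_one_le_of_one_le h1 (one_le_pow₀ (one_le_mul_of_one_le_of_one_le h5 h4))

/-- the cell of a point of small size is in the region -/
lemma mem_Reg {C : Matrix (Mon m D) (Mon m D) ℝ} (hA : PdM (C.transpose * C)) {r : ℝ} (hr : 0 < r) (hr1 : r ≤ 1)
    {K : ℝ} (hK : 1 ≤ K) {p x : Fin m → ℝ} (hφ : phi r (C.transpose * C) p ≤ K) (hp : ∀ i, |p i| ≤ K)
    (hx : ∀ i, |x i - p i| ≤ r) : x ∈ Reg (fam C r) (2 * cP m D * K) := by
  have hc := cP_one m D
  have hK' : 1 ≤ 2 * cP m D * K := by nlinarith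
  intro ρ
  rcases ρ with k | a
  · show |eval x (trp D r k.2 (pol (C k.1)))| ≤ _
    rw [eval_trp]
    have h1 := phi_comp (C.transpose * C) hA r r 2 hr hr.le (by norm_num) p x (fun i => by
      have := hx i
      linarith)
    have h2 : (eval (nodp D x r k.2) (pol (C k.1))) ^ 2 ≤ phi r (C.transpose * C) x := by
      rw [phi_rows]
      have h3 : (eval (nodp D x r k.2) (pol (C k.1))) ^ 2 ≤ ph D (pol (C k.1)) r x :=
        Finset.single_le_sum (f := fun j => (eval (nodp D x r j) (pol (C k.1))) ^ 2)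
          (fun _ _ => sq_nonneg _) (Finset.mem_univ k.2)
      exact h3.trans (Finset.single_le_sum (f := fun k => ph D (pol (C k)) r x)
        (fun _ _ => ph_nonneg _ _ _) (Finset.mem_univ k.1))
    have h4 : (eval (nodp D x r k.2) (pol (C k.1))) ^ 2 ≤ (2 * cP m D * K) ^ 2 := by
      refine (h2.trans h1).trans ?_
      have h5 : nn m D * (Cu D * Cm m D * 2 ^ D) ^ 2 = cP m D := rfl
      rw [h5]
      have h6 : cP m D * phi r (C.transpose * C) p ≤ cP m D * K := mul_le_mul_of_nonneg_left hφ (by linarith)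
      nlinarith [mul_nonneg (by linarith : 0 ≤ cP m D) (by linarith : 0 ≤ K)]
    exact abs_le_of_sq_le_sq h4 (by linarith)
  · show |eval x (X a)| ≤ _
    rw [eval_X]
    have h1 : |x a| ≤ |x a - p a| + |p a| := by
      have := abs_add_le (x a - p a) (p a)
      rwa [sub_add_cancel] at this
    have h2 := hx a
    have h3 := hp a
    nlinarith

/-- comparison of the volumes -/
lemma GQ_near (A : Matrix (Mon m D) (Mon m D) ℝ) (hA : PdM A) {r : ℝ} (hr : 0 < r) {p x : Fin m → ℝ}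
    (hx : ∀ i, |x i - p i| ≤ r) : GQ r A p ≤ cQ m D ^ m * 2 ^ (2 * D * m) * GQ r A x :=
  GQ_comp A hA r r 2 hr hr.le (by norm_num) x p (fun i => by
    rw [abs_sub_comm]
    have := hx i
    linarith)

lemma algR_smul {L : ℕ} {r : ℝ} {G : (Fin m → ℂ) → ℂ} (hG : AlgR L r G) {c : ℂ} (hc : c ≠ 0) :
    AlgR L r (fun y => c * G y) := by
  obtain ⟨q, h1, h2, h3⟩ := hG
  have hci : c⁻¹ ≠ 0 := inv_ne_zero hc
  have hev : ∀ (p : Polynomial (MvPolynomial (Fin m) ℂ)) (u : ℂ) (y : Fin m → ℂ),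
      ev (p.comp (Polynomial.C (C c⁻¹) * Polynomial.X)) (y, u) = ev p (y, c⁻¹ * u) := by
    intro p u y
    unfold ev
    rw [Polynomial.map_comp, Polynomial.eval_comp]
    simp
  refine ⟨q.comp (Polynomial.C (C c⁻¹) * Polynomial.X), ?_, fun i => ?_, fun y hy => ⟨?_, ?_⟩⟩
  · refine Polynomial.natDegree_comp_le.trans ?_
    have h4 : (Polynomial.C (C c⁻¹ : MvPolynomial (Fin m) ℂ) * Polynomial.X).natDegree ≤ 1 :=
      (Polynomial.natDegree_C_mul_le _ _).trans Polynomial.natDegree_X_le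
    calc _ ≤ q.natDegree * 1 := Nat.mul_le_mul_left _ h4
      _ ≤ L := by rw [mul_one]; exact h1
  · rw [Polynomial.comp_C_mul_X_coeff]
    refine (totalDegree_mul _ _).trans ?_
    rw [← map_pow, totalDegree_C, add_zero]
    exact h2 i
  · rw [hev, inv_mul_cancel_left₀ hc]
    exact (h3 y hy).1
  · rw [Polynomial.derivative_comp, ev_mul, hev, inv_mul_cancel_left₀ hc]
    refine mul_ne_zero ?_ (h3 y hy).2
    simp [ev, hc]

/-- number of rows -/
noncomputable def nR (m D : ℕ) : ℕ := Fintype.card (Rw m D)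

/-- CHART DATA of a form -/
structure ChD (m D L : ℕ) (C : ℝ) (N : ℕ) (A : Matrix (Mon m D) (Mon m D) ℝ) (r K : ℝ) where
  E : Cod m (Rw m D) N L → Set (Fin m → ℝ)
  T : Cod m (Rw m D) N L → (Fin m → ℝ) → Fin m → ℝ
  T' : Cod m (Rw m D) N L → (Fin m → ℝ) → (Fin m → ℝ) →L[ℝ] (Fin m → ℝ)
  G : Cod m (Rw m D) N L → Fin m → (Fin m → ℂ) → ℂ
  reg : Set (Fin m → ℝ)
  mE : ∀ c, MeasurableSet (E c)
  dis : Pairwise (Function.onFun Disjoint E)
  dT : ∀ c x, HasFDerivAt (T c) (T' c x) x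
  uT : ∀ c, ∀ x ∈ E c, ∀ a, 0 ≤ T c x a ∧ T c x a ≤ 1
  lT : ∀ c, ∀ x ∈ E c, N ^ m * √(GQ r A x) ≤ C * K ^ m * |(T' c x).det|
  nz : ∀ c, ∀ x ∈ E c, (T' c x).det ≠ 0
  hG : ∀ c, ∀ x ∈ E c, ∀ j, G c j (rc (T c x)) = ((x j : ℝ) : ℂ)
  dG : ∀ c j, DifferentiableOn ℂ (G c j) (ball 0 (√N / C))
  bG : ∀ c j, ∀ y ∈ ball (0 : Fin m → ℂ) (√N / C), ‖G c j y‖ ≤ C * K
  aG : ∀ c j, AlgR L (√N / C) (G c j)
  mreg : MeasurableSet reg
  reg_of : ∀ p x : Fin m → ℝ, phi r A p ≤ K → (∀ i, |p i| ≤ K) → (∀ i, |x i - p i| ≤ r) → x ∈ reg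
  tot : ∫⁻ x in reg, ENNReal.ofReal √(GQ r A x) ≤ ENNReal.ofReal (C * K ^ m)
  bad : ∫⁻ x in reg \ ⋃ c, E c, ENNReal.ofReal √(GQ r A x) ≤ ENNReal.ofReal (C * K ^ m / √N)

lemma reg_meas {R : Type} [Fintype R] (ψ : R → MvPolynomial (Fin m) ℝ) (K : ℝ) : MeasurableSet (Reg ψ K) := by
  have h1 : Reg ψ K = ⋂ ρ, {x | |eval x (ψ ρ)| ≤ K} := by
    ext x
    simp [Reg]
  rw [h1]
  exact MeasurableSet.iInter fun ρ => measurableSet_le
    ((MvPolynomial.continuous_eval (ψ ρ)).abs.measurable) measurable_const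

/-- CHART DATA EXIST -/
theorem exists_chd (m D : ℕ) (hD : 1 ≤ D) : ∃ (L : ℕ) (C : ℝ), 1 ≤ L ∧ 1 ≤ C ∧
    ∀ A : Matrix (Mon m D) (Mon m D) ℝ, PdM A → ∀ r : ℝ, 0 < r → r ≤ 1 → ∀ K : ℝ, 1 ≤ K → ∀ N : ℕ, C ^ 2 ≤ N →
    Nonempty (ChD m D L C N A r K) := by
  obtain ⟨L, C, hL, hC, h⟩ := cht m D (nR m D) hD
  have hc := cP_one m D
  set κ : ℝ := 2 * cP m D with hκ
  have hκ1 : 1 ≤ κ := by linarith
  set C' : ℝ := 3 * C * κ ^ m * κ with hC'
  have hp1 : (1 : ℝ) ≤ κ ^ m := one_le_pow₀ hκ1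
  have hC1 : C * κ ^ m ≤ C' := by
    rw [hC']
    have : 0 ≤ C * κ ^ m := by positivity
    nlinarith
  have hC3 : 3 * κ ≤ C' := by
    rw [hC']
    have : 1 ≤ C * κ ^ m := one_le_mul_of_one_le_of_one_le hC hp1
    nlinarith
  have hC2 : C ≤ C' := by
    refine le_trans ?_ hC1
    nlinarith
  refine ⟨L, C', hL, by linarith, ?_⟩
  intro A hA r hr hr1 K hK N hN
  have hN2 : C ^ 2 ≤ N := le_trans (pow_le_pow_left₀ (by linarith) hC2 2) hN
  obtain ⟨B, hB, -⟩ := exists_factor A hA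
  have hKK : 1 ≤ κ * K := one_le_mul_of_one_le_of_one_le hκ1 hK
  obtain ⟨E, G, h1, h2, h3, h4, h5, h6⟩ := h (R := Rw m D) rfl (fam B r) (fam_deg hD B r) Sum.inr (fun a => rfl)
    (κ * K) hKK N hN2
  have hgd : ∀ x, gd (fam B r) x = GQ r A x := by
    intro x
    rw [gd_fam, ← hB]
  have hNnn : (0 : ℝ) ≤ √N := Real.sqrt_nonneg _
  have hsub : ball (0 : Fin m → ℂ) (√N / C') ⊆ ball 0 (√N / C) := by
    apply ball_subset_ball
    exact div_le_div_of_nonneg_left hNnn (by linarith) hC2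
  have hk0 : ((κ * K : ℝ) : ℂ) ≠ 0 := by
    have : κ * K ≠ 0 := by linarith
    exact_mod_cast this
  have hKm : 0 ≤ K ^ m := by positivity
  have hCK : C * (κ * K) ^ m ≤ C' * K ^ m := by
    rw [mul_pow, ← mul_assoc]
    exact mul_le_mul_of_nonneg_right hC1 hKm
  refine ⟨{
    E := E
    T := fun c => Tc (fam B r) (κ * K) c
    T' := fun c => Td (fam B r) (κ * K) c
    G := fun c j y => ((κ * K : ℝ) : ℂ) * G c j y
    reg := Reg (fam B r) (κ * K)
    mE := h1
    dis := h2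
    dT := fun c x => Tc_hasFDerivAt _ _ c x
    uT := fun c x hx => (h3 c x hx).2.1
    lT := fun c x hx => ?_
    nz := fun c x hx => (h3 c x hx).2.2.2.1
    hG := fun c x hx j => ?_
    dG := fun c j => ((h4 c j).1.mono hsub).const_mul _
    bG := fun c j y hy => ?_
    aG := fun c j => algR_smul (algR_mono (by
      exact div_le_div_of_nonneg_left hNnn (by linarith) hC2) (h4 c j).2.2) hk0
    mreg := reg_meas _ _
    reg_of := fun p x a b c => ?_
    tot := ?_
    bad := ?_ }⟩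
  · have := (h3 c x hx).2.2.1
    rw [hgd] at this
    exact this.trans (mul_le_mul_of_nonneg_right hCK (abs_nonneg _))
  · rw [(h3 c x hx).2.2.2.2 j]
    rw [← Complex.ofReal_mul, mul_div_cancel₀ _ (by linarith : κ * K ≠ 0)]
  · rw [norm_mul, Complex.norm_real, Real.norm_eq_abs, abs_of_pos (by linarith)]
    have h7 := (h4 c j).2.1 y (hsub hy)
    calc κ * K * ‖G c j y‖ ≤ κ * K * 3 := mul_le_mul_of_nonneg_left h7 (by linarith)
      _ = (3 * κ) * K := by ring
      _ ≤ C' * K := mul_le_mul_of_nonneg_right hC3 (by linarith)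
  · rw [hB] at a hA
    exact mem_Reg hA hr hr1 hK a b c
  · simp only [hgd] at h5
    exact h5.trans (ENNReal.ofReal_le_ofReal hCK)
  · simp only [hgd] at h6
    exact h6.trans (ENNReal.ofReal_le_ofReal (div_le_div_of_nonneg_right hCK hNnn))

end Pool.Agent.Helper76.RL
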