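import Mathlib

/-! The area inequality with multiplicity. -/

set_option autoImplicit false

namespace Pool.Agent.Helper76.RL

open MeasureTheory Set Filter Topology

variable {E : Type*} [NormedAddCommGroup E] [NormedSpace ℝ E] [FiniteDimensional ℝ E] [MeasurableSpace E]
  [BorelSpace E] (μ : Measure E) [μ.IsAddHaarMeasure]

omit [MeasurableSpace E] [BorelSpace E] in
/-- local injectivity -/
lemma exists_injOn {f : E → E} {f' : E →L[ℝ] E} {x : E} (hf : HasStrictFDerivAt f f' x) (hd : f'.det ≠ 0) :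
    ∃ U : Set E, IsOpen U ∧ x ∈ U ∧ InjOn f U := by
  have h1 : HasStrictFDerivAt f ((f'.toContinuousLinearEquivOfDetNeZero hd : E ≃L[ℝ] E) : E →L[ℝ] E) x := hf
  refine ⟨(h1.toOpenPartialHomeomorph f).source, (h1.toOpenPartialHomeomorph f).open_source,
    h1.mem_toOpenPartialHomeomorph_source, ?_⟩
  exact (h1.toOpenPartialHomeomorph f).injOn

/-- THE AREA INEQUALITY -/
theorem area_mult {f : E → E} {f' : E → E →L[ℝ] E} (hf : ∀ x, HasStrictFDerivAt f (f' x) x) {S B : Set E}
    (hS : MeasurableSet S) (hB : MeasurableSet B) (hSB : ∀ x ∈ S, f x ∈ B) (hd : ∀ x ∈ S, (f' x).det ≠ 0) (N : ℕ)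
    (hN : ∀ᵐ w ∂μ, w ∈ B → ∃ T : Finset E, T.card ≤ N ∧ ∀ x ∈ S, f x = w → x ∈ T) :
    ∫⁻ x in S, ENNReal.ofReal |(f' x).det| ∂μ ≤ N * μ B := by
  classical
  have : ProperSpace E := FiniteDimensional.proper ℝ E
  have h1 : ∀ x : E, ∃ U : Set E, IsOpen U ∧ (x ∈ S → x ∈ U ∧ InjOn f U) := by
    intro x
    by_cases hx : x ∈ S
    · obtain ⟨U, hU1, hU2, hU3⟩ := exists_injOn (hf x) (hd x hx)
      exact ⟨U, hU1, fun _ => ⟨hU2, hU3⟩⟩
    · exact ⟨∅, isOpen_empty, fun h => absurd h hx⟩
  choose U hUo hU using h1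
  obtain ⟨t, htS, htc, ht⟩ := TopologicalSpace.countable_cover_nhdsWithin (f := U) (s := S)
    (fun x hx => mem_nhdsWithin_of_mem_nhds ((hUo x).mem_nhds (hU x hx).1))
  rcases t.eq_empty_or_nonempty with ht0 | ht0
  · have h2 : S = ∅ := by
      rw [ht0] at ht
      simpa using ht
    rw [h2]
    simp
  obtain ⟨y, hy⟩ := htc.exists_eq_range ht0
  have hyS : ∀ n, y n ∈ S := by
    intro n
    apply htS
    rw [hy]
    exact mem_range_self n
  set P : ℕ → Set E := fun n => S ∩ disjointed (fun n => U (y n)) n with hP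
  have hPm : ∀ n, MeasurableSet (P n) := fun n =>
    hS.inter (MeasurableSet.disjointed (fun n => (hUo (y n)).measurableSet) n)
  have hPd : Pairwise (Function.onFun Disjoint P) := by
    intro a b hab
    exact (disjoint_disjointed (fun n => U (y n)) hab).mono inter_subset_right inter_subset_right
  have hPU : ⋃ n, P n = S := by
    rw [hP, ← inter_iUnion, iUnion_disjointed]
    apply inter_eq_self_of_subset_left
    intro x hx
    have h3 := ht hx
    rw [mem_iUnion₂] at h3
    obtain ⟨z, hz, hxz⟩ := h3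
    rw [hy] at hz
    obtain ⟨n, rfl⟩ := hz
    exact mem_iUnion.mpr ⟨n, hxz⟩
  have hPi : ∀ n, InjOn f (P n) := fun n =>
    ((hU (y n) (hyS n)).2).mono (inter_subset_right.trans (disjointed_subset _ _))
  have hPf : ∀ n, ∀ x ∈ P n, HasFDerivWithinAt f (f' x) (P n) x := fun n x _ =>
    (hf x).hasFDerivAt.hasFDerivWithinAt
  have h4 : ∫⁻ x in S, ENNReal.ofReal |(f' x).det| ∂μ = ∑' n, μ (f '' P n) := by
    conv_lhs => rw [← hPU]
    rw [lintegral_iUnion hPm hPd]
    congr 1
    funext n
    exact lintegral_abs_det_fderiv_eq_addHaar_image μ (hPm n) (hPf n) (hPi n)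
  have hIm : ∀ n, MeasurableSet (f '' P n) := fun n => measurable_image_of_fderivWithin (hPm n) (hPf n) (hPi n)
  have h5 : ∑' n, μ (f '' P n) = ∫⁻ w, ∑' n, (f '' P n).indicator (fun _ => (1 : ENNReal)) w ∂μ := by
    rw [lintegral_tsum (fun n => (measurable_const.indicator (hIm n)).aemeasurable)]
    congr 1
    funext n
    rw [lintegral_indicator (hIm n)]
    simp
  rw [h4, h5]
  have h6 : ∫⁻ w, B.indicator (fun _ => (N : ENNReal)) w ∂μ = N * μ B := by
    rw [lintegral_indicator hB, setLIntegral_const]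
  rw [← h6]
  refine lintegral_mono_ae ?_
  filter_upwards [hN] with w hw
  by_cases hwB : w ∈ B
  · rw [indicator_of_mem hwB]
    obtain ⟨T, hT1, hT2⟩ := hw hwB
    rw [ENNReal.tsum_eq_iSup_sum]
    refine iSup_le fun F => ?_
    have h7 : ∑ n ∈ F, (f '' P n).indicator (fun _ => (1 : ENNReal)) w = ((F.filter fun n => w ∈ f '' P n).card : ENNReal) := by
      rw [Finset.card_filter]
      push_cast
      refine Finset.sum_congr rfl fun n _ => ?_
      by_cases h : w ∈ f '' P n
      · rw [indicator_of_mem h, if_pos h]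
      · rw [indicator_of_notMem h, if_neg h]
    rw [h7]
    have h8 : (F.filter fun n => w ∈ f '' P n).card ≤ T.card := by
      have h9 : ∀ n, ∃ x : E, w ∈ f '' P n → x ∈ P n ∧ f x = w := by
        intro n
        by_cases h : w ∈ f '' P n
        · obtain ⟨x, hx1, hx2⟩ := h
          exact ⟨x, fun _ => ⟨hx1, hx2⟩⟩
        · exact ⟨0, fun h' => absurd h' h⟩
      choose x hx using h9
      refine Finset.card_le_card_of_injOn x ?_ ?_
      · intro n hn
        have hn' := (Finset.mem_filter.mp hn).2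
        exact hT2 _ (hx n hn').1.1 (hx n hn').2
      · intro a ha b hb hab
        have ha' := (Finset.mem_filter.mp ha).2
        have hb' := (Finset.mem_filter.mp hb).2
        by_contra hne
        have h10 := hPd hne
        have h11 : x a ∈ P a ∩ P b := ⟨(hx a ha').1, by rw [hab]; exact (hx b hb').1⟩
        exact (Set.disjoint_iff.mp h10) h11
    exact_mod_cast h8.trans hT1
  · rw [indicator_of_notMem hwB]
    simp only [nonpos_iff_eq_zero, ENNReal.tsum_eq_zero]
    intro n
    apply indicator_of_notMem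
    rintro ⟨x, hx1, rfl⟩
    exact hwB (hSB x hx1.1)

end Pool.Agent.Helper76.RL
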