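import Pool.Agent.Helper76.RL.Fof
import Pool.Agent.Helper31.EC.Var

/-! The kernel of the charts: volumes of the classes inside the cells. -/

set_option autoImplicit false

namespace Pool.Agent.Helper76.RL

open MeasureTheory Set Metric
open Pool.Agent.Helper95.LF Pool.Agent.Helper3.LF Pool.Agent.Helper84.MT
open Pool.Agent.Helper31.EC.Sp (cell abs_sub_le_of_floor_eq)

variable {m D L N : ℕ} {C r K : ℝ}

/-- the cell of side `r` with number `b` -/
def cs (r : ℝ) (b : Fin m → ℤ) : Set (Fin m → ℝ) := {x | cell r x = b}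

lemma cs_eq (hr : 0 < r) (b : Fin m → ℤ) :
    cs r b = Set.pi univ fun i => Ico ((b i : ℝ) * r) (((b i : ℝ) + 1) * r) := by
  ext x
  simp only [cs, Set.mem_ofPred_eq, Set.mem_pi, Set.mem_univ, forall_const, Set.mem_Ico]
  rw [funext_iff]
  refine forall_congr' fun i => ?_
  unfold cell
  rw [Int.floor_eq_iff, le_div_iff₀ hr, div_lt_iff₀ hr]

lemma cs_meas (hr : 0 < r) (b : Fin m → ℤ) : MeasurableSet (cs r b) := by
  rw [cs_eq hr]
  exact MeasurableSet.univ_pi fun i => measurableSet_Ico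

lemma vol_cs (hr : 0 < r) (b : Fin m → ℤ) : volume (cs r b) = ENNReal.ofReal (r ^ m) := by
  rw [cs_eq hr, Real.volume_pi_Ico]
  have h1 : ∀ i, ((b i : ℝ) + 1) * r - (b i : ℝ) * r = r := fun i => by ring
  simp only [h1]
  rw [Finset.prod_const, Finset.card_univ, Fintype.card_fin, ENNReal.ofReal_pow hr.le]

lemma cs_disj {b b' : Fin m → ℤ} (h : b ≠ b') : Disjoint (cs r b) (cs r b') := by
  rw [Set.disjoint_left]
  intro x hx hx'
  exact h (hx.symm.trans hx')

lemma cs_near (hr : 0 < r) {b : Fin m → ℤ} {x p : Fin m → ℝ} (hx : x ∈ cs r b) (hp : p ∈ cs r b) (i : Fin m) :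
    |x i - p i| ≤ r := by
  apply abs_sub_le_of_floor_eq hr
  have h1 := congrFun hx i
  have h2 := congrFun hp i
  exact h1.trans h2.symm

/-- number of fine cells in a direction -/
noncomputable def nb (r : ℝ) : ℕ := ⌊1 / r⌋₊ + 1

variable {A : Matrix (Mon m D) (Mon m D) ℝ} (d : ChD m D L C N A r K)

/-- the class of a code and of a fine cell -/
def Sf (c : Cod m (Rw m D) N L) (f : Fin m → Fin (nb r)) : Set (Fin m → ℝ) :=
  d.E c ∩ (d.T c) ⁻¹' (cs r fun i => ((f i : ℕ) : ℤ))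

lemma T_cont (c : Cod m (Rw m D) N L) : Continuous (d.T c) :=
  continuous_iff_continuousAt.mpr fun x => (d.dT c x).continuousAt

lemma Sf_meas (hr : 0 < r) (c : Cod m (Rw m D) N L) (f : Fin m → Fin (nb r)) : MeasurableSet (Sf d c f) :=
  (d.mE c).inter ((T_cont d c).measurable (cs_meas hr _))

lemma Sf_disj {x y : Cod m (Rw m D) N L × (Fin m → Fin (nb r))} (h : x ≠ y) :
    Disjoint (Sf d x.1 x.2) (Sf d y.1 y.2) := by
  by_cases hc : x.1 = y.1
  · have hf : x.2 ≠ y.2 := fun h' => h (Prod.ext hc h')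
    rw [Set.disjoint_left]
    intro p hp hp'
    rw [hc] at hp
    have h1 := hp.2
    have h2 := hp'.2
    apply hf
    funext i
    have h3 : (fun i => ((x.2 i : ℕ) : ℤ)) = fun i => ((y.2 i : ℕ) : ℤ) := (h1 : _ = _).symm.trans (h2 : _ = _)
    have h4 := congrFun h3 i
    exact Fin.ext (by exact_mod_cast h4)
  · exact (d.dis hc).mono inter_subset_left inter_subset_left

lemma Sf_union (hr : 0 < r) : ⋃ x : Cod m (Rw m D) N L × (Fin m → Fin (nb r)), Sf d x.1 x.2 = ⋃ c, d.E c := by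
  apply Subset.antisymm
  · exact iUnion_subset fun x => inter_subset_left.trans (subset_iUnion d.E x.1)
  · intro p hp
    obtain ⟨c, hc⟩ := mem_iUnion.mp hp
    have h1 := d.uT c p hc
    have h2 : ∀ i, 0 ≤ ⌊d.T c p i / r⌋ := fun i => Int.floor_nonneg.mpr (div_nonneg (h1 i).1 hr.le)
    have h3 : ∀ i, (⌊d.T c p i / r⌋).toNat < nb r := by
      intro i
      unfold nb
      have h4 : (⌊d.T c p i / r⌋).toNat = ⌊d.T c p i / r⌋₊ := rfl
      rw [h4]
      refine Nat.lt_succ_of_le (Nat.floor_le_floor ?_)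
      exact div_le_div_of_nonneg_right (h1 i).2 hr.le
    refine mem_iUnion.mpr ⟨(c, fun i => ⟨(⌊d.T c p i / r⌋).toNat, h3 i⟩), hc, ?_⟩
    show cell r (d.T c p) = _
    funext i
    show ⌊d.T c p i / r⌋ = (((⌊d.T c p i / r⌋).toNat : ℕ) : ℤ)
    rw [Int.toNat_of_nonneg (h2 i)]

/-- the kernel -/
noncomputable def kap (b : Fin m → ℤ) : Option (Cod m (Rw m D) N L × (Fin m → Fin (nb r))) → ℝ
  | some x => (volume (cs r b ∩ Sf d x.1 x.2)).toReal / r ^ m
  | none => (volume (cs r b \ ⋃ c, d.E c)).toReal / r ^ m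

lemma kap_nonneg (hr : 0 < r) (b : Fin m → ℤ) (a : Option (Cod m (Rw m D) N L × (Fin m → Fin (nb r)))) :
    0 ≤ kap d b a := by
  rcases a with _ | x
  · exact div_nonneg ENNReal.toReal_nonneg (by positivity)
  · exact div_nonneg ENNReal.toReal_nonneg (by positivity)

lemma fin_cs (hr : 0 < r) (b : Fin m → ℤ) {s : Set (Fin m → ℝ)} (h : s ⊆ cs r b) : volume s ≠ ⊤ := by
  refine ne_top_of_le_ne_top ?_ (measure_mono h)
  rw [vol_cs hr]
  exact ENNReal.ofReal_ne_top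

lemma kap_sum (hr : 0 < r) (b : Fin m → ℤ) : ∑ a, kap d b a = 1 := by
  have hrm : 0 < r ^ m := by positivity
  rw [Fintype.sum_option]
  show (volume (cs r b \ ⋃ c, d.E c)).toReal / r ^ m +
    ∑ x : Cod m (Rw m D) N L × (Fin m → Fin (nb r)), (volume (cs r b ∩ Sf d x.1 x.2)).toReal / r ^ m = 1
  rw [← Finset.sum_div, ← add_div, div_eq_one_iff_eq hrm.ne']
  have h1 : ∑ x : Cod m (Rw m D) N L × (Fin m → Fin (nb r)), (volume (cs r b ∩ Sf d x.1 x.2)).toReal =
      (volume (cs r b ∩ ⋃ c, d.E c)).toReal := by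
    rw [← Sf_union d hr, inter_iUnion, ← ENNReal.toReal_sum (fun x _ => fin_cs hr b inter_subset_left)]
    congr 1
    rw [measure_iUnion (fun x y hxy => ((Sf_disj d hxy).mono inter_subset_right inter_subset_right))
      (fun x => (cs_meas hr b).inter (Sf_meas d hr _ _)), tsum_fintype]
  rw [h1, add_comm, ← ENNReal.toReal_add (fin_cs hr b inter_subset_left) (fin_cs hr b sdiff_subset),
    measure_inter_add_sdiff _ (MeasurableSet.iUnion d.mE), vol_cs hr, ENNReal.toReal_ofReal hrm.le]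

/-- the Gibbs kernel of a class -/
noncomputable def qq (x : Cod m (Rw m D) N L × (Fin m → Fin (nb r))) (b : Fin m → ℤ) : ℝ :=
  (∫⁻ y in cs r b ∩ Sf d x.1 x.2, ENNReal.ofReal |(d.T' x.1 y).det|).toReal / r ^ m

lemma qq_nonneg (hr : 0 < r) (x : Cod m (Rw m D) N L × (Fin m → Fin (nb r))) (b : Fin m → ℤ) : 0 ≤ qq d x b :=
  div_nonneg ENNReal.toReal_nonneg (by positivity)

/-- injectivity of the chart -/
lemma T_inj (c : Cod m (Rw m D) N L) : InjOn (d.T c) (d.E c) := by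
  intro x hx y hy hxy
  funext j
  have h1 := d.hG c x hx j
  have h2 := d.hG c y hy j
  rw [hxy, h2] at h1
  exact_mod_cast h1.symm

lemma area_Sf (hr : 0 < r) (c : Cod m (Rw m D) N L) (f : Fin m → Fin (nb r)) :
    ∫⁻ y in Sf d c f, ENNReal.ofReal |(d.T' c y).det| ≤ ENNReal.ofReal (r ^ m) := by
  rw [lintegral_abs_det_fderiv_eq_addHaar_image volume (Sf_meas d hr c f)
    (fun x _ => (d.dT c x).hasFDerivWithinAt) ((T_inj d c).mono inter_subset_left), ← vol_cs hr fun i => ((f i : ℕ) : ℤ)]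
  apply measure_mono
  rintro _ ⟨x, hx, rfl⟩
  exact hx.2

lemma qq_sum (hr : 0 < r) (x : Cod m (Rw m D) N L × (Fin m → Fin (nb r))) (S : Finset (Fin m → ℤ)) :
    ∑ b ∈ S, qq d x b ≤ 1 := by
  have hrm : 0 < r ^ m := by positivity
  unfold qq
  rw [← Finset.sum_div, div_le_one hrm, ← ENNReal.toReal_sum]
  · refine ENNReal.toReal_le_of_le_ofReal hrm.le (le_trans ?_ (area_Sf d hr x.1 x.2))
    rw [← lintegral_biUnion_finset (s := S) (t := fun b => cs r b ∩ Sf d x.1 x.2)]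
    · exact lintegral_mono_set (iUnion₂_subset fun b _ => inter_subset_right)
    · intro b _ b' _ hb
      exact (cs_disj hb).mono inter_subset_left inter_subset_left
    · exact fun b _ => (cs_meas hr b).inter (Sf_meas d hr _ _)
  · intro b _
    refine ne_top_of_le_ne_top ENNReal.ofReal_ne_top
      ((lintegral_mono_set inter_subset_right).trans (area_Sf d hr x.1 x.2))

lemma qq_ge (hr : 0 < r) (x : Cod m (Rw m D) N L × (Fin m → Fin (nb r))) (b : Fin m → ℤ) {τ : ℝ} (hτ : 0 ≤ τ)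
    (h : ∀ y ∈ cs r b ∩ d.E x.1, τ ≤ |(d.T' x.1 y).det|) : τ * kap d b (some x) ≤ qq d x b := by
  have hrm : 0 < r ^ m := by positivity
  show τ * ((volume (cs r b ∩ Sf d x.1 x.2)).toReal / r ^ m) ≤ qq d x b
  unfold qq
  rw [← mul_div_assoc]
  apply div_le_div_of_nonneg_right _ hrm.le
  have h1 : ENNReal.ofReal (τ * (volume (cs r b ∩ Sf d x.1 x.2)).toReal) ≤
      ∫⁻ y in cs r b ∩ Sf d x.1 x.2, ENNReal.ofReal |(d.T' x.1 y).det| := by
    rw [ENNReal.ofReal_mul hτ, ENNReal.ofReal_toReal (fin_cs hr b inter_subset_left), ← setLIntegral_const]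
    refine setLIntegral_mono' ((cs_meas hr b).inter (Sf_meas d hr _ _)) fun y hy => ?_
    exact ENNReal.ofReal_le_ofReal (h y ⟨hy.1, hy.2.1⟩)
  have h2 := ENNReal.toReal_mono (ne_top_of_le_ne_top ENNReal.ofReal_ne_top
      ((lintegral_mono_set inter_subset_right).trans (area_Sf d hr x.1 x.2))) h1
  rwa [ENNReal.toReal_ofReal (mul_nonneg hτ ENNReal.toReal_nonneg)] at h2

lemma det_meas (c : Cod m (Rw m D) N L) : Measurable fun y => ENNReal.ofReal |(d.T' c y).det| := by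
  have h1 : d.T' c = fun y => fderiv ℝ (d.T c) y := by
    funext y
    exact (d.dT c y).fderiv.symm
  rw [h1]
  have h2 : Measurable fun y => (fderiv ℝ (d.T c) y).det :=
    ContinuousLinearMap.continuous_det.measurable.comp (measurable_fderiv ℝ (d.T c))
  exact (continuous_abs.measurable.comp h2).ennreal_ofReal

lemma qq_pos (hr : 0 < r) (x : Cod m (Rw m D) N L × (Fin m → Fin (nb r))) (b : Fin m → ℤ)
    (h : kap d b (some x) ≠ 0) : 0 < qq d x b := by
  have hrm : 0 < r ^ m := by positivity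
  have h1 : volume (cs r b ∩ Sf d x.1 x.2) ≠ 0 := by
    intro h0
    apply h
    show (volume (cs r b ∩ Sf d x.1 x.2)).toReal / r ^ m = 0
    rw [h0, ENNReal.toReal_zero, zero_div]
  unfold qq
  apply div_pos _ hrm
  apply ENNReal.toReal_pos
  · apply ne_of_gt
    rw [setLIntegral_pos_iff (det_meas d x.1)]
    refine lt_of_lt_of_le (pos_iff_ne_zero.mpr h1) (measure_mono fun y hy => ⟨?_, hy⟩)
    rw [Function.mem_support]
    have h2 : 0 < |(d.T' x.1 y).det| := abs_pos.mpr (d.nz x.1 y hy.2.1)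
    exact (ENNReal.ofReal_pos.mpr h2).ne'
  · exact ne_top_of_le_ne_top ENNReal.ofReal_ne_top
      ((lintegral_mono_set inter_subset_right).trans (area_Sf d hr x.1 x.2))

/-- a point of a class of positive weight -/
lemma exists_pt (hr : 0 < r) (x : Cod m (Rw m D) N L × (Fin m → Fin (nb r))) (b : Fin m → ℤ)
    (h : kap d b (some x) ≠ 0) : ∃ y, y ∈ cs r b ∧ y ∈ Sf d x.1 x.2 := by
  have h1 : volume (cs r b ∩ Sf d x.1 x.2) ≠ 0 := by
    intro h0
    apply h
    show (volume (cs r b ∩ Sf d x.1 x.2)).toReal / r ^ m = 0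
    rw [h0, ENNReal.toReal_zero, zero_div]
  obtain ⟨y, hy⟩ := nonempty_of_measure_ne_zero h1
  exact ⟨y, hy.1, hy.2⟩

/-! ### the count -/

/-- the Gibbs kernel of the count -/
noncomputable def q0 (W : ℝ) (b : Fin m → ℤ) : ℝ :=
  (∫⁻ x in cs r b ∩ d.reg, ENNReal.ofReal √(GQ r A x)).toReal +
    W * (∫⁻ x in cs r b ∩ (d.reg \ ⋃ c, d.E c), ENNReal.ofReal √(GQ r A x)).toReal

lemma q0_nonneg {W : ℝ} (hW : 0 ≤ W) (b : Fin m → ℤ) : 0 ≤ q0 d W b :=
  add_nonneg ENNReal.toReal_nonneg (mul_nonneg hW ENNReal.toReal_nonneg)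

lemma sum_int (hr : 0 < r) {s : Set (Fin m → ℝ)} (hs : MeasurableSet s) {κ : ℝ} (hκ : 0 ≤ κ)
    (h : ∫⁻ x in s, ENNReal.ofReal √(GQ r A x) ≤ ENNReal.ofReal κ) (S : Finset (Fin m → ℤ)) :
    ∑ b ∈ S, (∫⁻ x in cs r b ∩ s, ENNReal.ofReal √(GQ r A x)).toReal ≤ κ := by
  rw [← ENNReal.toReal_sum]
  · refine ENNReal.toReal_le_of_le_ofReal hκ (le_trans ?_ h)
    rw [← lintegral_biUnion_finset (s := S) (t := fun b => cs r b ∩ s)]
    · exact lintegral_mono_set (iUnion₂_subset fun b _ => inter_subset_right)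
    · intro b _ b' _ hb
      exact (cs_disj hb).mono inter_subset_left inter_subset_left
    · exact fun b _ => (cs_meas hr b).inter hs
  · intro b _
    exact ne_top_of_le_ne_top ENNReal.ofReal_ne_top ((lintegral_mono_set inter_subset_right).trans h)

lemma q0_sum (hr : 0 < r) (hC : 0 ≤ C) (hK : 0 ≤ K) (hN : 0 < N) {W : ℝ} (hW : 0 ≤ W) (hW1 : W ≤ √N)
    (S : Finset (Fin m → ℤ)) : ∑ b ∈ S, q0 d W b ≤ 2 * (C * K ^ m) := by
  have hN' : (0 : ℝ) < √N := Real.sqrt_pos.mpr (by exact_mod_cast hN)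
  unfold q0
  rw [Finset.sum_add_distrib, ← Finset.mul_sum]
  have h1 := sum_int hr d.mreg (by positivity : 0 ≤ C * K ^ m) d.tot S
  have h2 := sum_int hr (d.mreg.diff (MeasurableSet.iUnion d.mE)) (by positivity : 0 ≤ C * K ^ m / √N) d.bad S
  have h3 : W * ∑ b ∈ S, (∫⁻ x in cs r b ∩ (d.reg \ ⋃ c, d.E c), ENNReal.ofReal √(GQ r A x)).toReal ≤ C * K ^ m := by
    calc _ ≤ √N * (C * K ^ m / √N) := mul_le_mul hW1 h2 (Finset.sum_nonneg fun _ _ => ENNReal.toReal_nonneg) hN'.le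
      _ = C * K ^ m := by field_simp
  linarith

lemma int_ge {s : Set (Fin m → ℝ)} (hs : MeasurableSet s) {σ : ℝ} (hσ : 0 ≤ σ) (h : ∀ x ∈ s, σ ≤ √(GQ r A x))
    (hfin : ∫⁻ x in s, ENNReal.ofReal √(GQ r A x) ≠ ⊤) (hv : volume s ≠ ⊤) :
    σ * (volume s).toReal ≤ (∫⁻ x in s, ENNReal.ofReal √(GQ r A x)).toReal := by
  have h1 : ENNReal.ofReal (σ * (volume s).toReal) ≤ ∫⁻ x in s, ENNReal.ofReal √(GQ r A x) := by
    rw [ENNReal.ofReal_mul hσ, ENNReal.ofReal_toReal hv, ← setLIntegral_const]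
    exact setLIntegral_mono' hs fun y hy => ENNReal.ofReal_le_ofReal (h y hy)
  have h2 := ENNReal.toReal_mono hfin h1
  rwa [ENNReal.toReal_ofReal (mul_nonneg hσ ENNReal.toReal_nonneg)] at h2

lemma q0_ge (hr : 0 < r) {W : ℝ} (hW : 0 ≤ W) (b : Fin m → ℤ) (hb : cs r b ⊆ d.reg) {σ : ℝ} (hσ : 0 ≤ σ)
    (h : ∀ x ∈ cs r b, σ ≤ √(GQ r A x)) : σ * r ^ m * (1 + W * kap d b none) ≤ q0 d W b := by
  have hrm : 0 < r ^ m := by positivity
  have hm1 : MeasurableSet (cs r b ∩ d.reg) := (cs_meas hr b).inter d.mreg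
  have hm2 : MeasurableSet (cs r b ∩ (d.reg \ ⋃ c, d.E c)) :=
    (cs_meas hr b).inter (d.mreg.diff (MeasurableSet.iUnion d.mE))
  have h1 := int_ge hm1 hσ (fun x hx => h x hx.1) (ne_top_of_le_ne_top ENNReal.ofReal_ne_top
    ((lintegral_mono_set inter_subset_right).trans d.tot)) (fin_cs hr b inter_subset_left)
  have h2 := int_ge hm2 hσ (fun x hx => h x hx.1) (ne_top_of_le_ne_top ENNReal.ofReal_ne_top
    ((lintegral_mono_set inter_subset_right).trans d.bad)) (fin_cs hr b inter_subset_left)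
  have e1 : cs r b ∩ d.reg = cs r b := inter_eq_left.mpr hb
  have e2 : cs r b ∩ (d.reg \ ⋃ c, d.E c) = cs r b \ ⋃ c, d.E c := by
    ext x
    constructor
    · exact fun hx => ⟨hx.1, hx.2.2⟩
    · exact fun hx => ⟨hx.1, hb hx.1, hx.2⟩
  have e3 : kap d b none = (volume (cs r b \ ⋃ c, d.E c)).toReal / r ^ m := rfl
  have e4 : (volume (cs r b)).toReal = r ^ m := by
    rw [vol_cs hr, ENNReal.toReal_ofReal hrm.le]
  have e5 : (volume (cs r b \ ⋃ c, d.E c)).toReal = r ^ m * kap d b none := by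
    rw [e3]
    field_simp
  rw [e2, e5] at h2
  rw [e1, e4] at h1
  unfold q0
  rw [e1, e2]
  have h3 := mul_le_mul_of_nonneg_left h2 hW
  nlinarith

end Pool.Agent.Helper76.RL
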