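import Mathlib

/-! `M + 1` polynomials in `M` variables satisfy an algebraic relation of bounded degree (count of dimensions). -/

set_option autoImplicit false

namespace Pool.Agent.Helper76.RL

open MvPolynomial

/-- exponents as a finitely supported function -/
noncomputable def xp {n l : ℕ} (α : Fin n → Fin l) : Fin n →₀ ℕ := Finsupp.equivFunOnFinite.symm fun i => (α i : ℕ)

lemma xp_inj {n l : ℕ} : Function.Injective (xp : (Fin n → Fin l) → (Fin n →₀ ℕ)) := by
  intro a b h
  funext i
  have h1 := congrArg (fun f => f i) h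
  exact Fin.ext h1

/-- the relation -/
theorem exists_rel (M D : ℕ) : ∃ L : ℕ, ∀ θ : Fin (M + 1) → MvPolynomial (Fin M) ℂ,
    (∀ i, (θ i).totalDegree ≤ D) →
    ∃ H : MvPolynomial (Fin (M + 1)) ℂ, H ≠ 0 ∧ H.totalDegree ≤ L ∧ aeval θ H = 0 := by
  classical
  set n : ℕ := (M + 1) * D + 1 with hn
  set l : ℕ := n ^ M + 1 with hl
  refine ⟨(M + 1) * l, fun θ hθ => ?_⟩
  set P : (Fin (M + 1) → Fin l) → MvPolynomial (Fin M) ℂ := fun α => ∏ i, θ i ^ (α i : ℕ) with hP
  have hPd : ∀ α, (P α).totalDegree < l * n := by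
    intro α
    have h1 : (P α).totalDegree ≤ (M + 1) * ((l - 1) * D) := by
      refine (totalDegree_finsetProd _ _).trans ?_
      refine (Finset.sum_le_card_nsmul _ _ ((l - 1) * D) fun i _ => ?_).trans ?_
      · refine (totalDegree_pow _ _).trans ?_
        exact Nat.mul_le_mul (Nat.le_sub_one_of_lt (α i).2) (hθ i)
      · rw [Finset.card_univ, Fintype.card_fin, smul_eq_mul]
    have h2 : (M + 1) * ((l - 1) * D) ≤ (l - 1) * n := by
      rw [hn]
      calc (M + 1) * ((l - 1) * D) = (l - 1) * ((M + 1) * D) := by ring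
        _ ≤ _ := Nat.mul_le_mul_left _ (Nat.le_succ _)
    have h3 : (l - 1) * n < l * n := Nat.mul_lt_mul_of_pos_right (by omega) (by omega)
    omega
  let T : ((Fin (M + 1) → Fin l) → ℂ) →ₗ[ℂ] ((Fin M → Fin (l * n)) → ℂ) :=
    { toFun := fun c β => coeff (xp β) (∑ α, c α • P α)
      map_add' := by
        intro c d
        funext β
        simp only [Pi.add_apply, add_smul, Finset.sum_add_distrib, coeff_add]
      map_smul' := by
        intro r c
        funext β
        simp only [Pi.smul_apply, smul_eq_mul, RingHom.id_apply, mul_smul, ← Finset.smul_sum, coeff_smul] }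
  have hfr : Module.finrank ℂ ((Fin M → Fin (l * n)) → ℂ) < Module.finrank ℂ ((Fin (M + 1) → Fin l) → ℂ) := by
    rw [Module.finrank_fintype_fun_eq_card, Module.finrank_fintype_fun_eq_card]
    simp only [Fintype.card_fun, Fintype.card_fin]
    rw [mul_pow, pow_succ]
    refine Nat.mul_lt_mul_of_pos_left ?_ (by positivity)
    omega
  obtain ⟨c, hc0, hcT⟩ : ∃ c : (Fin (M + 1) → Fin l) → ℂ, c ≠ 0 ∧ T c = 0 := by
    have h1 := LinearMap.ker_ne_bot_of_finrank_lt (f := T) hfr
    obtain ⟨c, hc, hc0⟩ := Submodule.exists_mem_ne_zero_of_ne_bot h1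
    exact ⟨c, hc0, LinearMap.mem_ker.mp hc⟩
  have hsum : ∑ α, c α • P α = 0 := by
    ext β
    rw [coeff_zero]
    by_cases hβ : ∀ i, β i < l * n
    · have h1 := congrFun hcT (fun i => ⟨β i, hβ i⟩)
      have h2 : xp (fun i => (⟨β i, hβ i⟩ : Fin (l * n))) = β := by
        ext i
        rfl
      have h3 : coeff (xp (fun i => (⟨β i, hβ i⟩ : Fin (l * n)))) (∑ α, c α • P α) = 0 := h1
      rwa [h2] at h3
    · push Not at hβ
      obtain ⟨i, hi⟩ := hβ
      apply coeff_eq_zero_of_totalDegree_lt
      have h1 : (∑ α, c α • P α).totalDegree < l * n := by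
        have hpos : 0 < l * n := Nat.mul_pos (by omega) (by omega)
        refine (totalDegree_finsetSum _ _).trans_lt ?_
        rw [Finset.sup_lt_iff (by simpa using hpos)]
        intro α _
        exact (totalDegree_smul_le _ _).trans_lt (hPd α)
      refine h1.trans_le (hi.trans ?_)
      by_cases hm : i ∈ β.support
      · exact Finset.single_le_sum (f := fun j => β j) (fun _ _ => Nat.zero_le _) hm
      · have : β i = 0 := by simpa using hm
        rw [this]
        exact Nat.zero_le _
  refine ⟨∑ α, monomial (xp α) (c α), ?_, ?_, ?_⟩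
  · obtain ⟨α, hα⟩ := Function.ne_iff.mp hc0
    intro h0
    apply hα
    have h1 := congrArg (coeff (xp α)) h0
    rw [coeff_sum, coeff_zero] at h1
    rw [Finset.sum_eq_single α] at h1
    · simpa using h1
    · intro b _ hb
      rw [coeff_monomial, if_neg (fun h => hb (xp_inj h))]
    · intro h
      exact absurd (Finset.mem_univ _) h
  · refine (totalDegree_finsetSum _ _).trans (Finset.sup_le fun α _ => ?_)
    refine (totalDegree_monomial_le _ _).trans ?_
    have h1 : (xp α).sum (fun _ e => e) ≤ ∑ i, (α i : ℕ) := by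
      rw [Finsupp.sum_fintype _ _ (fun _ => rfl)]
      exact le_rfl
    refine h1.trans ?_
    refine (Finset.sum_le_card_nsmul _ _ l fun i _ => (α i).2.le).trans ?_
    rw [Finset.card_univ, Fintype.card_fin, smul_eq_mul]
  · rw [map_sum]
    rw [← hsum]
    refine Finset.sum_congr rfl fun α _ => ?_
    rw [aeval_monomial, Algebra.smul_def]
    congr 1
    rw [Finsupp.prod_fintype _ _ (fun _ => pow_zero _)]
    rfl

end Pool.Agent.Helper76.RL
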