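import Mathlib

/-! A polynomial close to another one at `D + 1` points has no zeros on a circle which stays away from the zeros of the
other one. -/

set_option autoImplicit false

namespace Pool.Agent.Helper76.RL

open Polynomial

/-- a radius in `[2, 3]` away from all the roots -/
lemma exists_radius (p : ℂ[X]) (D : ℕ) (hp : p.natDegree ≤ D) :
    ∃ R : ℝ, 2 ≤ R ∧ R ≤ 3 ∧ ∀ r ∈ p.roots, 1 / (2 * ((D : ℝ) + 1)) ≤ |R - ‖r‖| := by
  classical
  by_contra hcon
  push Not at hcon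
  have hD : (0 : ℝ) < (D : ℝ) + 1 := by positivity
  have h1 : ∀ k : Fin (D + 1), ∃ r ∈ p.roots.toFinset,
      |(2 + ((k : ℕ) + 1 / 2) / ((D : ℝ) + 1)) - ‖r‖| < 1 / (2 * ((D : ℝ) + 1)) := by
    intro k
    have hk : ((k : ℕ) : ℝ) ≤ D := by exact_mod_cast Nat.lt_succ_iff.mp k.2
    have h2 : (0 : ℝ) ≤ ((k : ℕ) + 1 / 2) / ((D : ℝ) + 1) := by positivity
    have h3 : ((k : ℕ) + 1 / 2) / ((D : ℝ) + 1) ≤ 1 := by
      rw [div_le_one hD]
      linarith
    obtain ⟨r, hr, h4⟩ := hcon (2 + ((k : ℕ) + 1 / 2) / ((D : ℝ) + 1)) (by linarith) (by linarith)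
    exact ⟨r, Multiset.mem_toFinset.mpr hr, h4⟩
  choose f hf1 hf2 using h1
  have hcard : p.roots.toFinset.card < (Finset.univ : Finset (Fin (D + 1))).card := by
    rw [Finset.card_univ, Fintype.card_fin]
    exact Nat.lt_succ_of_le ((Multiset.toFinset_card_le _).trans ((Polynomial.card_roots' p).trans hp))
  obtain ⟨a, -, b, -, hab, hfab⟩ := Finset.exists_ne_map_eq_of_card_lt_of_maps_to hcard (fun k _ => hf1 k)
  have ha := hf2 a
  have hb := hf2 b
  rw [hfab] at ha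
  have h5 : |((2 + ((a : ℕ) + 1 / 2) / ((D : ℝ) + 1)) - (2 + ((b : ℕ) + 1 / 2) / ((D : ℝ) + 1)))| <
      1 / ((D : ℝ) + 1) := by
    have h6 : (2 + ((a : ℕ) + 1 / 2) / ((D : ℝ) + 1)) - (2 + ((b : ℕ) + 1 / 2) / ((D : ℝ) + 1)) =
        ((2 + ((a : ℕ) + 1 / 2) / ((D : ℝ) + 1)) - ‖f b‖) - ((2 + ((b : ℕ) + 1 / 2) / ((D : ℝ) + 1)) - ‖f b‖) := by
      ring
    rw [h6]
    refine (abs_sub _ _).trans_lt ?_
    have h7 : 1 / ((D : ℝ) + 1) = 1 / (2 * ((D : ℝ) + 1)) + 1 / (2 * ((D : ℝ) + 1)) := by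
      field_simp
      ring
    rw [h7]
    exact add_lt_add ha hb
  have h8 : (2 + ((a : ℕ) + 1 / 2) / ((D : ℝ) + 1)) - (2 + ((b : ℕ) + 1 / 2) / ((D : ℝ) + 1)) =
      (((a : ℕ) : ℝ) - ((b : ℕ) : ℝ)) / ((D : ℝ) + 1) := by
    ring
  rw [h8, abs_div, abs_of_pos hD, div_lt_div_iff_of_pos_right hD] at h5
  have h9 : ((a : ℕ) : ℤ) = ((b : ℕ) : ℤ) := by
    have h10 : |(((a : ℕ) : ℤ) : ℝ) - (((b : ℕ) : ℤ) : ℝ)| < 1 := by
      simpa using h5
    have h11 : |((a : ℕ) : ℤ) - ((b : ℕ) : ℤ)| < 1 := by exact_mod_cast h10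
    have h12 := abs_lt.mp h11
    omega
  exact hab (Fin.ext (by exact_mod_cast h9))

/-- the values of a polynomial at two points, one of them away from the roots -/
lemma eval_le_of_away (p : ℂ[X]) (D : ℕ) (hp : p.natDegree ≤ D) {η L : ℝ} (hη : 0 < η) (hL : 0 ≤ L) (w v : ℂ)
    (hw : ∀ r ∈ p.roots, η ≤ ‖w - r‖) (hv : ‖v - w‖ ≤ L) :
    ‖p.eval v‖ ≤ (1 + L / η) ^ D * ‖p.eval w‖ := by
  have h1 : p = C p.leadingCoeff * (p.roots.map fun a => X - C a).prod :=
    (IsAlgClosed.splits p).eq_prod_roots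
  have h2 : ∀ z : ℂ, ‖p.eval z‖ = ‖p.leadingCoeff‖ * (p.roots.map fun a => ‖z - a‖).prod := by
    intro z
    conv_lhs => rw [h1]
    rw [eval_mul, eval_C, norm_mul, Polynomial.eval_multiset_prod, Multiset.map_map]
    congr 1
    have h12 := Multiset.prod_hom (p.roots.map (eval z ∘ fun a => X - C a)) (normHom : ℂ →*₀ ℝ)
    have h13 : ‖((p.roots.map (eval z ∘ fun a => X - C a)).prod : ℂ)‖ =
        ((p.roots.map (eval z ∘ fun a => X - C a)).map (normHom : ℂ →*₀ ℝ)).prod := h12.symm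
    rw [h13, Multiset.map_map]
    congr 1
    refine Multiset.map_congr rfl fun a _ => ?_
    simp
  rw [h2 v, h2 w]
  have h3 : ∀ s : Multiset ℂ, (∀ r ∈ s, η ≤ ‖w - r‖) →
      (s.map fun a => ‖v - a‖).prod ≤ (1 + L / η) ^ Multiset.card s * (s.map fun a => ‖w - a‖).prod := by
    intro s
    induction s using Multiset.induction_on with
    | empty => intro _; simp
    | cons a s ih =>
      intro hs
      rw [Multiset.map_cons, Multiset.prod_cons, Multiset.map_cons, Multiset.prod_cons, Multiset.card_cons, pow_succ]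
      have h4 := ih (fun r hr => hs r (Multiset.mem_cons_of_mem hr))
      have h5 := hs a (Multiset.mem_cons_self a s)
      have h6 : ‖v - a‖ ≤ (1 + L / η) * ‖w - a‖ := by
        have h7 : ‖v - a‖ ≤ ‖v - w‖ + ‖w - a‖ := by
          have := norm_add_le (v - w) (w - a)
          rwa [sub_add_sub_cancel] at this
        have h8 : L ≤ L / η * ‖w - a‖ := by
          rw [div_mul_eq_mul_div, le_div_iff₀ hη]
          exact mul_le_mul_of_nonneg_left h5 hL
        linarith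
      have h9 : 0 ≤ (s.map fun a => ‖v - a‖).prod := by
        apply Multiset.prod_nonneg
        intro x hx
        obtain ⟨y, -, rfl⟩ := Multiset.mem_map.mp hx
        exact norm_nonneg _
      calc ‖v - a‖ * (s.map fun a => ‖v - a‖).prod
          ≤ ((1 + L / η) * ‖w - a‖) * ((1 + L / η) ^ Multiset.card s * (s.map fun a => ‖w - a‖).prod) :=
            mul_le_mul h6 h4 h9 (by positivity)
        _ = _ := by ring
  have h10 : 0 ≤ (p.roots.map fun a => ‖w - a‖).prod := by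
    apply Multiset.prod_nonneg
    intro x hx
    obtain ⟨y, -, rfl⟩ := Multiset.mem_map.mp hx
    exact norm_nonneg _
  have h11 : (1 + L / η) ^ Multiset.card p.roots ≤ (1 + L / η) ^ D :=
    pow_le_pow_right₀ (by have : 0 ≤ L / η := by positivity
                          linarith) ((Polynomial.card_roots' p).trans hp)
  calc ‖p.leadingCoeff‖ * (p.roots.map fun a => ‖v - a‖).prod
      ≤ ‖p.leadingCoeff‖ * ((1 + L / η) ^ D * (p.roots.map fun a => ‖w - a‖).prod) :=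
        mul_le_mul_of_nonneg_left ((h3 _ hw).trans (mul_le_mul_of_nonneg_right h11 h10)) (norm_nonneg _)
    _ = _ := by ring

/-- a polynomial of degree `≤ D` is bounded on the ball of radius 3 by its values at `0, ..., D` -/
lemma eval_le_nodes (p : ℂ[X]) (D : ℕ) (hp : p.natDegree ≤ D) {M : ℝ}
    (hM : ∀ k : Fin (D + 1), ‖p.eval ((k : ℕ) : ℂ)‖ ≤ M) (w : ℂ) (hw : ‖w‖ ≤ 3) :
    ‖p.eval w‖ ≤ ((D : ℝ) + 1) * ((D : ℝ) + 3) ^ D * M := by
  classical
  have hM0 : 0 ≤ M := (norm_nonneg _).trans (hM 0)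
  set v : Fin (D + 1) → ℂ := fun k => ((k : ℕ) : ℂ) with hv
  have hinj : Set.InjOn v (Finset.univ : Finset (Fin (D + 1))) := by
    intro a _ b _ hab
    have hab' : ((a : ℕ) : ℂ) = ((b : ℕ) : ℂ) := hab
    exact Fin.ext (by exact_mod_cast hab')
  have hdeg : p.degree < (Finset.univ : Finset (Fin (D + 1))).card := by
    rw [Finset.card_univ, Fintype.card_fin]
    exact (Polynomial.degree_le_natDegree).trans_lt (by exact_mod_cast Nat.lt_succ_of_le hp)
  have h1 := Lagrange.eq_interpolate (v := v) hinj hdeg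
  rw [h1, Lagrange.interpolate_apply, Polynomial.eval_finsetSum]
  refine (norm_sum_le _ _).trans ?_
  have h2 : ∀ k ∈ (Finset.univ : Finset (Fin (D + 1))),
      ‖(C (p.eval (v k)) * Lagrange.basis Finset.univ v k).eval w‖ ≤ ((D : ℝ) + 3) ^ D * M := by
    intro k _
    rw [eval_mul, eval_C, norm_mul, mul_comm]
    refine mul_le_mul ?_ (hM k) (norm_nonneg _) (by positivity)
    rw [Lagrange.basis, Polynomial.eval_prod, norm_prod]
    have h3 : ∀ j ∈ (Finset.univ : Finset (Fin (D + 1))).erase k,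
        ‖(Lagrange.basisDivisor (v k) (v j)).eval w‖ ≤ (D : ℝ) + 3 := by
      intro j hj
      have hjk : j ≠ k := Finset.ne_of_mem_erase hj
      rw [Lagrange.basisDivisor, eval_mul, eval_C, eval_sub, eval_X, eval_C, norm_mul, norm_inv]
      have h4 : 1 ≤ ‖v k - v j‖ := by
        have h5 : v k - v j = (((((k : ℕ) : ℤ) - ((j : ℕ) : ℤ)) : ℤ) : ℂ) := by
          simp [hv]
        rw [h5, Complex.norm_intCast]
        have h6 : (1 : ℤ) ≤ |((k : ℕ) : ℤ) - ((j : ℕ) : ℤ)| := by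
          apply Int.one_le_abs
          intro h7
          apply hjk
          exact Fin.ext (by omega)
        exact_mod_cast h6
      have h8 : ‖w - v j‖ ≤ (D : ℝ) + 3 := by
        refine (norm_sub_le _ _).trans ?_
        have h9 : ‖v j‖ ≤ D := by
          simp only [hv, Complex.norm_natCast]
          exact_mod_cast Nat.lt_succ_iff.mp j.2
        linarith
      have h10 : ‖v k - v j‖⁻¹ ≤ 1 := inv_le_one_of_one_le₀ h4
      calc ‖v k - v j‖⁻¹ * ‖w - v j‖ ≤ 1 * ((D : ℝ) + 3) :=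
            mul_le_mul h10 h8 (norm_nonneg _) zero_le_one
        _ = _ := one_mul _
    refine (Finset.prod_le_prod (fun j _ => norm_nonneg _) h3).trans (le_of_eq ?_)
    rw [Finset.prod_const, Finset.card_erase_of_mem (Finset.mem_univ k), Finset.card_univ, Fintype.card_fin]
    simp
  refine (Finset.sum_le_sum h2).trans (le_of_eq ?_)
  rw [Finset.sum_const, Finset.card_univ, Fintype.card_fin, nsmul_eq_mul]
  push_cast
  ring

/-- the constant of the circle lemma -/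
noncomputable def cD (D : ℕ) : ℝ :=
  ((D : ℝ) + 1) * ((D : ℝ) + 3) ^ D * (1 + ((D : ℝ) + 3) / (1 / (2 * ((D : ℝ) + 1)))) ^ D

lemma cD_pos (D : ℕ) : 0 < cD D := by
  unfold cD
  positivity

/-- NO ZEROS ON THE CIRCLE -/
theorem circle (p₀ p : ℂ[X]) (D : ℕ) (hp₀ : p₀.natDegree ≤ D) (hp : p.natDegree ≤ D) (hne : p₀ ≠ 0) {ε : ℝ}
    (hε : cD D * ε < 1) {R : ℝ} (hR3 : R ≤ 3)
    (hR : ∀ r ∈ p₀.roots, 1 / (2 * ((D : ℝ) + 1)) ≤ |R - ‖r‖|)
    (hk : ∀ k : Fin (D + 1), ‖p.eval ((k : ℕ) : ℂ) - p₀.eval ((k : ℕ) : ℂ)‖ ≤ ε * ‖p₀.eval ((k : ℕ) : ℂ)‖)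
    (w : ℂ) (hw : ‖w‖ = R) : p.eval w ≠ 0 := by
  intro h0
  have hη : (0 : ℝ) < 1 / (2 * ((D : ℝ) + 1)) := by positivity
  have haway : ∀ r ∈ p₀.roots, 1 / (2 * ((D : ℝ) + 1)) ≤ ‖w - r‖ := by
    intro r hr
    refine (hR r hr).trans ?_
    rw [← hw]
    exact abs_norm_sub_norm_le w r
  have hpw : p₀.eval w ≠ 0 := by
    intro h1
    have h2 := haway w ((Polynomial.mem_roots hne).mpr h1)
    rw [sub_self, norm_zero] at h2
    linarith
  have hpw' : 0 < ‖p₀.eval w‖ := norm_pos_iff.mpr hpw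
  by_cases hε0 : 0 ≤ ε
  · have h3 : ∀ k : Fin (D + 1), ‖(p - p₀).eval ((k : ℕ) : ℂ)‖ ≤
        ε * ((1 + ((D : ℝ) + 3) / (1 / (2 * ((D : ℝ) + 1)))) ^ D * ‖p₀.eval w‖) := by
      intro k
      rw [eval_sub]
      refine (hk k).trans (mul_le_mul_of_nonneg_left ?_ hε0)
      refine eval_le_of_away p₀ D hp₀ hη (by positivity) w _ haway ?_
      refine (norm_sub_le _ _).trans ?_
      rw [hw, Complex.norm_natCast]
      have h4 : ((k : ℕ) : ℝ) ≤ D := by exact_mod_cast Nat.lt_succ_iff.mp k.2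
      linarith
    have h5 := eval_le_nodes (p - p₀) D ((Polynomial.natDegree_sub_le _ _).trans (max_le hp hp₀)) h3 w (hw.le.trans hR3)
    rw [eval_sub, h0, zero_sub, norm_neg] at h5
    have h6 : ((D : ℝ) + 1) * ((D : ℝ) + 3) ^ D *
        (ε * ((1 + ((D : ℝ) + 3) / (1 / (2 * ((D : ℝ) + 1)))) ^ D * ‖p₀.eval w‖)) = cD D * ε * ‖p₀.eval w‖ := by
      unfold cD
      ring
    rw [h6] at h5
    nlinarith
  · have h7 : ∀ k : Fin (D + 1), ‖(p - p₀).eval ((k : ℕ) : ℂ)‖ ≤ 0 := by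
      intro k
      rw [eval_sub]
      refine (hk k).trans ?_
      have := norm_nonneg (p₀.eval ((k : ℕ) : ℂ))
      nlinarith
    have h8 := eval_le_nodes (p - p₀) D ((Polynomial.natDegree_sub_le _ _).trans (max_le hp hp₀)) h7 w (hw.le.trans hR3)
    rw [eval_sub, h0, zero_sub, norm_neg, mul_zero] at h8
    linarith

end Pool.Agent.Helper76.RL
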