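import Mathlib

/-! Polynomials in `(Y, z)`: smoothness, the vertical derivative, the resultant with the derivative. -/

set_option autoImplicit false

namespace Pool.Agent.Helper76.RL

open MvPolynomial

variable {m : ℕ}

/-- the value of `q` at `(Y, z)` -/
noncomputable def ev (q : Polynomial (MvPolynomial (Fin m) ℂ)) (e : (Fin m → ℂ) × ℂ) : ℂ :=
  (q.map (MvPolynomial.eval e.1)).eval e.2

lemma ev_eq_sum (q : Polynomial (MvPolynomial (Fin m) ℂ)) (e : (Fin m → ℂ) × ℂ) :
    ev q e = ∑ i ∈ Finset.range (q.natDegree + 1), MvPolynomial.eval e.1 (q.coeff i) * e.2 ^ i := by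
  rw [ev, Polynomial.eval_map, Polynomial.eval₂_eq_sum_range]

lemma ev_contDiff (q : Polynomial (MvPolynomial (Fin m) ℂ)) : ContDiff ℂ 1 (ev q) := by
  have h1 : ev q = fun e => ∑ i ∈ Finset.range (q.natDegree + 1), MvPolynomial.eval e.1 (q.coeff i) * e.2 ^ i := by
    funext e
    exact ev_eq_sum q e
  rw [h1]
  refine ContDiff.sum fun i _ => ?_
  refine ContDiff.mul ?_ (contDiff_snd.pow i)
  have h2 : ContDiff ℂ 1 (fun x : Fin m → ℂ => MvPolynomial.eval x (q.coeff i)) :=
    (AnalyticOnNhd.eval_mvPolynomial (q.coeff i)).contDiff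
  exact h2.comp contDiff_fst

lemma ev_fderiv (q : Polynomial (MvPolynomial (Fin m) ℂ)) (x : Fin m → ℂ) (u : ℂ) :
    fderiv ℂ (ev q) (x, u) (0, 1) = ev (Polynomial.derivative q) (x, u) := by
  have h1 : HasFDerivAt (ev q) (fderiv ℂ (ev q) (x, u)) (x, u) :=
    ((ev_contDiff q).differentiable (by norm_num) (x, u)).hasFDerivAt
  have h2 : HasDerivAt (fun t : ℂ => ((x, t) : (Fin m → ℂ) × ℂ)) (0, 1) u :=
    (hasDerivAt_const u x).prodMk (hasDerivAt_id u)
  have h3 : HasDerivAt (fun t : ℂ => ev q (x, t)) (fderiv ℂ (ev q) (x, u) (0, 1)) u :=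
    HasFDerivAt.comp_hasDerivAt u h1 h2
  have h4 : HasDerivAt (fun t : ℂ => ev q (x, t)) (ev (Polynomial.derivative q) (x, u)) u := by
    unfold ev
    rw [← Polynomial.derivative_map]
    exact (q.map (MvPolynomial.eval x)).hasDerivAt u
  exact h3.unique h4

lemma ev_mul (p q : Polynomial (MvPolynomial (Fin m) ℂ)) (e : (Fin m → ℂ) × ℂ) :
    ev (p * q) e = ev p e * ev q e := by
  simp [ev]

lemma ev_add (p q : Polynomial (MvPolynomial (Fin m) ℂ)) (e : (Fin m → ℂ) × ℂ) :
    ev (p + q) e = ev p e + ev q e := by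
  simp [ev]

lemma ev_C (a : MvPolynomial (Fin m) ℂ) (e : (Fin m → ℂ) × ℂ) :
    ev (Polynomial.C a) e = MvPolynomial.eval e.1 a := by
  simp [ev]

/-- no double roots where the resultant does not vanish -/
lemma ev_deriv_ne {q : Polynomial (MvPolynomial (Fin m) ℂ)} (hq : q.natDegree ≠ 0) {x : Fin m → ℂ} {u : ℂ}
    (hx : MvPolynomial.eval x (Polynomial.resultant q (Polynomial.derivative q)) ≠ 0) (h0 : ev q (x, u) = 0) :
    ev (Polynomial.derivative q) (x, u) ≠ 0 := by
  intro h1
  obtain ⟨a, b, -, -, hab⟩ := Polynomial.exists_mul_add_mul_eq_C_resultant q (Polynomial.derivative q)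
    le_rfl le_rfl (Or.inl hq)
  have h2 := congrArg (fun p => ev p (x, u)) hab
  simp only [ev_add, ev_mul, ev_C, h0, h1, zero_mul, add_zero] at h2
  exact hx h2.symm

/-- the resultant with the derivative of an irreducible polynomial does not vanish -/
lemma res_ne_zero {q : Polynomial (MvPolynomial (Fin m) ℂ)} (hq : Irreducible q) (hd : q.natDegree ≠ 0) :
    Polynomial.resultant q (Polynomial.derivative q) ≠ 0 := by
  set R := MvPolynomial (Fin m) ℂ
  set K := FractionRing R
  have hinj : Function.Injective (algebraMap R K) := IsFractionRing.injective R K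
  have h1 : Irreducible (q.map (algebraMap R K)) :=
    ((hq.isPrimitive hd).irreducible_iff_irreducible_map_fraction_map (K := K)).mp hq
  have : CharZero K := by
    have : CharZero R := inferInstance
    exact charZero_of_injective_algebraMap hinj
  have h2 : IsCoprime (q.map (algebraMap R K)) (Polynomial.derivative (q.map (algebraMap R K))) := h1.separable
  intro h0
  have h3 : Polynomial.resultant (q.map (algebraMap R K)) ((Polynomial.derivative q).map (algebraMap R K)) = 0 := by
    have h4 := Polynomial.resultant_map_map q (Polynomial.derivative q) q.natDegree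
      (Polynomial.derivative q).natDegree (algebraMap R K)
    rw [h0, map_zero] at h4
    rw [Polynomial.natDegree_map_eq_of_injective hinj, Polynomial.natDegree_map_eq_of_injective hinj]
    exact h4
  rw [Polynomial.resultant_eq_zero_iff] at h3
  rw [← Polynomial.derivative_map] at h3
  exact h3.2 h2

lemma totalDegree_resultant_le {q r : Polynomial (MvPolynomial (Fin m) ℂ)} (a b k : ℕ)
    (hq : ∀ i, (q.coeff i).totalDegree ≤ k) (hr : ∀ i, (r.coeff i).totalDegree ≤ k) :
    (Polynomial.resultant q r a b).totalDegree ≤ (a + b) * k := by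
  unfold Polynomial.resultant
  rw [Matrix.det_apply]
  refine (MvPolynomial.totalDegree_finsetSum _ _).trans (Finset.sup_le fun σ _ => ?_)
  refine (MvPolynomial.totalDegree_smul_le _ _).trans ?_
  refine (MvPolynomial.totalDegree_finsetProd _ _).trans ?_
  refine (Finset.sum_le_card_nsmul _ _ k fun i _ => ?_).trans (le_of_eq ?_)
  · unfold Polynomial.sylvester
    rw [Matrix.of_apply]
    refine Fin.addCases (fun j => ?_) (fun j => ?_) i
    · rw [Fin.addCases_left]
      split_ifs
      · exact hr _
      · simp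
    · rw [Fin.addCases_right]
      split_ifs
      · exact hq _
      · simp
  · simp

lemma totalDegree_coeff_derivative_le {q : Polynomial (MvPolynomial (Fin m) ℂ)} (k : ℕ)
    (hq : ∀ i, (q.coeff i).totalDegree ≤ k) (i : ℕ) :
    ((Polynomial.derivative q).coeff i).totalDegree ≤ k := by
  rw [Polynomial.coeff_derivative]
  refine (MvPolynomial.totalDegree_mul _ _).trans ?_
  have h1 : ((i : MvPolynomial (Fin m) ℂ) + 1).totalDegree = 0 := by
    have h2 : ((i : MvPolynomial (Fin m) ℂ) + 1) = MvPolynomial.C ((i : ℂ) + 1) := by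
      simp
    rw [h2, MvPolynomial.totalDegree_C]
  rw [h1, add_zero]
  exact hq _

end Pool.Agent.Helper76.RL
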