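import Mathlib

/-! HOLOMORPHIC ROOTS: a root of `Q (x, u) = 0` over a ball without critical points extends to a holomorphic function on
the ball (covering spaces). -/

set_option autoImplicit false

namespace Pool.Agent.Helper76.RL

open Metric Filter Topology

variable {X : Type*} [NormedAddCommGroup X] [NormedSpace ℂ X] [ProperSpace X]

/-- the zero set near a regular point is a graph -/
theorem loc_graph {Q : X × ℂ → ℂ} {e : X × ℂ} (hQ : ContDiffAt ℂ 1 Q e) (h0 : Q e = 0)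
    (h1 : fderiv ℂ Q e (0, 1) ≠ 0) :
    ∃ g : X → ℂ, ContDiffAt ℂ 1 g e.1 ∧ Tendsto g (𝓝 e.1) (𝓝 e.2) ∧ g e.1 = e.2 ∧
      ∀ᶠ v in 𝓝 e, (Q v = 0 ↔ g v.1 = v.2) := by
  have hinv : (fderiv ℂ Q e ∘L ContinuousLinearMap.inr ℂ X ℂ).IsInvertible := by
    set c := fderiv ℂ Q e (0, 1) with hc
    have he : (fderiv ℂ Q e ∘L ContinuousLinearMap.inr ℂ X ℂ) =
        ((ContinuousLinearEquiv.unitsEquivAut ℂ (Units.mk0 c h1) : ℂ ≃L[ℂ] ℂ) : ℂ →L[ℂ] ℂ) := by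
      ext
      simp [hc]
    exact ⟨_, he.symm⟩
  refine ⟨hQ.implicitFunction one_ne_zero hinv, hQ.contDiffAt_implicitFunction one_ne_zero hinv, ?_,
    hQ.implicitFunction_apply_self one_ne_zero hinv, ?_⟩
  · have h2 := (hQ.contDiffAt_implicitFunction one_ne_zero hinv).continuousAt.tendsto
    rwa [hQ.implicitFunction_apply_self one_ne_zero hinv] at h2
  · filter_upwards [hQ.eventually_apply_eq_iff_implicitFunction one_ne_zero hinv] with v hv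
    rw [h0] at hv
    exact hv

/-- the zero set over a closed ball -/
def ZS (Q : X × ℂ → ℂ) (x₀ : X) (ρ R : ℝ) : Set (X × ℂ) := {e | e.1 ∈ closedBall x₀ ρ ∧ ‖e.2‖ ≤ R ∧ Q e = 0}

omit [NormedSpace ℂ X] in
theorem isCompact_ZS {Q : X × ℂ → ℂ} (hQ : Continuous Q) (x₀ : X) (ρ R : ℝ) : IsCompact (ZS Q x₀ ρ R) := by
  have h1 : ZS Q x₀ ρ R = (closedBall x₀ ρ ×ˢ closedBall (0 : ℂ) R) ∩ Q ⁻¹' {0} := by
    ext e
    simp [ZS, and_assoc]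
  rw [h1]
  exact ((isCompact_closedBall x₀ ρ).prod (isCompact_closedBall 0 R)).inter_right
    (isClosed_singleton.preimage hQ)

/-- the projection of the zero set to the ball -/
def prj (Q : X × ℂ → ℂ) (x₀ : X) (ρ R : ℝ) (e : ZS Q x₀ ρ R) : X := e.1.1

theorem prj_cover {Q : X × ℂ → ℂ} (hQ : ContDiff ℂ 1 Q) {x₀ : X} {ρ R : ℝ}
    (h1 : ∀ x ∈ closedBall x₀ ρ, ∀ u : ℂ, ‖u‖ ≤ R → Q (x, u) = 0 → fderiv ℂ Q (x, u) (0, 1) ≠ 0)
    (h2 : ∀ x ∈ closedBall x₀ ρ, ∀ u : ℂ, ‖u‖ = R → Q (x, u) ≠ 0) :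
    IsCoveringMapOn (prj Q x₀ ρ R) (ball x₀ ρ) := by
  have : CompactSpace (ZS Q x₀ ρ R) := isCompact_iff_compactSpace.mp (isCompact_ZS hQ.continuous x₀ ρ R)
  have hp : Continuous (prj Q x₀ ρ R) := continuous_fst.comp continuous_subtype_val
  refine IsCoveringMapOn.of_isLocalHomeomorphOn hp ?_
  intro e he
  have hball : e.1.1 ∈ ball x₀ ρ := he
  have hR : ‖e.1.2‖ < R := lt_of_le_of_ne e.2.2.1 (fun h => h2 e.1.1 e.2.1 e.1.2 h e.2.2.2)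
  obtain ⟨g, hg1, hg2, hg3, hg4⟩ := loc_graph (hQ.contDiffAt (x := e.1)) e.2.2.2
    (h1 e.1.1 e.2.1 e.1.2 e.2.2.1 e.2.2.2)
  -- an open neighbourhood of the point
  obtain ⟨V, hV1, hV2, hV3⟩ := _root_.eventually_nhds_iff.mp hg4
  set V' : Set (X × ℂ) := V ∩ {v | ‖v.2‖ < R} with hV'
  have hV'o : IsOpen V' := hV2.inter (isOpen_lt (continuous_norm.comp continuous_snd) continuous_const)
  have hV'e : e.1 ∈ V' := ⟨hV3, hR⟩
  -- the graph is continuous near the point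
  obtain ⟨W1, hW1, hW1c⟩ := hg1.contDiffOn (m := 1) le_rfl (by simp)
  have hW1n : W1 ∈ 𝓝 e.1.1 := by simpa using hW1
  have hpair : Tendsto (fun x => (x, g x)) (𝓝 e.1.1) (𝓝 (e.1.1, e.1.2)) := by
    rw [nhds_prod_eq]
    exact tendsto_id.prodMk hg2
  have hnear : ∀ᶠ x in 𝓝 e.1.1, (x, g x) ∈ V' := hpair (hV'o.mem_nhds hV'e)
  obtain ⟨W, hW1', hWo, hWe⟩ := _root_.mem_nhds_iff.mp (inter_mem (inter_mem hW1n hnear) (isOpen_ball.mem_nhds hball))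
  have hWg : ∀ x ∈ W, (x, g x) ∈ ZS Q x₀ ρ R := by
    intro x hx
    have h3 := hW1' hx
    have h4 : (x, g x) ∈ V' := h3.1.2
    exact ⟨ball_subset_closedBall h3.2, h4.2.le, (hV1 _ h4.1).mpr rfl⟩
  have hWV : ∀ x ∈ W, (x, g x) ∈ V' := fun x hx => (hW1' hx).1.2
  classical
  let φ : OpenPartialHomeomorph (ZS Q x₀ ρ R) X :=
    { toFun := prj Q x₀ ρ R
      invFun := fun x => if h : x ∈ W then ⟨(x, g x), hWg x h⟩ else e
      source := {e' | e'.1 ∈ V' ∧ e'.1.1 ∈ W}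
      target := W
      map_source' := fun e' he' => he'.2
      map_target' := by
        intro x hx
        simp only [hx, dif_pos]
        exact ⟨hWV x hx, hx⟩
      left_inv' := by
        intro e' he'
        have h5 : e'.1.1 ∈ W := he'.2
        have h6 : g e'.1.1 = e'.1.2 := (hV1 _ he'.1.1).mp e'.2.2.2
        change (if h : e'.1.1 ∈ W then (⟨(e'.1.1, g e'.1.1), hWg e'.1.1 h⟩ : ZS Q x₀ ρ R) else e) = e'
        rw [dif_pos h5]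
        exact Subtype.ext (Prod.ext rfl h6)
      right_inv' := by
        intro x hx
        simp only [prj, hx, dif_pos]
      open_source := (hV'o.preimage continuous_subtype_val).inter (hWo.preimage hp)
      open_target := hWo
      continuousOn_toFun := hp.continuousOn
      continuousOn_invFun := by
        rw [Topology.IsInducing.subtypeVal.continuousOn_iff]
        have h7 : ContinuousOn (fun x => (x, g x)) W :=
          continuousOn_id.prodMk (hW1c.continuousOn.mono (fun x hx => (hW1' hx).1.1))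
        refine h7.congr ?_
        intro x hx
        simp [hx] }
  exact ⟨φ, ⟨hV'e, hWe⟩, rfl⟩

/-- THE ROOT EXTENDS to a holomorphic function on the ball -/
theorem root_ext {Q : X × ℂ → ℂ} (hQ : ContDiff ℂ 1 Q) {x₀ : X} {ρ R : ℝ}
    (h1 : ∀ x ∈ closedBall x₀ ρ, ∀ u : ℂ, ‖u‖ ≤ R → Q (x, u) = 0 → fderiv ℂ Q (x, u) (0, 1) ≠ 0)
    (h2 : ∀ x ∈ closedBall x₀ ρ, ∀ u : ℂ, ‖u‖ = R → Q (x, u) ≠ 0)
    {x₁ : X} (hx₁ : x₁ ∈ ball x₀ ρ) {u₁ : ℂ} (hu₁ : ‖u₁‖ ≤ R) (h0 : Q (x₁, u₁) = 0) :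
    ∃ F : X → ℂ, DifferentiableOn ℂ F (ball x₀ ρ) ∧ F x₁ = u₁ ∧ (∀ x ∈ ball x₀ ρ, ‖F x‖ ≤ R ∧ Q (x, F x) = 0) ∧
      ∀ F' : X → ℂ, ContinuousOn F' (ball x₀ ρ) → F' x₁ = u₁ →
        (∀ x ∈ ball x₀ ρ, ‖F' x‖ ≤ R ∧ Q (x, F' x) = 0) → ∀ x ∈ ball x₀ ρ, F' x = F x := by
  have hcov := prj_cover hQ h1 h2
  have hρ : 0 < ρ := by
    have := mem_ball.mp hx₁
    exact lt_of_le_of_lt dist_nonneg this
  have : Nonempty (ball x₀ ρ) := ⟨⟨x₁, hx₁⟩⟩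
  let _ : NormedSpace ℝ X := NormedSpace.restrictScalars ℝ ℂ X
  have : ContractibleSpace (ball x₀ ρ) := (convex_ball x₀ ρ).contractibleSpace ⟨x₁, hx₁⟩
  have : LocallyPathConnectedSpace (ball x₀ ρ) := isOpen_ball.locallyPathConnectedSpace
  let f : C(ball x₀ ρ, X) := ⟨Subtype.val, continuous_subtype_val⟩
  have he₀ : (x₁, u₁) ∈ ZS Q x₀ ρ R := ⟨ball_subset_closedBall hx₁, hu₁, h0⟩
  obtain ⟨G, ⟨hG1, hG2⟩, hGu⟩ := hcov.existsUnique_continuousMap_lifts f (a₀ := ⟨x₁, hx₁⟩)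
    (e₀ := ⟨(x₁, u₁), he₀⟩) rfl (fun a => a.2)
  have hG3 : ∀ a : ball x₀ ρ, (G a).1.1 = a.1 := fun a => congrFun hG2 a
  classical
  let F : X → ℂ := fun x => if h : x ∈ ball x₀ ρ then (G ⟨x, h⟩).1.2 else 0
  have hF : ∀ x (h : x ∈ ball x₀ ρ), F x = (G ⟨x, h⟩).1.2 := fun x h => dif_pos h
  have hF2 : ∀ x (h : x ∈ ball x₀ ρ), (x, F x) = (G ⟨x, h⟩).1 := by
    intro x h
    rw [hF x h]
    exact Prod.ext (hG3 ⟨x, h⟩).symm rfl
  have hZ : ∀ x ∈ ball x₀ ρ, (x, F x) ∈ ZS Q x₀ ρ R := by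
    intro x h
    rw [hF2 x h]
    exact (G ⟨x, h⟩).2
  have hFc : ContinuousOn F (ball x₀ ρ) := by
    rw [continuousOn_iff_continuous_domRestrict]
    have h3 : (ball x₀ ρ).domRestrict F = fun a : ball x₀ ρ => (G a).1.2 := by
      funext a
      exact hF a.1 a.2
    rw [h3]
    exact continuous_snd.comp (continuous_subtype_val.comp G.continuous)
  refine ⟨F, ?_, ?_, ?_, ?_⟩
  · intro x hx
    have hz := hZ x hx
    obtain ⟨g, hg1, hg2, hg3, hg4⟩ := loc_graph (hQ.contDiffAt (x := (x, F x))) hz.2.2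
      (h1 x hz.1 (F x) hz.2.1 hz.2.2)
    have h5 : ContinuousAt F x := hFc.continuousAt (isOpen_ball.mem_nhds hx)
    have h6 : Tendsto (fun y => (y, F y)) (𝓝 x) (𝓝 (x, F x)) := by
      rw [nhds_prod_eq]
      exact tendsto_id.prodMk h5.tendsto
    have h7 : g =ᶠ[𝓝 x] F := by
      filter_upwards [h6 hg4, isOpen_ball.mem_nhds hx] with y hy hyb
      exact hy.mp (hZ y hyb).2.2
    exact ((hg1.differentiableAt (by norm_num)).congr_of_eventuallyEq h7.symm).differentiableWithinAt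
  · rw [hF x₁ hx₁]
    have h8 : G ⟨x₁, hx₁⟩ = ⟨(x₁, u₁), he₀⟩ := hG1
    rw [h8]
  · intro x hx
    exact ⟨(hZ x hx).2.1, (hZ x hx).2.2⟩
  · intro F' hF'1 hF'2 hF'3 x hx
    let G' : C(ball x₀ ρ, ZS Q x₀ ρ R) :=
      ⟨fun a => ⟨(a.1, F' a.1), ball_subset_closedBall a.2, (hF'3 a.1 a.2).1, (hF'3 a.1 a.2).2⟩, by
        rw [continuousOn_iff_continuous_domRestrict] at hF'1
        exact (continuous_subtype_val.prodMk hF'1).subtype_mk _⟩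
    have h9 : G' = G := by
      refine hGu G' ⟨?_, ?_⟩
      · apply Subtype.ext
        exact Prod.ext rfl hF'2
      · funext a
        rfl
    rw [hF x hx, ← h9]
    rfl

/-- ALL ROOTS over the ball are values of the extensions of the roots at the centre -/
theorem roots_family {Q : X × ℂ → ℂ} (hQ : ContDiff ℂ 1 Q) {x₀ : X} {ρ R : ℝ}
    (h1 : ∀ x ∈ closedBall x₀ ρ, ∀ u : ℂ, ‖u‖ ≤ R → Q (x, u) = 0 → fderiv ℂ Q (x, u) (0, 1) ≠ 0)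
    (h2 : ∀ x ∈ closedBall x₀ ρ, ∀ u : ℂ, ‖u‖ = R → Q (x, u) ≠ 0) :
    ∃ F : ℂ → X → ℂ, (∀ w, ‖w‖ ≤ R → Q (x₀, w) = 0 → DifferentiableOn ℂ (F w) (ball x₀ ρ) ∧
      ∀ x ∈ ball x₀ ρ, ‖F w x‖ ≤ R ∧ Q (x, F w x) = 0) ∧
      ∀ x ∈ ball x₀ ρ, ∀ u : ℂ, ‖u‖ ≤ R → Q (x, u) = 0 → ∃ w, ‖w‖ ≤ R ∧ Q (x₀, w) = 0 ∧ F w x = u := by
  classical
  by_cases hρ : 0 < ρ
  · have hx₀ : x₀ ∈ ball x₀ ρ := mem_ball_self hρ
    have h3 : ∀ w : ℂ, ∃ F : X → ℂ, ‖w‖ ≤ R → Q (x₀, w) = 0 → DifferentiableOn ℂ F (ball x₀ ρ) ∧ F x₀ = w ∧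
        (∀ x ∈ ball x₀ ρ, ‖F x‖ ≤ R ∧ Q (x, F x) = 0) ∧
        ∀ F' : X → ℂ, ContinuousOn F' (ball x₀ ρ) → F' x₀ = w →
          (∀ x ∈ ball x₀ ρ, ‖F' x‖ ≤ R ∧ Q (x, F' x) = 0) → ∀ x ∈ ball x₀ ρ, F' x = F x := by
      intro w
      by_cases hw : ‖w‖ ≤ R ∧ Q (x₀, w) = 0
      · obtain ⟨F, hF⟩ := root_ext hQ h1 h2 hx₀ hw.1 hw.2
        exact ⟨F, fun _ _ => hF⟩
      · exact ⟨0, fun a b => absurd ⟨a, b⟩ hw⟩
    choose F hF using h3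
    refine ⟨F, fun w hw1 hw2 => ⟨(hF w hw1 hw2).1, fun x hx => (hF w hw1 hw2).2.2.1 x hx⟩, ?_⟩
    intro x hx u hu h0
    obtain ⟨G, hG1, hG2, hG3, -⟩ := root_ext hQ h1 h2 hx hu h0
    refine ⟨G x₀, (hG3 x₀ hx₀).1, (hG3 x₀ hx₀).2, ?_⟩
    rw [← (hF (G x₀) (hG3 x₀ hx₀).1 (hG3 x₀ hx₀).2).2.2.2 G hG1.continuousOn rfl hG3 x hx, hG2]
  · refine ⟨0, fun w _ _ => ⟨?_, ?_⟩, ?_⟩
    · rw [ball_eq_empty.mpr (not_lt.mp hρ)]
      exact fun x hx => absurd hx (Set.notMem_empty x)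
    · intro x hx
      rw [ball_eq_empty.mpr (not_lt.mp hρ)] at hx
      exact absurd hx (Set.notMem_empty x)
    · intro x hx
      rw [ball_eq_empty.mpr (not_lt.mp hρ)] at hx
      exact absurd hx (Set.notMem_empty x)

end Pool.Agent.Helper76.RL
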