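import Pool.Agent.Helper76.RL.LogD
import Pool.Agent.Helper76.RL.Root
import Pool.Agent.Helper76.RL.Poly
import Pool.Agent.Helper76.RL.Circ

/-! All roots of a polynomial equation over a typical cell are holomorphic functions. -/

set_option autoImplicit false

namespace Pool.Agent.Helper76.RL

open Metric

variable {m : ℕ}

/-- the value at `z = c` -/
noncomputable def atz (q : Polynomial (MvPolynomial (Fin m) ℂ)) (c : ℂ) : MvPolynomial (Fin m) ℂ :=
  q.eval (MvPolynomial.C c)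

lemma eval_atz (q : Polynomial (MvPolynomial (Fin m) ℂ)) (c : ℂ) (x : Fin m → ℂ) :
    MvPolynomial.eval x (atz q c) = ev q (x, c) := by
  unfold atz ev
  rw [Polynomial.eval_map, Polynomial.eval, Polynomial.hom_eval₂]
  simp only [RingHomCompTriple.comp_eq, MvPolynomial.eval_C]

lemma totalDegree_atz_le {q : Polynomial (MvPolynomial (Fin m) ℂ)} {k : ℕ}
    (hq : ∀ i, (q.coeff i).totalDegree ≤ k) (c : ℂ) : (atz q c).totalDegree ≤ k := by
  unfold atz
  rw [Polynomial.eval_eq_sum_range]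
  refine (MvPolynomial.totalDegree_finsetSum _ _).trans (Finset.sup_le fun i _ => ?_)
  rw [← map_pow]
  refine (MvPolynomial.totalDegree_mul _ _).trans ?_
  rw [MvPolynomial.totalDegree_C, add_zero]
  exact hq i

/-- the degree of the polynomials which control a factor of degree `D` -/
def dd (D : ℕ) : ℕ := (D + D) * D + D

lemma le_dd (D : ℕ) : D ≤ dd D := Nat.le_add_left _ _

lemma le_dd' (D : ℕ) : (D + D) * D ≤ dd D := Nat.le_add_right _ _

open Classical in
/-- exceptional grid points of a factor -/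
noncomputable def excq (D : ℕ) (s : ℝ) (N : ℕ) (q : Polynomial (MvPolynomial (Fin m) ℂ)) :
    Finset (Fin m → Fin N) :=
  (exc (dd D) s N (Polynomial.resultant q (Polynomial.derivative q)) ∪ exc (dd D) s N (q.coeff 0)) ∪
    (Finset.range (D + 1)).biUnion fun k => exc (dd D) s N (atz q (k : ℂ))

lemma res_deg {q : Polynomial (MvPolynomial (Fin m) ℂ)} {D : ℕ} (hD : q.natDegree ≤ D)
    (hc : ∀ i, (q.coeff i).totalDegree ≤ D) :
    (Polynomial.resultant q (Polynomial.derivative q)).totalDegree ≤ dd D := by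
  refine (totalDegree_resultant_le _ _ D hc (totalDegree_coeff_derivative_le D hc)).trans ?_
  refine le_trans (Nat.mul_le_mul_right _ (add_le_add hD ?_)) (le_dd' D)
  exact (Polynomial.natDegree_derivative_le q).trans ((Nat.sub_le _ _).trans hD)

lemma card_excq {q : Polynomial (MvPolynomial (Fin m) ℂ)} {D : ℕ} (hD : q.natDegree ≤ D)
    (hc : ∀ i, (q.coeff i).totalDegree ≤ D) {s : ℝ} (hs : 0 < s) (N : ℕ) (hN : 0 < N) :
    ((excq D s N q).card : ℝ) ≤ ((D : ℝ) + 3) * (N ^ m * (cexc m (dd D) * (2 * s + 1 / N))) := by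
  classical
  unfold excq
  refine (Nat.cast_le.mpr (Finset.card_union_le _ _)).trans ?_
  push_cast
  have h1 : (((exc (dd D) s N (Polynomial.resultant q (Polynomial.derivative q)) ∪
      exc (dd D) s N (q.coeff 0)).card : ℕ) : ℝ) ≤ 2 * (N ^ m * (cexc m (dd D) * (2 * s + 1 / N))) := by
    refine (Nat.cast_le.mpr (Finset.card_union_le _ _)).trans ?_
    push_cast
    have h2 := card_exc (dd D) hs N hN _ (res_deg hD hc)
    have h3 := card_exc (dd D) hs N hN _ ((hc 0).trans (le_dd D))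
    linarith
  have h4 : ((((Finset.range (D + 1)).biUnion fun k => exc (dd D) s N (atz q (k : ℂ))).card : ℕ) : ℝ) ≤
      ((D : ℝ) + 1) * (N ^ m * (cexc m (dd D) * (2 * s + 1 / N))) := by
    refine (Nat.cast_le.mpr Finset.card_biUnion_le).trans ?_
    push_cast
    refine (Finset.sum_le_sum fun k _ =>
      card_exc (dd D) hs N hN _ ((totalDegree_atz_le hc _).trans (le_dd D))).trans (le_of_eq ?_)
    rw [Finset.sum_const, Finset.card_range, nsmul_eq_mul]
    push_cast
    ring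
  linarith

lemma ball_sum {x₀ x : Fin m → ℂ} {ρ : ℝ} (hx : x ∈ closedBall x₀ ρ) : ∑ i, ‖x i - x₀ i‖ ≤ m * ρ := by
  have h1 : ∀ i ∈ (Finset.univ : Finset (Fin m)), ‖x i - x₀ i‖ ≤ ρ := by
    intro i _
    have h2 := norm_le_pi_norm (x - x₀) i
    rw [mem_closedBall, dist_eq_norm] at hx
    exact h2.trans hx
  refine (Finset.sum_le_sum h1).trans (le_of_eq ?_)
  simp

lemma one_le_cD (D : ℕ) : 1 ≤ cD D := by
  unfold cD
  have h1 : (1 : ℝ) ≤ (D : ℝ) + 1 := by
    have : (0 : ℝ) ≤ D := Nat.cast_nonneg D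
    linarith
  have h2 : (1 : ℝ) ≤ ((D : ℝ) + 3) ^ D := one_le_pow₀ (by linarith)
  have h3 : (1 : ℝ) ≤ (1 + ((D : ℝ) + 3) / (1 / (2 * ((D : ℝ) + 1)))) ^ D :=
    one_le_pow₀ (by have : 0 ≤ ((D : ℝ) + 3) / (1 / (2 * ((D : ℝ) + 1))) := by positivity
                    linarith)
  calc (1 : ℝ) = 1 * 1 * 1 := by norm_num
    _ ≤ _ := mul_le_mul (mul_le_mul h1 h2 zero_le_one (by linarith)) h3 zero_le_one (by positivity)

/-- values at the points of the ball about a good grid point -/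
lemma ne_zero_of_good {P : MvPolynomial (Fin m) ℂ} {D : ℕ} (hP : P.totalDegree ≤ dd D) (hP0 : P ≠ 0) {s : ℝ}
    (hs : 0 < s) (N : ℕ) (g : Fin m → Fin N) (hg : g ∉ exc (dd D) s N P) {ρ : ℝ}
    (hρs : (dd D : ℝ) / s * (m * ρ) ≤ 1 / (4 * cD D)) {x : Fin m → ℂ} (hx : x ∈ closedBall (gp N g) ρ) :
    MvPolynomial.eval x P ≠ 0 := by
  have h0 := logd_ne (dd D) hs N P hP hP0 g hg
  have h1 : (dd D : ℝ) / s * (∑ i, ‖x i - gp N g i‖) ≤ 1 / (4 * cD D) :=
    (mul_le_mul_of_nonneg_left (ball_sum hx) (by positivity)).trans hρs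
  have hc := one_le_cD D
  have h2 : 1 / (4 * cD D) ≤ 1 / 4 := by
    apply one_div_le_one_div_of_le (by norm_num)
    linarith
  have h3 := logd (dd D) hs N P hP g hg (fun i => x i - gp N g i) h1 (by linarith)
  have h4 : (fun j => gp N g j + (x j - gp N g j)) = x := by
    funext j
    ring
  rw [h4] at h3
  intro h5
  rw [h5, zero_sub, norm_neg] at h3
  have h6 : 0 < ‖MvPolynomial.eval (gp N g) P‖ := norm_pos_iff.mpr h0
  nlinarith

/-- THE ROOTS OF AN IRREDUCIBLE FACTOR over the ball about a good grid point -/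
theorem good_irr {q : Polynomial (MvPolynomial (Fin m) ℂ)} (hq : Irreducible q) {D : ℕ} (hD : q.natDegree ≤ D)
    (hc : ∀ i, (q.coeff i).totalDegree ≤ D) {s : ℝ} (hs : 0 < s) (N : ℕ) (g : Fin m → Fin N)
    (hg : g ∉ excq D s N q) {ρ : ℝ} (hρ : 0 < ρ) (hρs : (dd D : ℝ) / s * (m * ρ) ≤ 1 / (4 * cD D)) :
    ∃ (T : Finset ℂ) (F : ℂ → (Fin m → ℂ) → ℂ), T.card ≤ D ∧
      (∀ w ∈ T, DifferentiableOn ℂ (F w) (ball (gp N g) ρ) ∧
        ∀ x ∈ ball (gp N g) ρ, ‖F w x‖ ≤ 3 ∧ ev q (x, F w x) = 0 ∧ ev (Polynomial.derivative q) (x, F w x) ≠ 0) ∧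
      (∀ x ∈ ball (gp N g) ρ, ∀ u : ℂ, ‖u‖ ≤ 2 → ev q (x, u) = 0 → ∃ w ∈ T, F w x = u) := by
  classical
  unfold excq at hg
  rw [Finset.mem_union, Finset.mem_union, not_or, not_or] at hg
  obtain ⟨⟨hg1, hg2⟩, hg3⟩ := hg
  by_cases hd : q.natDegree = 0
  · -- a constant in `z`
    have hq0 : q.coeff 0 ≠ 0 := by
      intro h
      have h1 : q = Polynomial.C (q.coeff 0) := Polynomial.eq_C_of_natDegree_eq_zero hd
      rw [h, Polynomial.C_0] at h1
      exact hq.ne_zero h1
    have h2 : ∀ x ∈ ball (gp N g) ρ, MvPolynomial.eval x (q.coeff 0) ≠ 0 := fun x hx =>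
      ne_zero_of_good ((hc 0).trans (le_dd D)) hq0 hs N g hg2 hρs (ball_subset_closedBall hx)
    refine ⟨∅, fun _ _ => 0, by simp, by simp, ?_⟩
    intro x hx u _ h3
    exfalso
    rw [Polynomial.eq_C_of_natDegree_eq_zero hd, ev_C] at h3
    exact h2 x hx h3
  · have hres : ∀ x ∈ closedBall (gp N g) ρ,
        MvPolynomial.eval x (Polynomial.resultant q (Polynomial.derivative q)) ≠ 0 := fun x hx =>
      ne_zero_of_good (res_deg hD hc) (res_ne_zero hq hd) hs N g hg1 hρs hx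
    have hmap : ∀ x ∈ closedBall (gp N g) ρ, q.map (MvPolynomial.eval x) ≠ 0 := by
      intro x hx h1
      have h2 : ev q (x, 0) = 0 := by simp [ev, h1]
      have h3 : ev (Polynomial.derivative q) (x, 0) = 0 := by
        simp [ev, ← Polynomial.derivative_map, h1]
      exact ev_deriv_ne hd (hres x hx) h2 h3
    set p₀ : Polynomial ℂ := q.map (MvPolynomial.eval (gp N g)) with hp₀
    have hcen : gp N g ∈ closedBall (gp N g) ρ := mem_closedBall_self hρ.le
    have hp₀0 : p₀ ≠ 0 := hmap _ hcen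
    have hp₀d : p₀.natDegree ≤ D := (Polynomial.natDegree_map_le).trans hD
    obtain ⟨R, hR2, hR3, hR⟩ := exists_radius p₀ D hp₀d
    have hcD := cD_pos D
    have hcirc : ∀ x ∈ closedBall (gp N g) ρ, ∀ u : ℂ, ‖u‖ = R → ev q (x, u) ≠ 0 := by
      intro x hx u hu
      refine circle p₀ (q.map (MvPolynomial.eval x)) D hp₀d ((Polynomial.natDegree_map_le).trans hD) hp₀0
        (ε := 2 * (1 / (4 * cD D))) ?_ hR3 hR ?_ u hu
      · have : cD D * (2 * (1 / (4 * cD D))) = 1 / 2 := by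
          field_simp
          norm_num
        rw [this]
        norm_num
      · intro k
        have hk : g ∉ exc (dd D) s N (atz q ((k : ℕ) : ℂ)) := by
          intro h
          exact hg3 (Finset.mem_biUnion.mpr ⟨(k : ℕ), Finset.mem_range.mpr k.2, h⟩)
        have h1 : (dd D : ℝ) / s * (∑ i, ‖x i - gp N g i‖) ≤ 1 / (4 * cD D) :=
          (mul_le_mul_of_nonneg_left (ball_sum hx) (by positivity)).trans hρs
        have h2 : 1 / (4 * cD D) ≤ 1 / 4 := by
          apply one_div_le_one_div_of_le (by norm_num)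
          have := one_le_cD D
          linarith
        have h3 := logd (dd D) hs N _ ((totalDegree_atz_le hc ((k : ℕ) : ℂ)).trans (le_dd D)) g hk
          (fun i => x i - gp N g i) h1 (by linarith)
        have h4 : (fun j => gp N g j + (x j - gp N g j)) = x := by
          funext j
          ring
        rw [h4, eval_atz, eval_atz] at h3
        exact h3
    obtain ⟨F, hF1, hF2⟩ := roots_family (ev_contDiff q) (x₀ := gp N g) (ρ := ρ) (R := R)
      (fun x hx u _ h0 => by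
        rw [ev_fderiv]
        exact ev_deriv_ne hd (hres x hx) h0) hcirc
    refine ⟨p₀.roots.toFinset.filter fun w => ‖w‖ ≤ R, F, ?_, ?_, ?_⟩
    · refine (Finset.card_filter_le _ _).trans ((Multiset.toFinset_card_le _).trans ?_)
      exact (Polynomial.card_roots' p₀).trans hp₀d
    · intro w hw
      rw [Finset.mem_filter, Multiset.mem_toFinset, Polynomial.mem_roots hp₀0] at hw
      obtain ⟨h1, h2⟩ := hF1 w hw.2 hw.1
      exact ⟨h1, fun x hx => ⟨(h2 x hx).1.trans hR3, (h2 x hx).2,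
        ev_deriv_ne hd (hres x (ball_subset_closedBall hx)) (h2 x hx).2⟩⟩
    · intro x hx u hu h0
      obtain ⟨w, hw1, hw2, hw3⟩ := hF2 x hx u (hu.trans hR2) h0
      refine ⟨w, ?_, hw3⟩
      rw [Finset.mem_filter, Multiset.mem_toFinset, Polynomial.mem_roots hp₀0]
      exact ⟨hw2, hw1⟩

/-! ### products -/

lemma totalDegree_le_of_dvd {n : ℕ} {p f : MvPolynomial (Fin n) ℂ} (h : p ∣ f) (hf : f ≠ 0) :
    p.totalDegree ≤ f.totalDegree := by
  obtain ⟨c, rfl⟩ := h
  rw [MvPolynomial.totalDegree_mul_of_isDomain (left_ne_zero_of_mul hf) (right_ne_zero_of_mul hf)]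
  exact Nat.le_add_right _ _

lemma totalDegree_pos_of_irreducible {n : ℕ} {p : MvPolynomial (Fin n) ℂ} (hp : Irreducible p) :
    1 ≤ p.totalDegree := by
  by_contra h
  have h1 : p.totalDegree = 0 := by omega
  rw [MvPolynomial.totalDegree_eq_zero_iff_eq_C] at h1
  have h2 : p.coeff 0 ≠ 0 := by
    intro h3
    rw [h3, MvPolynomial.C_0] at h1
    exact hp.ne_zero h1
  apply hp.not_isUnit
  rw [h1]
  exact (isUnit_iff_ne_zero.mpr h2).map MvPolynomial.C

lemma card_le_totalDegree {n : ℕ} (s : Multiset (MvPolynomial (Fin n) ℂ)) (hs : ∀ p ∈ s, Irreducible p) :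
    Multiset.card s ≤ s.prod.totalDegree := by
  induction s using Multiset.induction_on with
  | empty => simp
  | cons a s ih =>
    have h1 := ih (fun p hp => hs p (Multiset.mem_cons_of_mem hp))
    have h2 := totalDegree_pos_of_irreducible (hs a (Multiset.mem_cons_self a s))
    have h3 : s.prod ≠ 0 := by
      intro h0
      rw [Multiset.prod_eq_zero_iff] at h0
      exact (hs 0 (Multiset.mem_cons_of_mem h0)).ne_zero rfl
    rw [Multiset.card_cons, Multiset.prod_cons,
      MvPolynomial.totalDegree_mul_of_isDomain (hs a (Multiset.mem_cons_self a s)).ne_zero h3]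
    omega

/-- enumeration of a finite set of functions -/
lemma enum_fns {α : Type*} [DecidableEq α] (T : Finset α) (z : α) (n : ℕ) (hn : T.card ≤ n) :
    ∃ G : Fin n → α, (∀ a ∈ T, ∃ i, G i = a) ∧ ∀ i, G i ∈ T ∨ G i = z := by
  classical
  refine ⟨fun i => if h : (i : ℕ) < T.card then (T.equivFin.symm ⟨i, h⟩ : α) else z, ?_, ?_⟩
  · intro a ha
    have h1 := (T.equivFin ⟨a, ha⟩).2
    refine ⟨⟨T.equivFin ⟨a, ha⟩, h1.trans_le hn⟩, ?_⟩
    simp [h1]
  · intro i
    by_cases h : (i : ℕ) < T.card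
    · left
      simp only [h, dif_pos]
      exact (T.equivFin.symm ⟨i, h⟩).2
    · right
      simp only [h, dif_neg, not_false_eq_true]

open Classical in
/-- exceptional grid points of a polynomial in `(z, Y)` -/
noncomputable def excf (D : ℕ) (s : ℝ) (N : ℕ) (f : MvPolynomial (Fin (m + 1)) ℂ) : Finset (Fin m → Fin N) :=
  (UniqueFactorizationMonoid.factors f).toFinset.biUnion fun p => excq D s N (MvPolynomial.finSuccEquiv ℂ m p)

lemma factor_bounds {f p : MvPolynomial (Fin (m + 1)) ℂ} (hf : f ≠ 0) {D : ℕ} (hD : f.totalDegree ≤ D)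
    (hp : p ∈ UniqueFactorizationMonoid.factors f) :
    Irreducible (MvPolynomial.finSuccEquiv ℂ m p) ∧ (MvPolynomial.finSuccEquiv ℂ m p).natDegree ≤ D ∧
      ∀ i, ((MvPolynomial.finSuccEquiv ℂ m p).coeff i).totalDegree ≤ D := by
  have h1 : Irreducible p := UniqueFactorizationMonoid.irreducible_of_factor p hp
  have h2 : p.totalDegree ≤ D := (totalDegree_le_of_dvd (UniqueFactorizationMonoid.dvd_of_mem_factors hp) hf).trans hD
  refine ⟨(MulEquiv.irreducible_iff (MvPolynomial.finSuccEquiv ℂ m).toMulEquiv).mpr h1, ?_, ?_⟩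
  · rw [MvPolynomial.natDegree_finSuccEquiv]
    exact (MvPolynomial.degreeOf_le_totalDegree _ _).trans h2
  · intro i
    by_cases h3 : (MvPolynomial.finSuccEquiv ℂ m p).coeff i = 0
    · rw [h3, MvPolynomial.totalDegree_zero]
      exact Nat.zero_le _
    · have h4 := MvPolynomial.totalDegree_coeff_finSuccEquiv_add_le p i h3
      omega

lemma card_factors_le {f : MvPolynomial (Fin (m + 1)) ℂ} (hf : f ≠ 0) {D : ℕ} (hD : f.totalDegree ≤ D) :
    Multiset.card (UniqueFactorizationMonoid.factors f) ≤ D := by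
  have h1 := card_le_totalDegree (UniqueFactorizationMonoid.factors f)
    (fun p hp => UniqueFactorizationMonoid.irreducible_of_factor p hp)
  have h2 := (UniqueFactorizationMonoid.factors_prod hf).dvd
  exact h1.trans ((totalDegree_le_of_dvd h2 hf).trans hD)

lemma card_excf {f : MvPolynomial (Fin (m + 1)) ℂ} (hf : f ≠ 0) {D : ℕ} (hD : f.totalDegree ≤ D) {s : ℝ}
    (hs : 0 < s) (N : ℕ) (hN : 0 < N) :
    ((excf D s N f).card : ℝ) ≤ D * (((D : ℝ) + 3) * (N ^ m * (cexc m (dd D) * (2 * s + 1 / N)))) := by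
  classical
  unfold excf
  refine (Nat.cast_le.mpr Finset.card_biUnion_le).trans ?_
  push_cast
  have h1 : ∀ p ∈ (UniqueFactorizationMonoid.factors f).toFinset,
      ((excq D s N (MvPolynomial.finSuccEquiv ℂ m p)).card : ℝ) ≤
        ((D : ℝ) + 3) * (N ^ m * (cexc m (dd D) * (2 * s + 1 / N))) := by
    intro p hp
    obtain ⟨-, h2, h3⟩ := factor_bounds hf hD (Multiset.mem_toFinset.mp hp)
    exact card_excq h2 h3 hs N hN
  refine (Finset.sum_le_sum h1).trans ?_
  rw [Finset.sum_const, nsmul_eq_mul]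
  refine mul_le_mul_of_nonneg_right ?_ (by positivity)
  exact_mod_cast (Multiset.toFinset_card_le _).trans (card_factors_le hf hD)

/-- a simple root of a polynomial of degree at most `L` -/
def SR (L : ℕ) (B : Set (Fin m → ℂ)) (G : (Fin m → ℂ) → ℂ) : Prop :=
  ∃ q : Polynomial (MvPolynomial (Fin m) ℂ), q.natDegree ≤ L ∧ (∀ i, (q.coeff i).totalDegree ≤ L) ∧
    ∀ y ∈ B, ev q (y, G y) = 0 ∧ ev (Polynomial.derivative q) (y, G y) ≠ 0

lemma SR_const {L : ℕ} (hL : 1 ≤ L) (B : Set (Fin m → ℂ)) (c : ℂ) : SR (m := m) L B (fun _ => c) := by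
  refine ⟨Polynomial.X - Polynomial.C (MvPolynomial.C c), ?_, fun i => ?_, fun y _ => ⟨?_, ?_⟩⟩
  · rw [Polynomial.natDegree_X_sub_C]
    exact hL
  · rw [Polynomial.coeff_sub, Polynomial.coeff_X, Polynomial.coeff_C]
    refine (MvPolynomial.totalDegree_sub _ _).trans ?_
    split_ifs <;> simp
  · simp [ev]
  · simp [ev]

/-- ALL ROOTS over the ball about a good grid point -/
theorem good_fam {f : MvPolynomial (Fin (m + 1)) ℂ} (hf : f ≠ 0) {D : ℕ} (hD1 : 1 ≤ D) (hD : f.totalDegree ≤ D) {s : ℝ}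
    (hs : 0 < s) (N : ℕ) (g : Fin m → Fin N) (hg : g ∉ excf D s N f) {ρ : ℝ} (hρ : 0 < ρ)
    (hρs : (dd D : ℝ) / s * (m * ρ) ≤ 1 / (4 * cD D)) :
    ∃ G : Fin (D * D) → (Fin m → ℂ) → ℂ,
      (∀ i, DifferentiableOn ℂ (G i) (ball (gp N g) ρ) ∧ ∀ x ∈ ball (gp N g) ρ, ‖G i x‖ ≤ 3) ∧
      (∀ i, SR D (ball (gp N g) ρ) (G i)) ∧
      ∀ x ∈ ball (gp N g) ρ, ∀ u : ℂ, ‖u‖ ≤ 2 → MvPolynomial.eval (Fin.cons u x : Fin (m + 1) → ℂ) f = 0 →
        ∃ i, G i x = u := by
  classical
  have h1 : ∀ p : MvPolynomial (Fin (m + 1)) ℂ, ∃ T : Finset ((Fin m → ℂ) → ℂ),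
      p ∈ UniqueFactorizationMonoid.factors f → T.card ≤ D ∧
      (∀ F ∈ T, DifferentiableOn ℂ F (ball (gp N g) ρ) ∧ (∀ x ∈ ball (gp N g) ρ, ‖F x‖ ≤ 3) ∧
        SR D (ball (gp N g) ρ) F) ∧
      ∀ x ∈ ball (gp N g) ρ, ∀ u : ℂ, ‖u‖ ≤ 2 → MvPolynomial.eval (Fin.cons u x : Fin (m + 1) → ℂ) p = 0 →
        ∃ F ∈ T, F x = u := by
    intro p
    by_cases hp : p ∈ UniqueFactorizationMonoid.factors f
    · obtain ⟨h2, h3, h4⟩ := factor_bounds hf hD hp
      have h5 : g ∉ excq D s N (MvPolynomial.finSuccEquiv ℂ m p) := by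
        intro h
        apply hg
        unfold excf
        exact Finset.mem_biUnion.mpr ⟨p, Multiset.mem_toFinset.mpr hp, h⟩
      obtain ⟨T, F, hT, hF1, hF2⟩ := good_irr h2 h3 h4 hs N g h5 hρ hρs
      refine ⟨T.image F, fun _ => ⟨Finset.card_image_le.trans hT, ?_, ?_⟩⟩
      · intro F' hF'
        obtain ⟨w, hw, rfl⟩ := Finset.mem_image.mp hF'
        exact ⟨(hF1 w hw).1, fun x hx => ((hF1 w hw).2 x hx).1,
          MvPolynomial.finSuccEquiv ℂ m p, h3, h4, fun x hx => ((hF1 w hw).2 x hx).2⟩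
      · intro x hx u hu h0
        rw [MvPolynomial.eval_eq_eval_mv_eval'] at h0
        obtain ⟨w, hw, hw2⟩ := hF2 x hx u hu h0
        exact ⟨F w, Finset.mem_image_of_mem F hw, hw2⟩
    · exact ⟨∅, fun h => absurd h hp⟩
  choose T hT using h1
  have hcard : ((UniqueFactorizationMonoid.factors f).toFinset.biUnion T).card ≤ D * D := by
    refine Finset.card_biUnion_le.trans ?_
    refine (Finset.sum_le_card_nsmul _ _ D fun p hp => (hT p (Multiset.mem_toFinset.mp hp)).1).trans ?_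
    rw [smul_eq_mul]
    exact Nat.mul_le_mul_right _ ((Multiset.toFinset_card_le _).trans (card_factors_le hf hD))
  obtain ⟨G, hG1, hG2⟩ := enum_fns _ (fun _ => (0 : ℂ)) (D * D) hcard
  obtain ⟨c, hc⟩ := (UniqueFactorizationMonoid.factors_prod hf)
  refine ⟨G, ?_, ?_, ?_⟩
  · intro i
    rcases hG2 i with h | h
    · obtain ⟨p, hp, hp2⟩ := Finset.mem_biUnion.mp h
      have h6 := (hT p (Multiset.mem_toFinset.mp hp)).2.1 (G i) hp2
      exact ⟨h6.1, h6.2.1⟩
    · rw [h]
      exact ⟨differentiableOn_const _, fun x _ => by simp⟩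
  · intro i
    rcases hG2 i with h | h
    · obtain ⟨p, hp, hp2⟩ := Finset.mem_biUnion.mp h
      exact ((hT p (Multiset.mem_toFinset.mp hp)).2.1 (G i) hp2).2.2
    · rw [h]
      exact SR_const hD1 _ _
  · intro x hx u hu h0
    rw [← hc, map_mul] at h0
    have h2 : IsUnit (MvPolynomial.eval (Fin.cons u x : Fin (m + 1) → ℂ) (c : MvPolynomial (Fin (m + 1)) ℂ)) :=
      c.isUnit.map (MvPolynomial.eval (Fin.cons u x : Fin (m + 1) → ℂ))
    have h3 : MvPolynomial.eval (Fin.cons u x : Fin (m + 1) → ℂ) (UniqueFactorizationMonoid.factors f).prod = 0 := by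
      rcases mul_eq_zero.mp h0 with h | h
      · exact h
      · exact absurd h h2.ne_zero
    rw [map_multiset_prod, Multiset.prod_eq_zero_iff, Multiset.mem_map] at h3
    obtain ⟨p, hp, hp0⟩ := h3
    obtain ⟨F, hF, hFx⟩ := (hT p hp).2.2 x hx u hu hp0
    obtain ⟨i, hi⟩ := hG1 F (Finset.mem_biUnion.mpr ⟨p, Multiset.mem_toFinset.mpr hp, hF⟩)
    exact ⟨i, by rw [hi]; exact hFx⟩

end Pool.Agent.Helper76.RL
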