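import Pool.Agent.Helper76.RL.Fam
import Pool.Agent.Helper76.RL.Good
import Pool.Agent.Helper76.RL.Dim

/-! CHARTS of a family of polynomials: outside a small set every point of the region is, in a rescaled normalised minor
map, on a holomorphic algebraic graph. -/

set_option autoImplicit false

namespace Pool.Agent.Helper76.RL

open MvPolynomial MeasureTheory Set Metric

variable {m : ℕ} {R : Type}

/-- real points as complex points -/
noncomputable def rc (x : Fin m → ℝ) : Fin m → ℂ := fun i => (x i : ℂ)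

lemma eval_rc (p : MvPolynomial (Fin m) ℝ) (x : Fin m → ℝ) :
    eval (rc x) (map (algebraMap ℝ ℂ) p) = ((eval x p : ℝ) : ℂ) := by
  rw [eval_map]
  exact (eval₂_comp (algebraMap ℝ ℂ) x p).symm

lemma totalDegree_map_le' (p : MvPolynomial (Fin m) ℝ) : (map (algebraMap ℝ ℂ) p).totalDegree ≤ p.totalDegree := by
  unfold totalDegree
  exact Finset.sup_mono (support_map_subset _ _)

lemma eval_aeval' {n k : ℕ} (θ : Fin n → MvPolynomial (Fin k) ℂ) (H : MvPolynomial (Fin n) ℂ) (x : Fin k → ℂ) :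
    eval x (aeval θ H) = eval (fun i => eval x (θ i)) H := by
  rw [map_aeval]
  have h1 : (eval x).comp (algebraMap ℂ (MvPolynomial (Fin k) ℂ)) = RingHom.id ℂ := by
    ext a
    simp
  rw [h1]
  rfl

lemma totalDegree_aeval_le' {n k : ℕ} (θ : Fin n → MvPolynomial (Fin k) ℂ) (hθ : ∀ i, (θ i).totalDegree ≤ 1)
    (H : MvPolynomial (Fin n) ℂ) : (aeval θ H).totalDegree ≤ H.totalDegree := by
  classical
  rw [aeval_def, eval₂_eq']
  refine (totalDegree_finsetSum _ _).trans (Finset.sup_le fun e he => ?_)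
  have h1 : (∏ j, θ j ^ e j).totalDegree ≤ ∑ j, e j := by
    refine (totalDegree_finsetProd _ _).trans (Finset.sum_le_sum fun j _ => ?_)
    refine (totalDegree_pow _ _).trans ?_
    calc e j * (θ j).totalDegree ≤ e j * 1 := Nat.mul_le_mul_left _ (hθ j)
      _ = e j := mul_one _
  have h2 : ∑ j, e j ≤ H.totalDegree := by
    have := le_totalDegree he
    rwa [Finsupp.sum_fintype _ _ (fun _ => rfl)] at this
  refine (totalDegree_mul _ _).trans ?_
  have h3 : (algebraMap ℂ (MvPolynomial (Fin k) ℂ) (coeff e H)).totalDegree = 0 := totalDegree_C _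
  rw [h3, zero_add]
  exact h1.trans h2

/-- the relations -/
theorem exists_H (m D : ℕ) (hD : 1 ≤ D) : ∃ L : ℕ, 1 ≤ L ∧ ∀ {R : Type} (ψ : R → MvPolynomial (Fin m) ℝ),
    (∀ ρ, (ψ ρ).totalDegree ≤ D) → ∀ (K : ℝ) (I : Fin m → R) (j : Fin m),
    ∃ H : MvPolynomial (Fin (m + 1)) ℂ, H ≠ 0 ∧ H.totalDegree ≤ L ∧ ∀ x : Fin m → ℝ,
      eval (Fin.cons ((x j / K : ℝ) : ℂ) (rc (Th ψ K I x)) : Fin (m + 1) → ℂ) H = 0 := by
  obtain ⟨L, hL⟩ := exists_rel m D
  refine ⟨max L 1, le_max_right _ _, ?_⟩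
  intro R ψ hψ K I j
  obtain ⟨H, hH0, hH1, hH2⟩ := hL (Fin.cons (map (algebraMap ℝ ℂ) (C (1 / K) * X j))
    (fun c => map (algebraMap ℝ ℂ) (thp ψ K I c))) (by
      intro i
      refine Fin.cases ?_ (fun c => ?_) i
      · rw [Fin.cons_zero]
        refine (totalDegree_map_le' _).trans ((totalDegree_mul _ _).trans ?_)
        rw [totalDegree_C, zero_add, totalDegree_X]
        exact hD
      · rw [Fin.cons_succ]
        exact (totalDegree_map_le' _).trans (thp_deg ψ hψ K I c))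
  refine ⟨H, hH0, hH1.trans (le_max_left _ _), fun x => ?_⟩
  have h1 := congrArg (eval (rc x)) hH2
  rw [eval_aeval', map_zero] at h1
  rw [← h1]
  congr 1
  congr 1
  funext i
  refine Fin.cases ?_ (fun c => ?_) i
  · rw [Fin.cons_zero, Fin.cons_zero, eval_rc, map_mul, eval_C, eval_X]
    congr 1
    ring
  · rw [Fin.cons_succ, Fin.cons_succ, eval_rc, eval_thp]
    rfl

/-- the rescaled coordinates -/
noncomputable def sbr (N : ℕ) (g : Fin m → Fin N) : MvPolynomial (Fin m) ℂ →ₐ[ℂ] MvPolynomial (Fin m) ℂ :=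
  aeval (fun a => C (gp N g a) + C ((N : ℂ)⁻¹) * X a : Fin m → MvPolynomial (Fin m) ℂ)

/-- substitution of the rescaled coordinates -/
noncomputable def sbp (N : ℕ) (g : Fin m → Fin N) (q : Polynomial (MvPolynomial (Fin m) ℂ)) :
    Polynomial (MvPolynomial (Fin m) ℂ) := q.map (sbr N g : MvPolynomial (Fin m) ℂ →+* MvPolynomial (Fin m) ℂ)

lemma sbp_ev (N : ℕ) (g : Fin m → Fin N) (q : Polynomial (MvPolynomial (Fin m) ℂ)) (u : ℂ) (y : Fin m → ℂ) :
    ev (sbp N g q) (y, u) = ev q (gp N g + (N : ℂ)⁻¹ • y, u) := by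
  unfold ev sbp
  rw [Polynomial.map_map]
  congr 2
  apply MvPolynomial.ringHom_ext
  · intro a
    simp [sbr]
  · intro a
    simp [sbr]

lemma sbp_der (N : ℕ) (g : Fin m → Fin N) (q : Polynomial (MvPolynomial (Fin m) ℂ)) :
    Polynomial.derivative (sbp N g q) = sbp N g (Polynomial.derivative q) := by
  unfold sbp
  rw [Polynomial.derivative_map]

lemma sbp_deg (N : ℕ) (g : Fin m → Fin N) (q : Polynomial (MvPolynomial (Fin m) ℂ)) :
    (sbp N g q).natDegree ≤ q.natDegree := Polynomial.natDegree_map_le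

lemma sbp_degc (N : ℕ) (g : Fin m → Fin N) (q : Polynomial (MvPolynomial (Fin m) ℂ)) (i : ℕ) :
    ((sbp N g q).coeff i).totalDegree ≤ (q.coeff i).totalDegree := by
  unfold sbp
  rw [Polynomial.coeff_map]
  refine totalDegree_aeval_le' _ (fun a => ?_) (q.coeff i)
  refine (totalDegree_add _ _).trans (max_le ?_ ?_)
  · rw [totalDegree_C]
    exact Nat.zero_le _
  · refine (totalDegree_mul _ _).trans ?_
    rw [totalDegree_C, zero_add, totalDegree_X]

/-- a simple root on a ball of a polynomial of degree at most `L` -/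
def AlgR (L : ℕ) (r : ℝ) (G : (Fin m → ℂ) → ℂ) : Prop := SR L (ball (0 : Fin m → ℂ) r) G

lemma algR_const {L : ℕ} (hL : 1 ≤ L) (r : ℝ) (c : ℂ) : AlgR (m := m) L r (fun _ => c) := SR_const hL _ c

/-- the constant of the radius -/
noncomputable def cB (m L : ℕ) : ℝ := 4 * cD L * (dd L * m) + 1

lemma cB_one (m L : ℕ) : 1 ≤ cB m L := by
  unfold cB
  have := one_le_cD L
  have : 0 ≤ 4 * cD L * ((dd L : ℝ) * m) := by positivity
  linarith

/-- charts of one good cell -/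
theorem chart_one {L : ℕ} (hL : 1 ≤ L) {N : ℕ} (hN : 0 < N) {H : MvPolynomial (Fin (m + 1)) ℂ} (hH : H ≠ 0)
    (hHL : H.totalDegree ≤ L) {g : Fin m → Fin N} (hg : g ∉ excf L (1 / √N) N H) :
    ∃ G : Fin (L * L) → (Fin m → ℂ) → ℂ,
      (∀ i, DifferentiableOn ℂ (G i) (ball 0 (√N / cB m L)) ∧ (∀ y ∈ ball (0 : Fin m → ℂ) (√N / cB m L), ‖G i y‖ ≤ 3) ∧
        AlgR L (√N / cB m L) (G i)) ∧
      ∀ y ∈ ball (0 : Fin m → ℂ) (√N / cB m L), ∀ u : ℂ, ‖u‖ ≤ 2 →
        eval (Fin.cons u (gp N g + (N : ℂ)⁻¹ • y) : Fin (m + 1) → ℂ) H = 0 → ∃ i, G i y = u := by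
  have hN' : (0 : ℝ) < N := by exact_mod_cast hN
  have hsN : 0 < √(N : ℝ) := Real.sqrt_pos.mpr hN'
  have hcB : 0 < cB m L := lt_of_lt_of_le one_pos (cB_one m L)
  have hcD : 0 < cD L := lt_of_lt_of_le one_pos (one_le_cD L)
  have hρ : 0 < 1 / (√N * cB m L) := by positivity
  have hρs : (dd L : ℝ) / (1 / √N) * (m * (1 / (√N * cB m L))) ≤ 1 / (4 * cD L) := by
    have h1 : (dd L : ℝ) / (1 / √N) * (m * (1 / (√N * cB m L))) = (dd L * m) / cB m L := by
      field_simp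
    rw [h1, div_le_div_iff₀ hcB (by positivity)]
    unfold cB
    nlinarith
  obtain ⟨G, h1, h2, h3⟩ := good_fam hH hL hHL (s := 1 / √N) (by positivity) N g hg hρ hρs
  have hmap : ∀ y ∈ ball (0 : Fin m → ℂ) (√N / cB m L), gp N g + (N : ℂ)⁻¹ • y ∈ ball (gp N g) (1 / (√N * cB m L)) := by
    intro y hy
    rw [mem_ball_zero_iff] at hy
    rw [mem_ball, dist_eq_norm, add_sub_cancel_left, norm_smul, norm_inv, Complex.norm_natCast]
    have h5 : 1 / (√N * cB m L) = (N : ℝ)⁻¹ * (√N / cB m L) := by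
      have h6 : (N : ℝ) = √N * √N := (Real.mul_self_sqrt hN'.le).symm
      rw [div_eq_mul_inv, one_mul, mul_inv]
      rw [div_eq_mul_inv, ← mul_assoc]
      congr 1
      field_simp
      rw [Real.sq_sqrt hN'.le]
    rw [h5]
    exact mul_lt_mul_of_pos_left hy (by positivity)
  refine ⟨fun i y => G i (gp N g + (N : ℂ)⁻¹ • y), fun i => ⟨?_, ?_, ?_⟩, ?_⟩
  · refine (h1 i).1.comp ?_ hmap
    exact (((differentiable_id).const_smul ((N : ℂ)⁻¹)).const_add (gp N g)).differentiableOn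
  · intro y hy
    exact (h1 i).2 _ (hmap y hy)
  · obtain ⟨q, hq1, hq2, hq3⟩ := h2 i
    refine ⟨sbp N g q, (sbp_deg N g q).trans hq1, fun a => (sbp_degc N g q a).trans (hq2 a), fun y hy => ?_⟩
    obtain ⟨h5, h6⟩ := hq3 _ (hmap y hy)
    rw [sbp_der, sbp_ev, sbp_ev]
    exact ⟨h5, h6⟩
  · intro y hy u hu h0
    exact h3 _ (hmap y hy) u hu h0

/-! ### disjoint classes -/

lemma exists_disj {X γ : Type} [MeasurableSpace X] [Fintype γ] (A : γ → Set X) (hA : ∀ c, MeasurableSet (A c)) :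
    ∃ E : γ → Set X, (∀ c, MeasurableSet (E c)) ∧ (∀ c, E c ⊆ A c) ∧ Pairwise (Function.onFun Disjoint E) ∧
      ⋃ c, E c = ⋃ c, A c := by
  classical
  set e := Fintype.equivFin γ with he
  refine ⟨fun c => A c \ ⋃ c' : γ, ⋃ _ : e c' < e c, A c', ?_, ?_, ?_, ?_⟩
  · intro c
    exact (hA c).diff (MeasurableSet.iUnion fun c' => MeasurableSet.iUnion fun _ => hA c')
  · intro c
    exact sdiff_subset
  · intro c c' hcc
    rw [Function.onFun, Set.disjoint_left]
    intro x hx hx'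
    have h1 : e c ≠ e c' := fun h => hcc (e.injective h)
    rcases lt_or_gt_of_ne h1 with h | h
    · exact hx'.2 (mem_iUnion₂.mpr ⟨c, h, hx.1⟩)
    · exact hx.2 (mem_iUnion₂.mpr ⟨c', h, hx'.1⟩)
  · apply Subset.antisymm
    · exact iUnion_mono fun c => sdiff_subset
    · intro x hx
      obtain ⟨c, hc⟩ := mem_iUnion.mp hx
      have h2 : ((Finset.univ : Finset γ).filter fun c => x ∈ A c).Nonempty :=
        ⟨c, Finset.mem_filter.mpr ⟨Finset.mem_univ _, hc⟩⟩
      obtain ⟨c₀, hc₀, hmin⟩ := Finset.exists_min_image _ (fun c => e c) h2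
      rw [Finset.mem_filter] at hc₀
      refine mem_iUnion.mpr ⟨c₀, hc₀.2, ?_⟩
      intro h3
      obtain ⟨c', hlt, hc'⟩ := mem_iUnion₂.mp h3
      exact absurd (hmin c' (Finset.mem_filter.mpr ⟨Finset.mem_univ _, hc'⟩)) (not_le.mpr hlt)

/-! ### the charts -/

/-- the codes -/
abbrev Cod (m : ℕ) (R : Type) (N L : ℕ) : Type := (Fin m → R) × (Fin m → Fin N) × (Fin m → Fin (L * L))

/-- the region -/
def Reg (ψ : R → MvPolynomial (Fin m) ℝ) (K : ℝ) : Set (Fin m → ℝ) := {x | ∀ ρ, |eval x (ψ ρ)| ≤ K}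

/-- a closed cell of the grid -/
def cellc (N : ℕ) (g : Fin m → Fin N) : Set (Fin m → ℝ) :=
  Icc (fun a => ((g a : ℕ) : ℝ) / N) (fun a => (((g a : ℕ) : ℝ) + 1) / N)

lemma vol_cellc {N : ℕ} (hN : 0 < N) (g : Fin m → Fin N) : volume (cellc N g) = ENNReal.ofReal (1 / (N : ℝ) ^ m) := by
  have hN' : (0 : ℝ) < N := by exact_mod_cast hN
  unfold cellc
  rw [Real.volume_Icc_pi]
  have h1 : ∀ a : Fin m, (((g a : ℕ) : ℝ) + 1) / N - ((g a : ℕ) : ℝ) / N = 1 / N := by
    intro a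
    ring
  simp only [h1]
  rw [Finset.prod_const, Finset.card_univ, Fintype.card_fin, ← ENNReal.ofReal_pow (by positivity), one_div_pow]

/-- every point of the unit cube is in a closed cell -/
lemma exists_cellc {N : ℕ} (hN : 0 < N) (w : Fin m → ℝ) (h0 : ∀ a, 0 ≤ w a) (h1 : ∀ a, w a ≤ 1) :
    ∃ g : Fin m → Fin N, w ∈ cellc N g := by
  have hN' : (0 : ℝ) < N := by exact_mod_cast hN
  have h2 : ∀ a, ∃ g : Fin N, ((g : ℕ) : ℝ) / N ≤ w a ∧ w a ≤ (((g : ℕ) : ℝ) + 1) / N := by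
    intro a
    by_cases h : ⌊N * w a⌋₊ < N
    · refine ⟨⟨⌊N * w a⌋₊, h⟩, ?_, ?_⟩
      · rw [div_le_iff₀' hN']
        exact Nat.floor_le (mul_nonneg hN'.le (h0 a))
      · rw [le_div_iff₀' hN']
        exact (Nat.lt_floor_add_one _).le
    · have h3 : (N : ℝ) ≤ N * w a := by
        have h4 : N ≤ ⌊N * w a⌋₊ := not_lt.mp h
        have h5 : ((⌊N * w a⌋₊ : ℕ) : ℝ) ≤ N * w a := Nat.floor_le (mul_nonneg hN'.le (h0 a))
        exact (Nat.cast_le.mpr h4).trans h5
      have h6 : w a = 1 := by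
        apply le_antisymm (h1 a)
        by_contra hc
        push Not at hc
        nlinarith
      refine ⟨⟨N - 1, by omega⟩, ?_, ?_⟩
      · rw [h6, div_le_one hN']
        have : ((N - 1 : ℕ) : ℝ) ≤ N := by exact_mod_cast Nat.sub_le _ _
        exact this
      · rw [h6, le_div_iff₀ hN', one_mul]
        have h7 : ((N - 1 : ℕ) : ℝ) + 1 = N := by
          have : (N - 1 : ℕ) + 1 = N := by omega
          exact_mod_cast this
        rw [h7]
  choose g hg using h2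
  exact ⟨g, fun a => (hg a).1, fun a => (hg a).2⟩

/-- the rescaled map of a code -/
noncomputable def Tc (ψ : R → MvPolynomial (Fin m) ℝ) (K : ℝ) {N L : ℕ} (c : Cod m R N L) (x : Fin m → ℝ) :
    Fin m → ℝ := fun a => N * Th ψ K c.1 x a - ((c.2.1 a : ℕ) : ℝ)

lemma Tc_mem {ψ : R → MvPolynomial (Fin m) ℝ} {K : ℝ} {N L : ℕ} (hN : 0 < N) {c : Cod m R N L} {x : Fin m → ℝ}
    (h : Th ψ K c.1 x ∈ cellc N c.2.1) (a : Fin m) : 0 ≤ Tc ψ K c x a ∧ Tc ψ K c x a ≤ 1 := by
  have hN' : (0 : ℝ) < N := by exact_mod_cast hN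
  have h1 : ((c.2.1 a : ℕ) : ℝ) / N ≤ Th ψ K c.1 x a := h.1 a
  have h2 : Th ψ K c.1 x a ≤ (((c.2.1 a : ℕ) : ℝ) + 1) / N := h.2 a
  rw [div_le_iff₀' hN'] at h1
  rw [le_div_iff₀' hN'] at h2
  unfold Tc
  constructor <;> linarith

lemma rc_Tc {ψ : R → MvPolynomial (Fin m) ℝ} {K : ℝ} {N L : ℕ} (hN : 0 < N) (c : Cod m R N L) (x : Fin m → ℝ) :
    gp N c.2.1 + (N : ℂ)⁻¹ • rc (Tc ψ K c x) = rc (Th ψ K c.1 x) := by
  have hN' : (N : ℂ) ≠ 0 := by exact_mod_cast hN.ne'
  funext a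
  show gp N c.2.1 a + (N : ℂ)⁻¹ * ((Tc ψ K c x a : ℝ) : ℂ) = ((Th ψ K c.1 x a : ℝ) : ℂ)
  unfold gp Tc
  push_cast
  field_simp
  ring

lemma rc_norm {x : Fin m → ℝ} {r : ℝ} (hr : 0 ≤ r) (h : ∀ a, |x a| ≤ r) : ‖rc x‖ ≤ r := by
  rw [pi_norm_le_iff_of_nonneg hr]
  intro a
  show ‖((x a : ℝ) : ℂ)‖ ≤ r
  rw [Complex.norm_real]
  exact h a

/-- the derivative of the rescaled map -/
noncomputable def Td (ψ : R → MvPolynomial (Fin m) ℝ) (K : ℝ) {N L : ℕ} (c : Cod m R N L) (x : Fin m → ℝ) :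
    (Fin m → ℝ) →L[ℝ] (Fin m → ℝ) := (N : ℝ) • Thd ψ K c.1 x

lemma Tc_hasFDerivAt (ψ : R → MvPolynomial (Fin m) ℝ) (K : ℝ) {N L : ℕ} (c : Cod m R N L) (x : Fin m → ℝ) :
    HasFDerivAt (Tc ψ K c) (Td ψ K c x) x := by
  have h1 : Tc ψ K c = fun x => (N : ℝ) • Th ψ K c.1 x - fun a => ((c.2.1 a : ℕ) : ℝ) := by
    funext x a
    rfl
  rw [h1]
  exact ((Th_hasFDerivAt ψ K c.1 x).const_smul (N : ℝ)).sub_const _

lemma Td_det (ψ : R → MvPolynomial (Fin m) ℝ) (K : ℝ) {N L : ℕ} (c : Cod m R N L) (x : Fin m → ℝ) :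
    (Td ψ K c x).det = (N : ℝ) ^ m * ((1 / (2 * K)) ^ m * mi ψ c.1 x) := by
  rw [← Thd_det]
  unfold Td ContinuousLinearMap.det
  rw [ContinuousLinearMap.toLinearMap_smul, LinearMap.det_smul]
  congr 2
  rw [Module.finrank_fintype_fun_eq_card, Fintype.card_fin]

/-! ### bad cells -/

open Classical in
/-- bad cells -/
noncomputable def badg (L N : ℕ) (H : Fin m → MvPolynomial (Fin (m + 1)) ℂ) : Finset (Fin m → Fin N) :=
  Finset.univ.biUnion fun j => excf L (1 / √N) N (H j)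

/-- the union of the bad cells -/
noncomputable def bads (L N : ℕ) (H : Fin m → MvPolynomial (Fin (m + 1)) ℂ) : Set (Fin m → ℝ) :=
  ⋃ g ∈ badg L N H, cellc N g

lemma bads_meas (L N : ℕ) (H : Fin m → MvPolynomial (Fin (m + 1)) ℂ) : MeasurableSet (bads L N H) :=
  Finset.measurableSet_biUnion _ fun _ _ => measurableSet_Icc

/-- the constant of the bad cells -/
noncomputable def cbad (m L : ℕ) : ℝ := m * (L * (((L : ℝ) + 3) * (cexc m (dd L) * 3)))

lemma cbad_nonneg (m L : ℕ) : 0 ≤ cbad m L := by unfold cbad; positivity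

lemma vol_bads {L N : ℕ} (hN : 0 < N) {H : Fin m → MvPolynomial (Fin (m + 1)) ℂ} (hH : ∀ j, H j ≠ 0)
    (hHL : ∀ j, (H j).totalDegree ≤ L) : volume (bads L N H) ≤ ENNReal.ofReal (cbad m L / √N) := by
  classical
  have hN' : (0 : ℝ) < N := by exact_mod_cast hN
  have hN1 : (1 : ℝ) ≤ N := by exact_mod_cast hN
  have hsN : 0 < √(N : ℝ) := Real.sqrt_pos.mpr hN'
  have hcard : ((badg L N H).card : ℝ) ≤ N ^ m * (cbad m L / √N) := by
    unfold badg
    refine (Nat.cast_le.mpr Finset.card_biUnion_le).trans ?_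
    push_cast
    have h1 : ∀ j ∈ (Finset.univ : Finset (Fin m)), ((excf L (1 / √N) N (H j)).card : ℝ) ≤
        L * (((L : ℝ) + 3) * (N ^ m * (cexc m (dd L) * (3 / √N)))) := by
      intro j _
      refine (card_excf (hH j) (hHL j) (s := 1 / √N) (by positivity) N hN).trans ?_
      have h2 : 2 * (1 / √(N : ℝ)) + 1 / N ≤ 3 / √N := by
        have h3 : 1 / (N : ℝ) ≤ 1 / √N := by
          apply one_div_le_one_div_of_le hsN
          rw [Real.sqrt_le_left (by linarith)]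
          nlinarith
        have h4 : 3 / √(N : ℝ) = 2 * (1 / √N) + 1 / √N := by ring
        rw [h4]
        linarith
      gcongr
    refine (Finset.sum_le_card_nsmul _ _ _ h1).trans (le_of_eq ?_)
    rw [nsmul_eq_mul, Finset.card_univ, Fintype.card_fin]
    unfold cbad
    ring
  unfold bads
  refine (measure_biUnion_finset_le _ _).trans ?_
  refine (Finset.sum_le_card_nsmul _ _ _ fun g _ => (vol_cellc hN g).le).trans ?_
  rw [nsmul_eq_mul, ← ENNReal.ofReal_natCast, ← ENNReal.ofReal_mul (Nat.cast_nonneg _)]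
  apply ENNReal.ofReal_le_ofReal
  rw [mul_one_div, div_le_iff₀ (by positivity), mul_comm]
  exact hcard

lemma algR_mono {L : ℕ} {r r' : ℝ} (h : r' ≤ r) {G : (Fin m → ℂ) → ℂ} (hG : AlgR L r G) : AlgR L r' G := by
  obtain ⟨q, h1, h2, h3⟩ := hG
  exact ⟨q, h1, h2, fun y hy => h3 y (ball_subset_ball h hy)⟩

/-- THE CHARTS OF A FAMILY -/
theorem cht (m D r : ℕ) (hD : 1 ≤ D) : ∃ (L : ℕ) (C : ℝ), 1 ≤ L ∧ 1 ≤ C ∧ ∀ {R : Type} [Fintype R],
    Fintype.card R = r → ∀ ψ : R → MvPolynomial (Fin m) ℝ, (∀ ρ, (ψ ρ).totalDegree ≤ D) →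
    ∀ κ : Fin m → R, (∀ a, ψ (κ a) = X a) → ∀ K : ℝ, 1 ≤ K → ∀ N : ℕ, C ^ 2 ≤ N →
    ∃ (E : Cod m R N L → Set (Fin m → ℝ)) (G : Cod m R N L → Fin m → (Fin m → ℂ) → ℂ),
      (∀ c, MeasurableSet (E c)) ∧ Pairwise (Function.onFun Disjoint E) ∧
      (∀ c, ∀ x ∈ E c, x ∈ Reg ψ K ∧ (∀ a, 0 ≤ Tc ψ K c x a ∧ Tc ψ K c x a ≤ 1) ∧
        N ^ m * √(gd ψ x) ≤ C * K ^ m * |(Td ψ K c x).det| ∧ (Td ψ K c x).det ≠ 0 ∧
        ∀ j, G c j (rc (Tc ψ K c x)) = ((x j / K : ℝ) : ℂ)) ∧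
      (∀ c j, DifferentiableOn ℂ (G c j) (ball 0 (√N / C)) ∧
        (∀ y ∈ ball (0 : Fin m → ℂ) (√N / C), ‖G c j y‖ ≤ 3) ∧ AlgR L (√N / C) (G c j)) ∧
      ∫⁻ x in Reg ψ K, ENNReal.ofReal √(gd ψ x) ≤ ENNReal.ofReal (C * K ^ m) ∧
      ∫⁻ x in Reg ψ K \ ⋃ c, E c, ENNReal.ofReal √(gd ψ x) ≤ ENNReal.ofReal (C * K ^ m / √N) := by
  classical
  obtain ⟨L, hL1, hL⟩ := exists_H m D hD
  set C1 : ℝ := (r : ℝ) ^ m * (√(cR m r) * 2 ^ m) * (((m + 1) * D) ^ m : ℕ) with hC1
  have hC10 : 0 ≤ C1 := by positivity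
  have hcb := cbad_nonneg m L
  have hcB := cB_one m L
  set C : ℝ := 2 * cB m L + √(cR m r) * 2 ^ m + C1 + C1 * cbad m L with hC
  have hx0 : 0 ≤ √(cR m r) * 2 ^ m := by positivity
  have hx1 : 0 ≤ C1 * cbad m L := mul_nonneg hC10 hcb
  have hCB : 2 * cB m L ≤ C := by rw [hC]; linarith
  have hC2 : √(cR m r) * 2 ^ m ≤ C := by rw [hC]; linarith
  have hC3 : C1 ≤ C := by rw [hC]; linarith
  have hC4 : C1 * cbad m L ≤ C := by rw [hC]; linarith
  have hCone : 1 ≤ C := by linarith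
  refine ⟨L, C, hL1, hCone, ?_⟩
  intro R _ hR ψ hψ κ hκ K hK N hN
  have hK0 : 0 < K := by linarith
  have hNpos : 0 < N := by
    rcases Nat.eq_zero_or_pos N with h | h
    · rw [h] at hN
      have : 0 < C ^ 2 := by positivity
      norm_num at hN
      linarith
    · exact h
  have hN' : (0 : ℝ) < N := by exact_mod_cast hNpos
  have hsN : C ≤ √(N : ℝ) := by
    rw [Real.le_sqrt (by linarith) hN'.le]
    exact hN
  have hcB0 : 0 < cB m L := by linarith
  have hrad : √(N : ℝ) / C ≤ √N / cB m L := by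
    apply div_le_div_of_nonneg_left (Real.sqrt_nonneg _) hcB0
    linarith
  have hrad1 : 1 < √(N : ℝ) / cB m L := by
    rw [lt_div_iff₀ hcB0]
    linarith
  choose H hH0 hHL hH using fun (I : Fin m → R) (j : Fin m) => hL ψ hψ K I j
  have hG : ∀ (I : Fin m → R) (g : Fin m → Fin N) (j : Fin m), ∃ G : Fin (L * L) → (Fin m → ℂ) → ℂ,
      (∀ i, DifferentiableOn ℂ (G i) (ball 0 (√N / cB m L)) ∧
        (∀ y ∈ ball (0 : Fin m → ℂ) (√N / cB m L), ‖G i y‖ ≤ 3) ∧ AlgR L (√N / cB m L) (G i)) ∧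
      (g ∉ badg L N (H I) → ∀ y ∈ ball (0 : Fin m → ℂ) (√N / cB m L), ∀ u : ℂ, ‖u‖ ≤ 2 →
        eval (Fin.cons u (gp N g + (N : ℂ)⁻¹ • y) : Fin (m + 1) → ℂ) (H I j) = 0 → ∃ i, G i y = u) := by
    intro I g j
    by_cases hg : g ∈ badg L N (H I)
    · refine ⟨fun _ _ => 0, fun i => ⟨differentiableOn_const _, fun y _ => by simp, algR_const hL1 _ _⟩,
        fun h => absurd hg h⟩
    · have hg' : g ∉ excf L (1 / √N) N (H I j) := by
        intro h
        exact hg (Finset.mem_biUnion.mpr ⟨j, Finset.mem_univ _, h⟩)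
      obtain ⟨G, h1, h2⟩ := chart_one hL1 hNpos (hH0 I j) (hHL I j) hg'
      exact ⟨G, h1, fun _ => h2⟩
  choose G hG1 hG2 using hG
  -- the classes
  set A : Cod m R N L → Set (Fin m → ℝ) := fun c => {x | x ∈ Reg ψ K ∧ x ∈ goodI ψ c.1 ∧ Th ψ K c.1 x ∈ cellc N c.2.1 ∧
    c.2.1 ∉ badg L N (H c.1) ∧ ∀ j, (ball (0 : Fin m → ℂ) (√N / cB m L)).piecewise (G c.1 c.2.1 j (c.2.2 j))
      (fun _ => 0) (rc (Tc ψ K c x)) = ((x j / K : ℝ) : ℂ)} with hA
  have hrc : Continuous (rc : (Fin m → ℝ) → (Fin m → ℂ)) := by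
    unfold rc
    fun_prop
  have hTh : ∀ I, Continuous (Th ψ K I) := fun I => (Th_contDiff ψ K I).continuous
  have hTc : ∀ c : Cod m R N L, Continuous (Tc ψ K c) := by
    intro c
    unfold Tc
    exact continuous_pi fun a => ((continuous_apply a).comp (hTh c.1)).const_mul _ |>.sub continuous_const
  have hReg : MeasurableSet (Reg ψ K) := by
    have h1 : Reg ψ K = ⋂ ρ, {x | |eval x (ψ ρ)| ≤ K} := by
      ext x
      simp [Reg]
    rw [h1]
    exact MeasurableSet.iInter fun ρ => measurableSet_le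
      ((MvPolynomial.continuous_eval (ψ ρ)).abs.measurable) measurable_const
  have hAm : ∀ c, MeasurableSet (A c) := by
    intro c
    refine hReg.inter ((goodI_meas ψ c.1).inter (((hTh c.1).measurable measurableSet_Icc).inter
      ((MeasurableSet.const _).inter ?_)))
    have h2 : {x : Fin m → ℝ | ∀ j, (ball (0 : Fin m → ℂ) (√N / cB m L)).piecewise (G c.1 c.2.1 j (c.2.2 j))
      (fun _ => 0) (rc (Tc ψ K c x)) = ((x j / K : ℝ) : ℂ)} = ⋂ j, {x : Fin m → ℝ |
        (ball (0 : Fin m → ℂ) (√N / cB m L)).piecewise (G c.1 c.2.1 j (c.2.2 j))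
      (fun _ => 0) (rc (Tc ψ K c x)) = ((x j / K : ℝ) : ℂ)} := by
      ext x
      simp
    show MeasurableSet {x : Fin m → ℝ | ∀ j, (ball (0 : Fin m → ℂ) (√N / cB m L)).piecewise (G c.1 c.2.1 j (c.2.2 j))
      (fun _ => 0) (rc (Tc ψ K c x)) = ((x j / K : ℝ) : ℂ)}
    rw [h2]
    refine MeasurableSet.iInter fun j => ?_
    have h3 : Measurable ((ball (0 : Fin m → ℂ) (√N / cB m L)).piecewise (G c.1 c.2.1 j (c.2.2 j)) (fun _ => 0)) :=
      ContinuousOn.measurable_piecewise (hG1 c.1 c.2.1 j (c.2.2 j)).1.continuousOn continuousOn_const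
        isOpen_ball.measurableSet
    refine measurableSet_eq_fun (h3.comp (hrc.comp (hTc c)).measurable) ?_
    have h4 : Continuous (fun x : Fin m → ℝ => x j / K) := by fun_prop
    exact (Complex.continuous_ofReal.comp h4).measurable
  obtain ⟨E, hE1, hE2, hE3, hE4⟩ := exists_disj A hAm
  have hball : ∀ (c : Cod m R N L) (x : Fin m → ℝ), Th ψ K c.1 x ∈ cellc N c.2.1 →
      rc (Tc ψ K c x) ∈ ball (0 : Fin m → ℂ) (√N / cB m L) := by
    intro c x hx
    rw [mem_ball_zero_iff]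
    refine lt_of_le_of_lt (rc_norm zero_le_one fun a => ?_) hrad1
    have := Tc_mem hNpos hx a
    rw [abs_le]
    constructor <;> linarith [this.1, this.2]
  have hid : ∀ x : Fin m → ℝ, mi ψ κ x = 1 := by
    intro x
    unfold mi
    have h1 : (jac ψ x).submatrix κ id = 1 := by
      ext i j
      unfold jac
      rw [Matrix.submatrix_apply, Matrix.of_apply, hκ, id, pderiv_X, Matrix.one_apply]
      by_cases h : i = j
      · subst h
        simp
      · rw [if_neg h, Pi.single_eq_of_ne h, map_zero]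
    rw [h1, Matrix.det_one]
  have hmin : ∀ x : Fin m → ℝ, ∃ I, x ∈ goodI ψ I := by
    intro x
    obtain ⟨I, h1, h2⟩ := exists_minor (jac ψ x) ⟨κ, by
      have := hid x
      unfold mi at this
      rw [this]
      exact one_ne_zero⟩
    exact ⟨I, h1, h2⟩
  have hunit : ∀ x ∈ Reg ψ K, ∀ I a, 0 ≤ Th ψ K I x a ∧ Th ψ K I x a ≤ 1 := by
    intro x hx I a
    have h1 := abs_le.mp (hx (I a))
    have h2 : eval x (ψ (I a)) / (2 * K) ≤ 1 / 2 := by
      rw [div_le_iff₀ (by positivity)]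
      linarith [h1.2]
    have h3 : -(1 / 2) ≤ eval x (ψ (I a)) / (2 * K) := by
      rw [le_div_iff₀ (by positivity)]
      linarith [h1.1]
    unfold Th
    constructor <;> linarith
  refine ⟨E, fun c j => G c.1 c.2.1 j (c.2.2 j), hE1, hE3, ?_, ?_, ?_, ?_⟩
  · intro c x hx
    obtain ⟨h1, h2, h3, h4, h5⟩ := hE2 c hx
    refine ⟨h1, Tc_mem hNpos h3, ?_, ?_, ?_⟩
    · rw [Td_det, abs_mul, abs_of_nonneg (by positivity : (0 : ℝ) ≤ (N : ℝ) ^ m), abs_mul,
        abs_of_nonneg (by positivity : (0 : ℝ) ≤ (1 / (2 * K)) ^ m)]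
      have h6 : √(gd ψ x) ≤ √(cR m r) * |mi ψ c.1 x| := by
        rw [← Real.sqrt_sq_eq_abs, ← Real.sqrt_mul (cR_pos _ _).le, ← hR]
        exact Real.sqrt_le_sqrt h2.1
      have h7 : C * K ^ m * ((N : ℝ) ^ m * ((1 / (2 * K)) ^ m * |mi ψ c.1 x|)) =
          N ^ m * ((C / 2 ^ m) * |mi ψ c.1 x|) := by
        rw [div_pow, one_pow, mul_pow]
        field_simp
      rw [h7]
      refine mul_le_mul_of_nonneg_left (h6.trans ?_) (by positivity)
      refine mul_le_mul_of_nonneg_right ?_ (abs_nonneg _)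
      rw [le_div_iff₀ (by positivity)]
      exact hC2
    · rw [Td_det]
      exact mul_ne_zero (by positivity) (mul_ne_zero (by positivity) h2.2)
    · intro j
      have h6 := h5 j
      rw [piecewise_eq_of_mem _ _ _ (hball c x h3)] at h6
      exact h6
  · intro c j
    obtain ⟨h1, h2, h3⟩ := hG1 c.1 c.2.1 j (c.2.2 j)
    exact ⟨h1.mono (ball_subset_ball hrad), fun y hy => h2 y (ball_subset_ball hrad hy), algR_mono hrad h3⟩
  · refine (mass ψ hD hψ hK0 (Reg ψ K) (fun _ => Icc 0 1) (fun _ => measurableSet_Icc) ?_).trans ?_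
    · intro x hx
      obtain ⟨I, hI⟩ := hmin x
      exact ⟨I, hI, fun a => (hunit x hx I a).1, fun a => (hunit x hx I a).2⟩
    · have h1 : volume (Icc (0 : Fin m → ℝ) 1) = 1 := by
        rw [Real.volume_Icc_pi]
        simp
      rw [h1, mul_one, Finset.sum_const, Finset.card_univ, nsmul_eq_mul, hR, ← ENNReal.ofReal_natCast,
        ← ENNReal.ofReal_natCast, ← ENNReal.ofReal_mul (by positivity), ← ENNReal.ofReal_mul (by positivity)]
      apply ENNReal.ofReal_le_ofReal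
      rw [Fintype.card_fun, Fintype.card_fin, hR]
      have h2 : ((r ^ m : ℕ) : ℝ) * (√(cR m r) * (2 * K) ^ m * (((m + 1) * D) ^ m : ℕ)) = C1 * K ^ m := by
        rw [hC1, mul_pow]
        push_cast
        ring
      rw [h2]
      exact mul_le_mul_of_nonneg_right hC3 (by positivity)
  · refine (mass ψ hD hψ hK0 _ (fun I => bads L N (H I)) (fun I => bads_meas _ _ _) ?_).trans ?_
    · intro x hx
      obtain ⟨I, hI⟩ := hmin x
      refine ⟨I, hI, ?_⟩
      obtain ⟨g, hg⟩ := exists_cellc hNpos (Th ψ K I x) (fun a => (hunit x hx.1 I a).1) (fun a => (hunit x hx.1 I a).2)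
      by_cases hgb : g ∈ badg L N (H I)
      · exact mem_iUnion₂.mpr ⟨g, hgb, hg⟩
      · exfalso
        apply hx.2
        rw [hE4]
        have h1 : ∀ j, ∃ i : Fin (L * L), G I g j i (rc (Tc ψ K ((I, g, fun _ => i) : Cod m R N L) x)) = ((x j / K : ℝ) : ℂ) := by
          intro j
          have h2 : ∀ i : Fin (L * L), Tc ψ K ((I, g, fun _ => i) : Cod m R N L) x =
              fun a => N * Th ψ K I x a - ((g a : ℕ) : ℝ) := fun i => rfl
          set y : Fin m → ℝ := fun a => N * Th ψ K I x a - ((g a : ℕ) : ℝ) with hy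
          have h3 : ∀ a, |y a| ≤ 1 := by
            intro a
            have h4 : ((g a : ℕ) : ℝ) / N ≤ Th ψ K I x a := hg.1 a
            have h5 : Th ψ K I x a ≤ (((g a : ℕ) : ℝ) + 1) / N := hg.2 a
            rw [div_le_iff₀' hN'] at h4
            rw [le_div_iff₀' hN'] at h5
            rw [abs_le]
            constructor <;> linarith
          have h6 : rc y ∈ ball (0 : Fin m → ℂ) (√N / cB m L) := by
            rw [mem_ball_zero_iff]
            exact lt_of_le_of_lt (rc_norm zero_le_one h3) hrad1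
          have h7 : gp N g + (N : ℂ)⁻¹ • rc y = rc (Th ψ K I x) := by
            have hNc : (N : ℂ) ≠ 0 := by exact_mod_cast hNpos.ne'
            funext a
            show gp N g a + (N : ℂ)⁻¹ * ((y a : ℝ) : ℂ) = ((Th ψ K I x a : ℝ) : ℂ)
            rw [hy]
            unfold gp
            push_cast
            field_simp
            ring
          have h8 : ‖((x j / K : ℝ) : ℂ)‖ ≤ 2 := by
            rw [Complex.norm_real, Real.norm_eq_abs, abs_div, abs_of_pos hK0, div_le_iff₀ hK0]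
            have h9 := hx.1 (κ j)
            rw [hκ, eval_X] at h9
            linarith
          obtain ⟨i, hi⟩ := hG2 I g j hgb (rc y) h6 _ h8 (by rw [h7]; exact hH I j x)
          exact ⟨i, by rw [h2]; exact hi⟩
        choose i hi using h1
        refine mem_iUnion.mpr ⟨((I, g, i) : Cod m R N L), hx.1, hI, hg, hgb, fun j => ?_⟩
        rw [piecewise_eq_of_mem _ _ _ (hball ((I, g, i) : Cod m R N L) x hg)]
        exact hi j
    · refine (Finset.sum_le_sum fun I _ => mul_le_mul_right (mul_le_mul_right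
        (vol_bads hNpos (hH0 I) (hHL I)) _) _).trans ?_
      have hs0 : 0 < √(N : ℝ) := Real.sqrt_pos.mpr hN'
      rw [Finset.sum_const, Finset.card_univ, nsmul_eq_mul, hR, ← ENNReal.ofReal_natCast,
        ← ENNReal.ofReal_natCast, ← ENNReal.ofReal_mul (by positivity), ← ENNReal.ofReal_mul (by positivity),
        ← ENNReal.ofReal_mul (by positivity)]
      apply ENNReal.ofReal_le_ofReal
      rw [Fintype.card_fun, Fintype.card_fin, hR]
      have h2 : ((r ^ m : ℕ) : ℝ) * (√(cR m r) * (2 * K) ^ m * ((((m + 1) * D) ^ m : ℕ) * (cbad m L / √N))) =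
          C1 * cbad m L * K ^ m / √N := by
        rw [hC1, mul_pow]
        push_cast
        ring
      rw [h2]
      exact div_le_div_of_nonneg_right (mul_le_mul_of_nonneg_right hC4 (by positivity)) hs0.le

end Pool.Agent.Helper76.RL
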