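import Pool.Agent.Helper76.RL.Area
import Pool.Agent.Helper95.LF.Det
import Pool.Agent.Helper59.PWA.Alg

/-! Families of polynomials: the best minor, the derivative, the area inequality for the squared volume. -/

set_option autoImplicit false

namespace Pool.Agent.Helper76.RL

open MvPolynomial MeasureTheory Set
open Pool.Agent.Helper95.LF (PdM det_le_pow)

variable {m : ℕ} {R : Type} [Fintype R]

/-- the constant of the best minor -/
noncomputable def cR (m r : ℕ) : ℝ := ((r : ℝ) * m + 1) ^ m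

lemma cR_pos (m r : ℕ) : 0 < cR m r := by unfold cR; positivity

lemma dot_tm (B : Matrix R (Fin m) ℝ) (x : Fin m → ℝ) :
    dotProduct x ((B.transpose * B).mulVec x) = ∑ ρ, (B.mulVec x ρ) ^ 2 := by
  rw [← Matrix.mulVec_mulVec, Matrix.dotProduct_mulVec, Matrix.vecMul_transpose]
  unfold dotProduct
  exact Finset.sum_congr rfl fun ρ _ => by rw [pow_two]

lemma tm_pdM (B : Matrix R (Fin m) ℝ) (h : ∀ x : Fin m → ℝ, B.mulVec x = 0 → x = 0) : PdM (B.transpose * B) := by
  refine ⟨?_, fun x hx => ?_⟩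
  · unfold Matrix.IsSymm
    rw [Matrix.transpose_mul, Matrix.transpose_transpose]
  · rw [dot_tm]
    have h1 : B.mulVec x ≠ 0 := fun h2 => hx (h x h2)
    obtain ⟨ρ, hρ⟩ := Function.ne_iff.mp h1
    exact Finset.sum_pos' (fun _ _ => sq_nonneg _) ⟨ρ, Finset.mem_univ _, by
      have : B.mulVec x ρ ≠ 0 := hρ
      positivity⟩

/-- THE BEST MINOR -/
theorem exists_minor (B : Matrix R (Fin m) ℝ) (h : ∃ I : Fin m → R, (B.submatrix I id).det ≠ 0) :
    ∃ I : Fin m → R, (B.transpose * B).det ≤ cR m (Fintype.card R) * (B.submatrix I id).det ^ 2 ∧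
      (B.submatrix I id).det ≠ 0 := by
  classical
  obtain ⟨I₀, hI₀⟩ := h
  obtain ⟨I, -, hI⟩ := Finset.exists_max_image (Finset.univ : Finset (Fin m → R))
    (fun I => |(B.submatrix I id).det|) ⟨I₀, Finset.mem_univ _⟩
  set A := B.submatrix I id with hA
  have hdet : A.det ≠ 0 := by
    intro h0
    have h1 := hI I₀ (Finset.mem_univ _)
    rw [h0, abs_zero] at h1
    exact hI₀ (abs_eq_zero.mp (le_antisymm h1 (abs_nonneg _)))
  refine ⟨I, ?_, hdet⟩
  -- a row in terms of the rows of the minor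
  have h1 : ∀ ρ : R, ∀ x : Fin m → ℝ, |B.mulVec x ρ| ≤ ∑ c, |A.mulVec x c| := by
    intro ρ x
    have h2 : ∀ c, |(A.updateRow c (B ρ)).det| ≤ |A.det| := by
      intro c
      have h3 : A.updateRow c (B ρ) = B.submatrix (Function.update I c ρ) id := by
        ext i j
        by_cases hi : i = c
        · subst hi
          rw [Matrix.updateRow_self, Matrix.submatrix_apply, Function.update_self]
          rfl
        · rw [Matrix.updateRow_ne hi, Matrix.submatrix_apply, Function.update_of_ne hi]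
          rfl
      rw [h3]
      exact hI _ (Finset.mem_univ _)
    have h4 := Matrix.mulVec_cramer A.transpose (B ρ)
    rw [Matrix.det_transpose] at h4
    have h5 : A.det * B.mulVec x ρ = ∑ c, (A.updateRow c (B ρ)).det * A.mulVec x c := by
      have h6 : A.det * B.mulVec x ρ = dotProduct (A.det • B ρ) x := by
        rw [smul_dotProduct, smul_eq_mul]
        rfl
      rw [h6, ← h4, Matrix.mulVec_transpose, ← Matrix.dotProduct_mulVec]
      unfold dotProduct
      exact Finset.sum_congr rfl fun c _ => by rw [Matrix.cramer_transpose_apply]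
    have h7 : |A.det| * |B.mulVec x ρ| ≤ |A.det| * ∑ c, |A.mulVec x c| := by
      rw [← abs_mul, h5, Finset.mul_sum]
      refine (Finset.abs_sum_le_sum_abs _ _).trans (Finset.sum_le_sum fun c _ => ?_)
      rw [abs_mul]
      exact mul_le_mul_of_nonneg_right (h2 c) (abs_nonneg _)
    exact le_of_mul_le_mul_left h7 (abs_pos.mpr hdet)
  have h8 : ∀ x : Fin m → ℝ, ∑ ρ, (B.mulVec x ρ) ^ 2 ≤ ((Fintype.card R : ℝ) * m + 1) * ∑ c, (A.mulVec x c) ^ 2 := by
    intro x
    have h9 : ∀ ρ ∈ (Finset.univ : Finset R), (B.mulVec x ρ) ^ 2 ≤ m * ∑ c, (A.mulVec x c) ^ 2 := by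
      intro ρ _
      have h10 := h1 ρ x
      have h11 : (B.mulVec x ρ) ^ 2 ≤ (∑ c, |A.mulVec x c|) ^ 2 := by
        rw [← sq_abs]
        exact pow_le_pow_left₀ (abs_nonneg _) h10 2
      refine h11.trans ?_
      have h12 := Finset.sum_mul_sq_le_sq_mul_sq (Finset.univ : Finset (Fin m)) (fun _ => (1 : ℝ))
        (fun c => |A.mulVec x c|)
      simpa using h12
    refine (Finset.sum_le_card_nsmul _ _ _ h9).trans ?_
    rw [nsmul_eq_mul, Finset.card_univ]
    have : 0 ≤ ∑ c, (A.mulVec x c) ^ 2 := Finset.sum_nonneg fun _ _ => sq_nonneg _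
    nlinarith
  have hA0 : ∀ x : Fin m → ℝ, A.mulVec x = 0 → x = 0 := by
    intro x hx
    exact Matrix.eq_zero_of_mulVec_eq_zero hdet hx
  have hB0 : ∀ x : Fin m → ℝ, B.mulVec x = 0 → x = 0 := by
    intro x hx
    apply hA0
    funext c
    exact congrFun hx (I c)
  have h13 := det_le_pow (tm_pdM A hA0) (tm_pdM B hB0) (K := (Fintype.card R : ℝ) * m + 1) (by positivity)
    (fun x => by rw [dot_tm, dot_tm]; exact h8 x)
  rw [Matrix.det_mul, Matrix.det_transpose, Fintype.card_fin, ← pow_two] at h13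
  exact h13

/-! ### the derivative of a polynomial map -/

omit [Fintype R] in
/-- the derivative of the polynomial map -/
noncomputable def jac (ψ : R → MvPolynomial (Fin m) ℝ) (x : Fin m → ℝ) : Matrix R (Fin m) ℝ :=
  Matrix.of fun ρ a => eval x (pderiv a (ψ ρ))

/-- squared volume -/
noncomputable def gd (ψ : R → MvPolynomial (Fin m) ℝ) (x : Fin m → ℝ) : ℝ := ((jac ψ x).transpose * jac ψ x).det

/-- the minor -/
noncomputable def mi (ψ : R → MvPolynomial (Fin m) ℝ) (I : Fin m → R) (x : Fin m → ℝ) : ℝ :=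
  ((jac ψ x).submatrix I id).det

lemma hasFDerivAt_eval (p : MvPolynomial (Fin m) ℝ) (x : Fin m → ℝ) :
    HasFDerivAt (fun y : Fin m → ℝ => eval y p)
      (∑ a, eval x (pderiv a p) • (ContinuousLinearMap.proj a : (Fin m → ℝ) →L[ℝ] ℝ)) x := by
  induction p using MvPolynomial.induction_on with
  | C a => simpa using hasFDerivAt_const a x
  | add p q hp hq =>
    have h1 := hp.add hq
    simp only [map_add, add_smul, Finset.sum_add_distrib]
    exact h1
  | mul_X p j hp =>
    have h1 := hp.mul (ContinuousLinearMap.proj (R := ℝ) (φ := fun _ : Fin m => ℝ) j).hasFDerivAt (x := x)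
    have h2 : (fun y : Fin m → ℝ => eval y (p * X j)) =
        (fun y => eval y p) * fun y => (ContinuousLinearMap.proj (R := ℝ) (φ := fun _ : Fin m => ℝ) j) y := by
      funext y
      simp
    rw [h2]
    refine HasFDerivAt.congr_fderiv h1 ?_
    ext v
    simp only [add_apply, smul_apply, ContinuousLinearMap.proj_apply,
      sum_apply, smul_eq_mul, pderiv_mul, pderiv_X, map_add, map_mul, eval_X]
    simp only [add_mul, Finset.sum_add_distrib, Finset.mul_sum]
    rw [add_comm]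
    congr 1
    · exact Finset.sum_congr rfl fun a _ => by ring
    · rw [Finset.sum_eq_single j]
      · simp
      · intro b _ hb
        simp [hb.symm]
      · intro h
        exact absurd (Finset.mem_univ _) h

/-- the normalised map of a minor -/
noncomputable def Th (ψ : R → MvPolynomial (Fin m) ℝ) (K : ℝ) (I : Fin m → R) (x : Fin m → ℝ) : Fin m → ℝ :=
  fun c => 1 / 2 + eval x (ψ (I c)) / (2 * K)

/-- the polynomials of the normalised map -/
noncomputable def thp (ψ : R → MvPolynomial (Fin m) ℝ) (K : ℝ) (I : Fin m → R) (c : Fin m) :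
    MvPolynomial (Fin m) ℝ := C (1 / 2) + C (1 / (2 * K)) * ψ (I c)

omit [Fintype R] in
lemma eval_thp (ψ : R → MvPolynomial (Fin m) ℝ) (K : ℝ) (I : Fin m → R) (c : Fin m) (x : Fin m → ℝ) :
    eval x (thp ψ K I c) = Th ψ K I x c := by
  unfold thp Th
  rw [map_add, map_mul, eval_C, eval_C]
  ring

omit [Fintype R] in
lemma thp_deg (ψ : R → MvPolynomial (Fin m) ℝ) {D : ℕ} (hψ : ∀ ρ, (ψ ρ).totalDegree ≤ D) (K : ℝ) (I : Fin m → R)
    (c : Fin m) : (thp ψ K I c).totalDegree ≤ D := by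
  unfold thp
  refine (totalDegree_add _ _).trans (max_le ?_ ?_)
  · rw [totalDegree_C]
    exact Nat.zero_le _
  · refine (totalDegree_mul _ _).trans ?_
    rw [totalDegree_C, zero_add]
    exact hψ _

/-- the derivative of the normalised map -/
noncomputable def Thd (ψ : R → MvPolynomial (Fin m) ℝ) (K : ℝ) (I : Fin m → R) (x : Fin m → ℝ) :
    (Fin m → ℝ) →L[ℝ] (Fin m → ℝ) :=
  LinearMap.toContinuousLinearMap (Matrix.toLin' ((1 / (2 * K)) • (jac ψ x).submatrix I id))

omit [Fintype R] in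
lemma Thd_det (ψ : R → MvPolynomial (Fin m) ℝ) (K : ℝ) (I : Fin m → R) (x : Fin m → ℝ) :
    (Thd ψ K I x).det = (1 / (2 * K)) ^ m * mi ψ I x := by
  unfold Thd mi ContinuousLinearMap.det
  rw [LinearMap.coe_toContinuousLinearMap, LinearMap.det_toLin', Matrix.det_smul, Fintype.card_fin]

omit [Fintype R] in
lemma Th_contDiff (ψ : R → MvPolynomial (Fin m) ℝ) (K : ℝ) (I : Fin m → R) : ContDiff ℝ 1 (Th ψ K I) := by
  rw [contDiff_pi]
  intro c
  have h1 : ContDiff ℝ 1 (fun x : Fin m → ℝ => eval x (thp ψ K I c)) :=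
    (AnalyticOnNhd.eval_mvPolynomial (thp ψ K I c)).contDiff
  have h2 : (fun x => Th ψ K I x c) = fun x : Fin m → ℝ => eval x (thp ψ K I c) := by
    funext x
    rw [eval_thp]
  rw [h2]
  exact h1

omit [Fintype R] in
lemma Th_hasFDerivAt (ψ : R → MvPolynomial (Fin m) ℝ) (K : ℝ) (I : Fin m → R) (x : Fin m → ℝ) :
    HasFDerivAt (Th ψ K I) (Thd ψ K I x) x := by
  rw [hasFDerivAt_pi']
  intro c
  have h2 : (fun x => Th ψ K I x c) = fun x : Fin m → ℝ => eval x (thp ψ K I c) := by
    funext x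
    rw [eval_thp]
  rw [h2]
  refine (hasFDerivAt_eval (thp ψ K I c) x).congr_fderiv ?_
  ext v
  have h3 : (Thd ψ K I x v) c = ∑ a, (1 / (2 * K)) * eval x (pderiv a (ψ (I c))) * v a := by
    unfold Thd
    rw [LinearMap.coe_toContinuousLinearMap', Matrix.toLin'_apply]
    rfl
  rw [ContinuousLinearMap.comp_apply, ContinuousLinearMap.proj_apply, h3]
  simp only [sum_apply, smul_apply, ContinuousLinearMap.proj_apply, smul_eq_mul]
  refine Finset.sum_congr rfl fun a _ => ?_
  unfold thp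
  rw [map_add, pderiv_C, zero_add, pderiv_C_mul, map_mul, eval_C]

omit [Fintype R] in
lemma Th_hasStrictFDerivAt (ψ : R → MvPolynomial (Fin m) ℝ) (K : ℝ) (I : Fin m → R) (x : Fin m → ℝ) :
    HasStrictFDerivAt (Th ψ K I) (Thd ψ K I x) x :=
  (Th_contDiff ψ K I).contDiffAt.hasStrictFDerivAt' (Th_hasFDerivAt ψ K I x) (by norm_num)

omit [Fintype R] in
lemma mi_continuous (ψ : R → MvPolynomial (Fin m) ℝ) (I : Fin m → R) : Continuous (mi ψ I) := by
  unfold mi
  refine Continuous.matrix_det ?_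
  refine continuous_matrix fun i j => ?_
  exact MvPolynomial.continuous_eval _

lemma gd_continuous (ψ : R → MvPolynomial (Fin m) ℝ) : Continuous (gd ψ) := by
  have h1 : Continuous (jac ψ) := by
    refine continuous_matrix fun i j => ?_
    exact MvPolynomial.continuous_eval _
  unfold gd
  exact (h1.matrix_transpose.matrix_mul h1).matrix_det

/-- points of the minor `I` -/
def goodI (ψ : R → MvPolynomial (Fin m) ℝ) (I : Fin m → R) : Set (Fin m → ℝ) :=
  {x | gd ψ x ≤ cR m (Fintype.card R) * mi ψ I x ^ 2 ∧ mi ψ I x ≠ 0}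

lemma goodI_meas (ψ : R → MvPolynomial (Fin m) ℝ) (I : Fin m → R) : MeasurableSet (goodI ψ I) := by
  have h1 := mi_continuous ψ I
  have h2 := gd_continuous ψ
  refine MeasurableSet.inter ?_ ?_
  · exact measurableSet_le h2.measurable ((h1.pow 2).measurable.const_mul _)
  · exact (isOpen_ne_fun h1 continuous_const).measurableSet

omit [Fintype R] in
/-- almost every fibre is small -/
lemma fibre (ψ : R → MvPolynomial (Fin m) ℝ) {D : ℕ} (hD : 1 ≤ D) (hψ : ∀ ρ, (ψ ρ).totalDegree ≤ D) (K : ℝ)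
    (I : Fin m → R) : ∀ᵐ w : Fin m → ℝ, ∃ T : Finset (Fin m → ℝ), T.card ≤ ((m + 1) * D) ^ m ∧
      ∀ x, Th ψ K I x = w → x ∈ T := by
  filter_upwards [Pool.Agent.Helper59.PWA.multiplicity hD (thp ψ K I) (thp_deg ψ hψ K I)] with w hw
  have h1 : ({x | Th ψ K I x = w} : Set (Fin m → ℝ)).Finite := by
    by_contra h
    obtain ⟨t, ht1, ht2⟩ := Set.Infinite.exists_subset_card_eq h (((m + 1) * D) ^ m + 1)
    have h2 := hw t fun x hx i => by
      rw [eval_thp]
      exact congrFun (ht1 hx) i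
    omega
  refine ⟨h1.toFinset, ?_, fun x hx => h1.mem_toFinset.mpr hx⟩
  exact hw _ fun x hx i => by
    rw [eval_thp]
    exact congrFun (h1.mem_toFinset.mp hx) i

/-- MASS: the integral of the volume factor -/
theorem mass (ψ : R → MvPolynomial (Fin m) ℝ) {D : ℕ} (hD : 1 ≤ D) (hψ : ∀ ρ, (ψ ρ).totalDegree ≤ D) {K : ℝ}
    (hK : 0 < K) (S : Set (Fin m → ℝ)) (B : (Fin m → R) → Set (Fin m → ℝ)) (hB : ∀ I, MeasurableSet (B I))
    (hS : ∀ x ∈ S, ∃ I, x ∈ goodI ψ I ∧ Th ψ K I x ∈ B I) :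
    ∫⁻ x in S, ENNReal.ofReal √(gd ψ x) ≤
      ∑ I, ENNReal.ofReal (√(cR m (Fintype.card R)) * (2 * K) ^ m) * ((((m + 1) * D) ^ m : ℕ) * volume (B I)) := by
  classical
  set S' : (Fin m → R) → Set (Fin m → ℝ) := fun I => goodI ψ I ∩ (Th ψ K I) ⁻¹' (B I) with hS'
  have hS'm : ∀ I, MeasurableSet (S' I) := fun I =>
    (goodI_meas ψ I).inter ((Th_contDiff ψ K I).continuous.measurable (hB I))
  have h1 : S ⊆ ⋃ I, S' I := by
    intro x hx
    obtain ⟨I, hI1, hI2⟩ := hS x hx
    exact mem_iUnion.mpr ⟨I, hI1, hI2⟩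
  refine (lintegral_mono_set h1).trans ((lintegral_iUnion_le _ _).trans ?_)
  rw [tsum_fintype]
  refine Finset.sum_le_sum fun I _ => ?_
  have hc : 0 ≤ √(cR m (Fintype.card R)) * (2 * K) ^ m := by positivity
  have h2 : ∀ x ∈ S' I, ENNReal.ofReal √(gd ψ x) ≤
      ENNReal.ofReal (√(cR m (Fintype.card R)) * (2 * K) ^ m) * ENNReal.ofReal |(Thd ψ K I x).det| := by
    intro x hx
    rw [← ENNReal.ofReal_mul hc]
    apply ENNReal.ofReal_le_ofReal
    have h3 : √(gd ψ x) ≤ √(cR m (Fintype.card R)) * |mi ψ I x| := by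
      rw [← Real.sqrt_sq_eq_abs, ← Real.sqrt_mul (cR_pos _ _).le]
      exact Real.sqrt_le_sqrt hx.1.1
    refine h3.trans (le_of_eq ?_)
    rw [Thd_det, abs_mul, abs_of_nonneg (by positivity : (0 : ℝ) ≤ (1 / (2 * K)) ^ m)]
    have h4 : (2 * K) ^ m * (1 / (2 * K)) ^ m = 1 := by
      rw [← mul_pow, mul_one_div, div_self (by positivity), one_pow]
    calc √(cR m (Fintype.card R)) * |mi ψ I x| = √(cR m (Fintype.card R)) * ((2 * K) ^ m * (1 / (2 * K)) ^ m) * |mi ψ I x| := by
          rw [h4, mul_one]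
      _ = _ := by ring
  refine (setLIntegral_mono' (hS'm I) h2).trans ?_
  rw [lintegral_const_mul' _ _ ENNReal.ofReal_ne_top]
  refine mul_le_mul_right ?_ _
  refine area_mult volume (f := Th ψ K I) (f' := Thd ψ K I) (Th_hasStrictFDerivAt ψ K I) (hS'm I) (hB I)
    (fun x hx => hx.2) ?_ _ ?_
  · intro x hx
    rw [Thd_det]
    exact mul_ne_zero (by positivity) hx.1.2
  · filter_upwards [fibre ψ hD hψ K I] with w hw _
    obtain ⟨T, hT1, hT2⟩ := hw
    exact ⟨T, hT1, fun x _ hx => hT2 x hx⟩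

end Pool.Agent.Helper76.RL
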