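import Pool.Agent.Helper76.RL.Gfd

/-! LOCAL GRAPH OF A LABEL, finite level: over a label which carries a form, the point is, in an extension, on the graph
of holomorphic algebraic functions of parameters. -/

set_option autoImplicit false

namespace Pool.Agent.Helper76.RL

open Metric
open Pool.Agent.Helper69.RK Pool.Agent.Helper31.EC Pool.Agent.Helper40.EL
open Pool.Agent.Helper95.LF Pool.Agent.Helper3.LF Pool.Agent.Helper84.MT
open Pool.Agent.Helper31.EC.Sp (cell)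

variable {m D L N : ℕ} {C r K : ℝ}

/-- geometric data over a space: a label, parameters, charts, a bad event -/
structure GD (F : FSp) (m : ℕ) where
  l : FLab F
  Y : l.T.Ω → Fin m → ℝ
  G : l.T.Ω → Fin m → (Fin m → ℂ) → ℂ
  bad : l.T.Ω → Prop

/-- THE GRAPH over a label `V`: `d.l` is finer than `V`, the point is `G (Y)` up to `C K r` -/
structure IsGeo (F : FSp) (V : Setoid F.Ω) (Q : F.Ω → Fin m → ℝ) (L : ℕ) (C K r : ℝ) (N : ℕ) (d : GD F m) : Prop where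
  le : ∀ w w', d.l.V w w' → V (d.l.p.π w) (d.l.p.π w')
  fn : ∀ w w', d.l.T.μ w ≠ 0 → d.l.T.μ w' ≠ 0 → d.l.T.Z w w' → d.l.V w w' → d.G w = d.G w'
  uY : ∀ w i, 0 ≤ d.Y w i ∧ d.Y w i ≤ 1
  dG : ∀ w j, DifferentiableOn ℂ (d.G w j) (ball 0 (√N / C))
  bG : ∀ w, d.l.T.μ w ≠ 0 → ∀ j, ∀ y ∈ ball (0 : Fin m → ℂ) (√N / C), ‖d.G w j y‖ ≤ C * K
  aG : ∀ w j, AlgR L (√N / C) (d.G w j)
  pt : ∀ w, d.l.T.μ w ≠ 0 → ∀ j, ‖((Q (d.l.p.π w) j : ℝ) : ℂ) - d.G w j (rc (d.Y w))‖ ≤ C * K * r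
  leak : d.l.leak (fc (V ⊓ Setoid.ker fun ω => cell r (Q ω))) = 0
  nv : ∃ Co : Setoid d.l.T.Ω, d.l.V = Setoid.comap d.l.p.π V ⊓ Co ∧
    ∀ w, d.l.T.μ w ≠ 0 → (Sp.nv d.l.T Co w : ℝ) ≤ C * N ^ m + (4 * K / r) ^ m

/-- the constants -/
noncomputable def cE (m D L : ℕ) (C : ℝ) : ℝ :=
  Real.logb 2 (4 * C * √(cG m D)) + m * Real.logb 2 (nR m D * (L * L)) + 1

/-- LOCAL GRAPH OF A LABEL, finite level -/
theorem exists_geoF (m D : ℕ) (hD : 1 ≤ D) : ∃ (L : ℕ) (C : ℝ), 1 ≤ L ∧ 1 ≤ C ∧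
    ∀ (F : FSp) (V : Setoid F.Ω) (Q : F.Ω → Fin m → ℝ) (g : F.Ω → Matrix (Mon m D) (Mon m D) ℝ) (K Λ : ℝ) (N : ℕ),
    1 ≤ K → (∀ ω, F.μ ω ≠ 0 → ∀ i, |Q ω i| ≤ K) → (∀ ω, F.μ ω ≠ 0 → PdM (g ω)) →
    (∀ ω ω', F.μ ω ≠ 0 → F.μ ω' ≠ 0 → F.Z ω ω' → V ω ω' → g ω = g ω') →
    (∀ ω, F.μ ω ≠ 0 → 1 / 2 * Real.logb 2 (GQ (2 ^ (-F.n)) (g ω) (Q ω)) ≤ Λ) → C ^ 2 ≤ N →
    ∃ d : GD F m, IsGeo F V Q L C K (2 ^ (-F.n)) N d ∧
      d.l.T.e d.l.V (Setoid.comap d.l.p.π V ⊓ d.l.T.Z) ≤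
        m * Real.logb 2 N + C + d.l.T.pb d.bad * (m * (2 + Real.logb 2 K + F.n)) ∧
      F.e (Setoid.ker fun ω => cell (2 ^ (-F.n)) (Q ω)) (V ⊓ F.Z) +
        ∑ ω, F.μ ω * (1 / 2 * Real.logb 2 (GQ (2 ^ (-F.n)) (g ω) (Q ω))) + d.l.T.pb d.bad * (1 / 4 * Real.logb 2 N) ≤
        m * F.n + (C + m * Real.logb 2 K) +
          F.pb (fun ω => ¬ phi (2 ^ (-F.n)) (g ω) (Q ω) ≤ K) * (1 + 2 * m + Λ + 1 / 4 * Real.logb 2 N) ∧
      F.e (Setoid.ker fun ω => cell (2 ^ (-F.n)) (Q ω)) (V ⊓ F.Z) +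
        ∑ ω, F.μ ω * (1 / 2 * Real.logb 2 (GQ (2 ^ (-F.n)) (g ω) (Q ω))) - (C + m * Real.logb 2 K) -
          d.l.T.pb d.bad * (Λ + m * (2 + Real.logb 2 K + F.n)) ≤
        d.l.T.e (Setoid.ker fun w => cell (2 ^ (-F.n)) (d.Y w)) (d.l.V ⊓ d.l.T.Z) := by
  obtain ⟨L, C₀, hL, hC₀, hdat⟩ := exists_chd m D hD
  obtain ⟨C, hCd⟩ : ∃ C : ℝ, C = 3 * C₀ + cE m D L C₀ + (nR m D * (L * L)) ^ m := ⟨_, rfl⟩
  have hCx : (0 : ℝ) ≤ (nR m D * (L * L)) ^ m := by positivity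
  have hcG := cG_one m D
  have hsG : 1 ≤ √(cG m D) := Real.one_le_sqrt.mpr hcG
  have hnR : 1 ≤ nR m D := by
    unfold nR
    have : Nonempty (Rw m D) := ⟨Sum.inl (Classical.arbitrary _, fun _ => 0)⟩
    exact Fintype.card_pos
  have hnRr : (1 : ℝ) ≤ nR m D := by exact_mod_cast hnR
  have hLr : (1 : ℝ) ≤ L := by exact_mod_cast hL
  have hl1 : 0 ≤ Real.logb 2 (4 * C₀ * √(cG m D)) := Real.logb_nonneg (by norm_num) (by nlinarith)
  have hl2 : 0 ≤ (m : ℝ) * Real.logb 2 (nR m D * (L * L)) :=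
    mul_nonneg (Nat.cast_nonneg _) (Real.logb_nonneg (by norm_num) (by
      have : (1 : ℝ) ≤ L * L := by nlinarith
      nlinarith))
  have hcE : cE m D L C₀ = Real.logb 2 (4 * C₀ * √(cG m D)) + m * Real.logb 2 (nR m D * (L * L)) + 1 := rfl
  have hCC : 3 * C₀ ≤ C := by linarith
  have hC1 : 1 ≤ C := by linarith
  have hc7 : Real.logb 2 (√(cG m D) * C₀) ≤ Real.logb 2 (4 * C₀ * √(cG m D)) := by
    refine Real.logb_le_logb_of_le (by norm_num) (by positivity) ?_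
    nlinarith
  refine ⟨L, C, hL, hC1, ?_⟩
  intro F V Q g K Λ N hK hQ hg hgm hΛ hN
  obtain ⟨r, hr⟩ : ∃ r : ℝ, r = 2 ^ (-F.n) := ⟨_, rfl⟩
  rw [← hr] at hΛ ⊢
  have hn0 : 0 < F.n := F.pos
  have hr0 : 0 < r := by rw [hr]; exact Real.rpow_pos_of_pos (by norm_num) _
  have hr1 : r ≤ 1 := by rw [hr]; exact Real.rpow_le_one_of_one_le_of_nonpos (by norm_num) (by linarith)
  have hrn : Real.logb 2 r = -F.n := by rw [hr]; exact Real.logb_rpow (by norm_num) (by norm_num)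
  have hN0 : C₀ ^ 2 ≤ N := le_trans (pow_le_pow_left₀ (by linarith) (by linarith) 2) hN
  have hNpos : 0 < N := by
    rcases Nat.eq_zero_or_pos N with h | h
    · exfalso
      rw [h] at hN
      have : 0 < C ^ 2 := by positivity
      norm_num at hN
      linarith
    · exact h
  have hN' : (0 : ℝ) < N := by exact_mod_cast hNpos
  have hNs : C ≤ √(N : ℝ) := by
    rw [Real.le_sqrt (by linarith) hN'.le]
    exact hN
  have hrad3 : 3 ≤ √(N : ℝ) / C₀ := by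
    rw [le_div_iff₀ (by linarith)]
    linarith
  have hradle : √(N : ℝ) / C ≤ √N / C₀ := div_le_div_of_nonneg_left (Real.sqrt_nonneg _) (by linarith) (by linarith)
  have hlN : 0 ≤ Real.logb 2 (N : ℝ) := Real.logb_nonneg (by norm_num) (by exact_mod_cast hNpos)
  have hlK : 0 ≤ Real.logb 2 K := Real.logb_nonneg (by norm_num) hK
  have dat : ∀ A : Matrix (Mon m D) (Mon m D) ℝ, ChD m D L C₀ N (fixA A) r K :=
    fun A => (hdat (fixA A) (fixA_pd A) r hr0 hr1 K hK N hN0).some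
  have hP0 := PG_nn F Q g dat hr0
  have hP1 := PG_le F Q g dat hr0
  have hpb : (kex F _ (kG F Q g dat) (kG_nn F Q g dat hr0) (kG_sum F Q g dat hr0)).pb
      (fun w : F.Ω × Option (Cod m (Rw m D) N L × (Fin m → Fin (nb r))) => w.2 = none) = PG F Q g dat :=
    kex_pb F _ (kG F Q g dat) (kG_nn F Q g dat hr0) (kG_sum F Q g dat hr0)
  have a1 := core_gain F V Q g dat hr0 hC₀ hK hNpos hg hΛ
  have a2 := core_cod F V Q g dat hr0 hr1 hK hNpos hL hnR hrn hQ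
  have a3 := core_count F V Q g dat hr0 hr1 hC₀ hK hNpos hrn hQ hg hΛ
  have a4 := core_chain F V Q g dat hr0
  have a5 := e_cell F V g hgm (fun ω => cell r (Q ω))
  have a6 := kex_La F V g _ (kG F Q g dat) (kG_nn F Q g dat hr0) (kG_sum F Q g dat hr0) hgm
    (fun w => codA (fG F Q N L r w))
  have a7 := kex_Y F V g _ (kG F Q g dat) (kG_nn F Q g dat hr0) (kG_sum F Q g dat hr0) hgm
    (fun w => codA (fG F Q N L r w)) (fun w => cell r (yA r (fG F Q N L r w)))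
  refine ⟨{
    l := FLab.mk (kex F _ (kG F Q g dat) (kG_nn F Q g dat hr0) (kG_sum F Q g dat hr0))
      (kexp F _ (kG F Q g dat) (kG_nn F Q g dat hr0) (kG_sum F Q g dat hr0)) rfl
      (Setoid.comap Prod.fst V ⊓ Setoid.ker (fun w => codA (fG F Q N L r w)))
    Y := fun w => yA r (fG F Q N L r w)
    G := fun w => gA (dat (g w.1)) (codA (fG F Q N L r w))
    bad := fun w : F.Ω × Option (Cod m (Rw m D) N L × (Fin m → Fin (nb r))) => w.2 = none }, {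
    le := fun w w' h => h.1
    fn := ?_
    uY := fun w i => yA_mem hr0 _ i
    dG := ?_
    bG := ?_
    aG := ?_
    pt := ?_
    leak := ?_
    nv := ?_ }, ?_, ?_, ?_⟩
  · intro w w' h h' hZ hL
    have h1 : codA (fG F Q N L r w) = codA (fG F Q N L r w') := hL.2
    have h2 : g w.1 = g w'.1 := hgm w.1 w'.1 (left_ne_zero_of_mul h) (left_ne_zero_of_mul h') hZ hL.1
    show gA (dat (g w.1)) (codA (fG F Q N L r w)) = gA (dat (g w'.1)) (codA (fG F Q N L r w'))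
    rw [h1, h2]
  · intro w j
    show DifferentiableOn ℂ (gA (dat (g w.1)) (codA (fG F Q N L r w)) j) (ball 0 (√N / C))
    rcases codA (fG F Q N L r w) with c | b
    · exact ((dat (g w.1)).dG c j).mono (ball_subset_ball hradle)
    · exact differentiableOn_const _
  · intro w hw j y hy
    exact gA_bound (dat (g w.1)) hr0 hr1 hK (by linarith) (by linarith) (hQ w.1 (left_ne_zero_of_mul hw)) w.2 j
      (ball_subset_ball hradle hy)
  · intro w j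
    show AlgR L (√N / C) (gA (dat (g w.1)) (codA (fG F Q N L r w)) j)
    rcases codA (fG F Q N L r w) with c | b
    · exact algR_mono hradle ((dat (g w.1)).aG c j)
    · exact algR_const hL _ _
  · intro w hw j
    exact gA_pt (dat (g w.1)) hr0 hr1 hK hC₀ hCC hrad3 (Q w.1) w.2 (right_ne_zero_of_mul hw) j
  · apply kex_leak
    · intro ω ω' h h' hZ hc
      have h1 : cell r (Q ω) = cell r (Q ω') := hc.2
      show kap (dat (g ω)) (cell r (Q ω)) = kap (dat (g ω')) (cell r (Q ω'))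
      rw [h1, hgm ω ω' h h' hZ hc.1]
    · intro w w' hZ hc h2
      refine ⟨hc.1, ?_⟩
      have h1 : cell r (Q w.1) = cell r (Q w'.1) := hc.2
      show codA (fA w.2 (cell r (Q w.1))) = codA (fA w'.2 (cell r (Q w'.1)))
      rw [h1, h2]
  · refine ⟨Setoid.ker (fun w => codA (fG F Q N L r w)), rfl, fun w _ => ?_⟩
    have h1 := core_nv F Q g dat hr0 hr1 hK hQ w
    refine h1.trans ?_
    have h2 : ((nR m D : ℝ) * (L * L)) ^ m * N ^ m ≤ C * N ^ m :=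
      mul_le_mul_of_nonneg_right (by linarith) (by positivity)
    linarith
  · refine le_of_eq_of_le a6 ?_
    refine a2.trans ?_
    show _ ≤ m * Real.logb 2 N + C + (kex F _ (kG F Q g dat) (kG_nn F Q g dat hr0) (kG_sum F Q g dat hr0)).pb
      (fun w : F.Ω × Option (Cod m (Rw m D) N L × (Fin m → Fin (nb r))) => w.2 = none) *
      (m * (2 + Real.logb 2 K + F.n))
    rw [hpb]
    have h1 : (1 - PG F Q g dat) * (m * Real.logb 2 (N : ℝ)) ≤ m * Real.logb 2 N := by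
      have : 0 ≤ (m : ℝ) * Real.logb 2 (N : ℝ) := by positivity
      nlinarith
    linarith
  · show F.e (Setoid.ker fun ω => cell r (Q ω)) (V ⊓ F.Z) +
      ∑ ω, F.μ ω * (1 / 2 * Real.logb 2 (GQ r (g ω) (Q ω))) +
      (kex F _ (kG F Q g dat) (kG_nn F Q g dat hr0) (kG_sum F Q g dat hr0)).pb
      (fun w : F.Ω × Option (Cod m (Rw m D) N L × (Fin m → Fin (nb r))) => w.2 = none) *
      (1 / 4 * Real.logb 2 N) ≤ _
    rw [hpb, a5]
    refine a3.trans ?_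
    linarith
  · show F.e (Setoid.ker fun ω => cell r (Q ω)) (V ⊓ F.Z) +
      ∑ ω, F.μ ω * (1 / 2 * Real.logb 2 (GQ r (g ω) (Q ω))) - (C + m * Real.logb 2 K) -
      (kex F _ (kG F Q g dat) (kG_nn F Q g dat hr0) (kG_sum F Q g dat hr0)).pb
      (fun w : F.Ω × Option (Cod m (Rw m D) N L × (Fin m → Fin (nb r))) => w.2 = none) *
      (Λ + m * (2 + Real.logb 2 K + F.n)) ≤ _
    rw [hpb, a5]
    refine le_of_le_of_eq ?_ a7.symm
    linarith

end Pool.Agent.Helper76.RL
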