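import Pool.Agent.Helper76.RL.Cel

/-! Bounds for the Gibbs kernels of the charts. -/

set_option autoImplicit false

namespace Pool.Agent.Helper76.RL

open MeasureTheory Set Metric
open Pool.Agent.Helper95.LF Pool.Agent.Helper3.LF Pool.Agent.Helper84.MT
open Pool.Agent.Helper31.EC.Sp (cell)

variable {m D L N : ℕ} {C r K : ℝ}

/-- the code, or the cell itself -/
def fA : Option (Cod m (Rw m D) N L × (Fin m → Fin (nb r))) → (Fin m → ℤ) →
    (Cod m (Rw m D) N L × (Fin m → Fin (nb r))) ⊕ (Fin m → ℤ)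
  | some x, _ => Sum.inl x
  | none, b => Sum.inr b

lemma fA_inj (b : Fin m → ℤ) (a a' : Option (Cod m (Rw m D) N L × (Fin m → Fin (nb r))))
    (h : fA a b = fA a' b) : a = a' := by
  rcases a with _ | x <;> rcases a' with _ | y
  · rfl
  · cases h
  · cases h
  · exact congrArg some (Sum.inl.inj h)

variable {A : Matrix (Mon m D) (Mon m D) ℝ} (d : ChD m D L C N A r K)

open Classical in
/-- the Gibbs kernel of the cell given the code -/
noncomputable def Qk : (Cod m (Rw m D) N L × (Fin m → Fin (nb r))) ⊕ (Fin m → ℤ) → (Fin m → ℤ) → ℝ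
  | Sum.inl x, b => qq d x b
  | Sum.inr b', b => if b = b' then 1 else 0

lemma Qk_nonneg (hr : 0 < r) (a) (b : Fin m → ℤ) : 0 ≤ Qk d a b := by
  rcases a with x | b'
  · exact qq_nonneg d hr x b
  · show 0 ≤ ite _ _ _
    split_ifs <;> norm_num

lemma Qk_sum (hr : 0 < r) (a) (S : Finset (Fin m → ℤ)) : ∑ b ∈ S, Qk d a b ≤ 1 := by
  classical
  rcases a with x | b'
  · exact qq_sum d hr x S
  · show ∑ b ∈ S, ite (b = b') (1 : ℝ) 0 ≤ 1
    rw [Finset.sum_ite_eq' S b' (fun _ => (1 : ℝ))]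
    split_ifs <;> norm_num

lemma Qk_pos (hr : 0 < r) (b : Fin m → ℤ) (a) (h : kap d b a ≠ 0) : 0 < Qk d (fA a b) b := by
  rcases a with _ | x
  · show 0 < ite (b = b) (1 : ℝ) 0
    rw [if_pos rfl]
    norm_num
  · exact qq_pos d hr x b h

lemma kap_le_one (hr : 0 < r) (b : Fin m → ℤ) (a) : kap d b a ≤ 1 := by
  rw [← kap_sum d hr b]
  exact Finset.single_le_sum (fun a _ => kap_nonneg d hr b a) (Finset.mem_univ a)

/-- the comparison constant -/
noncomputable def cG (m D : ℕ) : ℝ := cQ m D ^ m * 2 ^ (2 * D * m)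

lemma cG_one (m D : ℕ) : 1 ≤ cG m D := by
  unfold cG
  exact one_le_mul_of_one_le_of_one_le (one_le_pow₀ (cQ_one m D)) (one_le_pow₀ (by norm_num))

/-- LOWER BOUND for the gain -/
lemma gain (hA : PdM A) (hr : 0 < r) (hC : 1 ≤ C) (hK : 1 ≤ K) (hN : 0 < N) (b : Fin m → ℤ) {p : Fin m → ℝ}
    (hp : p ∈ cs r b) :
    (1 - kap d b none) * (m * Real.logb 2 N + 1 / 2 * Real.logb 2 (GQ r A p) -
      (Real.logb 2 (√(cG m D) * C) + m * Real.logb 2 K)) ≤
    ∑ a, kap d b a * Real.logb 2 (Qk d (fA a b) b / kap d b a) := by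
  have hN' : (0 : ℝ) < N := by exact_mod_cast hN
  have hG1 : 1 ≤ GQ r A p := one_le_GQ r hA.1 hA.nonneg p
  have hcG := cG_one m D
  set τ : ℝ := N ^ m * √(GQ r A p) / (√(cG m D) * C * K ^ m) with hτ
  have hs1 : 0 < √(cG m D) := Real.sqrt_pos.mpr (by linarith)
  have hs2 : 0 < √(GQ r A p) := Real.sqrt_pos.mpr (by linarith)
  have hden : 0 < √(cG m D) * C * K ^ m := by positivity
  have hτ0 : 0 < τ := by positivity
  have hlog : Real.logb 2 τ = m * Real.logb 2 N + 1 / 2 * Real.logb 2 (GQ r A p) -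
      (Real.logb 2 (√(cG m D) * C) + m * Real.logb 2 K) := by
    rw [hτ, Real.logb_div (by positivity) hden.ne', Real.logb_mul (by positivity) hs2.ne', Real.logb_pow,
      Real.logb_mul (by positivity) (by positivity), Real.logb_pow]
    have h1 : Real.logb 2 √(GQ r A p) = 1 / 2 * Real.logb 2 (GQ r A p) := by
      rw [Real.sqrt_eq_rpow, Real.logb_rpow_eq_mul_logb_of_pos (by linarith)]
    rw [h1]
  have hdet : ∀ x : Cod m (Rw m D) N L × (Fin m → Fin (nb r)), τ * kap d b (some x) ≤ qq d x b := by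
    intro x
    refine qq_ge d hr x b hτ0.le fun y hy => ?_
    have h2 := d.lT x.1 y hy.2
    have h3 : GQ r A p ≤ cG m D * GQ r A y := GQ_near A hA hr (fun i => cs_near hr hy.1 hp i)
    have h4 : √(GQ r A p) ≤ √(cG m D) * √(GQ r A y) := by
      rw [← Real.sqrt_mul (by linarith)]
      exact Real.sqrt_le_sqrt h3
    rw [hτ, div_le_iff₀ hden]
    calc N ^ m * √(GQ r A p) ≤ N ^ m * (√(cG m D) * √(GQ r A y)) := mul_le_mul_of_nonneg_left h4 (by positivity)
      _ = √(cG m D) * (N ^ m * √(GQ r A y)) := by ring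
      _ ≤ √(cG m D) * (C * K ^ m * |(d.T' x.1 y).det|) := mul_le_mul_of_nonneg_left h2 hs1.le
      _ = |(d.T' x.1 y).det| * (√(cG m D) * C * K ^ m) := by ring
  rw [← hlog, Fintype.sum_option]
  have h5 : 0 ≤ kap d b none * Real.logb 2 (Qk d (fA none b) b / kap d b none) := by
    by_cases h : kap d b none = 0
    · rw [h, zero_mul]
    · have h6 : 0 < kap d b none := lt_of_le_of_ne (kap_nonneg d hr b _) (Ne.symm h)
      have h7 : Qk d (fA (none : Option (Cod m (Rw m D) N L × (Fin m → Fin (nb r)))) b) b = 1 := by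
        show ite (b = b) (1 : ℝ) 0 = 1
        rw [if_pos rfl]
      rw [h7]
      refine mul_nonneg h6.le (Real.logb_nonneg (by norm_num) ?_)
      rw [le_div_iff₀ h6, one_mul]
      exact kap_le_one d hr b none
  have h8 : ∀ x : Cod m (Rw m D) N L × (Fin m → Fin (nb r)), kap d b (some x) * Real.logb 2 τ ≤
      kap d b (some x) * Real.logb 2 (Qk d (fA (some x) b) b / kap d b (some x)) := by
    intro x
    by_cases h : kap d b (some x) = 0
    · rw [h, zero_mul, zero_mul]
    · have h6 : 0 < kap d b (some x) := lt_of_le_of_ne (kap_nonneg d hr b _) (Ne.symm h)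
      refine mul_le_mul_of_nonneg_left ?_ h6.le
      refine Real.logb_le_logb_of_le (by norm_num) hτ0 ?_
      rw [le_div_iff₀ h6]
      exact hdet x
  have h9 := Finset.sum_le_sum fun x (_ : x ∈ Finset.univ) => h8 x
  rw [← Finset.sum_mul] at h9
  have h10 : ∑ x, kap d b (some x) = 1 - kap d b none := by
    have := kap_sum d hr b
    rw [Fintype.sum_option] at this
    linarith
  rw [h10] at h9
  linarith

lemma log_one_add {W p : ℝ} (hW : 1 ≤ W) (h0 : 0 ≤ p) (h1 : p ≤ 1) : p * Real.logb 2 W ≤ Real.logb 2 (1 + W * p) := by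
  have h2 : W ^ p ≤ 1 + p * (W - 1) := by
    have := rpow_one_add_le_one_add_mul_self (s := W - 1) (by linarith) h0 h1
    rwa [add_sub_cancel] at this
  have h3 : W ^ p ≤ 1 + W * p := by nlinarith
  have h4 := Real.logb_le_logb_of_le (b := 2) (by norm_num) (Real.rpow_pos_of_pos (by linarith) p) h3
  rwa [Real.logb_rpow_eq_mul_logb_of_pos (by linarith)] at h4

/-- LOWER BOUND for the kernel of the count -/
lemma count_ge (hA : PdM A) (hr : 0 < r) (hC : 1 ≤ C) (hK : 1 ≤ K) (hN : 0 < N) {p : Fin m → ℝ}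
    (hφ : phi r A p ≤ K) (hpK : ∀ i, |p i| ≤ K) {W : ℝ} (hW : 1 ≤ W) :
    1 / 2 * Real.logb 2 (GQ r A p) + m * Real.logb 2 r + kap d (cell r p) none * Real.logb 2 W ≤
      Real.logb 2 (q0 d W (cell r p) / (4 * (C * K ^ m))) + (Real.logb 2 (4 * C * √(cG m D)) + m * Real.logb 2 K) := by
  have hN' : (0 : ℝ) < N := by exact_mod_cast hN
  have hG1 : 1 ≤ GQ r A p := one_le_GQ r hA.1 hA.nonneg p
  have hcG := cG_one m D
  have hs1 : 0 < √(cG m D) := Real.sqrt_pos.mpr (by linarith)
  have hs2 : 0 < √(GQ r A p) := Real.sqrt_pos.mpr (by linarith)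
  have hpc : p ∈ cs r (cell r p) := rfl
  set b := cell r p with hb
  have hk0 := kap_nonneg d hr b none
  have hk1 := kap_le_one d hr b none
  have h1 : √(GQ r A p) / √(cG m D) * r ^ m * (1 + W * kap d b none) ≤ q0 d W b := by
    refine q0_ge d hr (by linarith : (0 : ℝ) ≤ W) b (fun x hx => d.reg_of p x hφ hpK fun i => cs_near hr hx hpc i) (by positivity) fun x hx => ?_
    rw [div_le_iff₀ hs1, mul_comm, ← Real.sqrt_mul (by linarith)]
    exact Real.sqrt_le_sqrt (GQ_near A hA hr (fun i => cs_near hr hx hpc i))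
  have hl : 0 < √(GQ r A p) / √(cG m D) * r ^ m * (1 + W * kap d b none) := by positivity
  have h2 : Real.logb 2 (√(GQ r A p) / √(cG m D) * r ^ m * (1 + W * kap d b none)) ≤ Real.logb 2 (q0 d W b) :=
    Real.logb_le_logb_of_le (by norm_num) hl h1
  have h3 : Real.logb 2 (√(GQ r A p) / √(cG m D) * r ^ m * (1 + W * kap d b none)) =
      1 / 2 * Real.logb 2 (GQ r A p) - Real.logb 2 √(cG m D) + m * Real.logb 2 r +
        Real.logb 2 (1 + W * kap d b none) := by
    rw [Real.logb_mul (by positivity) (by positivity), Real.logb_mul (by positivity) (by positivity),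
      Real.logb_div hs2.ne' hs1.ne', Real.logb_pow]
    have h4 : Real.logb 2 √(GQ r A p) = 1 / 2 * Real.logb 2 (GQ r A p) := by
      rw [Real.sqrt_eq_rpow, Real.logb_rpow_eq_mul_logb_of_pos (by linarith)]
    rw [h4]
  have h5 := log_one_add hW hk0 hk1
  have h6 : Real.logb 2 (q0 d W b / (4 * (C * K ^ m))) = Real.logb 2 (q0 d W b) -
      (Real.logb 2 (4 * C) + m * Real.logb 2 K) := by
    rw [Real.logb_div (lt_of_lt_of_le hl h1).ne' (by positivity)]
    have : 4 * (C * K ^ m) = 4 * C * K ^ m := by ring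
    rw [this, Real.logb_mul (by positivity) (by positivity), Real.logb_pow]
  have h7 : Real.logb 2 (4 * C * √(cG m D)) = Real.logb 2 (4 * C) + Real.logb 2 √(cG m D) :=
    Real.logb_mul (by positivity) hs1.ne'
  rw [h6, h7]
  rw [h3] at h2
  linarith

end Pool.Agent.Helper76.RL
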