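import Pool.Agent.Helper76.RL.Gfa
import Pool.Agent.Helper76.RL.Gb
import Pool.Agent.Helper40.EL.D1
import Pool.Agent.Helper31.EC.Rest

/-! The extension of a finite space by the kernel of the charts: the count, the entropy of the code, fullness. -/

set_option autoImplicit false

namespace Pool.Agent.Helper76.RL

open Pool.Agent.Helper69.RK Pool.Agent.Helper31.EC Pool.Agent.Helper40.EL
open Pool.Agent.Helper95.LF Pool.Agent.Helper3.LF Pool.Agent.Helper84.MT
open Pool.Agent.Helper31.EC.Sp (cell)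

/-! ### kernel extensions -/

/-- extension of a finite space by a kernel -/
def kex (F : FSp) (A : Type) [Fintype A] (k : F.Ω → A → ℝ) (h0 : ∀ ω a, 0 ≤ k ω a) (h1 : ∀ ω, ∑ a, k ω a = 1) :
    FSp where
  Ω := F.Ω × A
  ft := inferInstance
  μ := kμ F.μ k
  nn := fun w => mul_nonneg (F.nn _) (h0 _ _)
  ms := by
    have h2 := sum_kμ_fst F.μ k h1 (fun _ => (1 : ℝ))
    simp only [mul_one] at h2
    unfold Pool.Agent.Helper69.RK.mass
    rw [h2]
    exact F.ms
  Z := Setoid.comap Prod.fst F.Z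
  n := F.n
  pos := F.pos

/-- the projection -/
def kexp (F : FSp) (A : Type) [Fintype A] (k : F.Ω → A → ℝ) (h0 : ∀ ω a, 0 ≤ k ω a) (h1 : ∀ ω, ∑ a, k ω a = 1) :
    FPj (kex F A k h0 h1) F where
  π := Prod.fst
  law := by
    show push (Prod.fst : F.Ω × A → F.Ω) (kμ F.μ k) = F.μ
    funext ω
    rw [push_ind]
    have h2 := sum_kμ_fst F.μ k h1 (fun ω' => e1_ind (ω' = ω))
    have h3 : ∑ ω', F.μ ω' * e1_ind (ω' = ω) = F.μ ω := by
      rw [Finset.sum_eq_single ω]
      · rw [e1_ind_pos rfl, mul_one]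
      · intro b _ hb
        rw [e1_ind_neg hb, mul_zero]
      · intro h
        exact absurd (Finset.mem_univ _) h
    rw [h3] at h2
    rw [← h2]
    exact Finset.sum_congr rfl fun w _ => mul_comm _ _
  hZ := fun _ _ _ _ => Iff.rfl

/-- a kernel which is a function of `c` adds nothing given `c` -/
lemma kex_leak (F : FSp) (A : Type) [Fintype A] (k : F.Ω → A → ℝ) (h0 : ∀ ω a, 0 ≤ k ω a)
    (h1 : ∀ ω, ∑ a, k ω a = 1) (c : Setoid F.Ω)
    (hk : ∀ ω ω', F.μ ω ≠ 0 → F.μ ω' ≠ 0 → F.Z ω ω' → c ω ω' → k ω = k ω') (La : Setoid (F.Ω × A))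
    (hLa : ∀ w w', F.Z w.1 w'.1 → c w.1 w'.1 → w.2 = w'.2 → La w w') :
    (FLab.mk (kex F A k h0 h1) (kexp F A k h0 h1) rfl La).leak (fc c) = 0 := by
  set T := kex F A k h0 h1 with hT
  set p := kexp F A k h0 h1 with hp
  have e1 : I (fc (F := T) (Setoid.ker (fun w : F.Ω × A => w.2))) p.top (p.map (fc c)) = 0 := by
    rw [I_zero_iff_h]
    have a1 : p.top ⊔ p.map (fc c) = p.top := sup_eq_left.mpr (p.map_le_top _)
    rw [a1]
    have a2 : h (fc (F := T) (Setoid.ker (fun w : F.Ω × A => w.2))) p.top =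
        T.e (Setoid.ker (fun w : F.Ω × A => w.2)) (Setoid.ker (fun w : F.Ω × A => w.1) ⊓ T.Z) := h_fc _ _
    have a3 : h (fc (F := T) (Setoid.ker (fun w : F.Ω × A => w.2))) (p.map (fc c)) =
        T.e (Setoid.ker (fun w : F.Ω × A => w.2)) (Setoid.comap Prod.fst c ⊓ T.Z) := h_fc _ _
    rw [a2, a3]
    have b1 : T.e (Setoid.ker (fun w : F.Ω × A => w.2)) (Setoid.ker (fun w : F.Ω × A => w.1) ⊓ T.Z) =
        CH (kμ F.μ k) (fun w => w.2) (fun w => w.1) := by
      apply T.e_congr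
      · intro w w' _ _
        exact Iff.rfl
      · intro w w' _ _
        constructor
        · exact fun h => h.1
        · intro h
          refine ⟨h, ?_⟩
          show F.Z w'.1 w.1
          rw [h]
    have b2 : T.e (Setoid.ker (fun w : F.Ω × A => w.2)) (Setoid.comap Prod.fst c ⊓ T.Z) =
        CH (kμ F.μ k) (fun w => w.2) (fun w => Quotient.mk (c ⊓ F.Z) w.1) := by
      apply T.e_congr
      · intro w w' _ _
        exact Iff.rfl
      · intro w w' _ _
        exact (Quotient.eq (r := c ⊓ F.Z)).symm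
    rw [b1, b2, CH_kμ_snd F.μ F.nn k h1 (fun ω => ω) (fun ω ω' _ _ h => by rw [h]),
      CH_kμ_snd F.μ F.nn k h1 (Quotient.mk (c ⊓ F.Z)) (fun ω ω' a b h => by
        have h' := Quotient.exact h
        exact hk ω ω' a b h'.2 h'.1)]
  apply I_zero_mono e1
  · show fc (F := T) La ≤ fc (Setoid.ker (fun w : F.Ω × A => w.2)) ⊔ p.map (fc c)
    rw [p.map_fc, ← fc_inf]
    refine fc_le ?_
    intro w w' _ _ hz h
    exact hLa w w' hz h.2 h.1
  · exact le_sup_left

variable {m D L N : ℕ} {C r K : ℝ}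

/-! ### the box -/

/-- the cells of the box -/
noncomputable def Bx (m : ℕ) (r K : ℝ) : Finset (Fin m → ℤ) :=
  Fintype.piFinset fun _ => Finset.Icc ⌊-K / r⌋ ⌊K / r⌋

lemma mem_Bx (hr : 0 < r) {p : Fin m → ℝ} (hp : ∀ i, |p i| ≤ K) : cell r p ∈ Bx m r K := by
  unfold Bx
  rw [Fintype.mem_piFinset]
  intro i
  have := abs_le.mp (hp i)
  rw [Finset.mem_Icc]
  exact ⟨Int.floor_le_floor (div_le_div_of_nonneg_right this.1 hr.le),
    Int.floor_le_floor (div_le_div_of_nonneg_right this.2 hr.le)⟩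

lemma card_Bx (hr : 0 < r) (hr1 : r ≤ 1) (hK : 1 ≤ K) : ((Bx m r K).card : ℝ) ≤ (4 * K / r) ^ m := by
  unfold Bx
  rw [Fintype.card_piFinset, Finset.prod_const, Finset.card_univ, Fintype.card_fin]
  push_cast
  refine pow_le_pow_left₀ (Nat.cast_nonneg _) ?_ m
  rw [Int.card_Icc]
  have h1 : (1 : ℝ) ≤ K / r := by
    rw [le_div_iff₀ hr]
    linarith
  have h2 := Int.floor_le (K / r)
  have h3 := Int.lt_floor_add_one (-K / r)
  have h4 : -K / r = -(K / r) := by ring
  have h5 : 0 ≤ ⌊K / r⌋ + 1 - ⌊-K / r⌋ := by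
    have : ⌊-K / r⌋ ≤ ⌊K / r⌋ := Int.floor_le_floor (by rw [h4]; linarith)
    omega
  have h6 : (((⌊K / r⌋ + 1 - ⌊-K / r⌋).toNat : ℕ) : ℝ) = (⌊K / r⌋ : ℝ) + 1 - ⌊-K / r⌋ := by
    have : (((⌊K / r⌋ + 1 - ⌊-K / r⌋).toNat : ℕ) : ℤ) = ⌊K / r⌋ + 1 - ⌊-K / r⌋ := Int.toNat_of_nonneg h5
    have h7 : (((⌊K / r⌋ + 1 - ⌊-K / r⌋).toNat : ℕ) : ℝ) = ((((⌊K / r⌋ + 1 - ⌊-K / r⌋).toNat : ℕ) : ℤ) : ℝ) := by
      norm_cast
    rw [h7, this]
    push_cast
    ring
  rw [h6]
  have h8 : 4 * K / r = 4 * (K / r) := by ring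
  rw [h8]
  rw [h4] at h3 ⊢
  linarith

lemma Bx_pos (hr : 0 < r) (hK : 0 ≤ K) : 0 < (Bx m r K).card := by
  apply Finset.card_pos.mpr
  exact ⟨cell r (fun _ => 0), mem_Bx hr (fun i => by rw [abs_zero]; exact hK)⟩

lemma log_Bx (hr : 0 < r) (hr1 : r ≤ 1) (hK : 1 ≤ K) {n : ℝ} (hn : Real.logb 2 r = -n) :
    Real.logb 2 ((Bx m r K).card : ℝ) ≤ m * (2 + Real.logb 2 K + n) := by
  have h0 : (0 : ℝ) < (Bx m r K).card := by exact_mod_cast Bx_pos hr (by linarith)
  refine (Real.logb_le_logb_of_le (by norm_num) h0 (card_Bx hr hr1 hK)).trans (le_of_eq ?_)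
  have h4 : Real.logb 2 4 = 2 := by
    have : (4 : ℝ) = 2 ^ (2 : ℝ) := by norm_num
    rw [this, Real.logb_rpow (by norm_num) (by norm_num)]
  rw [Real.logb_pow, Real.logb_div (by positivity) hr.ne', Real.logb_mul (by norm_num) (by positivity), hn, h4]
  ring

/-! ### the entropy of the code -/

/-- the code without the fine cell -/
def codA : (Cod m (Rw m D) N L × (Fin m → Fin (nb r))) ⊕ (Fin m → ℤ) → Cod m (Rw m D) N L ⊕ (Fin m → ℤ) :=
  Sum.map Prod.fst id

/-- number of codes -/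
lemma card_Cod : Fintype.card (Cod m (Rw m D) N L) = nR m D ^ m * (N ^ m * (L * L) ^ m) := by
  simp only [Fintype.card_prod, Fintype.card_fun, Fintype.card_fin]
  rfl

lemma log_Cod (hD : 1 ≤ nR m D) (hN : 0 < N) (hL : 0 < L) :
    Real.logb 2 (Fintype.card (Cod m (Rw m D) N L)) = m * Real.logb 2 N + m * Real.logb 2 (nR m D * (L * L)) := by
  have h1 : (0 : ℝ) < nR m D := by exact_mod_cast hD
  have h2 : (0 : ℝ) < N := by exact_mod_cast hN
  have h3 : (0 : ℝ) < L := by exact_mod_cast hL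
  rw [card_Cod]
  push_cast
  rw [Real.logb_mul (by positivity) (by positivity), Real.logb_mul (by positivity) (by positivity), Real.logb_pow,
    Real.logb_pow, Real.logb_pow, Real.logb_mul (x := (nR m D : ℝ)) (by positivity) (by positivity)]
  ring

lemma img_card {α β : Type} {i : DecidableEq β} (s : Finset α) (f : α → β) (T : Finset β) (h : ∀ a ∈ s, f a ∈ T) :
    (s.image f).card ≤ T.card := Finset.card_le_card (Finset.image_subset_iff.2 h)

lemma card_two (a b : Prop) : ∃ T : Finset Prop, T.card ≤ 2 ∧ a ∈ T ∧ b ∈ T := by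
  classical
  exact ⟨{a, b}, Finset.card_le_two, by simp, by simp⟩

/-- ENTROPY OF THE CODE -/
lemma ent_cod {Ω γ X : Type} [Fintype Ω] (μ : Ω → ℝ) (hμ : ∀ ω, 0 ≤ μ ω) (hμ1 : ∑ ω, μ ω = 1) (v : Ω → γ)
    {β : Type} [Fintype X] (cod : Ω → X ⊕ β) (B : Finset β)
    (hB : ∀ ω b, μ ω ≠ 0 → cod ω = Sum.inr b → b ∈ B) :
    CH μ cod v ≤ 1 + (1 - ∑ ω, μ ω * e1_ind (∃ b, cod ω = Sum.inr b)) * Real.logb 2 (Fintype.card X) +
      (∑ ω, μ ω * e1_ind (∃ b, cod ω = Sum.inr b)) * Real.logb 2 B.card := by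
  classical
  set E : Ω → Prop := fun ω => ∃ b, cod ω = Sum.inr b with hE
  have h1 : CH μ cod v ≤ CH μ E v + CH μ cod (fun ω => (E ω, v ω)) := by
    have c1 := e1_chain μ E cod v
    have c2 := e1_chain μ cod E v
    have c3 := e4_swap μ E cod v
    have c4 := e1_nonneg μ E (fun ω => (cod ω, v ω)) hμ
    linarith
  have h2 : CH μ E v ≤ 1 := by
    refine (e3_card μ E v (fun _ => 2) hμ fun ω _ => ?_).trans (le_of_eq ?_)
    · obtain ⟨T, hT, ht, hf⟩ := card_two True False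
      refine (Nat.cast_le.mpr (img_card _ E T fun a _ => ?_)).trans (by exact_mod_cast hT)
      by_cases h : E a
      · rw [eq_true h]
        exact ht
      · rw [eq_false h]
        exact hf
    · rw [Real.logb_self_eq_one (by norm_num)]
      simp only [mul_one]
      exact hμ1
  have h3 : CH μ cod (fun ω => (E ω, v ω)) ≤
      ∑ ω, μ ω * Real.logb 2 (if E ω then (B.card : ℝ) else (Fintype.card X : ℝ)) := by
    refine e3_card μ cod _ _ hμ fun ω hω => ?_
    by_cases h : E ω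
    · rw [if_pos h]
      refine Nat.cast_le.mpr ((img_card _ cod (B.map ⟨Sum.inr, Sum.inr_injective⟩) fun ω' hω' => ?_).trans
        (le_of_eq (Finset.card_map _)))
      simp only [Finset.mem_filter, Finset.mem_univ, true_and] at hω'
      have h5 : E ω' := by
        rw [(Prod.mk.inj hω'.2).1]
        exact h
      obtain ⟨b, hb⟩ := h5
      rw [hb]
      exact Finset.mem_map_of_mem _ (hB ω' b hω'.1 hb)
    · rw [if_neg h]
      refine Nat.cast_le.mpr ((img_card _ cod ((Finset.univ : Finset X).map ⟨Sum.inl, Sum.inl_injective⟩)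
        fun ω' hω' => ?_).trans (le_of_eq (Finset.card_map _)))
      simp only [Finset.mem_filter, Finset.mem_univ, true_and] at hω'
      have h5 : ¬ E ω' := by
        rw [(Prod.mk.inj hω'.2).1]
        exact h
      rcases hc : cod ω' with x | b
      · exact Finset.mem_map_of_mem _ (Finset.mem_univ x)
      · exact absurd ⟨b, hc⟩ h5
  have h6 : ∑ ω, μ ω * Real.logb 2 (if E ω then (B.card : ℝ) else (Fintype.card X : ℝ)) =
      (1 - ∑ ω, μ ω * e1_ind (E ω)) * Real.logb 2 (Fintype.card X) + (∑ ω, μ ω * e1_ind (E ω)) * Real.logb 2 B.card := by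
    have h7 : ∀ ω, μ ω * Real.logb 2 (if E ω then (B.card : ℝ) else (Fintype.card X : ℝ)) =
        μ ω * Real.logb 2 (Fintype.card X) + μ ω * e1_ind (E ω) * (Real.logb 2 B.card - Real.logb 2 (Fintype.card X)) := by
      intro ω
      by_cases h : E ω
      · rw [if_pos h, e1_ind_pos h]
        ring
      · rw [if_neg h, e1_ind_neg h]
        ring
    rw [Finset.sum_congr rfl fun ω _ => h7 ω, Finset.sum_add_distrib, ← Finset.sum_mul, ← Finset.sum_mul, hμ1]
    ring
  linarith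

/-! ### the count -/

open Classical in
/-- THE COUNT: the entropy of the cell given the label is at most the volume, and the defect bounds the bad set -/
theorem count {Ω γ : Type} [Fintype Ω] (μ : Ω → ℝ) (hμ : ∀ ω, 0 ≤ μ ω) (hμ1 : ∑ ω, μ ω = 1)
    (Q : Ω → Fin m → ℝ) (v : Ω → γ) (A : γ → Matrix (Mon m D) (Mon m D) ℝ)
    (hA : ∀ c, PdM (A c)) (d : ∀ c, ChD m D L C N (A c) r K) (hr : 0 < r) (hr1 : r ≤ 1) (hC : 1 ≤ C) (hK : 1 ≤ K)
    (hN : 0 < N) (hQ : ∀ ω, μ ω ≠ 0 → ∀ i, |Q ω i| ≤ K) {n : ℝ} (hn : Real.logb 2 r = -n) {Λ : ℝ}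
    (hΛ : ∀ ω, μ ω ≠ 0 → 1 / 2 * Real.logb 2 (GQ r (A (v ω)) (Q ω)) ≤ Λ) :
    CH μ (fun ω => cell r (Q ω)) v + ∑ ω, μ ω * (1 / 2 * Real.logb 2 (GQ r (A (v ω)) (Q ω))) +
      (∑ ω, μ ω * kap (d (v ω)) (cell r (Q ω)) none) * (1 / 4 * Real.logb 2 N) ≤
    m * n + (Real.logb 2 (4 * C * √(cG m D)) + m * Real.logb 2 K) +
      Pool.Agent.Helper69.RK.mass (res μ fun ω => ¬ phi r (A (v ω)) (Q ω) ≤ K) * (1 + 2 * m + Λ + 1 / 4 * Real.logb 2 N) := by
  have hN' : (0 : ℝ) < N := by exact_mod_cast hN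
  have hN1 : (1 : ℝ) ≤ N := by exact_mod_cast hN
  set W : ℝ := (N : ℝ) ^ (1 / 4 : ℝ) with hWd
  have hW : 1 ≤ W := Real.one_le_rpow hN1 (by norm_num)
  have hW1 : W ≤ √N := by
    rw [hWd, Real.sqrt_eq_rpow]
    exact Real.rpow_le_rpow_of_exponent_le hN1 (by norm_num)
  have hWl : Real.logb 2 W = 1 / 4 * Real.logb 2 N := Real.logb_rpow_eq_mul_logb_of_pos hN'
  have hlN : 0 ≤ Real.logb 2 (N : ℝ) := Real.logb_nonneg (by norm_num) hN1
  have hlK : 0 ≤ Real.logb 2 K := Real.logb_nonneg (by norm_num) hK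
  have hB0 : (0 : ℝ) < (Bx m r K).card := by exact_mod_cast Bx_pos hr (by linarith)
  have hCK : 0 < 4 * (C * K ^ m) := by positivity
  set u : (Fin m → ℤ) → ℝ := fun b => if b ∈ Bx m r K then 1 / ((Bx m r K).card : ℝ) else 0 with hu
  set q : γ → (Fin m → ℤ) → ℝ := fun c b => 1 / 2 * u b + q0 (d c) W b / (4 * (C * K ^ m)) with hq
  have hu0 : ∀ b, 0 ≤ u b := by
    intro b
    simp only [hu]
    split_ifs
    · positivity
    · exact le_rfl
  have hq00 : ∀ c b, 0 ≤ q0 (d c) W b / (4 * (C * K ^ m)) := fun c b =>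
    div_nonneg (q0_nonneg (d c) (by linarith) b) hCK.le
  have hcG := cG_one m D
  have hc6 : 0 ≤ Real.logb 2 (4 * C * √(cG m D)) := by
    apply Real.logb_nonneg (by norm_num)
    have : 1 ≤ √(cG m D) := Real.one_le_sqrt.mpr hcG
    nlinarith
  have h1 := gibbs_CH μ (fun ω => cell r (Q ω)) v hμ q (fun c b => add_nonneg (by have := hu0 b; positivity) (hq00 c b))
    (fun c S => by
      simp only [hq]
      rw [Finset.sum_add_distrib, ← Finset.mul_sum, ← Finset.sum_div]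
      have a1 : ∑ b ∈ S, u b ≤ 1 := by
        simp only [hu]
        rw [← Finset.sum_filter, Finset.sum_const, nsmul_eq_mul, mul_one_div, div_le_one hB0]
        have : (S.filter fun b => b ∈ Bx m r K) ⊆ Bx m r K := fun b hb => (Finset.mem_filter.mp hb).2
        exact_mod_cast Finset.card_le_card this
      have a2 : (∑ b ∈ S, q0 (d c) W b) / (4 * (C * K ^ m)) ≤ 1 / 2 := by
        rw [div_le_iff₀ hCK]
        have := q0_sum (d c) hr (by linarith) (by linarith) hN (by linarith : (0 : ℝ) ≤ W) hW1 S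
        linarith
      linarith)
    (fun ω hω => by
      have a1 : u (cell r (Q ω)) = 1 / ((Bx m r K).card : ℝ) := by
        simp only [hu]
        rw [if_pos (mem_Bx hr (hQ ω hω))]
      simp only [hq]
      rw [a1]
      have := hq00 (v ω) (cell r (Q ω))
      positivity)
  -- pointwise
  set c6 : ℝ := Real.logb 2 (4 * C * √(cG m D)) + m * Real.logb 2 K with hc6d
  have hc60 : 0 ≤ c6 := by rw [hc6d]; positivity
  have h2 : ∀ ω, μ ω * (1 / 2 * Real.logb 2 (GQ r (A (v ω)) (Q ω)) +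
      kap (d (v ω)) (cell r (Q ω)) none * (1 / 4 * Real.logb 2 N) - m * n - c6) -
      res μ (fun ω => ¬ phi r (A (v ω)) (Q ω) ≤ K) ω * (1 + 2 * m + Λ + 1 / 4 * Real.logb 2 N) ≤
      μ ω * Real.logb 2 (q (v ω) (cell r (Q ω))) := by
    intro ω
    by_cases h0 : μ ω = 0
    · have : res μ (fun ω => ¬ phi r (A (v ω)) (Q ω) ≤ K) ω = 0 := by
        unfold res
        rw [h0]
        split_ifs <;> rfl
      rw [this, h0]
      simp
    by_cases ht : phi r (A (v ω)) (Q ω) ≤ K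
    · rw [res_neg μ (fun ω => ¬ phi r (A (v ω)) (Q ω) ≤ K) ω (not_not.mpr ht), zero_mul, sub_zero]
      refine mul_le_mul_of_nonneg_left ?_ (hμ ω)
      have h3 := count_ge (d (v ω)) (hA (v ω)) hr hC hK hN ht (hQ ω h0) hW
      rw [hWl, hn] at h3
      have hb : Q ω ∈ cs r (cell r (Q ω)) := rfl
      have h4 : 0 < q0 (d (v ω)) W (cell r (Q ω)) / (4 * (C * K ^ m)) := by
        apply div_pos _ hCK
        have hG1 : 1 ≤ GQ r (A (v ω)) (Q ω) := one_le_GQ r (hA _).1 (hA _).nonneg _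
        have hs1 : 0 < √(cG m D) := Real.sqrt_pos.mpr (by linarith)
        have hs2 : 0 < √(GQ r (A (v ω)) (Q ω)) := Real.sqrt_pos.mpr (by linarith)
        have hk0 := kap_nonneg (d (v ω)) hr (cell r (Q ω)) none
        refine lt_of_lt_of_le ?_ (q0_ge (d (v ω)) hr (by linarith : (0 : ℝ) ≤ W) (cell r (Q ω))
          (fun x hx => (d (v ω)).reg_of (Q ω) x ht (hQ ω h0) fun i => cs_near hr hx hb i)
          (σ := √(GQ r (A (v ω)) (Q ω)) / √(cG m D)) (by positivity) fun x hx => ?_)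
        · positivity
        · rw [div_le_iff₀ hs1, mul_comm, ← Real.sqrt_mul (by linarith)]
          exact Real.sqrt_le_sqrt (GQ_near _ (hA _) hr (fun i => cs_near hr hx hb i))
      have h5 : Real.logb 2 (q0 (d (v ω)) W (cell r (Q ω)) / (4 * (C * K ^ m))) ≤
          Real.logb 2 (q (v ω) (cell r (Q ω))) := by
        refine Real.logb_le_logb_of_le (by norm_num) h4 ?_
        simp only [hq]
        have := hu0 (cell r (Q ω))
        linarith
      linarith
    · rw [res_pos μ (fun ω => ¬ phi r (A (v ω)) (Q ω) ≤ K) ω ht, ← mul_sub]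
      refine mul_le_mul_of_nonneg_left ?_ (hμ ω)
      have h3 : -1 - m * (2 + Real.logb 2 K + n) ≤ Real.logb 2 (q (v ω) (cell r (Q ω))) := by
        have a1 : u (cell r (Q ω)) = 1 / ((Bx m r K).card : ℝ) := by
          simp only [hu]
          rw [if_pos (mem_Bx hr (hQ ω h0))]
        have a2 : Real.logb 2 (1 / 2 * (1 / ((Bx m r K).card : ℝ))) ≤ Real.logb 2 (q (v ω) (cell r (Q ω))) := by
          refine Real.logb_le_logb_of_le (by norm_num) (by positivity) ?_
          simp only [hq]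
          rw [a1]
          have := hq00 (v ω) (cell r (Q ω))
          linarith
        have a3 : Real.logb 2 (1 / 2 * (1 / ((Bx m r K).card : ℝ))) = -1 - Real.logb 2 ((Bx m r K).card : ℝ) := by
          rw [one_div_mul_one_div, one_div, Real.logb_inv, Real.logb_mul (by norm_num) hB0.ne',
            Real.logb_self_eq_one (by norm_num)]
          ring
        have a4 := log_Bx (m := m) hr hr1 hK hn
        linarith
      have h6 := hΛ ω h0
      have h7 := kap_le_one (d (v ω)) hr (cell r (Q ω)) none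
      have h8 := kap_nonneg (d (v ω)) hr (cell r (Q ω)) none
      have h9 : kap (d (v ω)) (cell r (Q ω)) none * (1 / 4 * Real.logb 2 N) ≤ 1 / 4 * Real.logb 2 N := by nlinarith
      rw [hc6d]
      nlinarith
  have h3 := Finset.sum_le_sum fun ω (_ : ω ∈ Finset.univ) => h2 ω
  rw [Finset.sum_sub_distrib, ← Finset.sum_mul] at h3
  have h4 : ∑ ω, μ ω * (1 / 2 * Real.logb 2 (GQ r (A (v ω)) (Q ω)) +
      kap (d (v ω)) (cell r (Q ω)) none * (1 / 4 * Real.logb 2 N) - m * n - c6) =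
      ∑ ω, μ ω * (1 / 2 * Real.logb 2 (GQ r (A (v ω)) (Q ω))) +
      (∑ ω, μ ω * kap (d (v ω)) (cell r (Q ω)) none) * (1 / 4 * Real.logb 2 N) - m * n - c6 := by
    have h5 : ∀ ω, μ ω * (1 / 2 * Real.logb 2 (GQ r (A (v ω)) (Q ω)) +
      kap (d (v ω)) (cell r (Q ω)) none * (1 / 4 * Real.logb 2 N) - m * n - c6) =
      μ ω * (1 / 2 * Real.logb 2 (GQ r (A (v ω)) (Q ω))) +
      μ ω * kap (d (v ω)) (cell r (Q ω)) none * (1 / 4 * Real.logb 2 N) - μ ω * (m * n + c6) := fun ω => by ring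
    rw [Finset.sum_congr rfl fun ω _ => h5 ω, Finset.sum_sub_distrib, Finset.sum_add_distrib, ← Finset.sum_mul,
      ← Finset.sum_mul, hμ1]
    ring
  rw [h4] at h3
  have h5 : Pool.Agent.Helper69.RK.mass (res μ fun ω => ¬ phi r (A (v ω)) (Q ω) ≤ K) =
      ∑ ω, res μ (fun ω => ¬ phi r (A (v ω)) (Q ω) ≤ K) ω := rfl
  rw [h5]
  linarith

end Pool.Agent.Helper76.RL
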