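import Pool.Agent.Helper76.RL.Gfb

/-! Entropies on the kernel extension, the chart data of a label. -/

set_option autoImplicit false

namespace Pool.Agent.Helper76.RL

open Metric
open Pool.Agent.Helper69.RK Pool.Agent.Helper31.EC Pool.Agent.Helper40.EL
open Pool.Agent.Helper95.LF Pool.Agent.Helper3.LF Pool.Agent.Helper84.MT
open Pool.Agent.Helper31.EC.Sp (cell)

/-! ### kernel extensions -/

section kexs

variable (F : FSp) (V : Setoid F.Ω) {M : Type} (g : F.Ω → M) (A : Type) [Fintype A] (k : F.Ω → A → ℝ)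
  (h0 : ∀ ω a, 0 ≤ k ω a) (h1 : ∀ ω, ∑ a, k ω a = 1)

/-- the label and the form -/
def vv (ω : F.Ω) : Quotient (V ⊓ F.Z) × M := (Quotient.mk _ ω, g ω)

lemma vv_iff (hgm : ∀ ω ω', F.μ ω ≠ 0 → F.μ ω' ≠ 0 → F.Z ω ω' → V ω ω' → g ω = g ω') {ω ω' : F.Ω}
    (h : F.μ ω ≠ 0) (h' : F.μ ω' ≠ 0) : (V ⊓ F.Z) ω ω' ↔ vv F V g ω = vv F V g ω' := by
  unfold vv
  constructor
  · intro h2
    exact Prod.ext (Quotient.sound h2) (hgm ω ω' h h' h2.2 h2.1)
  · intro h2
    exact Quotient.exact (Prod.mk.inj h2).1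

lemma e_cell (hgm : ∀ ω ω', F.μ ω ≠ 0 → F.μ ω' ≠ 0 → F.Z ω ω' → V ω ω' → g ω = g ω') {B : Type} (z : F.Ω → B) :
    F.e (Setoid.ker z) (V ⊓ F.Z) = CH F.μ z (vv F V g) := by
  apply F.e_congr
  · intro ω ω' _ _
    exact Iff.rfl
  · intro ω ω' h h'
    exact vv_iff F V g hgm h' h

/-- entropy of a finer label given the label -/
lemma kex_La (hgm : ∀ ω ω', F.μ ω ≠ 0 → F.μ ω' ≠ 0 → F.Z ω ω' → V ω ω' → g ω = g ω') {B : Type}
    (cod : F.Ω × A → B) :
    (kex F A k h0 h1).e (Setoid.comap Prod.fst V ⊓ Setoid.ker cod)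
      (Setoid.comap (kexp F A k h0 h1).π V ⊓ (kex F A k h0 h1).Z) =
    CH (kμ F.μ k) cod (fun w => vv F V g w.1) := by
  have h2 : (kex F A k h0 h1).e (Setoid.comap Prod.fst V ⊓ Setoid.ker cod)
      (Setoid.comap (kexp F A k h0 h1).π V ⊓ (kex F A k h0 h1).Z) =
      (kex F A k h0 h1).e (Setoid.ker cod) (Setoid.comap (kexp F A k h0 h1).π V ⊓ (kex F A k h0 h1).Z) := by
    apply le_antisymm
    · apply FSp.e_mono
      intro w w' _ _ h h'
      exact ⟨h'.1, h⟩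
    · apply FSp.e_mono
      intro w w' _ _ h _
      exact h.2
  rw [h2]
  apply FSp.e_congr
  · intro w w' _ _
    exact Iff.rfl
  · intro w w' h h'
    exact vv_iff F V g hgm (left_ne_zero_of_mul h') (left_ne_zero_of_mul h)

lemma kex_Y (hgm : ∀ ω ω', F.μ ω ≠ 0 → F.μ ω' ≠ 0 → F.Z ω ω' → V ω ω' → g ω = g ω') {B B' : Type}
    (cod : F.Ω × A → B) (y : F.Ω × A → B') :
    (kex F A k h0 h1).e (Setoid.ker y) (Setoid.comap Prod.fst V ⊓ Setoid.ker cod ⊓ (kex F A k h0 h1).Z) =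
    CH (kμ F.μ k) y (fun w => (cod w, vv F V g w.1)) := by
  apply FSp.e_congr
  · intro w w' _ _
    exact Iff.rfl
  · intro w w' h h'
    have h2 := vv_iff F V g hgm (left_ne_zero_of_mul h') (left_ne_zero_of_mul h)
    constructor
    · intro h3
      have h4 : V w'.1 w.1 ∧ cod w' = cod w := h3.1
      have h5 : F.Z w'.1 w.1 := h3.2
      exact Prod.ext h4.2 (h2.mp ⟨h4.1, h5⟩)
    · intro h3
      have h4 := (Prod.mk.inj h3)
      have h5 := h2.mpr h4.2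
      exact ⟨⟨h5.1, h4.1⟩, h5.2⟩

/-- the probability of `none` -/
lemma kex_pb (k : F.Ω → Option A → ℝ) (h0 : ∀ ω a, 0 ≤ k ω a) (h1 : ∀ ω, ∑ a, k ω a = 1) :
    (kex F (Option A) k h0 h1).pb (fun w : F.Ω × Option A => w.2 = none) = ∑ ω, F.μ ω * k ω none := by
  have h2 : (kex F (Option A) k h0 h1).pb (fun w : F.Ω × Option A => w.2 = none) =
      ∑ w : F.Ω × Option A, kμ F.μ k w * e1_ind (w.2 = none) := by
    refine Finset.sum_congr rfl fun (w : F.Ω × Option A) _ => ?_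
    by_cases h : w.2 = none
    · rw [e1_ind_pos h, mul_one]
      exact if_pos h
    · rw [e1_ind_neg h, mul_zero]
      exact if_neg h
  rw [h2, sum_kμ]
  refine Finset.sum_congr rfl fun ω _ => ?_
  congr 1
  rw [Fintype.sum_option]
  simp only
  rw [e1_ind_pos trivial, mul_one]
  have h3 : ∀ x : A, k ω (some x) * e1_ind ((some x) = none) = 0 := by
    intro x
    rw [e1_ind_neg (by simp), mul_zero]
  rw [Finset.sum_congr rfl fun x _ => h3 x, Finset.sum_const_zero, add_zero]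

end kexs

variable {m D L N : ℕ} {C r K : ℝ}

/-! ### the code -/

/-- the parameters read off the code -/
noncomputable def yA (r : ℝ) : (Cod m (Rw m D) N L × (Fin m → Fin (nb r))) ⊕ (Fin m → ℤ) → Fin m → ℝ
  | Sum.inl x, i => ((x.2 i : ℕ) : ℝ) * r
  | Sum.inr _, _ => 0

lemma cell_nat (hr : 0 < r) (f : Fin m → Fin (nb r)) :
    cell r (fun i => ((f i : ℕ) : ℝ) * r) = fun i => ((f i : ℕ) : ℤ) := by
  funext i
  unfold cell
  rw [mul_div_cancel_right₀ _ hr.ne']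
  exact Int.floor_natCast _

lemma nb_le (hr : 0 < r) (f : Fin (nb r)) : ((f : ℕ) : ℝ) * r ≤ 1 := by
  have h1 : (f : ℕ) ≤ ⌊1 / r⌋₊ := Nat.lt_succ_iff.mp f.2
  have h2 : ((f : ℕ) : ℝ) ≤ 1 / r := (Nat.cast_le.mpr h1).trans (Nat.floor_le (by positivity))
  rwa [le_div_iff₀ hr] at h2

lemma yA_mem (hr : 0 < r) (x : (Cod m (Rw m D) N L × (Fin m → Fin (nb r))) ⊕ (Fin m → ℤ)) (i : Fin m) :
    0 ≤ yA r x i ∧ yA r x i ≤ 1 := by
  rcases x with x | b
  · show 0 ≤ ((x.2 i : ℕ) : ℝ) * r ∧ ((x.2 i : ℕ) : ℝ) * r ≤ 1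
    exact ⟨by positivity, nb_le hr _⟩
  · exact ⟨le_rfl, zero_le_one⟩

lemma code_iff (hr : 0 < r) (x y : (Cod m (Rw m D) N L × (Fin m → Fin (nb r))) ⊕ (Fin m → ℤ)) :
    x = y ↔ (codA x, cell r (yA r x)) = (codA y, cell r (yA r y)) := by
  constructor
  · intro h
    rw [h]
  · intro h
    obtain ⟨h1, h2⟩ := Prod.mk.inj h
    rcases x with x | b <;> rcases y with y | b'
    · have h3 : x.1 = y.1 := Sum.inl.inj h1
      have h4 : cell r (fun i => ((x.2 i : ℕ) : ℝ) * r) = cell r (fun i => ((y.2 i : ℕ) : ℝ) * r) := h2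
      rw [cell_nat hr, cell_nat hr] at h4
      have h5 : x.2 = y.2 := by
        funext i
        have := congrFun h4 i
        exact Fin.ext (by exact_mod_cast this)
      rw [Prod.ext h3 h5]
    · cases h1
    · cases h1
    · have h3 : b = b' := Sum.inr.inj h1
      rw [h3]

lemma codA_inr (b : Fin m → ℤ) (a : Option (Cod m (Rw m D) N L × (Fin m → Fin (nb r)))) :
    (∃ b', codA (fA a b) = Sum.inr b') ↔ a = none := by
  rcases a with _ | x
  · exact ⟨fun _ => rfl, fun _ => ⟨b, rfl⟩⟩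
  · constructor
    · rintro ⟨b', hb⟩
      cases hb
    · intro h
      cases h

/-- the chart of a code -/
noncomputable def gA {A : Matrix (Mon m D) (Mon m D) ℝ} (d : ChD m D L C N A r K) :
    Cod m (Rw m D) N L ⊕ (Fin m → ℤ) → Fin m → (Fin m → ℂ) → ℂ
  | Sum.inl c => d.G c
  | Sum.inr b => fun j _ => (((b j : ℝ) * r : ℝ) : ℂ)

/-! ### forms -/

open Classical in
/-- a positive definite form -/
noncomputable def fixA (A : Matrix (Mon m D) (Mon m D) ℝ) : Matrix (Mon m D) (Mon m D) ℝ := if PdM A then A else 1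

lemma fixA_pd (A : Matrix (Mon m D) (Mon m D) ℝ) : PdM (fixA A) := by
  unfold fixA
  split_ifs with h
  · exact h
  · exact PdM.one

lemma fixA_eq {A : Matrix (Mon m D) (Mon m D) ℝ} (h : PdM A) : fixA A = A := by
  unfold fixA
  rw [if_pos h]

/-- Lipschitz bound -/
lemma lip_ball {R B : ℝ} (hR : 3 ≤ R) {G : (Fin m → ℂ) → ℂ} (hd : DifferentiableOn ℂ G (ball 0 R))
    (hb : ∀ y ∈ ball (0 : Fin m → ℂ) R, ‖G y‖ ≤ B) {a b : Fin m → ℂ} (hbn : ‖b‖ ≤ 1) (hab : ‖a - b‖ < 2) :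
    ‖G a - G b‖ ≤ B * ‖a - b‖ := by
  have hsub : ball b 2 ⊆ ball (0 : Fin m → ℂ) R := by
    intro y hy
    rw [mem_ball, dist_eq_norm] at hy
    rw [mem_ball_zero_iff]
    have : ‖y‖ ≤ ‖y - b‖ + ‖b‖ := by
      have := norm_add_le (y - b) b
      rwa [sub_add_cancel] at this
    linarith
  have h1 : Set.MapsTo G (ball b 2) (closedBall (G b) (2 * B)) := by
    intro y hy
    rw [mem_closedBall, dist_eq_norm]
    have h2 := hb y (hsub hy)
    have h3 := hb b (hsub (mem_ball_self (by norm_num)))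
    have := norm_sub_le (G y) (G b)
    linarith
  have h4 := Complex.dist_le_div_mul_dist_of_mapsTo_ball (hd.mono hsub) h1
    (z := a) (by rw [mem_ball, dist_eq_norm]; exact hab)
  rw [dist_eq_norm, dist_eq_norm] at h4
  have h5 : 2 * B / 2 = B := by ring
  rwa [h5] at h4

/-- a cell is near its corner -/
lemma corner_near (hr : 0 < r) (t : ℝ) : |t - ((⌊t / r⌋ : ℝ)) * r| ≤ r := by
  have h2 := Int.floor_le (t / r)
  have h3 := Int.lt_floor_add_one (t / r)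
  rw [le_div_iff₀ hr] at h2
  rw [div_lt_iff₀ hr] at h3
  rw [abs_le]
  constructor <;> nlinarith

/-- bound for the charts -/
lemma gA_bound {A : Matrix (Mon m D) (Mon m D) ℝ} (d : ChD m D L C N A r K) (hr : 0 < r) (hr1 : r ≤ 1) (hK : 1 ≤ K)
    {C' : ℝ} (hC : C ≤ C') (hC2 : 2 ≤ C') {p : Fin m → ℝ} (hp : ∀ i, |p i| ≤ K)
    (a : Option (Cod m (Rw m D) N L × (Fin m → Fin (nb r)))) (j : Fin m) {y : Fin m → ℂ}
    (hy : y ∈ ball (0 : Fin m → ℂ) (√N / C)) : ‖gA d (codA (fA a (cell r p))) j y‖ ≤ C' * K := by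
  rcases a with _ | x
  · show ‖((((cell r p j : ℤ) : ℝ) * r : ℝ) : ℂ)‖ ≤ C' * K
    rw [Complex.norm_real, Real.norm_eq_abs]
    have h1 : |p j - ((cell r p j : ℤ) : ℝ) * r| ≤ r := corner_near hr (p j)
    have h5 := hp j
    have h6 : |((cell r p j : ℤ) : ℝ) * r| ≤ K + 1 := by
      have h7 := abs_sub_abs_le_abs_sub (((cell r p j : ℤ) : ℝ) * r) (p j)
      rw [abs_sub_comm] at h7
      linarith
    nlinarith
  · show ‖d.G x.1 j y‖ ≤ C' * K
    refine (d.bG x.1 j y hy).trans ?_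
    exact mul_le_mul_of_nonneg_right hC (by linarith)

/-- the point is near the graph -/
lemma gA_pt {A : Matrix (Mon m D) (Mon m D) ℝ} (d : ChD m D L C N A r K) (hr : 0 < r) (hr1 : r ≤ 1) (hK : 1 ≤ K)
    (hC : 1 ≤ C) {C' : ℝ} (hC' : 3 * C ≤ C') (hrad : 3 ≤ √(N : ℝ) / C) (p : Fin m → ℝ)
    (a : Option (Cod m (Rw m D) N L × (Fin m → Fin (nb r)))) (ha : kap d (cell r p) a ≠ 0) (j : Fin m) :
    ‖((p j : ℝ) : ℂ) - gA d (codA (fA a (cell r p))) j (rc (yA r (fA a (cell r p))))‖ ≤ C' * K * r := by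
  rcases a with _ | x
  · show ‖((p j : ℝ) : ℂ) - ((((cell r p j : ℤ) : ℝ) * r : ℝ) : ℂ)‖ ≤ C' * K * r
    rw [← Complex.ofReal_sub, Complex.norm_real, Real.norm_eq_abs]
    refine (corner_near hr (p j)).trans ?_
    have : 1 ≤ C' * K := one_le_mul_of_one_le_of_one_le (by linarith) hK
    nlinarith
  · show ‖((p j : ℝ) : ℂ) - d.G x.1 j (rc fun i => ((x.2 i : ℕ) : ℝ) * r)‖ ≤ C' * K * r
    obtain ⟨y, hy1, hy2⟩ := exists_pt d hr x (cell r p) ha
    have h1 : |p j - y j| ≤ r := cs_near hr (b := cell r p) rfl hy1 j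
    have h2 := d.hG x.1 y hy2.1 j
    have h4 : ∀ i, |d.T x.1 y i - ((x.2 i : ℕ) : ℝ) * r| ≤ r := by
      intro i
      have h5 : cell r (d.T x.1 y) = fun i => ((x.2 i : ℕ) : ℤ) := hy2.2
      have h6 := congrFun h5 i
      have h7 : ⌊d.T x.1 y i / r⌋ = ((x.2 i : ℕ) : ℤ) := h6
      have h8 := corner_near hr (d.T x.1 y i)
      rw [h7] at h8
      exact_mod_cast h8
    have h5 : ‖rc (d.T x.1 y) - rc (fun i => ((x.2 i : ℕ) : ℝ) * r)‖ ≤ r := by
      rw [pi_norm_le_iff_of_nonneg hr.le]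
      intro i
      show ‖((d.T x.1 y i : ℝ) : ℂ) - ((((x.2 i : ℕ) : ℝ) * r : ℝ) : ℂ)‖ ≤ r
      rw [← Complex.ofReal_sub, Complex.norm_real]
      exact h4 i
    have h6 : ‖rc (fun i => ((x.2 i : ℕ) : ℝ) * r)‖ ≤ 1 := by
      refine rc_norm zero_le_one fun i => ?_
      rw [abs_of_nonneg (by positivity)]
      exact nb_le hr _
    have h7 := lip_ball hrad (d.dG x.1 j) (d.bG x.1 j) h6 (by linarith : ‖rc (d.T x.1 y) -
      rc (fun i => ((x.2 i : ℕ) : ℝ) * r)‖ < 2)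
    rw [h2] at h7
    have h8 : ((p j : ℝ) : ℂ) - d.G x.1 j (rc fun i => ((x.2 i : ℕ) : ℝ) * r) =
        (((p j : ℝ) : ℂ) - ((y j : ℝ) : ℂ)) + (((y j : ℝ) : ℂ) -
          d.G x.1 j (rc fun i => ((x.2 i : ℕ) : ℝ) * r)) := by ring
    rw [h8]
    refine (norm_add_le _ _).trans ?_
    have h9 : ‖((p j : ℝ) : ℂ) - ((y j : ℝ) : ℂ)‖ ≤ r := by
      rw [← Complex.ofReal_sub, Complex.norm_real]
      exact h1
    have hCK : 1 ≤ C * K := one_le_mul_of_one_le_of_one_le hC hK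
    have h10 : C * K * ‖rc (d.T x.1 y) - rc (fun i => ((x.2 i : ℕ) : ℝ) * r)‖ ≤ C * K * r :=
      mul_le_mul_of_nonneg_left h5 (by linarith)
    have h11 : 2 * (C * K) * r ≤ C' * K * r := by
      refine mul_le_mul_of_nonneg_right ?_ hr.le
      nlinarith
    nlinarith

end Pool.Agent.Helper76.RL
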