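import Pool.Agent.Helper76.RL.Gfc

/-! The kernel extension of a label which carries a form: gain, entropy of the code, count. -/

set_option autoImplicit false

namespace Pool.Agent.Helper76.RL

open Metric
open Pool.Agent.Helper69.RK Pool.Agent.Helper31.EC Pool.Agent.Helper40.EL
open Pool.Agent.Helper95.LF Pool.Agent.Helper3.LF Pool.Agent.Helper84.MT
open Pool.Agent.Helper31.EC.Sp (cell)

variable {m D L N : ℕ} {C r K : ℝ}

/-- number of values -/
lemma nv_le_of (F : FSp) {B : Type} (f : F.Ω → B) (X : Finset B) (hX : ∀ ω, F.μ ω ≠ 0 → f ω ∈ X) (ω : F.Ω) :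
    Sp.nv F (Setoid.ker f) ω ≤ X.card := by
  classical
  set φ : B → Quotient (Setoid.ker f) := fun b => if h : ∃ ω', f ω' = b then Quotient.mk (Setoid.ker f) h.choose
    else Quotient.mk (Setoid.ker f) ω with hφ
  have h1 : ∀ ω', Quotient.mk (Setoid.ker f) ω' = φ (f ω') := by
    intro ω'
    have h : ∃ ω'', f ω'' = f ω' := ⟨ω', rfl⟩
    rw [hφ]
    simp only
    rw [dif_pos h]
    exact Quotient.sound h.choose_spec.symm
  unfold Sp.nv nvf
  refine (img_card _ _ (X.image φ) fun w' hw' => ?_).trans Finset.card_image_le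
  simp only [Finset.mem_filter, Finset.mem_univ, true_and] at hw'
  rw [h1]
  exact Finset.mem_image_of_mem _ (hX w' hw'.1)

section core

variable (F : FSp) (V : Setoid F.Ω) (Q : F.Ω → Fin m → ℝ) (g : F.Ω → Matrix (Mon m D) (Mon m D) ℝ)
  (dat : ∀ A : Matrix (Mon m D) (Mon m D) ℝ, ChD m D L C N (fixA A) r K)

/-- the kernel of the label -/
noncomputable def kG (ω : F.Ω) : Option (Cod m (Rw m D) N L × (Fin m → Fin (nb r))) → ℝ :=
  kap (dat (g ω)) (cell r (Q ω))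

/-- the probability of the bad set -/
noncomputable def PG : ℝ := ∑ ω, F.μ ω * kG F Q g dat ω none

/-- the code with the fine cell -/
noncomputable def fG (N L : ℕ) (r : ℝ) (w : F.Ω × Option (Cod m (Rw m D) N L × (Fin m → Fin (nb r)))) :
    (Cod m (Rw m D) N L × (Fin m → Fin (nb r))) ⊕ (Fin m → ℤ) := fA w.2 (cell r (Q w.1))

lemma kG_nn (hr : 0 < r) (ω : F.Ω) (a) : 0 ≤ kG F Q g dat ω a := kap_nonneg _ hr _ a

lemma kG_sum (hr : 0 < r) (ω : F.Ω) : ∑ a, kG F Q g dat ω a = 1 := kap_sum _ hr _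

lemma PG_nn (hr : 0 < r) : 0 ≤ PG F Q g dat :=
  Finset.sum_nonneg fun ω _ => mul_nonneg (F.nn ω) (kG_nn F Q g dat hr ω none)

lemma PG_le (hr : 0 < r) : PG F Q g dat ≤ 1 := by
  have h : (kex F _ (kG F Q g dat) (kG_nn F Q g dat hr) (kG_sum F Q g dat hr)).pb
      (fun w : F.Ω × Option (Cod m (Rw m D) N L × (Fin m → Fin (nb r))) => w.2 = none) = PG F Q g dat :=
    kex_pb F _ (kG F Q g dat) (kG_nn F Q g dat hr) (kG_sum F Q g dat hr)
  rw [← h]
  exact FSp.pb_le_one _ _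

/-- THE GAIN -/
lemma core_gain (hr : 0 < r) (hC : 1 ≤ C) (hK : 1 ≤ K) (hN : 0 < N) (hg : ∀ ω, F.μ ω ≠ 0 → PdM (g ω)) {Λ : ℝ}
    (hΛ : ∀ ω, F.μ ω ≠ 0 → 1 / 2 * Real.logb 2 (GQ r (g ω) (Q ω)) ≤ Λ) :
    CH F.μ (fun ω => cell r (Q ω)) (vv F V g) +
      ∑ ω, F.μ ω * (1 / 2 * Real.logb 2 (GQ r (g ω) (Q ω))) + (1 - PG F Q g dat) * (m * Real.logb 2 N) -
      (Real.logb 2 (√(cG m D) * C) + m * Real.logb 2 K) - PG F Q g dat * Λ ≤
    CH (kμ F.μ (kG F Q g dat)) (fG F Q N L r) (fun w => vv F V g w.1) := by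
  have hcG := cG_one m D
  have hsG : 1 ≤ √(cG m D) := Real.one_le_sqrt.mpr hcG
  have hlK : 0 ≤ Real.logb 2 K := Real.logb_nonneg (by norm_num) hK
  have hc70 : 0 ≤ Real.logb 2 (√(cG m D) * C) := Real.logb_nonneg (by norm_num) (by nlinarith)
  have hμ1 : ∑ ω, F.μ ω = 1 := F.ms
  have hker := ker_ent F.μ F.nn (vv F V g) (fun ω => cell r (Q ω)) (fun c b a => kap (dat c.2) b a)
    (fun c b a => kap_nonneg _ hr b a) (fun c b => kap_sum _ hr b) fA (fun b a a' h => fA_inj b a a' h)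
    (fun c a b => Qk (dat c.2) a b) (fun c a b => Qk_nonneg _ hr a b) (fun c a S => Qk_sum _ hr a S)
    (fun ω a _ h => Qk_pos _ hr _ a h)
  have hker' : CH F.μ (fun ω => cell r (Q ω)) (vv F V g) + ∑ ω, F.μ ω * ∑ a, kG F Q g dat ω a *
      Real.logb 2 (Qk (dat (g ω)) (fA a (cell r (Q ω))) (cell r (Q ω)) / kG F Q g dat ω a) ≤
      CH (kμ F.μ (kG F Q g dat)) (fG F Q N L r) (fun w => vv F V g w.1) := hker
  have hsum : ∀ ω, F.μ ω * (1 / 2 * Real.logb 2 (GQ r (g ω) (Q ω))) + F.μ ω * (m * Real.logb 2 N) -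
      F.μ ω * kG F Q g dat ω none * (m * Real.logb 2 N) -
      F.μ ω * (Real.logb 2 (√(cG m D) * C) + m * Real.logb 2 K) - F.μ ω * kG F Q g dat ω none * Λ ≤
      F.μ ω * ∑ a, kG F Q g dat ω a *
      Real.logb 2 (Qk (dat (g ω)) (fA a (cell r (Q ω))) (cell r (Q ω)) / kG F Q g dat ω a) := by
    intro ω
    by_cases h0 : F.μ ω = 0
    · rw [h0]
      simp
    · have h1 := gain (dat (g ω)) (fixA_pd _) hr hC hK hN (cell r (Q ω)) (p := Q ω) rfl
      have e1 : GQ r (fixA (g ω)) (Q ω) = GQ r (g ω) (Q ω) := by rw [fixA_eq (hg ω h0)]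
      rw [e1] at h1
      have h2 := hΛ ω h0
      have h3 : 0 ≤ kG F Q g dat ω none := kG_nn F Q g dat hr ω none
      have h4 := mul_le_mul_of_nonneg_left h2 h3
      have h5 : 0 ≤ kG F Q g dat ω none * (Real.logb 2 (√(cG m D) * C) + m * Real.logb 2 K) :=
        mul_nonneg h3 (by positivity)
      have h6 : (1 - kG F Q g dat ω none) * (m * Real.logb 2 N + 1 / 2 * Real.logb 2 (GQ r (g ω) (Q ω)) -
          (Real.logb 2 (√(cG m D) * C) + m * Real.logb 2 K)) ≤ ∑ a, kG F Q g dat ω a *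
          Real.logb 2 (Qk (dat (g ω)) (fA a (cell r (Q ω))) (cell r (Q ω)) / kG F Q g dat ω a) := h1
      have h7 := mul_le_mul_of_nonneg_left h6 (F.nn ω)
      refine le_trans ?_ h7
      have h8 := mul_nonneg (F.nn ω) h5
      have h9 := mul_le_mul_of_nonneg_left h4 (F.nn ω)
      nlinarith
  have h2 := Finset.sum_le_sum fun ω (_ : ω ∈ Finset.univ) => hsum ω
  rw [Finset.sum_sub_distrib, Finset.sum_sub_distrib, Finset.sum_sub_distrib, Finset.sum_add_distrib,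
    ← Finset.sum_mul, ← Finset.sum_mul, ← Finset.sum_mul, ← Finset.sum_mul, hμ1] at h2
  have h3 : ∑ ω, F.μ ω * kG F Q g dat ω none = PG F Q g dat := rfl
  rw [h3] at h2
  linarith

/-- ENTROPY OF THE CODE -/
lemma core_cod (hr : 0 < r) (hr1 : r ≤ 1) (hK : 1 ≤ K) (hN : 0 < N) (hL : 1 ≤ L) (hnR : 1 ≤ nR m D)
    {n : ℝ} (hrn : Real.logb 2 r = -n) (hQ : ∀ ω, F.μ ω ≠ 0 → ∀ i, |Q ω i| ≤ K) :
    CH (kμ F.μ (kG F Q g dat)) (fun w => codA (fG F Q N L r w)) (fun w => vv F V g w.1) ≤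
      1 + (1 - PG F Q g dat) * (m * Real.logb 2 N) + m * Real.logb 2 (nR m D * (L * L)) +
      PG F Q g dat * (m * (2 + Real.logb 2 K + n)) := by
  have hnRr : (1 : ℝ) ≤ nR m D := by exact_mod_cast hnR
  have hLr : (1 : ℝ) ≤ L := by exact_mod_cast hL
  have hl2 : 0 ≤ (m : ℝ) * Real.logb 2 (nR m D * (L * L)) :=
    mul_nonneg (Nat.cast_nonneg _) (Real.logb_nonneg (by norm_num) (by
      have : (1 : ℝ) ≤ L * L := by nlinarith
      nlinarith))
  have hν1 : ∑ w, kμ F.μ (kG F Q g dat) w = 1 :=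
    (kex F _ (kG F Q g dat) (kG_nn F Q g dat hr) (kG_sum F Q g dat hr)).ms
  have h1 := ent_cod (kμ F.μ (kG F Q g dat)) (fun w => mul_nonneg (F.nn _) (kG_nn F Q g dat hr _ _)) hν1
    (fun w => vv F V g w.1) (fun w => codA (fG F Q N L r w)) (Bx m r K)
    (by
      rintro ⟨ω, a⟩ b hw hb
      have h1 := (codA_inr (cell r (Q ω)) a).mp ⟨b, hb⟩
      subst h1
      have h2 : b = cell r (Q ω) := (Sum.inr.inj hb).symm
      rw [h2]
      exact mem_Bx hr (hQ ω (left_ne_zero_of_mul hw)))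
  have hPe : ∑ w, kμ F.μ (kG F Q g dat) w * e1_ind (∃ b, codA (fG F Q N L r w) = Sum.inr b) = PG F Q g dat := by
    have h2 : ∀ w : F.Ω × Option (Cod m (Rw m D) N L × (Fin m → Fin (nb r))),
        e1_ind (∃ b, codA (fG F Q N L r w) = Sum.inr b) = e1_ind (w.2 = none) := by
      intro w
      have h3 : (∃ b, codA (fG F Q N L r w) = Sum.inr b) ↔ w.2 = none := codA_inr (cell r (Q w.1)) w.2
      rw [propext h3]
    rw [Finset.sum_congr rfl fun w _ => by rw [h2 w], sum_kμ]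
    refine Finset.sum_congr rfl fun ω _ => ?_
    congr 1
    rw [Fintype.sum_option]
    simp only
    rw [e1_ind_pos trivial, mul_one]
    have h3 : ∀ x : Cod m (Rw m D) N L × (Fin m → Fin (nb r)), kG F Q g dat ω (some x) * e1_ind ((some x) = none) = 0 := by
      intro x
      rw [e1_ind_neg (by simp), mul_zero]
    rw [Finset.sum_congr rfl fun x _ => h3 x, Finset.sum_const_zero, add_zero]
  rw [hPe, log_Cod hnR hN (by omega)] at h1
  have hBx := log_Bx (m := m) hr hr1 hK hrn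
  have hP0 := PG_nn F Q g dat hr
  have h3 := mul_le_mul_of_nonneg_left hBx hP0
  have h4 : 0 ≤ PG F Q g dat * ((m : ℝ) * Real.logb 2 (nR m D * (L * L))) := mul_nonneg hP0 hl2
  nlinarith

open Classical in
/-- THE COUNT -/
lemma core_count (hr : 0 < r) (hr1 : r ≤ 1) (hC : 1 ≤ C) (hK : 1 ≤ K) (hN : 0 < N)
    {n : ℝ} (hrn : Real.logb 2 r = -n) (hQ : ∀ ω, F.μ ω ≠ 0 → ∀ i, |Q ω i| ≤ K)
    (hg : ∀ ω, F.μ ω ≠ 0 → PdM (g ω)) {Λ : ℝ}
    (hΛ : ∀ ω, F.μ ω ≠ 0 → 1 / 2 * Real.logb 2 (GQ r (g ω) (Q ω)) ≤ Λ) :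
    CH F.μ (fun ω => cell r (Q ω)) (vv F V g) +
      ∑ ω, F.μ ω * (1 / 2 * Real.logb 2 (GQ r (g ω) (Q ω))) + PG F Q g dat * (1 / 4 * Real.logb 2 N) ≤
    m * n + (Real.logb 2 (4 * C * √(cG m D)) + m * Real.logb 2 K) +
      F.pb (fun ω => ¬ phi r (g ω) (Q ω) ≤ K) * (1 + 2 * m + Λ + 1 / 4 * Real.logb 2 N) := by
  have h1 := count F.μ F.nn F.ms Q (vv F V g) (fun c => fixA c.2) (fun c => fixA_pd _) (fun c => dat c.2) hr hr1 hC hK
    hN hQ hrn (Λ := Λ) (fun ω h0 => by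
      show 1 / 2 * Real.logb 2 (GQ r (fixA (g ω)) (Q ω)) ≤ Λ
      rw [fixA_eq (hg ω h0)]
      exact hΛ ω h0)
  have h2 : ∑ ω, F.μ ω * (1 / 2 * Real.logb 2 (GQ r (fixA (vv F V g ω).2) (Q ω))) =
      ∑ ω, F.μ ω * (1 / 2 * Real.logb 2 (GQ r (g ω) (Q ω))) := by
    refine Finset.sum_congr rfl fun ω _ => ?_
    by_cases h0 : F.μ ω = 0
    · rw [h0, zero_mul, zero_mul]
    · show F.μ ω * (1 / 2 * Real.logb 2 (GQ r (fixA (g ω)) (Q ω))) = _
      rw [fixA_eq (hg ω h0)]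
  have h3 : Pool.Agent.Helper69.RK.mass (res F.μ fun ω => ¬ phi r (fixA (vv F V g ω).2) (Q ω) ≤ K) =
      F.pb (fun ω => ¬ phi r (g ω) (Q ω) ≤ K) := by
    refine Finset.sum_congr rfl fun ω _ => ?_
    by_cases h0 : F.μ ω = 0
    · unfold res
      rw [h0]
      split_ifs <;> rfl
    · have h4 : fixA (vv F V g ω).2 = g ω := fixA_eq (hg ω h0)
      have h5 : phi r (fixA (vv F V g ω).2) (Q ω) ≤ K ↔ phi r (g ω) (Q ω) ≤ K := by rw [h4]
      by_cases ht : phi r (g ω) (Q ω) ≤ K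
      · rw [res_neg F.μ _ ω (not_not.mpr (h5.mpr ht))]
        exact (res_neg F.μ (fun ω => ¬ phi r (g ω) (Q ω) ≤ K) ω (not_not.mpr ht)).symm
      · rw [res_pos F.μ _ ω (fun h => ht (h5.mp h))]
        exact (res_pos F.μ (fun ω => ¬ phi r (g ω) (Q ω) ≤ K) ω ht).symm
  rw [h2, h3] at h1
  exact h1

/-- chain rule for the code -/
lemma core_chain (hr : 0 < r) :
    CH (kμ F.μ (kG F Q g dat)) (fG F Q N L r) (fun w => vv F V g w.1) =
      CH (kμ F.μ (kG F Q g dat)) (fun w => codA (fG F Q N L r w)) (fun w => vv F V g w.1) +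
      CH (kμ F.μ (kG F Q g dat)) (fun w => cell r (yA r (fG F Q N L r w)))
        (fun w => (codA (fG F Q N L r w), vv F V g w.1)) := by
  have c1 := e1_chain (kμ F.μ (kG F Q g dat)) (fun w => codA (fG F Q N L r w))
    (fun w => cell r (yA r (fG F Q N L r w))) (fun w => vv F V g w.1)
  rw [← c1]
  apply e2_CH_congr
  · intro w w' _ _
    exact Iff.rfl
  · intro w w' _ _
    have h1 := code_iff hr (fG F Q N L r w') (fG F Q N L r w)
    constructor
    · intro h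
      obtain ⟨h2, h3⟩ := Prod.mk.inj h
      exact Prod.ext (h1.mp h2) h3
    · intro h
      obtain ⟨h2, h3⟩ := Prod.mk.inj h
      exact Prod.ext (h1.mpr h2) h3

/-- number of codes -/
lemma core_nv (hr : 0 < r) (hr1 : r ≤ 1) (hK : 1 ≤ K) (hQ : ∀ ω, F.μ ω ≠ 0 → ∀ i, |Q ω i| ≤ K)
    (w : F.Ω × Option (Cod m (Rw m D) N L × (Fin m → Fin (nb r)))) :
    (Sp.nv (kex F _ (kG F Q g dat) (kG_nn F Q g dat hr) (kG_sum F Q g dat hr))
      (Setoid.ker (fun w => codA (fG F Q N L r w))) w : ℝ) ≤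
      ((nR m D : ℝ) * (L * L)) ^ m * N ^ m + (4 * K / r) ^ m := by
  classical
  have h1 : Sp.nv (kex F _ (kG F Q g dat) (kG_nn F Q g dat hr) (kG_sum F Q g dat hr))
      (Setoid.ker (fun w => codA (fG F Q N L r w))) w ≤
      Fintype.card (Cod m (Rw m D) N L) + (Bx m r K).card := by
    refine (nv_le_of (kex F _ (kG F Q g dat) (kG_nn F Q g dat hr) (kG_sum F Q g dat hr))
      (fun w => codA (fG F Q N L r w)) (((Finset.univ : Finset (Cod m (Rw m D) N L)).map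
      ⟨Sum.inl, Sum.inl_injective⟩) ∪ ((Bx m r K).map ⟨Sum.inr, Sum.inr_injective⟩)) ?_ w).trans ?_
    · rintro ⟨ω, a⟩ hw
      rw [Finset.mem_union]
      rcases a with _ | x
      · right
        exact Finset.mem_map_of_mem _ (mem_Bx hr (hQ ω (left_ne_zero_of_mul hw)))
      · left
        exact Finset.mem_map_of_mem _ (Finset.mem_univ x.1)
    · refine (Finset.card_union_le _ _).trans ?_
      rw [Finset.card_map, Finset.card_map, Finset.card_univ]
  have h2 : (Fintype.card (Cod m (Rw m D) N L) : ℝ) = ((nR m D : ℝ) * (L * L)) ^ m * N ^ m := by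
    rw [card_Cod]
    push_cast
    ring
  have h3 := card_Bx (m := m) hr hr1 hK
  refine (Nat.cast_le.mpr h1).trans ?_
  push_cast
  rw [h2]
  linarith

end core

end Pool.Agent.Helper76.RL
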