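import Pool.Agent.Helper76.RL.Geo
import Pool.Agent.Helper40.EL.D2

/-! LOCAL GRAPH OF A LABEL for spaces: over a partition which knows a form in which the point is full, the point is on
graphs of holomorphic algebraic functions of full parameters. -/

set_option autoImplicit false

namespace Pool.Agent.Helper76.RL

open Metric Filter Topology
open Pool.Agent.Helper69.RK Pool.Agent.Helper31.EC Pool.Agent.Helper40.EL
open Pool.Agent.Helper95.LF Pool.Agent.Helper3.LF Pool.Agent.Helper84.MT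
open Pool.Agent.Helper31.EC.Sp (cell)

variable {m D : ℕ}

/-- INPUT: the partition `V` knows a form `g` which is small at the point, and the point is full in it -/
structure FIn {W : Sp} (V : ∀ k, Setoid (W.F k).Ω) (Q : W.VV m)
    (g : ∀ k, (W.F k).Ω → Matrix (Mon m D) (Mon m D) ℝ) : Prop where
  pd : ∀ᶠ k in UF, ∀ ω, (W.F k).μ ω ≠ 0 → PdM (g k ω)
  ms : ∀ᶠ k in UF, ∀ ω ω', (W.F k).μ ω ≠ 0 → (W.F k).μ ω' ≠ 0 → (W.F k).Z ω ω' → V k ω ω' → g k ω = g k ω'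
  sm : ∀ η : ℝ, 0 < η → Tendsto (fun k => (W.F k).pb fun ω =>
    ¬ phi (2 ^ (-(W.F k).n)) (g k ω) (Q.v k ω) ≤ 2 ^ (η * (W.F k).n)) UF (𝓝 0)
  cap : ∃ Λ : ℝ, ∀ᶠ k in UF, ∀ ω, (W.F k).μ ω ≠ 0 →
    1 / 2 * Real.logb 2 (GQ (2 ^ (-(W.F k).n)) (g k ω) (Q.v k ω)) ≤ Λ * (W.F k).n
  full : ∀ η : ℝ, 0 < η → ∀ᶠ k in UF, m * (W.F k).n ≤
    (W.F k).e (Setoid.ker fun ω => cell (2 ^ (-(W.F k).n)) (Q.v k ω)) (V k ⊓ (W.F k).Z) +
      ∑ ω, (W.F k).μ ω * (1 / 2 * Real.logb 2 (GQ (2 ^ (-(W.F k).n)) (g k ω) (Q.v k ω))) + η * (W.F k).n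

/-- quality `η` with cells of size `2 ^ (-a n)` -/
structure GQl (F : FSp) (V : Setoid F.Ω) (Q : F.Ω → Fin m → ℝ) (L : ℕ) (C a η : ℝ) (d : GD F m) (K : ℝ) (N : ℕ) :
    Prop where
  K1 : 1 ≤ K
  Kη : K ≤ 2 ^ (η * F.n)
  N1 : 2 ^ (a * F.n) ≤ (N : ℝ)
  N2 : (N : ℝ) ≤ 2 ^ (a * F.n + 1)
  rad : 1 / η ≤ √N / C
  geo : IsGeo F V Q L C K (2 ^ (-F.n)) N d
  bad : d.l.T.pb d.bad ≤ η
  La : d.l.T.e d.l.V (Setoid.comap d.l.p.π V ⊓ d.l.T.Z) ≤ (m * a + η) * F.n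
  ful : (m - η) * F.n ≤ d.l.T.e (Setoid.ker fun w => cell (2 ^ (-F.n)) (d.Y w)) (d.l.V ⊓ d.l.T.Z)

lemma GQl.mono {F : FSp} {V : Setoid F.Ω} {Q : F.Ω → Fin m → ℝ} {L : ℕ} {C a η η' : ℝ} {d : GD F m} {K : ℝ} {N : ℕ}
    (hη : 0 < η) (h : η ≤ η') (x : GQl F V Q L C a η d K N) : GQl F V Q L C a η' d K N := by
  have hn := F.pos
  refine ⟨x.K1, x.Kη.trans ?_, x.N1, x.N2, le_trans ?_ x.rad, x.geo, x.bad.trans h, x.La.trans ?_, le_trans ?_ x.ful⟩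
  · exact Real.rpow_le_rpow_of_exponent_le (by norm_num) (mul_le_mul_of_nonneg_right h hn.le)
  · exact one_div_le_one_div_of_le hη h
  · exact mul_le_mul_of_nonneg_right (by linarith) hn.le
  · exact mul_le_mul_of_nonneg_right (by linarith) hn.le

/-- numbers: the bad set is small -/
lemma num_bad {P a n η' B η₂ C pb m lK lN X : ℝ} (ha : 0 < a) (hn : 1 ≤ n) (hP0 : 0 ≤ P)
    (hη' : η' * (16 * (m + 1)) = a * η₂) (hC : C ≤ a * η₂ / 16 * n) (hpb : pb * B ≤ a * η₂ / 8)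
    (hlK : lK = η' * n) (hlN : a * n ≤ lN) (h1 : X + P * (1 / 4 * lN) ≤ m * n + (C + m * lK) + pb * (B * n))
    (h2 : m * n ≤ X + η' * n) : P ≤ η₂ := by
  have h3 : P * (1 / 4 * (a * n)) ≤ P * (1 / 4 * lN) := mul_le_mul_of_nonneg_left (by linarith) hP0
  have h4 : pb * (B * n) ≤ a * η₂ / 8 * n := by
    have := mul_le_mul_of_nonneg_right hpb (by linarith : (0 : ℝ) ≤ n)
    linarith
  have h5 : η' * (m + 1) = a * η₂ / 16 := by linarith
  have h6 : η' * n * (m + 1) = a * η₂ / 16 * n := by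
    rw [← h5]
    ring
  have h7 : P * (1 / 4 * (a * n)) ≤ a * η₂ / 4 * n := by
    rw [hlK] at h1
    nlinarith
  have h8 : P * (a * n) ≤ η₂ * (a * n) := by nlinarith
  exact le_of_mul_le_mul_right h8 (by positivity)

lemma num_Pm {P m η' n η₂ η : ℝ} (hm : 0 ≤ m) (hn : 0 < n) (hη' : 0 < η') (h2n : 2 + η' * n + n ≤ 4 * n) (hP : P ≤ η₂)
    (hη₂ : 0 < η₂) (h : η₂ * (4 * m) ≤ η / 4) : P * (m * (2 + η' * n + n)) ≤ η / 4 * n := by
  have a1 : m * (2 + η' * n + n) ≤ m * (4 * n) := mul_le_mul_of_nonneg_left h2n hm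
  have a2 : P * (m * (2 + η' * n + n)) ≤ η₂ * (m * (4 * n)) := mul_le_mul hP a1 (by positivity) hη₂.le
  have a3 := mul_le_mul_of_nonneg_right h hn.le
  linarith

lemma num_PL {P m η' n η₂ η Λ B : ℝ} (hm : 0 ≤ m) (hn : 0 < n) (hη' : 0 < η') (h2n : 2 + η' * n + n ≤ 4 * n) (hP : P ≤ η₂)
    (hη₂ : 0 < η₂) (hΛ : 0 ≤ Λ) (hB : B = Λ + 4 * m + 4) (h : η₂ * B = η / 4) :
    P * (Λ * n + m * (2 + η' * n + n)) ≤ η / 4 * n := by
  have a1 : m * (2 + η' * n + n) ≤ m * (4 * n) := mul_le_mul_of_nonneg_left h2n hm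
  have a2 : Λ * n + m * (2 + η' * n + n) ≤ B * n := by
    rw [hB]
    linarith
  have a3 : P * (Λ * n + m * (2 + η' * n + n)) ≤ η₂ * (B * n) := mul_le_mul hP a2 (by positivity) hη₂.le
  rw [← mul_assoc, h] at a3
  exact a3

lemma num_B1 {m Λ n a lN B : ℝ} (hm : 0 ≤ m) (hn : 1 ≤ n) (ha1 : a ≤ 1) (hlN : lN ≤ a * n + 1)
    (hB : B = Λ + 4 * m + 4) : 1 + 2 * m + Λ * n + 1 / 4 * lN ≤ B * n := by
  have h1 : (1 + 2 * m) * 1 ≤ (1 + 2 * m) * n := mul_le_mul_of_nonneg_left hn (by linarith)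
  have h2 : a * n ≤ 1 * n := mul_le_mul_of_nonneg_right ha1 (by linarith)
  have h3 : 0 ≤ m * n := mul_nonneg hm (by linarith)
  rw [hB]
  linarith

/-- existence with a given quality -/
theorem exists_GQl (m D : ℕ) (hD : 1 ≤ D) : ∃ (L : ℕ) (C : ℝ), 1 ≤ L ∧ 1 ≤ C ∧
    ∀ {W : Sp} {V : ∀ k, Setoid (W.F k).Ω} {Q : W.VV m} {g : ∀ k, (W.F k).Ω → Matrix (Mon m D) (Mon m D) ℝ},
    FIn V Q g → ∀ a : ℝ, 0 < a → a ≤ 1 → ∀ η : ℝ, 0 < η → η ≤ 1 →
    ∀ᶠ k in UF, ∃ (d : GD (W.F k) m) (K : ℝ) (N : ℕ), GQl (W.F k) (V k) (Q.v k) L C a η d K N := by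
  obtain ⟨L, C, hL, hC, hgeo⟩ := exists_geoF m D hD
  refine ⟨L, C, hL, hC, ?_⟩
  intro W V Q g x a ha ha1 η hη hη1
  obtain ⟨Λ₀, hΛ₀⟩ := x.cap
  set Λ : ℝ := max Λ₀ 0 with hΛd
  have hΛ0 : 0 ≤ Λ := le_max_right _ _
  have hm0 : (0 : ℝ) ≤ m := Nat.cast_nonneg _
  set B : ℝ := Λ + 4 * m + 4 with hB
  have hB4 : 4 ≤ B := by linarith
  set η₂ : ℝ := η / (4 * B) with hη₂
  have hη₂0 : 0 < η₂ := by positivity
  have hη₂B : η₂ * B = η / 4 := by rw [hη₂]; field_simp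
  set η' : ℝ := a * η₂ / (16 * (m + 1)) with hη'
  have hη'0 : 0 < η' := by positivity
  have hη'e : η' * (16 * (m + 1)) = a * η₂ := by rw [hη']; field_simp
  have hη₂η : η₂ ≤ η / 16 := by
    rw [hη₂]
    apply div_le_div_of_nonneg_left hη.le (by norm_num) (by linarith)
  have hη'm : η' * (m + 1) ≤ η / 256 := by nlinarith
  have hη'η : η' ≤ η / 256 := by nlinarith [mul_nonneg hη'0.le hm0]
  obtain ⟨K₀, hK₀, hQ⟩ := Q.bd
  have hlim := W.lim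
  have e1 : ∀ᶠ k in UF, (1 : ℝ) ≤ (W.F k).n := hlim.eventually (eventually_ge_atTop 1)
  have e2 : ∀ᶠ k in UF, C ≤ a * η₂ / 16 * (W.F k).n := by
    filter_upwards [hlim.eventually (eventually_ge_atTop (C / (a * η₂ / 16)))] with k hk
    rw [div_le_iff₀ (by positivity)] at hk
    linarith
  have e3 : ∀ᶠ k in UF, ((W.F k).pb fun ω => ¬ phi (2 ^ (-(W.F k).n)) (g k ω) (Q.v k ω) ≤ 2 ^ (η' * (W.F k).n)) * B ≤
      a * η₂ / 8 := by
    have h1 := (x.sm η' hη'0).mul_const B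
    rw [zero_mul] at h1
    filter_upwards [h1.eventually (gt_mem_nhds (by positivity : 0 < a * η₂ / 8))] with k hk
    exact hk.le
  have e4 : ∀ᶠ k in UF, C ^ 2 ≤ (2 : ℝ) ^ (a * (W.F k).n) := by
    filter_upwards [hlim.eventually (eventually_ge_atTop (Real.logb 2 (C ^ 2) / a))] with k hk
    rw [div_le_iff₀ ha] at hk
    have h1 : Real.logb 2 (C ^ 2) ≤ a * (W.F k).n := by linarith
    have h2 := Real.rpow_le_rpow_of_exponent_le (by norm_num : (1 : ℝ) ≤ 2) h1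
    rwa [Real.rpow_logb (by norm_num) (by norm_num) (by positivity)] at h2
  have e5 : ∀ᶠ k in UF, (C / η) ^ 2 ≤ (2 : ℝ) ^ (a * (W.F k).n) := by
    filter_upwards [hlim.eventually (eventually_ge_atTop (Real.logb 2 ((C / η) ^ 2) / a))] with k hk
    rw [div_le_iff₀ ha] at hk
    have h1 : Real.logb 2 ((C / η) ^ 2) ≤ a * (W.F k).n := by linarith
    have h2 := Real.rpow_le_rpow_of_exponent_le (by norm_num : (1 : ℝ) ≤ 2) h1
    rwa [Real.rpow_logb (by norm_num) (by norm_num) (by positivity)] at h2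
  have e6 : ∀ᶠ k in UF, (m : ℝ) + C ≤ η / 4 * (W.F k).n := by
    filter_upwards [hlim.eventually (eventually_ge_atTop ((m + C) / (η / 4)))] with k hk
    rw [div_le_iff₀ (by positivity)] at hk
    linarith
  filter_upwards [e1, e2, e3, e4, e5, e6, hK₀.eventually_le hη'0, hQ, x.pd, x.ms, hΛ₀, x.full η' hη'0] with k
    h1 h2 h3 h4 h5 h6 h7 h8 h9 h10 h11 h12
  set n := (W.F k).n with hn
  have hn0 : 0 < n := (W.F k).pos
  set K : ℝ := 2 ^ (η' * n) with hK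
  have hK1 : 1 ≤ K := Real.one_le_rpow (by norm_num) (by positivity)
  have hKl : Real.logb 2 K = η' * n := Real.logb_rpow (by norm_num) (by norm_num)
  set N : ℕ := ⌈(2 : ℝ) ^ (a * n)⌉₊ with hN
  have hN1 : (2 : ℝ) ^ (a * n) ≤ N := Nat.le_ceil _
  have h21 : (1 : ℝ) ≤ 2 ^ (a * n) := Real.one_le_rpow (by norm_num) (by positivity)
  have hN2 : (N : ℝ) ≤ 2 ^ (a * n + 1) := by
    have h13 := (Nat.ceil_lt_add_one (by positivity : (0 : ℝ) ≤ 2 ^ (a * n))).le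
    rw [Real.rpow_add (by norm_num), Real.rpow_one]
    linarith
  have hN0 : (0 : ℝ) < N := lt_of_lt_of_le (by positivity) hN1
  have hNl1 : a * n ≤ Real.logb 2 N := by
    have := Real.logb_le_logb_of_le (b := 2) (by norm_num) (by positivity) hN1
    rwa [Real.logb_rpow (by norm_num) (by norm_num)] at this
  have hNl2 : Real.logb 2 N ≤ a * n + 1 := by
    have := Real.logb_le_logb_of_le (b := 2) (by norm_num) hN0 hN2
    rwa [Real.logb_rpow (by norm_num) (by norm_num)] at this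
  obtain ⟨d, g1, g2, g3, g4⟩ := hgeo (W.F k) (V k) (Q.v k) (g k) K (Λ * n) N hK1
    (fun ω hω i => (h8 ω hω i).trans (by linarith)) h9 h10
    (fun ω hω => (h11 ω hω).trans (mul_le_mul_of_nonneg_right (le_max_left _ _) hn0.le)) (h4.trans hN1)
  rw [hKl] at g2 g3 g4
  have hP0 : 0 ≤ d.l.T.pb d.bad := FSp.pb_nonneg _ _
  have hpb0 : 0 ≤ (W.F k).pb fun ω => ¬ phi (2 ^ (-(W.F k).n)) (g k ω) (Q.v k ω) ≤ 2 ^ (η' * (W.F k).n) :=
    FSp.pb_nonneg _ _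
  have hB1 : 1 + 2 * m + Λ * n + 1 / 4 * Real.logb 2 N ≤ B * n := num_B1 hm0 h1 ha1 hNl2 hB
  have hbad : d.l.T.pb d.bad ≤ η₂ := by
    refine num_bad (X := (W.F k).e (Setoid.ker fun ω => cell (2 ^ (-n)) (Q.v k ω)) (V k ⊓ (W.F k).Z) +
      ∑ ω, (W.F k).μ ω * (1 / 2 * Real.logb 2 (GQ (2 ^ (-n)) (g k ω) (Q.v k ω)))) ha h1 hP0 hη'e
      h2 h3 hKl hNl1 ?_ ?_
    · rw [hKl]
      refine g3.trans ?_
      have := mul_le_mul_of_nonneg_left hB1 hpb0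
      linarith
    · exact h12
  have hη₂m : η₂ * (4 * m) ≤ η / 4 := by
    rw [← hη₂B]
    exact mul_le_mul_of_nonneg_left (by linarith) hη₂0.le
  have hη'n : η' * n ≤ n := by
    have := mul_le_mul_of_nonneg_right (by linarith : η' ≤ 1) hn0.le
    linarith
  have h2n : (2 : ℝ) + η' * n + n ≤ 4 * n := by linarith
  have hPm : d.l.T.pb d.bad * (m * (2 + η' * n + n)) ≤ η / 4 * n := num_Pm hm0 hn0 hη'0 h2n hbad hη₂0 hη₂m
  have hPL : d.l.T.pb d.bad * (Λ * n + m * (2 + η' * n + n)) ≤ η / 4 * n :=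
    num_PL hm0 hn0 hη'0 h2n hbad hη₂0 hΛ0 hB hη₂B
  refine ⟨d, K, N, ⟨hK1, ?_, hN1, hN2, ?_, g1, ?_, ?_, ?_⟩⟩
  · exact Real.rpow_le_rpow_of_exponent_le (by norm_num) (mul_le_mul_of_nonneg_right (by linarith) hn0.le)
  · rw [le_div_iff₀ (by linarith), one_div_mul_eq_div, Real.le_sqrt (by positivity) hN0.le]
    exact h5.trans hN1
  · linarith
  · refine g2.trans ?_
    have a1 : (m : ℝ) * Real.logb 2 N ≤ m * (a * n) + m := by
      have := mul_le_mul_of_nonneg_left hNl2 hm0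
      linarith
    have a2 : 0 < η * n := by positivity
    linarith
  · refine le_trans ?_ g4
    have a4 : η' * n * (m + 1) ≤ η / 256 * n := by
      have := mul_le_mul_of_nonneg_right hη'm hn0.le
      linarith
    have a5 : C ≤ η / 4 * n := by linarith
    have a6 : 0 < η * n := by positivity
    linarith

end Pool.Agent.Helper76.RL
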