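import Pool.Agent.Helper76.RL.Gsp
import Pool.Agent.Helper31.EC.Quo

/-! LOCAL GRAPH OF A LABEL for spaces: the sequence of extensions, its entropies. -/

set_option autoImplicit false

namespace Pool.Agent.Helper76.RL

open Metric Filter Topology
open Pool.Agent.Helper69.RK Pool.Agent.Helper31.EC Pool.Agent.Helper40.EL
open Pool.Agent.Helper95.LF Pool.Agent.Helper3.LF Pool.Agent.Helper84.MT
open Pool.Agent.Helper31.EC.Sp (cell cl io)

variable {m D : ℕ}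

/-- choice along the ultrafilter -/
lemma skol {X : ℕ → Type*} [∀ k, Nonempty (X k)] {P : ∀ k, X k → Prop} (h : ∀ᶠ k in UF, ∃ x, P k x) :
    ∃ x : ∀ k, X k, ∀ᶠ k in UF, P k (x k) := by
  classical
  refine ⟨fun k => if h : ∃ x, P k x then h.choose else Classical.arbitrary _, ?_⟩
  filter_upwards [h] with k hk
  rw [dif_pos hk]
  exact hk.choose_spec

/-- the trivial data -/
noncomputable def GD.triv (F : FSp) (m : ℕ) : GD F m := ⟨FLab.triv F, fun _ _ => 0, fun _ _ _ => 0, fun _ => False⟩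

/-- the sequence -/
structure GSeq {W : Sp} (V : ∀ k, Setoid (W.F k).Ω) (Q : W.VV m) (L : ℕ) (C : ℝ) (a : ℕ → ℝ)
    (d : ∀ k, GD (W.F k) m) (K : ℕ → ℝ) (N : ℕ → ℕ) : Prop where
  q : ∀ η : ℝ, 0 < η → ∀ᶠ k in UF, GQl (W.F k) (V k) (Q.v k) L C (a k) η (d k) (K k) (N k)

/-- sequences of extensions exist -/
theorem exists_seq (m D : ℕ) (hD : 1 ≤ D) : ∃ (L : ℕ) (C : ℝ), 1 ≤ L ∧ 1 ≤ C ∧
    ∀ {W : Sp} {V : ∀ k, Setoid (W.F k).Ω} {Q : W.VV m} {g : ∀ k, (W.F k).Ω → Matrix (Mon m D) (Mon m D) ℝ},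
    FIn V Q g → ∀ a : ℕ → ℝ, (∀ i, 0 < a i ∧ a i ≤ 1) →
    ∃ (d : ∀ k, GD (W.F k) m) (K : ℕ → ℝ) (N j : ℕ → ℕ), Tendsto j UF atTop ∧
      GSeq V Q L C (fun k => a (j k)) d K N := by
  classical
  obtain ⟨L, C, hL, hC, h⟩ := exists_GQl m D hD
  refine ⟨L, C, hL, hC, ?_⟩
  intro W V Q g x a ha
  have h1 : ∀ i : ℕ, 0 < 1 / ((i : ℝ) + 1) ∧ 1 / ((i : ℝ) + 1) ≤ 1 := by
    intro i
    refine ⟨by positivity, ?_⟩
    rw [div_le_one (by positivity)]
    have : (0 : ℝ) ≤ i := Nat.cast_nonneg i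
    linarith
  obtain ⟨y, j, hj, -, hy⟩ := dia' (X := fun k => GD (W.F k) m × ℝ × ℕ)
    (fun i k => if h : ∃ z : GD (W.F k) m × ℝ × ℕ,
      GQl (W.F k) (V k) (Q.v k) L C (a i) (1 / ((i : ℝ) + 1)) z.1 z.2.1 z.2.2 then h.choose
      else (GD.triv (W.F k) m, 0, 0))
    (fun i k z => GQl (W.F k) (V k) (Q.v k) L C (a i) (1 / ((i : ℝ) + 1)) z.1 z.2.1 z.2.2) (by
      intro i
      filter_upwards [h x (a i) (ha i).1 (ha i).2 _ (h1 i).1 (h1 i).2] with k hk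
      obtain ⟨d, K, N, hk⟩ := hk
      have h2 : ∃ z : GD (W.F k) m × ℝ × ℕ,
        GQl (W.F k) (V k) (Q.v k) L C (a i) (1 / ((i : ℝ) + 1)) z.1 z.2.1 z.2.2 := ⟨(d, K, N), hk⟩
      rw [dif_pos h2]
      exact h2.choose_spec)
  refine ⟨fun k => (y k).1, fun k => (y k).2.1, fun k => (y k).2.2, j, hj, ⟨fun η hη => ?_⟩⟩
  have h0 : Tendsto (fun k => 1 / ((j k : ℝ) + 1)) UF (𝓝 0) :=
    tendsto_one_div_add_atTop_nhds_zero_nat.comp hj
  filter_upwards [hy, h0.eventually (gt_mem_nhds hη)] with k h2 h3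
  exact h2.mono (h1 _).1 h3.le

/-- subexponential sequences -/
lemma sub_of {W : Sp} {K : ℕ → ℝ} (h0 : ∀ᶠ k in UF, 0 ≤ K k)
    (h : ∀ η : ℝ, 0 < η → ∀ᶠ k in UF, K k ≤ 2 ^ (η * (W.F k).n)) : W.Sub K := by
  refine ⟨h0, ?_⟩
  rw [Metric.tendsto_nhds]
  intro ε hε
  have h2 : 0 < ε / 4 := by linarith
  filter_upwards [h0, h _ h2, W.lim.eventually (eventually_ge_atTop (8 / ε)), W.lim.eventually (eventually_ge_atTop 1)]
    with k a b c e
  have hn : 0 < (W.F k).n := (W.F k).pos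
  rw [div_le_iff₀ hε] at c
  rw [Real.dist_eq, sub_zero, abs_of_nonneg (div_nonneg (Real.logb_nonneg (by norm_num) (by linarith)) hn.le),
    div_lt_iff₀ hn]
  have h3 : (1 : ℝ) ≤ 2 ^ (ε / 4 * (W.F k).n) := Real.one_le_rpow (by norm_num) (by positivity)
  have h4 : K k + 2 ≤ 4 * 2 ^ (ε / 4 * (W.F k).n) := by linarith
  have h5 : (4 : ℝ) * 2 ^ (ε / 4 * (W.F k).n) = 2 ^ (2 + ε / 4 * (W.F k).n) := by
    rw [Real.rpow_add (by norm_num)]
    norm_num
  rw [h5] at h4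
  have h6 := Real.logb_le_logb_of_le (b := 2) (by norm_num) (by linarith) h4
  rw [Real.logb_rpow (by norm_num) (by norm_num)] at h6
  nlinarith

section seq

variable {W : Sp} {V : ∀ k, Setoid (W.F k).Ω} {Q : W.VV m} {L : ℕ} {C : ℝ} {a : ℕ → ℝ}
  {d : ∀ k, GD (W.F k) m} {K : ℕ → ℝ} {N : ℕ → ℕ}

/-- the label of the sequence -/
def gl (d : ∀ k, GD (W.F k) m) : Lab W := fun k => (d k).l

namespace GSeq

variable (x : GSeq V Q L C a d K N)

include x

lemma subK : W.Sub K :=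
  sub_of ((x.q 1 one_pos).mono fun _ h => zero_le_one.trans h.K1) fun η hη => (x.q η hη).mono fun _ h => h.Kη

lemma bdY : ∃ K : ℕ → ℝ, (gl d).sp.Sub K ∧ ∀ᶠ k in UF, ∀ ω, ((gl d).sp.F k).μ ω ≠ 0 → ∀ i, |(d k).Y ω i| ≤ K k := by
  refine ⟨fun _ => 1, (gl d).sp.Sub_const zero_le_one, ?_⟩
  filter_upwards [x.q 1 one_pos] with k hk ω _ i
  have := hk.geo.uY ω i
  rw [abs_le]
  constructor <;> linarith [this.1, this.2]

/-- the parameters -/
def Y : (gl d).sp.VV m := ⟨fun k ω => (d k).Y ω, x.bdY⟩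

/-- the number of values of the label -/
lemma vb (hV : W.VB V) (ha : ∀ k, a k ≤ 1) : (gl d).sp.VB (gl d).V := by
  obtain ⟨Co, hCo⟩ := skol (X := fun k => Setoid ((gl d).sp.F k).Ω) (P := fun k Co =>
      (gl d).V k = Setoid.comap ((gl d).pj.π k) (V k) ⊓ Co ∧
      ∀ w, ((gl d).sp.F k).μ w ≠ 0 → (Sp.nv ((gl d).sp.F k) Co w : ℝ) ≤
        C * N k ^ m + (4 * K k / 2 ^ (-(W.F k).n)) ^ m) ((x.q 1 one_pos).mono fun k hk => hk.geo.nv)
  have hC0 : ∀ᶠ k in UF, 0 < C := by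
    filter_upwards [x.q 1 one_pos] with k hk
    by_contra hc
    have h2 := hk.rad
    have h3 : √(N k : ℝ) / C ≤ 0 := div_nonpos_of_nonneg_of_nonpos (Real.sqrt_nonneg _) (not_lt.mp hc)
    norm_num at h2
    linarith
  have h2 : (gl d).sp.VB Co := by
    refine ⟨4 * m + 1, ?_⟩
    filter_upwards [hCo, x.q 1 one_pos, hC0, W.lim.eventually (eventually_ge_atTop (max 4 (Real.logb 2 (C + 1))))]
      with k h3 h4 h5 h6 w hw
    refine (h3.2 w hw).trans ?_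
    have hn4 : 4 ≤ (W.F k).n := (le_max_left _ _).trans h6
    have hnC : Real.logb 2 (C + 1) ≤ (W.F k).n := (le_max_right _ _).trans h6
    have hnn : ((gl d).sp.F k).n = (W.F k).n := (d k).l.hn
    rw [hnn]
    set n := (W.F k).n with hn
    have hC1 : C + 1 ≤ 2 ^ n := by
      have h7 := Real.rpow_le_rpow_of_exponent_le (by norm_num : (1 : ℝ) ≤ 2) hnC
      rwa [Real.rpow_logb (by norm_num) (by norm_num) (by linarith)] at h7
    have hN : (N k : ℝ) ≤ 2 ^ (2 * n) := by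
      refine h4.N2.trans (Real.rpow_le_rpow_of_exponent_le (by norm_num) ?_)
      have : a k * n ≤ 1 * n := mul_le_mul_of_nonneg_right (ha k) (by linarith)
      linarith
    have hK : K k ≤ 2 ^ n := by
      have := h4.Kη
      rwa [one_mul] at this
    have hK0 : 0 ≤ K k := zero_le_one.trans h4.K1
    have h8 : 4 * K k / 2 ^ (-n) ≤ 2 ^ (4 * n) := by
      have e1 : (2 : ℝ) ^ (4 * n) = 2 ^ n * 2 ^ n * 2 ^ n * 2 ^ n := by
        rw [← Real.rpow_add (by norm_num), ← Real.rpow_add (by norm_num), ← Real.rpow_add (by norm_num)]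
        congr 1; ring
      have e2 : (4 : ℝ) ≤ 2 ^ n := by
        have : (2 : ℝ) ^ (2 : ℝ) ≤ 2 ^ n := Real.rpow_le_rpow_of_exponent_le (by norm_num) (by linarith)
        norm_num at this
        exact this
      rw [Real.rpow_neg (by norm_num), div_inv_eq_mul, e1]
      have e3 : 4 * K k ≤ 2 ^ n * 2 ^ n := mul_le_mul e2 hK hK0 (by positivity)
      calc 4 * K k * 2 ^ n ≤ 2 ^ n * 2 ^ n * 2 ^ n := mul_le_mul_of_nonneg_right e3 (by positivity)
        _ ≤ 2 ^ n * 2 ^ n * 2 ^ n * 2 ^ n := le_mul_of_one_le_right (by positivity) (by linarith)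
    have h9 : (4 * K k / 2 ^ (-n)) ^ m ≤ 2 ^ (4 * m * n) := by
      refine (pow_le_pow_left₀ (by positivity) h8 m).trans (le_of_eq ?_)
      rw [← Real.rpow_natCast, ← Real.rpow_mul (by norm_num)]
      congr 1; ring
    have h10 : (N k : ℝ) ^ m ≤ 2 ^ (4 * m * n) := by
      refine (pow_le_pow_left₀ (Nat.cast_nonneg _) hN m).trans ?_
      rw [← Real.rpow_natCast, ← Real.rpow_mul (by norm_num)]
      apply Real.rpow_le_rpow_of_exponent_le (by norm_num)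
      have : 0 ≤ (m : ℝ) * n := by positivity
      linarith
    have h11 : C * N k ^ m ≤ C * 2 ^ (4 * m * n) := mul_le_mul_of_nonneg_left h10 h5.le
    have h12 : (2 : ℝ) ^ ((4 * m + 1) * n) = 2 ^ n * 2 ^ (4 * m * n) := by
      rw [← Real.rpow_add (by norm_num)]
      congr 1; ring
    rw [h12]
    have h13 : (0 : ℝ) < 2 ^ (4 * m * n) := by positivity
    calc C * N k ^ m + (4 * K k / 2 ^ (-n)) ^ m ≤ (C + 1) * 2 ^ (4 * m * n) := by linarith
      _ ≤ 2 ^ n * 2 ^ (4 * m * n) := mul_le_mul_of_nonneg_right hC1 h13.le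
  have h3 := ((gl d).pj.vb_pb.mpr hV).inf h2
  refine h3.mono ?_
  filter_upwards [hCo] with k hk w w' _ _ _ h4
  rw [hk.1]
  exact h4

end GSeq

end seq

end Pool.Agent.Helper76.RL
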