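import Pool.Agent.Helper76.RL.Gsq

/-! LOCAL GRAPH OF A LABEL for spaces: the informations of the sequence of extensions. -/

set_option autoImplicit false

namespace Pool.Agent.Helper76.RL

open Metric Filter Topology
open Pool.Agent.Helper69.RK Pool.Agent.Helper31.EC Pool.Agent.Helper40.EL
open Pool.Agent.Helper95.LF Pool.Agent.Helper3.LF Pool.Agent.Helper84.MT
open Pool.Agent.Helper31.EC.Sp (cell cl io)

variable {m : ℕ} {W : Sp} {V : ∀ k, Setoid (W.F k).Ω} {Q : W.VV m} {L : ℕ} {C : ℝ} {a : ℕ → ℝ}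
  {d : ∀ k, GD (W.F k) m} {K : ℕ → ℝ} {N : ℕ → ℕ}

/-- a partition as an information -/
def pI {W : Sp} {V : ∀ k, Setoid (W.F k).Ω} (hV : W.VB V) : W.Inf := ⟨V, hV⟩

lemma dl_one (S : Sp) (k : ℕ) : S.dl 1 k = 2 ^ (-(S.F k).n) := by
  unfold Sp.dl
  rw [one_mul]

namespace GSeq

variable (x : GSeq V Q L C a d K N)

/-- the information of the label -/
def A (hV : W.VB V) (ha : ∀ k, a k ≤ 1) : (gl d).sp.L := cl (pI (x.vb hV ha))

lemma le_A (hV : W.VB V) (ha : ∀ k, a k ≤ 1) : (gl d).pj.map (cl (pI hV)) ≤ x.A hV ha := by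
  rw [Pj.map_cl]
  unfold A
  rw [Sp.cl_le]
  show Tendsto ((gl d).sp.rt ((gl d).pj.pb V) (gl d).V) UF (𝓝 0)
  apply Tendsto.congr' _ tendsto_const_nhds
  filter_upwards [x.q 1 one_pos] with k hk
  symm
  unfold Sp.rt
  rw [((gl d).sp.F k).e_zero, zero_div]
  intro ω ω' _ _ h3
  exact hk.geo.le ω ω' h3.1

lemma h_A (hV : W.VB V) (ha : ∀ k, a k ≤ 1) {α : ℝ} (hα : ∀ η : ℝ, 0 < η → ∀ᶠ k in UF, a k ≤ α + η) :
    h (x.A hV ha) ((gl d).pj.map (cl (pI hV))) ≤ m * α := by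
  rw [Pj.map_cl]
  unfold A
  rw [Sp.h_cl]
  apply le_of_forall_pos_le_add
  intro ε hε
  have hη : 0 < ε / (m + 1) := by positivity
  apply ul_le_const (Sp.UB_rt (pI (x.vb hV ha)) _)
  filter_upwards [x.q _ hη, hα _ hη] with k hk hk2
  have hn : 0 < (W.F k).n := (W.F k).pos
  have hnn : ((gl d).sp.F k).n = (W.F k).n := (d k).l.hn
  unfold Sp.rt
  rw [hnn, div_le_iff₀ hn]
  refine hk.La.trans ?_
  apply mul_le_mul_of_nonneg_right _ hn.le
  have h1 : (m : ℝ) * a k ≤ m * (α + ε / (m + 1)) := mul_le_mul_of_nonneg_left hk2 (Nat.cast_nonneg _)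
  have h2 : (m : ℝ) * (ε / (m + 1)) + ε / (m + 1) = ε := by
    field_simp
  linarith

lemma h_Y (hV : W.VB V) (ha : ∀ k, a k ≤ 1) : (m : ℝ) ≤ h (x.Y.dg 1) (x.A hV ha) := by
  unfold A Sp.VV.dg
  rw [Sp.io_eq (x.Y.bdd 1), Sp.h_cl]
  apply le_of_forall_pos_le_add
  intro ε hε
  rw [← sub_le_iff_le_add]
  apply const_le_ul (Sp.UB_rt (x.Y.bdd 1).toInf _)
  filter_upwards [x.q _ hε] with k hk
  have hn : 0 < (W.F k).n := (W.F k).pos
  have hnn : ((gl d).sp.F k).n = (W.F k).n := (d k).l.hn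
  unfold Sp.rt
  rw [hnn, le_div_iff₀ hn]
  refine hk.ful.trans (le_of_eq ?_)
  have h1 : x.Y.cellv 1 k = fun w => cell (2 ^ (-(W.F k).n)) ((d k).Y w) := by
    funext w
    show cell ((gl d).sp.dl 1 k) ((d k).Y w) = _
    rw [dl_one, hnn]
  show _ = (d k).l.T.e (Setoid.ker (x.Y.cellv 1 k)) ((d k).l.V ⊓ (d k).l.T.Z)
  rw [h1]

lemma leak0 (hV : W.VB V) (ha : ∀ k, a k ≤ 1) (y : W.L) :
    I (x.A hV ha) ((gl d).pj.map y) ((gl d).pj.map (cl (pI hV) ⊔ Q.dg 1)) = 0 := by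
  induction y using Sp.cl_ind with | _ B
  rw [I_zero_iff_h]
  unfold A Sp.VV.dg
  rw [Sp.io_eq (Q.bdd 1), ← Sp.cl_sup, ← Pj.map_sup, ← Sp.cl_sup, Pj.map_cl, Pj.map_cl, Sp.h_cl, Sp.h_cl]
  apply ul_congr
  filter_upwards [x.q 1 one_pos] with k hk
  have h1 := hk.geo.leak
  have h2 : (fun ω => cell (2 ^ (-(W.F k).n)) (Q.v k ω)) = Q.cellv 1 k := by
    funext ω
    show _ = cell (W.dl 1 k) (Q.v k ω)
    rw [dl_one]
  rw [h2] at h1
  set c : FL (W.F k) := fc (V k ⊓ Setoid.ker (Q.cellv 1 k)) with hc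
  have h3 : I (d k).l.v ((d k).l.p.map (fc (B.1 k))) ((d k).l.p.map c) = 0 := by
    refine I_zero_mono (h0 := h1) le_sup_left ?_
    exact ((d k).l.p.map_le_top _).trans le_sup_left
  rw [I_zero_iff_h, ← FPj.map_sup, ← fc_inf, FPj.map_fc, FPj.map_fc] at h3
  unfold Sp.rt
  congr 1
  have h4 : (d k).l.v = fc (d k).l.V := rfl
  rw [h4, h_fc, h_fc] at h3
  exact h3

end GSeq

end Pool.Agent.Helper76.RL
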