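import Pool.Agent.Helper76.RL.Gsr
import Pool.Agent.Helper76.RL.Interp
import Pool.Agent.Helper95.RIG.Leaf

/-! LOCAL GRAPH OF A LABEL for spaces: polynomial charts; the partition is an approximate leaf of the point. -/

set_option autoImplicit false

namespace Pool.Agent.Helper76.RL

open Metric Filter Topology MvPolynomial
open Pool.Agent.Helper69.RK Pool.Agent.Helper31.EC Pool.Agent.Helper40.EL
open Pool.Agent.Helper95.LF Pool.Agent.Helper3.LF Pool.Agent.Helper84.MT Pool.Agent.Helper95.RIG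
open Pool.Agent.Helper31.EC.Sp (cell cl io)

variable {m : ℕ}

/-! ### polynomial charts -/

/-- exponents -/
noncomputable def bx (m d : ℕ) : Finset (Fin m →₀ ℕ) := Finset.Iic (Finsupp.equivFunOnFinite.symm fun _ => d)

lemma eval_bx {R : Type*} [CommSemiring R] {P : MvPolynomial (Fin m) R} {d : ℕ} (h : P.totalDegree ≤ d) (y : Fin m → R) :
    eval y P = ∑ α ∈ bx m d, P.coeff α * ∏ i, y i ^ α i := by
  rw [eval_eq']
  apply Finset.sum_subset
  · intro α hα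
    unfold bx
    rw [Finset.mem_Iic]
    intro i
    have h1 := (le_totalDegree hα).trans h
    rw [Finsupp.sum_fintype _ _ (fun _ => rfl)] at h1
    exact (Finset.single_le_sum (f := fun i => α i) (fun _ _ => Nat.zero_le _) (Finset.mem_univ i)).trans h1
  · intro α _ hα
    rw [notMem_support_iff.mp hα, zero_mul]

/-- real polynomial approximants, a function of the chart -/
theorem exists_pa (m k₁ : ℕ) : ∃ C' : ℝ, 0 < C' ∧ ∀ S M : ℝ, ∃ P : ((Fin m → ℂ) → ℂ) → (Fin m →₀ ℕ) → ℝ, ∀ G,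
    2 ≤ S → 0 ≤ M → DifferentiableOn ℂ G (closedBall 0 S) → (∀ x ∈ closedBall (0 : Fin m → ℂ) S, ‖G x‖ ≤ M) →
    (∀ α, |P G α| ≤ C' * M) ∧ ∀ Y : Fin m → ℝ, (∀ i, 0 ≤ Y i ∧ Y i ≤ 1) →
      |(G (rc Y)).re - ∑ α ∈ bx m (m * k₁), P G α * ∏ i, Y i ^ α i| ≤ C' * M * S⁻¹ ^ (k₁ + 1) := by
  classical
  obtain ⟨C', hC', h⟩ := approx m k₁
  refine ⟨C', hC', fun S M => ?_⟩
  have h1 : ∀ G : (Fin m → ℂ) → ℂ, ∃ P : MvPolynomial (Fin m) ℂ, 2 ≤ S → 0 ≤ M → DifferentiableOn ℂ G (closedBall 0 S) →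
      (∀ x ∈ closedBall (0 : Fin m → ℂ) S, ‖G x‖ ≤ M) → P.totalDegree ≤ m * k₁ ∧ (∀ a, ‖P.coeff a‖ ≤ C' * M) ∧
      ∀ Y : Fin m → ℝ, (∀ i, 0 ≤ Y i) → (∀ i, Y i ≤ 1) →
        ‖G (fun i => (Y i : ℂ)) - eval (fun i => (Y i : ℂ)) P‖ ≤ C' * M * S⁻¹ ^ (k₁ + 1) := by
    intro G
    by_cases hG : 2 ≤ S ∧ 0 ≤ M ∧ DifferentiableOn ℂ G (closedBall 0 S) ∧
      (∀ x ∈ closedBall (0 : Fin m → ℂ) S, ‖G x‖ ≤ M)
    · obtain ⟨P, hP⟩ := h S hG.1 M hG.2.1 G hG.2.2.1 hG.2.2.2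
      exact ⟨P, fun _ _ _ _ => hP⟩
    · exact ⟨0, fun a b c e => absurd ⟨a, b, c, e⟩ hG⟩
  choose P hP using h1
  refine ⟨fun G α => ((P G).coeff α).re, fun G a b c e => ?_⟩
  obtain ⟨h2, h3, h4⟩ := hP G a b c e
  refine ⟨fun α => (Complex.abs_re_le_norm _).trans (h3 α), fun Y hY => ?_⟩
  have h5 := h4 Y (fun i => (hY i).1) (fun i => (hY i).2)
  have h6 : (eval (fun i => (Y i : ℂ)) (P G)).re = ∑ α ∈ bx m (m * k₁), ((P G).coeff α).re * ∏ i, Y i ^ α i := by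
    rw [eval_bx h2, Complex.re_sum]
    refine Finset.sum_congr rfl fun α _ => ?_
    have h7 : ∏ i, (Y i : ℂ) ^ α i = ((∏ i, Y i ^ α i : ℝ) : ℂ) := by
      push_cast
      rfl
    rw [h7, Complex.re_mul_ofReal]
  rw [← h6, ← Complex.sub_re]
  exact (Complex.abs_re_le_norm _).trans h5

/-! ### the leaf -/

variable {W : Sp} {V : ∀ k, Setoid (W.F k).Ω} {Q : W.VV m} {L : ℕ} {C : ℝ}
  {d : ∀ k, GD (W.F k) m} {K : ℕ → ℝ} {N : ℕ → ℕ}

/-- numbers: the error of the Taylor polynomial -/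
lemma num_err {α n C : ℝ} {k₁ N : ℕ} (hn : 0 < n) (hC : 0 < C) (hk : 2 ≤ α * (k₁ + 1))
    (hN : 2 ^ (α * n) ≤ (N : ℝ)) : (√N / (2 * C))⁻¹ ^ (k₁ + 1) ≤ (2 * C) ^ (k₁ + 1) * 2 ^ (-n) := by
  have h0 : (0 : ℝ) < N := lt_of_lt_of_le (by positivity) hN
  have h1 : (2 : ℝ) ^ (α * n / 2) ≤ √N := by
    rw [Real.le_sqrt (by positivity) h0.le, ← Real.rpow_natCast, ← Real.rpow_mul (by norm_num)]
    refine le_of_eq_of_le ?_ hN
    congr 1
    push_cast
    ring
  have h2 : (2 : ℝ) ^ n ≤ √N ^ (k₁ + 1) := by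
    refine le_trans ?_ (pow_le_pow_left₀ (by positivity) h1 (k₁ + 1))
    rw [← Real.rpow_natCast, ← Real.rpow_mul (by norm_num)]
    apply Real.rpow_le_rpow_of_exponent_le (by norm_num)
    push_cast
    nlinarith
  rw [inv_div, div_pow, Real.rpow_neg (by norm_num), ← div_eq_mul_inv]
  exact div_le_div_of_nonneg_left (by positivity) (by positivity) h2

/-- POLYNOMIAL CHARTS -/
theorem GSeq.pleaf {α : ℝ} (hα : 0 < α) (x : GSeq V Q L C (fun _ => α) d K N) (hV : W.VB V) (ha : α ≤ 1) (hC : 0 < C) :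
    PLeaf (x.A hV fun _ => ha) (fun j => (gl d).pj.qs (QS.mk (TR.cor Q j))) := by
  classical
  obtain ⟨k₁, hk₁⟩ := exists_nat_ge (2 / α)
  have hk₂ : 2 ≤ α * (k₁ + 1) := by
    rw [div_le_iff₀ hα] at hk₁
    nlinarith
  obtain ⟨C', hC', h⟩ := exists_pa m k₁
  choose P hP using h
  set S : ℕ → ℝ := fun k => √(N k) / (2 * C) with hS
  set M : ℕ → ℝ := fun k => C * K k with hM
  -- the hypotheses of the approximation hold
  have key : ∀ᶠ k in UF, ∀ w, ((gl d).sp.F k).μ w ≠ 0 → ∀ j, 2 ≤ S k ∧ 0 ≤ M k ∧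
      DifferentiableOn ℂ ((d k).G w j) (closedBall 0 (S k)) ∧
      (∀ y ∈ closedBall (0 : Fin m → ℂ) (S k), ‖(d k).G w j y‖ ≤ M k) := by
    filter_upwards [x.q (1 / 4) (by norm_num)] with k hk w hw j
    have h1 : 4 ≤ √(N k : ℝ) / C := by
      have := hk.rad
      norm_num at this
      exact this
    have h2 : S k = √(N k : ℝ) / C / 2 := by
      rw [hS]
      simp only
      rw [div_div, mul_comm]
    have h3 : closedBall (0 : Fin m → ℂ) (S k) ⊆ ball 0 (√(N k : ℝ) / C) := by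
      intro y hy
      rw [mem_closedBall_zero_iff] at hy
      rw [mem_ball_zero_iff]
      rw [h2] at hy
      linarith
    refine ⟨by rw [h2]; linarith, ?_, (hk.geo.dG w j).mono h3, fun y hy => hk.geo.bG w hw j y (h3 hy)⟩
    exact mul_nonneg hC.le (zero_le_one.trans hk.K1)
  have hKs : (gl d).sp.Sub K := (gl d).pj.sub x.subK
  -- the coefficients
  set c : Fin m → (Fin m →₀ ℕ) → TR (gl d).sp := fun j β => ⟨fun k w => P (S k) (M k) ((d k).G w j) β, by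
    refine ⟨fun k => C' * C * K k, ((gl d).sp.Sub_const (by positivity)).mul hKs, ?_⟩
    filter_upwards [key] with k hk w hw
    obtain ⟨h1, h2, h3, h4⟩ := hk w hw j
    refine ((hP (S k) (M k) _ h1 h2 h3 h4).1 β).trans (le_of_eq ?_)
    rw [hM]
    ring⟩ with hc
  have hev : ∀ j β k w, TR.ev (c j β) k w = P (S k) (M k) ((d k).G w j) β := fun _ _ _ _ => rfl
  refine ⟨m, fun i => QS.mk (TR.cor x.Y i), fun j => ∑ β ∈ bx m (m * k₁), monomial β (QS.mk (c j β)), ?_, ?_, ?_⟩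
  · apply QS.Rl.of_ge
    rw [Fintype.card_fin]
    refine (x.h_Y hV fun _ => ha).trans (h_mono ?_)
    rw [TR.vv_dg_le_iff]
    intro i
    rw [← QS.dg_mk _ le_rfl]
    exact QS.dg_le_vd (fun i => QS.mk (TR.cor x.Y i)) 1 i
  · intro j
    apply Subring.sum_mem
    intro β _ γ
    rw [coeff_monomial]
    split_ifs
    · show QS.dg (QS.mk (c j β)) 1 ≤ _
      rw [QS.dg_mk _ le_rfl]
      apply TR.dg_le_cl _ _ _ (fun _ _ => True) Sp.Typ_true (fun _ => 0) (((gl d).sp).Sub_const le_rfl)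
      filter_upwards [x.q 1 one_pos] with k hk w w' h1 h2 _ _ h3 h4
      rw [hev, hev, hk.geo.fn w w' h1 h2 h3 h4, sub_self, abs_zero, zero_mul]
    · exact (QS.Kn _ 1 le_rfl _).zero_mem
  · intro j
    have h1 : eval (fun i => QS.mk (TR.cor x.Y i)) (∑ β ∈ bx m (m * k₁), monomial β (QS.mk (c j β))) =
        QS.mk (∑ β ∈ bx m (m * k₁), c j β * ∏ i, TR.cor x.Y i ^ β i) := by
      rw [map_sum, map_sum]
      refine Finset.sum_congr rfl fun β _ => ?_
      rw [eval_monomial, Finsupp.prod_fintype _ _ (fun _ => pow_zero _), map_mul, map_prod]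
      simp only [map_pow]
    beta_reduce
    rw [h1, Pj.qs_mk, QS.mk_eq]
    refine ⟨fun _ _ => True, fun k => C * K k + C' * (C * K k) * (2 * C) ^ (k₁ + 1), Sp.Typ_true, ?_, ?_⟩
    · refine (((gl d).sp.Sub_const hC.le).mul hKs).add ?_
      exact ((((gl d).sp.Sub_const hC'.le).mul (((gl d).sp.Sub_const hC.le).mul hKs)).mul
        ((gl d).sp.Sub_const (by positivity)))
    · filter_upwards [key, x.q 1 one_pos] with k hk hk2 w hw _
      obtain ⟨h2, h3, h4, h5⟩ := hk w hw j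
      obtain ⟨-, h6⟩ := hP (S k) (M k) _ h2 h3 h4 h5
      have h7 := h6 ((d k).Y w) (hk2.geo.uY w)
      have hn : 0 < (W.F k).n := (W.F k).pos
      have h8 := hk2.geo.pt w hw j
      have h9 : |Q.v k ((d k).l.p.π w) j - ((d k).G w j (rc ((d k).Y w))).re| ≤ C * K k * 2 ^ (-(W.F k).n) := by
        have h10 := Complex.abs_re_le_norm (((Q.v k ((d k).l.p.π w) j : ℝ) : ℂ) - (d k).G w j (rc ((d k).Y w)))
        rw [Complex.sub_re, Complex.ofReal_re] at h10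
        exact h10.trans h8
      have h11 : TR.ev ((gl d).pj.tr (TR.cor Q j)) k w = Q.v k ((d k).l.p.π w) j := rfl
      have h12 : TR.ev (∑ β ∈ bx m (m * k₁), c j β * ∏ i, TR.cor x.Y i ^ β i) k w =
          ∑ β ∈ bx m (m * k₁), P (S k) (M k) ((d k).G w j) β * ∏ i, (d k).Y w i ^ β i := by
        rw [← TR.evh_apply, map_sum]
        refine Finset.sum_congr rfl fun β _ => ?_
        rw [map_mul, map_prod]
        simp only [map_pow]
        rfl
      rw [h11, h12, dl_one]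
      have hnn : ((gl d).sp.F k).n = (W.F k).n := (d k).l.hn
      rw [hnn]
      have h13 := num_err hn hC hk₂ hk2.N1
      have h14 : C' * M k * (S k)⁻¹ ^ (k₁ + 1) ≤ C' * (C * K k) * ((2 * C) ^ (k₁ + 1) * 2 ^ (-(W.F k).n)) :=
        mul_le_mul_of_nonneg_left h13 (mul_nonneg hC'.le h3)
      calc |Q.v k ((d k).l.p.π w) j - ∑ β ∈ bx m (m * k₁), P (S k) (M k) ((d k).G w j) β * ∏ i, (d k).Y w i ^ β i|
          ≤ |Q.v k ((d k).l.p.π w) j - ((d k).G w j (rc ((d k).Y w))).re| +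
            |((d k).G w j (rc ((d k).Y w))).re -
              ∑ β ∈ bx m (m * k₁), P (S k) (M k) ((d k).G w j) β * ∏ i, (d k).Y w i ^ β i| := abs_sub_le _ _ _
        _ ≤ C * K k * 2 ^ (-(W.F k).n) + C' * (C * K k) * ((2 * C) ^ (k₁ + 1) * 2 ^ (-(W.F k).n)) :=
            add_le_add h9 (h7.trans h14)
        _ = _ := by ring

/-- GEO (i): a partition which knows a form in which the point is full is an approximate leaf of the point -/
theorem aleaf_of_form {D : ℕ} (hD : 1 ≤ D) {W : Sp} {V : ∀ k, Setoid (W.F k).Ω} {Q : W.VV m}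
    {g : ∀ k, (W.F k).Ω → Matrix (Mon m D) (Mon m D) ℝ} (hV : W.VB V) (x : FIn V Q g) :
    ALeaf (cl (pI hV)) (fun j => QS.mk (TR.cor Q j)) := by
  obtain ⟨L, C, hL, hC, h⟩ := exists_seq m D hD
  intro ε hε
  set α : ℝ := min (ε / (m + 1)) 1 with hα
  have hα0 : 0 < α := lt_min (by positivity) one_pos
  have hα1 : α ≤ 1 := min_le_right _ _
  obtain ⟨d, K, N, j, -, hs⟩ := h x (fun _ => α) (fun _ => ⟨hα0, hα1⟩)
  refine ⟨(gl d).sp, (gl d).pj, hs.A hV fun _ => hα1, hs.le_A hV _, fun y => ?_, hs.pleaf hα0 hV hα1 (by linarith)⟩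
  have h1 : I (hs.A hV fun _ => hα1) ((gl d).pj.map y) ((gl d).pj.map (cl (pI hV))) ≤
      I (hs.A hV fun _ => hα1) ((gl d).pj.map (Q.dg 1) ⊔ (gl d).pj.map y) ((gl d).pj.map (cl (pI hV))) :=
    I_mono_right (le_sup_right.trans le_sup_left)
  rw [I_chain_right, ← Pj.map_sup, sup_comm (Q.dg 1), hs.leak0 hV _ y, add_zero] at h1
  have h2 := I_le_h_left (hs.A hV fun _ => hα1) ((gl d).pj.map (Q.dg 1)) ((gl d).pj.map (cl (pI hV)))
  have h3 := hs.h_A hV (fun _ => hα1) (α := α) (fun η hη => Eventually.of_forall fun _ => by linarith)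
  have h4 : (m : ℝ) * α ≤ ε := by
    have h5 : α ≤ ε / (m + 1) := min_le_left _ _
    rw [le_div_iff₀ (by positivity)] at h5
    nlinarith
  linarith

end Pool.Agent.Helper76.RL
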