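import Mathlib

/-!
# Local constancy of a polynomial at most grid points (complex balls)

For a polynomial `P` of degree `≤ d` in `m` variables and a scale `s`, at all but a fraction
`C (2 s + 1/N)` of the points `x` of the grid `{0, 1/N, .., (N-1)/N}^m` one has
`|P (x + v) - P x| ≤ 2 (m r d / s) |P x|` for all complex `v` with `|v i| ≤ r`, `m r d / s ≤ 1/2`.
(Logarithmic derivative trick, applied to all iterated derivatives; no normalisation of `P`.)
-/

namespace Pool.Agent.Helper76.RL

open MvPolynomial Finset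

variable {m : ℕ}

/-- restriction of `P` to the line through `x` in direction `i` -/
noncomputable def lin (x : Fin m → ℂ) (i : Fin m) (P : MvPolynomial (Fin m) ℂ) : Polynomial ℂ :=
  aeval (fun j => if j = i then Polynomial.X else Polynomial.C (x j)) P

lemma lin_eval (x : Fin m → ℂ) (i : Fin m) (P : MvPolynomial (Fin m) ℂ) (t : ℂ) :
    (lin x i P).eval t = eval (Function.update x i t) P := by
  unfold lin
  induction P using MvPolynomial.induction_on with
  | C a => simp
  | add p q hp hq => simp [hp, hq]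
  | mul_X p j hp =>
    rw [map_mul, map_mul, Polynomial.eval_mul, hp, aeval_X, eval_X]
    congr 1
    by_cases h : j = i
    · subst h; simp
    · simp [h]

lemma lin_deriv (x : Fin m → ℂ) (i : Fin m) (P : MvPolynomial (Fin m) ℂ) :
    (lin x i P).derivative = lin x i (pderiv i P) := by
  unfold lin
  induction P using MvPolynomial.induction_on with
  | C a => simp
  | add p q hp hq => simp [hp, hq]
  | mul_X p j hp =>
    rw [map_mul, Polynomial.derivative_mul, hp, pderiv_mul, map_add, map_mul, map_mul, aeval_X]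
    congr 1
    by_cases h : j = i
    · subst h; simp
    · rw [pderiv_X_of_ne h]; simp [h]

lemma natDegree_aeval_le {σ : Type*} [Fintype σ] (P : MvPolynomial σ ℂ) (f : σ → Polynomial ℂ)
    (hf : ∀ j, (f j).natDegree ≤ 1) : (aeval f P).natDegree ≤ P.totalDegree := by
  classical
  rw [aeval_def, eval₂_eq']
  refine Polynomial.natDegree_sum_le_of_forall_le _ _ fun e he => ?_
  have h1 : (∏ j, f j ^ e j).natDegree ≤ ∑ j, e j := by
    refine (Polynomial.natDegree_prod_le _ _).trans (Finset.sum_le_sum fun j _ => ?_)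
    refine (Polynomial.natDegree_pow_le).trans ?_
    calc e j * (f j).natDegree ≤ e j * 1 := Nat.mul_le_mul_left _ (hf j)
      _ = e j := mul_one _
  have h2 : ∑ j, e j ≤ P.totalDegree := by
    have := le_totalDegree he
    rwa [Finsupp.sum_fintype _ _ (fun _ => rfl)] at this
  refine (Polynomial.natDegree_mul_le).trans ?_
  have h3 : (algebraMap ℂ (Polynomial ℂ) (coeff e P)).natDegree = 0 := by
    rw [Polynomial.algebraMap_eq]; exact Polynomial.natDegree_C _
  rw [h3, zero_add]
  exact h1.trans h2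

lemma lin_deg (x : Fin m → ℂ) (i : Fin m) (P : MvPolynomial (Fin m) ℂ) :
    (lin x i P).natDegree ≤ P.totalDegree := by
  refine natDegree_aeval_le P _ fun j => ?_
  split_ifs
  · exact Polynomial.natDegree_X_le
  · simp

lemma totalDegree_pderiv_le (i : Fin m) (P : MvPolynomial (Fin m) ℂ) :
    (pderiv i P).totalDegree ≤ P.totalDegree := by
  classical
  rw [totalDegree]
  refine Finset.sup_le fun e he => ?_
  have h1 : coeff (e + Finsupp.single i 1) P ≠ 0 := by
    intro h
    have := coeff_pderiv (i := i) P e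
    rw [h, zero_mul] at this
    exact (mem_support_iff.mp he) this
  have h2 := le_totalDegree (mem_support_iff.mpr h1)
  rw [Finsupp.sum_add_index' (fun _ => rfl) (fun _ _ _ => rfl), Finsupp.sum_single_index rfl] at h2
  omega

/-- logarithmic derivative bound in one variable -/
lemma one_dim (p : Polynomial ℂ) (d : ℕ) (hd : p.natDegree ≤ d) {s : ℝ} (hs : 0 < s) (t : ℂ)
    (h : ∀ z ∈ p.roots, s ≤ ‖t - z‖) :
    ‖p.derivative.eval t‖ ≤ d / s * ‖p.eval t‖ := by
  by_cases hp : p = 0
  · simp [hp]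
  have hne : p.eval t ≠ 0 := by
    intro h0
    have := h t ((Polynomial.mem_roots hp).mpr h0)
    simp at this
    linarith
  rw [(IsAlgClosed.splits p).eval_derivative_eq_eval_mul_sum hne, norm_mul, mul_comm]
  refine mul_le_mul_of_nonneg_right ?_ (norm_nonneg _)
  have h1 : ‖(p.roots.map fun z => 1 / (t - z)).sum‖ ≤ (p.roots.map fun _ => 1 / s).sum := by
    refine (norm_multiset_sum_le _).trans ?_
    rw [Multiset.map_map]
    refine Multiset.sum_map_le_sum_map _ _ fun z hz => ?_
    have := h z hz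
    simp only [Function.comp, norm_div, norm_one]
    exact one_div_le_one_div_of_le hs this
  refine h1.trans ?_
  rw [Multiset.map_const', Multiset.sum_replicate, nsmul_eq_mul, mul_one_div]
  refine div_le_div_of_nonneg_right ?_ hs.le
  exact_mod_cast (Polynomial.card_roots' p).trans hd

/-- number of grid points in an open interval -/
lemma card_near (N : ℕ) (a L : ℝ) (hL : 0 ≤ L) :
    (((Finset.univ : Finset (Fin N)).filter fun t : Fin N => |((t : ℕ) : ℝ) - a| < L).card : ℝ)
      ≤ 2 * L + 1 := by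
  classical
  have h1 : ((Finset.univ : Finset (Fin N)).filter fun t : Fin N => |((t : ℕ) : ℝ) - a| < L).card
      ≤ (Finset.Icc ⌈a - L⌉ ⌊a + L⌋).card := by
    refine Finset.card_le_card_of_injOn (fun t => ((t : ℕ) : ℤ)) ?_ ?_
    · intro t ht
      have ht' := (Finset.mem_filter.mp ht).2
      rw [abs_lt] at ht'
      rw [Finset.coe_Icc, Set.mem_Icc]
      constructor
      · rw [Int.ceil_le]; push_cast; linarith [ht'.1]
      · rw [Int.le_floor]; push_cast; linarith [ht'.2]
    · intro t _ t' _ h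
      have h' : ((t : ℕ) : ℤ) = ((t' : ℕ) : ℤ) := h
      exact Fin.ext (by exact_mod_cast h')
  have h2 : ((Finset.Icc ⌈a - L⌉ ⌊a + L⌋).card : ℝ) ≤ 2 * L + 1 := by
    rw [Int.card_Icc]
    by_cases h : 0 ≤ ⌊a + L⌋ + 1 - ⌈a - L⌉
    · have h3 : (((⌊a + L⌋ + 1 - ⌈a - L⌉).toNat : ℤ) : ℝ) = (⌊a + L⌋ : ℝ) + 1 - ⌈a - L⌉ := by
        rw [Int.toNat_of_nonneg h]; push_cast; ring
      have h4 : (((⌊a + L⌋ + 1 - ⌈a - L⌉).toNat : ℕ) : ℝ) = (⌊a + L⌋ : ℝ) + 1 - ⌈a - L⌉ := by
        rw [← h3]; norm_cast
      rw [h4]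
      have := Int.floor_le (a + L)
      have := Int.le_ceil (a - L)
      linarith
    · rw [Int.toNat_of_nonpos (by omega)]
      simp; linarith
  exact (by exact_mod_cast h1 : (_ : ℝ) ≤ _).trans h2

/-- bad grid points in one variable -/
lemma one_dim_card (p : Polynomial ℂ) (d : ℕ) (hd : p.natDegree ≤ d) {s : ℝ} (hs : 0 < s)
    (N : ℕ) (hN : 0 < N) :
    (((Finset.univ : Finset (Fin N)).filter fun t : Fin N =>
      d / s * ‖p.eval (((t : ℕ) : ℂ) / N)‖ < ‖p.derivative.eval (((t : ℕ) : ℂ) / N)‖).card : ℝ)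
      ≤ d * (2 * (s * N) + 1) := by
  classical
  have hN' : (0 : ℝ) < N := by exact_mod_cast hN
  have h1 : ((Finset.univ : Finset (Fin N)).filter fun t : Fin N =>
      d / s * ‖p.eval (((t : ℕ) : ℂ) / N)‖ < ‖p.derivative.eval (((t : ℕ) : ℂ) / N)‖)
      ⊆ p.roots.toFinset.biUnion fun z =>
        (Finset.univ : Finset (Fin N)).filter fun t : Fin N => |((t : ℕ) : ℝ) - N * z.re| < s * N := by
    intro t ht
    have ht' := (Finset.mem_filter.mp ht).2
    by_contra hc
    refine absurd (one_dim p d hd hs (((t : ℕ) : ℂ) / N) fun z hz => ?_) (not_le.mpr ht')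
    by_contra hlt
    push Not at hlt
    apply hc
    rw [Finset.mem_biUnion]
    refine ⟨z, Multiset.mem_toFinset.mpr hz, Finset.mem_filter.mpr ⟨Finset.mem_univ _, ?_⟩⟩
    have h2 : |((((t : ℕ) : ℂ) / N) - z).re| ≤ ‖(((t : ℕ) : ℂ) / N) - z‖ := Complex.abs_re_le_norm _
    have h3 : ((((t : ℕ) : ℂ) / N) - z).re = (t : ℕ) / N - z.re := by
      rw [Complex.sub_re]
      congr 1
      rw [← Complex.ofReal_natCast, ← Complex.ofReal_natCast, ← Complex.ofReal_div,
        Complex.ofReal_re]
    rw [h3] at h2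
    have h4 : |((t : ℕ) : ℝ) / N - z.re| < s := lt_of_le_of_lt h2 hlt
    have h5 : ((t : ℕ) : ℝ) - N * z.re = N * (((t : ℕ) : ℝ) / N - z.re) := by
      field_simp
    rw [h5, abs_mul, abs_of_pos hN', mul_comm s]
    exact mul_lt_mul_of_pos_left h4 hN'
  have h6 := Finset.card_le_card h1
  have h7 : ((p.roots.toFinset.biUnion fun z =>
        (Finset.univ : Finset (Fin N)).filter fun t : Fin N => |((t : ℕ) : ℝ) - N * z.re| < s * N).card : ℝ)
      ≤ ∑ z ∈ p.roots.toFinset, (2 * (s * N) + 1) := by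
    refine (Nat.cast_le.mpr Finset.card_biUnion_le).trans ?_
    push_cast
    refine Finset.sum_le_sum fun z _ => card_near N _ _ (by positivity)
  refine (by exact_mod_cast h6 : (_ : ℝ) ≤ _).trans (h7.trans ?_)
  rw [Finset.sum_const, nsmul_eq_mul]
  refine mul_le_mul_of_nonneg_right ?_ (by positivity)
  exact_mod_cast (Multiset.toFinset_card_le _).trans ((Polynomial.card_roots' p).trans hd)

/-- grid point -/
noncomputable def gp (N : ℕ) (g : Fin m → Fin N) : Fin m → ℂ := fun i => ((g i : ℕ) : ℂ) / N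

lemma sum_update (N : ℕ) (i : Fin m) (f : (Fin m → Fin N) → ℝ) :
    ∑ g : Fin m → Fin N, ∑ t : Fin N, f (Function.update g i t) = N * ∑ g, f g := by
  classical
  rw [← Fintype.sum_prod_type']
  have e : ∑ x : (Fin m → Fin N) × Fin N, f (Function.update x.1 i x.2)
      = ∑ x : (Fin m → Fin N) × Fin N, f x.1 := by
    refine Fintype.sum_equiv
      { toFun := fun x => (Function.update x.1 i x.2, x.1 i)
        invFun := fun x => (Function.update x.1 i x.2, x.1 i)
        left_inv := fun x => ?_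
        right_inv := fun x => ?_ } _ _ fun x => rfl
    · simp
    · simp
  rw [e, Fintype.sum_prod_type]
  simp only [Finset.sum_const, Finset.card_univ, Fintype.card_fin, nsmul_eq_mul]
  rw [Finset.mul_sum]

/-- the bad grid points of `Q` in direction `i` -/
noncomputable def bad (d : ℕ) (s : ℝ) (N : ℕ) (Q : MvPolynomial (Fin m) ℂ) (i : Fin m) :
    Finset (Fin m → Fin N) := by
  classical
  exact Finset.univ.filter fun g =>
    d / s * ‖eval (gp N g) Q‖ < ‖eval (gp N g) (pderiv i Q)‖

lemma card_bad (d : ℕ) {s : ℝ} (hs : 0 < s) (N : ℕ) (hN : 0 < N) (Q : MvPolynomial (Fin m) ℂ)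
    (hQ : Q.totalDegree ≤ d) (i : Fin m) :
    ((bad d s N Q i).card : ℝ) ≤ N ^ m * (d * (2 * s + 1 / N)) := by
  classical
  have hN' : (0 : ℝ) < N := by exact_mod_cast hN
  set f : (Fin m → Fin N) → ℝ := fun g => if g ∈ bad d s N Q i then 1 else 0 with hf
  have h1 : ((bad d s N Q i).card : ℝ) = ∑ g, f g := by
    simp [hf]
  have h2 : ∀ g : Fin m → Fin N, ∑ t : Fin N, f (Function.update g i t)
      ≤ d * (2 * (s * N) + 1) := by
    intro g
    have h3 := one_dim_card (lin (gp N g) i Q) d ((lin_deg _ _ _).trans hQ) hs N hN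
    refine le_trans (le_of_eq ?_) h3
    rw [Finset.card_filter]
    push_cast
    refine Finset.sum_congr rfl fun t _ => ?_
    have e : Function.update (gp N g) i (((t : ℕ) : ℂ) / N) = gp N (Function.update g i t) := by
      funext j
      by_cases h : j = i
      · subst h; simp [gp]
      · simp [gp, h]
    simp only [hf, bad, Finset.mem_filter, Finset.mem_univ, true_and, lin_deriv, lin_eval, e]
  have h4 : N * ((bad d s N Q i).card : ℝ) ≤ N ^ m * (d * (2 * (s * N) + 1)) := by
    rw [h1, ← sum_update N i f]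
    refine (Finset.sum_le_sum fun g _ => h2 g).trans (le_of_eq ?_)
    simp
  have h5 : (N : ℝ) ^ m * (d * (2 * s + 1 / N)) = (N ^ m * (d * (2 * (s * N) + 1))) / N := by
    field_simp
  rw [h5, le_div_iff₀ hN', mul_comm]
  exact h4

/-- iterated derivatives -/
noncomputable def itd (l : List (Fin m)) (P : MvPolynomial (Fin m) ℂ) : MvPolynomial (Fin m) ℂ :=
  l.foldl (fun Q i => pderiv i Q) P

lemma itd_cons (i : Fin m) (l : List (Fin m)) (P : MvPolynomial (Fin m) ℂ) :
    itd (i :: l) P = itd l (pderiv i P) := rfl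

lemma itd_snoc (l : List (Fin m)) (i : Fin m) (P : MvPolynomial (Fin m) ℂ) :
    itd (l ++ [i]) P = pderiv i (itd l P) := by
  simp [itd, List.foldl_append]

lemma itd_deg (l : List (Fin m)) : ∀ P : MvPolynomial (Fin m) ℂ,
    (itd l P).totalDegree ≤ P.totalDegree := by
  induction l with
  | nil => intro P; exact le_rfl
  | cons i l ih => intro P; exact (ih _).trans (totalDegree_pderiv_le i P)

/-- restriction of `P` to the complex line `x + τ v` -/
noncomputable def lnv (x v : Fin m → ℂ) (P : MvPolynomial (Fin m) ℂ) : Polynomial ℂ :=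
  aeval (fun j => Polynomial.C (x j) + Polynomial.C (v j) * Polynomial.X) P

lemma lnv_eval (x v : Fin m → ℂ) (P : MvPolynomial (Fin m) ℂ) (t : ℂ) :
    (lnv x v P).eval t = eval (fun j => x j + v j * t) P := by
  unfold lnv
  induction P using MvPolynomial.induction_on with
  | C a => simp
  | add p q hp hq => simp [hp, hq]
  | mul_X p j hp => rw [map_mul, map_mul, Polynomial.eval_mul, hp, aeval_X, eval_X]; simp

lemma lnv_deriv (x v : Fin m → ℂ) (P : MvPolynomial (Fin m) ℂ) :
    (lnv x v P).derivative = ∑ i, Polynomial.C (v i) * lnv x v (pderiv i P) := by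
  classical
  unfold lnv
  induction P using MvPolynomial.induction_on with
  | C a => simp
  | add p q hp hq =>
    simp only [map_add, hp, hq, mul_add, Finset.sum_add_distrib]
  | mul_X p j hp =>
    rw [map_mul, Polynomial.derivative_mul, hp]
    simp only [pderiv_mul, map_add, map_mul, aeval_X, mul_add, Finset.sum_add_distrib]
    congr 1
    · rw [Finset.sum_mul, Finset.sum_mul, ← Finset.sum_add_distrib, ← Finset.sum_add_distrib]
      refine Finset.sum_congr rfl fun i _ => ?_
      ring
    · rw [Finset.sum_eq_single j]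
      · simp
        ring
      · intro i _ hij
        rw [pderiv_X_of_ne hij.symm]; simp
      · simp

lemma lnv_deg (x v : Fin m → ℂ) (P : MvPolynomial (Fin m) ℂ) :
    (lnv x v P).natDegree ≤ P.totalDegree := by
  refine natDegree_aeval_le P _ fun j => ?_
  refine (Polynomial.natDegree_add_le _ _).trans ?_
  rw [Polynomial.natDegree_C]
  simp only [zero_le, sup_of_le_right]
  exact (Polynomial.natDegree_C_mul_le _ _).trans Polynomial.natDegree_X_le

lemma iter_lnv (x v : Fin m → ℂ) {M V : ℝ} (hM : 0 ≤ M) (hV : ∑ i : Fin m, ‖v i‖ ≤ V) (k : ℕ) :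
    ∀ Q : MvPolynomial (Fin m) ℂ, (∀ l : List (Fin m), l.length = k → ‖eval x (itd l Q)‖ ≤ M) →
      ‖((Polynomial.derivative^[k]) (lnv x v Q)).eval 0‖ ≤ V ^ k * M := by
  have hV0 : 0 ≤ V := (Finset.sum_nonneg fun i _ => norm_nonneg _).trans hV
  induction k with
  | zero =>
    intro Q hQ
    have := hQ [] rfl
    simp only [Function.iterate_zero, id, pow_zero, one_mul]
    rw [lnv_eval]
    simpa [itd] using this
  | succ k ih =>
    intro Q hQ
    rw [Function.iterate_succ_apply, lnv_deriv, Polynomial.iterate_derivative_sum,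
      Polynomial.eval_finsetSum]
    calc ‖∑ i, ((Polynomial.derivative^[k]) (Polynomial.C (v i) * lnv x v (pderiv i Q))).eval 0‖
        ≤ ∑ i, ‖((Polynomial.derivative^[k]) (Polynomial.C (v i) * lnv x v (pderiv i Q))).eval 0‖ :=
          norm_sum_le _ _
      _ ≤ ∑ i, ‖v i‖ * (V ^ k * M) := by
          refine Finset.sum_le_sum fun i _ => ?_
          rw [Polynomial.iterate_derivative_C_mul, Polynomial.eval_mul, Polynomial.eval_C, norm_mul]
          refine mul_le_mul_of_nonneg_left (ih _ fun l hl => ?_) (norm_nonneg _)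
          exact hQ (i :: l) (by simp [hl])
      _ = (∑ i, ‖v i‖) * (V ^ k * M) := by rw [Finset.sum_mul]
      _ ≤ V * (V ^ k * M) := mul_le_mul_of_nonneg_right hV (by positivity)
      _ = V ^ (k + 1) * M := by ring

/-- Taylor estimate: geometric growth of the derivatives gives local constancy -/
lemma taylor_bound (d : ℕ) (P : MvPolynomial (Fin m) ℂ) (hP : P.totalDegree ≤ d)
    (x v : Fin m → ℂ) {a y : ℝ} (ha : 0 ≤ a)
    (h : ∀ l : List (Fin m), l.length ≤ d → ‖eval x (itd l P)‖ ≤ a ^ l.length * ‖eval x P‖)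
    (hy : a * (∑ i, ‖v i‖) ≤ y) (hy2 : y ≤ 1 / 2) :
    ‖eval (fun j => x j + v j) P - eval x P‖ ≤ 2 * y * ‖eval x P‖ := by
  set p := lnv x v P with hp
  have hy0 : 0 ≤ y := (mul_nonneg ha (Finset.sum_nonneg fun i _ => norm_nonneg _)).trans hy
  have hdeg : p.natDegree ≤ d := (lnv_deg x v P).trans hP
  have h1 : eval (fun j => x j + v j) P = p.eval 1 := by
    rw [hp, lnv_eval]; simp
  have h0 : eval x P = p.coeff 0 := by
    rw [Polynomial.coeff_zero_eq_eval_zero, hp, lnv_eval]; simp
  have hc : ∀ k ≤ d, ‖p.coeff k‖ ≤ y ^ k * ‖eval x P‖ := by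
    intro k hk
    have h2 := iter_lnv x v (M := a ^ k * ‖eval x P‖) (by positivity) (le_refl _) k P
      (fun l hl => by rw [← hl]; exact h l (hl ▸ hk))
    have h3 : ((Polynomial.derivative^[k]) p).eval 0 = (k.factorial : ℂ) * p.coeff k := by
      rw [← Polynomial.coeff_zero_eq_eval_zero, Polynomial.coeff_iterate_derivative, zero_add,
        Nat.descFactorial_self, nsmul_eq_mul]
    rw [← hp, h3, norm_mul, Complex.norm_natCast] at h2
    have h4 : (1 : ℝ) ≤ k.factorial := by exact_mod_cast Nat.one_le_iff_ne_zero.mpr k.factorial_ne_zero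
    calc ‖p.coeff k‖ ≤ (k.factorial : ℝ) * ‖p.coeff k‖ :=
          le_mul_of_one_le_left (norm_nonneg _) h4
      _ ≤ (∑ i, ‖v i‖) ^ k * (a ^ k * ‖eval x P‖) := h2
      _ = (a * ∑ i, ‖v i‖) ^ k * ‖eval x P‖ := by rw [mul_pow]; ring
      _ ≤ y ^ k * ‖eval x P‖ := by
          refine mul_le_mul_of_nonneg_right (pow_le_pow_left₀ ?_ hy k) (norm_nonneg _)
          exact mul_nonneg ha (Finset.sum_nonneg fun i _ => norm_nonneg _)
  rw [h1, h0, Polynomial.eval_eq_sum_range' (Nat.lt_succ_of_le hdeg), Finset.sum_range_succ']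
  simp only [one_pow, mul_one, pow_zero, add_sub_cancel_right]
  rw [← h0]
  calc ‖∑ k ∈ Finset.range d, p.coeff (k + 1)‖
      ≤ ∑ k ∈ Finset.range d, ‖p.coeff (k + 1)‖ := norm_sum_le _ _
    _ ≤ ∑ k ∈ Finset.range d, (1 / 2 : ℝ) ^ k * (y * ‖eval x P‖) := by
        refine Finset.sum_le_sum fun k hk => ?_
        refine (hc (k + 1) (Finset.mem_range.mp hk)).trans ?_
        rw [pow_succ, mul_assoc]
        exact mul_le_mul_of_nonneg_right (pow_le_pow_left₀ hy0 hy2 k) (by positivity)
    _ = (∑ k ∈ Finset.range d, (1 / 2 : ℝ) ^ k) * (y * ‖eval x P‖) := by rw [Finset.sum_mul]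
    _ ≤ 2 * (y * ‖eval x P‖) :=
        mul_le_mul_of_nonneg_right (sum_geometric_two_le d) (by positivity)
    _ = 2 * y * ‖eval x P‖ := by ring

/-- all lists of length `≤ d` in `Fin m` -/
def lst (m d : ℕ) : Finset (List (Fin m)) :=
  (Finset.range (d + 1)).biUnion fun k => (Finset.univ : Finset (Fin k → Fin m)).image List.ofFn

lemma mem_lst {m d : ℕ} {l : List (Fin m)} (h : l.length ≤ d) : l ∈ lst m d := by
  unfold lst
  rw [Finset.mem_biUnion]
  refine ⟨l.length, Finset.mem_range.mpr (Nat.lt_succ_of_le h), ?_⟩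
  rw [Finset.mem_image]
  exact ⟨l.get, Finset.mem_univ _, List.ofFn_get l⟩

/-- the exceptional grid points of `P` at scale `s` -/
noncomputable def exc (d : ℕ) (s : ℝ) (N : ℕ) (P : MvPolynomial (Fin m) ℂ) :
    Finset (Fin m → Fin N) :=
  (lst m d).biUnion fun l => (Finset.univ : Finset (Fin m)).biUnion fun i => bad d s N (itd l P) i

/-- the constant of the exceptional set -/
def cexc (m d : ℕ) : ℕ := (lst m d).card * (m * d)

lemma card_exc (d : ℕ) {s : ℝ} (hs : 0 < s) (N : ℕ) (hN : 0 < N) (P : MvPolynomial (Fin m) ℂ)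
    (hP : P.totalDegree ≤ d) :
    ((exc d s N P).card : ℝ) ≤ N ^ m * (cexc m d * (2 * s + 1 / N)) := by
  classical
  unfold exc
  refine (Nat.cast_le.mpr Finset.card_biUnion_le).trans ?_
  push_cast
  refine (Finset.sum_le_sum fun l _ => (Nat.cast_le.mpr Finset.card_biUnion_le)).trans ?_
  push_cast
  refine (Finset.sum_le_sum fun l _ => Finset.sum_le_sum fun i _ =>
    card_bad d hs N hN (itd l P) ((itd_deg l P).trans hP) i).trans (le_of_eq ?_)
  simp only [Finset.sum_const, Finset.card_univ, Fintype.card_fin, nsmul_eq_mul, cexc]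
  push_cast
  ring

/-- LOCAL CONSTANCY at non-exceptional grid points -/
theorem logd (d : ℕ) {s : ℝ} (hs : 0 < s) (N : ℕ) (P : MvPolynomial (Fin m) ℂ)
    (hP : P.totalDegree ≤ d) (g : Fin m → Fin N) (hg : g ∉ exc d s N P) (v : Fin m → ℂ)
    {y : ℝ} (hy : d / s * (∑ i, ‖v i‖) ≤ y) (hy2 : y ≤ 1 / 2) :
    ‖eval (fun j => gp N g j + v j) P - eval (gp N g) P‖ ≤ 2 * y * ‖eval (gp N g) P‖ := by
  classical
  refine taylor_bound d P hP (gp N g) v (a := d / s) (by positivity) ?_ hy hy2
  intro l
  induction l using List.reverseRecOn with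
  | nil => intro _; simp [itd]
  | append_singleton l i ih =>
    intro hl
    rw [List.length_append, List.length_singleton] at hl ⊢
    have h1 := ih (by omega)
    rw [itd_snoc, pow_succ]
    have h2 : ‖eval (gp N g) (pderiv i (itd l P))‖ ≤ d / s * ‖eval (gp N g) (itd l P)‖ := by
      by_contra hc
      push Not at hc
      apply hg
      unfold exc
      rw [Finset.mem_biUnion]
      refine ⟨l, mem_lst (by omega), ?_⟩
      rw [Finset.mem_biUnion]
      refine ⟨i, Finset.mem_univ _, ?_⟩
      unfold bad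
      rw [Finset.mem_filter]
      exact ⟨Finset.mem_univ _, hc⟩
    refine h2.trans ?_
    calc d / s * ‖eval (gp N g) (itd l P)‖
        ≤ d / s * ((d / s) ^ l.length * ‖eval (gp N g) P‖) :=
          mul_le_mul_of_nonneg_left h1 (by positivity)
      _ = (d / s) ^ l.length * (d / s) * ‖eval (gp N g) P‖ := by ring

/-- a nonzero polynomial does not vanish at non-exceptional grid points -/
theorem logd_ne (d : ℕ) {s : ℝ} (hs : 0 < s) (N : ℕ) (P : MvPolynomial (Fin m) ℂ)
    (hP : P.totalDegree ≤ d) (hP0 : P ≠ 0) (g : Fin m → Fin N) (hg : g ∉ exc d s N P) :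
    eval (gp N g) P ≠ 0 := by
  classical
  intro h0
  apply hP0
  have hs' : 0 < s / (2 * (d + 1) * (m + 1)) := by positivity
  set r : ℝ := s / (2 * (d + 1) * (m + 1)) with hr
  refine funext_set (fun j => Metric.closedBall (gp N g j) r) (fun j => ?_) fun x hx => ?_
  · exact infinite_of_mem_nhds (gp N g j) (Metric.closedBall_mem_nhds _ hs')
  · have h1 := logd d hs N P hP g hg (fun j => x j - gp N g j) (y := 1 / 2) ?_ le_rfl
    · rw [h0] at h1
      simp only [add_sub_cancel, norm_zero, mul_zero, sub_zero, norm_le_zero_iff] at h1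
      rw [map_zero]; exact h1
    · have h2 : ∑ i, ‖x i - gp N g i‖ ≤ m * r := by
        refine (Finset.sum_le_sum fun i _ => ?_).trans (le_of_eq ?_) (b := ∑ _i : Fin m, r)
        · have := hx i (Set.mem_univ _)
          rwa [Metric.mem_closedBall, dist_eq_norm] at this
        · simp
      calc (d : ℝ) / s * ∑ i, ‖x i - gp N g i‖ ≤ d / s * (m * r) :=
            mul_le_mul_of_nonneg_left h2 (by positivity)
        _ = (d * m) / ((d + 1) * (m + 1)) * (1 / 2) := by rw [hr]; field_simp
        _ ≤ 1 * (1 / 2) := by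
            refine mul_le_mul_of_nonneg_right ?_ (by norm_num)
            rw [div_le_one (by positivity)]
            nlinarith [(Nat.cast_nonneg d : (0 : ℝ) ≤ d), (Nat.cast_nonneg m : (0 : ℝ) ≤ m)]
        _ = 1 / 2 := one_mul _

end Pool.Agent.Helper76.RL
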